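import Mathlib

/-!
# Finite Bernoulli averages and the two moment identities
-/

namespace Pool.Agent.Lib.MP_edae2b_pr.SM

open Finset

variable {α : Type*} [DecidableEq α]

/-- Average over the subsets of `E`, each element being kept with probability `q`. -/
def Eb (q : ℝ) (E : Finset α) (F : Finset α → ℝ) : ℝ :=
  ∑ C ∈ E.powerset, q ^ C.card * (1 - q) ^ (E \ C).card * F C

lemma Eb_empty (q : ℝ) (F : Finset α → ℝ) : Eb q ∅ F = F ∅ := by
  simp [Eb]

lemma Eb_insert (q : ℝ) {a : α} {E : Finset α} (ha : a ∉ E) (F : Finset α → ℝ) :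
    Eb q (insert a E) F = (1 - q) * Eb q E F + q * Eb q E (fun C => F (insert a C)) := by
  unfold Eb
  rw [sum_powerset_insert ha, mul_sum, mul_sum]
  congr 1
  · refine sum_congr rfl fun C hC => ?_
    have hC' := mem_powerset.mp hC
    have haC : a ∉ C := fun h => ha (hC' h)
    rw [insert_sdiff_of_notMem _ haC, card_insert_of_notMem (fun h => ha (mem_sdiff.mp h).1)]
    ring
  · refine sum_congr rfl fun C hC => ?_
    have hC' := mem_powerset.mp hC
    have haC : a ∉ C := fun h => ha (hC' h)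
    have h1 : insert a E \ insert a C = E \ C := by
      ext x
      simp only [mem_sdiff, mem_insert, not_or]
      constructor
      · rintro ⟨h1 | h1, h2, h3⟩
        · exact absurd h1 h2
        · exact ⟨h1, h3⟩
      · rintro ⟨h1, h2⟩
        exact ⟨Or.inr h1, fun h => ha (h ▸ h1), h2⟩
    rw [h1, card_insert_of_notMem haC]
    ring

lemma Eb_congr {q : ℝ} {E : Finset α} {F F' : Finset α → ℝ} (h : ∀ C ⊆ E, F C = F' C) :
    Eb q E F = Eb q E F' := by
  unfold Eb
  refine sum_congr rfl fun C hC => ?_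
  rw [h C (mem_powerset.mp hC)]

lemma Eb_mono {q : ℝ} (h0 : 0 ≤ q) (h1 : q ≤ 1) {E : Finset α} {F F' : Finset α → ℝ}
    (h : ∀ C ⊆ E, F C ≤ F' C) : Eb q E F ≤ Eb q E F' := by
  unfold Eb
  refine sum_le_sum fun C hC => ?_
  refine mul_le_mul_of_nonneg_left (h C (mem_powerset.mp hC)) ?_
  exact mul_nonneg (pow_nonneg h0 _) (pow_nonneg (by linarith) _)

lemma Eb_nonneg {q : ℝ} (h0 : 0 ≤ q) (h1 : q ≤ 1) {E : Finset α} {F : Finset α → ℝ}
    (h : ∀ C ⊆ E, 0 ≤ F C) : 0 ≤ Eb q E F := by
  unfold Eb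
  refine sum_nonneg fun C hC => ?_
  exact mul_nonneg (mul_nonneg (pow_nonneg h0 _) (pow_nonneg (by linarith) _))
    (h C (mem_powerset.mp hC))

/-- Elements on which the function does not depend can be removed. -/
lemma Eb_union {q : ℝ} (E E' : Finset α) (hd : Disjoint E E') (F : Finset α → ℝ)
    (h : ∀ C ⊆ E, ∀ C' ⊆ E', F (C ∪ C') = F C) : Eb q (E ∪ E') F = Eb q E F := by
  induction E' using Finset.induction_on generalizing F with
  | empty => simp
  | insert a E' ha ih =>
    rw [disjoint_insert_right] at hd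
    have ha' : a ∉ E ∪ E' := by
      rw [mem_union]
      exact fun h => h.elim hd.1 ha
    rw [union_insert, Eb_insert q ha', ih hd.2 F (fun C hC C' hC' =>
      h C hC C' (hC'.trans (subset_insert _ _)))]
    have h1 : ∀ C ⊆ E ∪ E', F (insert a C) = F (C ∩ E) := by
      intro C hC
      have h2 : insert a C = (C ∩ E) ∪ insert a (C ∩ E') := by
        ext x
        simp only [mem_insert, mem_union, mem_inter]
        constructor
        · rintro (rfl | hx)
          · exact Or.inr (Or.inl rfl)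
          · rcases mem_union.mp (hC hx) with h3 | h3
            · exact Or.inl ⟨hx, h3⟩
            · exact Or.inr (Or.inr ⟨hx, h3⟩)
        · rintro (⟨hx, _⟩ | rfl | ⟨hx, _⟩)
          · exact Or.inr hx
          · exact Or.inl rfl
          · exact Or.inr hx
      rw [h2]
      exact h _ inter_subset_right _ (insert_subset_insert _ inter_subset_right)
    have h3 : ∀ C ⊆ E ∪ E', F C = F (C ∩ E) := by
      intro C hC
      have h2 : C = (C ∩ E) ∪ (C ∩ E') := by
        rw [← inter_union_distrib_left, inter_eq_left.mpr hC]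
      conv_lhs => rw [h2]
      exact h _ inter_subset_right _ (inter_subset_right.trans (subset_insert _ _))
    rw [Eb_congr (F := fun C => F (insert a C)) (F' := F) (fun C hC => by rw [h1 C hC, h3 C hC]),
      ih hd.2 F (fun C hC C' hC' => h C hC C' (hC'.trans (subset_insert _ _)))]
    ring

/-- Cauchy-Schwarz. -/
lemma sq_Eb_le {q : ℝ} (h0 : 0 ≤ q) (h1 : q ≤ 1) {E : Finset α} {X p Q : Finset α → ℝ}
    (hp : ∀ C ⊆ E, 0 ≤ p C) (hQ : ∀ C ⊆ E, 0 ≤ Q C) (h : ∀ C ⊆ E, X C ^ 2 ≤ p C * Q C) :
    Eb q E X ^ 2 ≤ Eb q E p * Eb q E Q := by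
  have hw : ∀ C : Finset α, 0 ≤ q ^ C.card * (1 - q) ^ (E \ C).card := fun C =>
    mul_nonneg (pow_nonneg h0 _) (pow_nonneg (by linarith) _)
  have h2 : |Eb q E X| ≤ ∑ C ∈ E.powerset,
      Real.sqrt (q ^ C.card * (1 - q) ^ (E \ C).card * p C) *
      Real.sqrt (q ^ C.card * (1 - q) ^ (E \ C).card * Q C) := by
    unfold Eb
    refine (abs_sum_le_sum_abs _ _).trans (sum_le_sum fun C hC => ?_)
    have hC' := mem_powerset.mp hC
    rw [abs_mul, abs_of_nonneg (hw C), Real.sqrt_mul (hw C), Real.sqrt_mul (hw C)]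
    have h3 : |X C| ≤ Real.sqrt (p C) * Real.sqrt (Q C) := by
      rw [← Real.sqrt_mul (hp C hC')]
      exact Real.abs_le_sqrt (h C hC')
    calc q ^ C.card * (1 - q) ^ (E \ C).card * |X C|
        ≤ q ^ C.card * (1 - q) ^ (E \ C).card * (Real.sqrt (p C) * Real.sqrt (Q C)) :=
          mul_le_mul_of_nonneg_left h3 (hw C)
      _ = (Real.sqrt (q ^ C.card * (1 - q) ^ (E \ C).card) *
          Real.sqrt (q ^ C.card * (1 - q) ^ (E \ C).card)) *
          (Real.sqrt (p C) * Real.sqrt (Q C)) := by rw [Real.mul_self_sqrt (hw C)]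
      _ = _ := by ring
  have h3 := sum_mul_sq_le_sq_mul_sq E.powerset
    (fun C => Real.sqrt (q ^ C.card * (1 - q) ^ (E \ C).card * p C))
    (fun C => Real.sqrt (q ^ C.card * (1 - q) ^ (E \ C).card * Q C))
  have h4 : ∑ C ∈ E.powerset, Real.sqrt (q ^ C.card * (1 - q) ^ (E \ C).card * p C) ^ 2 =
      Eb q E p := by
    unfold Eb
    refine sum_congr rfl fun C hC => ?_
    rw [Real.sq_sqrt (mul_nonneg (hw C) (hp C (mem_powerset.mp hC)))]
  have h5 : ∑ C ∈ E.powerset, Real.sqrt (q ^ C.card * (1 - q) ^ (E \ C).card * Q C) ^ 2 =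
      Eb q E Q := by
    unfold Eb
    refine sum_congr rfl fun C hC => ?_
    rw [Real.sq_sqrt (mul_nonneg (hw C) (hQ C (mem_powerset.mp hC)))]
  rw [h4, h5] at h3
  refine le_trans ?_ h3
  rw [← sq_abs]
  exact pow_le_pow_left₀ (abs_nonneg _) h2 2

variable {V : Type*} [Fintype V]

/-- The quadratic form of a kernel. -/
def qf (U : V → V → ℝ) (x : V → ℝ) : ℝ := ∑ u, ∑ v, U u v * (x u * x v)

lemma qf_two (U : V → V → ℝ) (q : ℝ) (a z : V → ℝ) :
    (1 - q) * qf U a + q * qf U (fun u => a u + z u) =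
      qf U (fun u => a u + q * z u) + q * (1 - q) * qf U z := by
  unfold qf
  simp only [mul_sum]
  rw [← sum_add_distrib, ← sum_add_distrib]
  refine sum_congr rfl fun u _ => ?_
  rw [← sum_add_distrib, ← sum_add_distrib]
  refine sum_congr rfl fun v _ => ?_
  ring

/-- Second moment of a random vector with independent increments. -/
lemma Eb_qf (U : V → V → ℝ) (q : ℝ) (E : Finset α) (y : V → ℝ) (z : α → V → ℝ) :
    Eb q E (fun C => qf U (fun u => y u + ∑ e ∈ C, z e u)) =
      qf U (fun u => y u + q * ∑ e ∈ E, z e u) + q * (1 - q) * ∑ e ∈ E, qf U (z e) := by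
  induction E using Finset.induction_on generalizing y with
  | empty => simp [Eb_empty]
  | insert a E ha ih =>
    rw [Eb_insert q ha, ih, Eb_congr (F := fun C => qf U (fun u => y u + ∑ e ∈ insert a C, z e u))
      (F' := fun C => qf U (fun u => (y u + z a u) + ∑ e ∈ C, z e u)) (fun C hC => by
        congr 1
        funext u
        rw [sum_insert (fun h => ha (hC h))]
        ring), ih (fun u => y u + z a u), sum_insert ha]
    have h1 := qf_two U q (fun u => y u + q * ∑ e ∈ E, z e u) (z a)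
    have h2 : (fun u => y u + q * ∑ e ∈ insert a E, z e u) =
        fun u => (y u + q * ∑ e ∈ E, z e u) + q * z a u := by
      funext u
      rw [sum_insert ha]
      ring
    have h3 : (fun u => (y u + z a u) + q * ∑ e ∈ E, z e u) =
        fun u => (y u + q * ∑ e ∈ E, z e u) + z a u := by
      funext u
      ring
    rw [h2, h3]
    linear_combination h1

/-- First moment. -/
lemma Eb_lin (q : ℝ) (E : Finset α) (y : ℝ) (z : α → ℝ) :
    Eb q E (fun C => y + ∑ e ∈ C, z e) = y + q * ∑ e ∈ E, z e := by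
  induction E using Finset.induction_on generalizing y with
  | empty => simp [Eb_empty]
  | insert a E ha ih =>
    rw [Eb_insert q ha, ih, Eb_congr (F := fun C => y + ∑ e ∈ insert a C, z e)
      (F' := fun C => (y + z a) + ∑ e ∈ C, z e) (fun C hC => by
        rw [sum_insert (fun h => ha (hC h))]
        ring), ih (y + z a), sum_insert ha]
    ring

end Pool.Agent.Lib.MP_edae2b_pr.SM
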