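import Pool.Agent.Lib.MP_edae2b_pr.Bellman
import Pool.Agent.Lib.MP_edae2b_pr.SM.Bern

/-!
# Comparison with directed percolation, one time step
-/

namespace Pool.Agent.Lib.MP_edae2b_pr.SM

open MeasureTheory ProbabilityTheory Filter Topology
open scoped ENNReal

section walks

variable {V : Type*} {G : SimpleGraph V}

/-- If every vertex of `T` is reached from `S` within `m`, the passage time from `S` is at most
the passage time from `S ∪ T` plus `m`. -/
lemma pt_le_union {A S T : Set V} {c c' : Sym2 V → ℝ≥0∞} {m : ℝ≥0∞}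
    (hT : ∀ v ∈ T, v ∉ S → ∃ u ∈ S, G.Adj u v ∧ c' s(u, v) ≤ m)
    (hin : ∀ x y, G.Adj x y → x ∈ S → y ∉ S → y ∉ T → c' s(x, y) ≤ c s(x, y) + m)
    (hout : ∀ x y, G.Adj x y → x ∉ S → y ∉ S → c' s(x, y) ≤ c s(x, y)) :
    pt G A S c' ≤ pt G A (S ∪ T) c + m := by
  have key : ∀ {u a : V} (p : G.Walk u a), a ∈ A →
      pt G A S c' ≤ cost c p + m ∨ (u ∉ S ∪ T ∧ cost c' p ≤ cost c p) := by
    intro u a p ha
    induction p with
    | nil =>
      rename_i x
      by_cases hx : x ∈ S
      · left
        rw [pt_eq_zero hx ha]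
        exact zero_le
      · by_cases hx' : x ∈ T
        · left
          obtain ⟨u, hu, hadj, hc⟩ := hT x hx' hx
          refine (pt_le hu ha (SimpleGraph.Walk.cons hadj SimpleGraph.Walk.nil)).trans ?_
          simpa using hc
        · right
          exact ⟨fun h => h.elim hx hx', by simp⟩
    | cons h q ih =>
      rename_i x y z
      rcases ih ha with h1 | ⟨hy, h1⟩
      · left
        refine h1.trans ?_
        rw [cost_cons]
        gcongr
        exact le_add_self
      · have hyS : y ∉ S := fun h => hy (Or.inl h)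
        have hyT : y ∉ T := fun h => hy (Or.inr h)
        by_cases hx : x ∈ S
        · left
          refine (pt_le hx ha (SimpleGraph.Walk.cons h q)).trans ?_
          rw [cost_cons, cost_cons]
          calc c' s(x, y) + cost c' q ≤ (c s(x, y) + m) + cost c q :=
                add_le_add (hin x y h hx hyS hyT) h1
            _ = c s(x, y) + cost c q + m := by ring
        · by_cases hx' : x ∈ T
          · left
            obtain ⟨u, hu, hadj, hc⟩ := hT x hx' hx
            refine (pt_le hu ha (SimpleGraph.Walk.cons hadj (SimpleGraph.Walk.cons h q))).trans ?_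
            rw [cost_cons, cost_cons, cost_cons]
            calc c' s(u, x) + (c' s(x, y) + cost c' q) ≤ m + (c s(x, y) + cost c q) :=
                  add_le_add hc (add_le_add (hout x y h hx hyS) h1)
              _ = c s(x, y) + cost c q + m := by ring
          · right
            refine ⟨fun h => h.elim hx hx', ?_⟩
            rw [cost_cons, cost_cons]
            exact add_le_add (hout x y h hx hyS) h1
  have : pt G A S c' - m ≤ pt G A (S ∪ T) c := by
    refine le_pt fun x hx a ha p => ?_
    rw [tsub_le_iff_right]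
    rcases key p ha with h1 | ⟨h1, _⟩
    · exact h1
    · exact absurd hx h1
  rwa [tsub_le_iff_right] at this

end walks

section indep

variable {ι : Type*} [Fintype ι] [DecidableEq ι]

omit [Fintype ι] [DecidableEq ι] in
lemma measurableSet_all_le (B : Finset ι) (m : ℝ) :
    MeasurableSet {w : ι → ℝ | ∀ i ∈ B, w i ≤ m} := by
  have : {w : ι → ℝ | ∀ i ∈ B, w i ≤ m} = ⋂ i ∈ B, {w : ι → ℝ | w i ≤ m} := by
    ext w; simp
  rw [this]
  exact B.measurableSet_biInter fun i _ => measurableSet_le (measurable_pi_apply i) measurable_const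

/-- Independence of the coordinates in `B`. -/
lemma lintegral_indep_all {f : (ι → ℝ) → ℝ≥0∞} (hf : Measurable f) (B : Finset ι) {m : ℝ}
    (hm : 0 ≤ m) (hinv : ∀ e ∈ B, ∀ w, f (sh {e} m w) = f w) (hfin : ∫⁻ w, f w ∂(pex ι) ≠ ∞) :
    ∫⁻ w in {w | ∀ i ∈ B, w i ≤ m}, f w ∂(pex ι) =
      ENNReal.ofReal (1 - Real.exp (-m)) ^ B.card * ∫⁻ w, f w ∂(pex ι) := by
  induction B using Finset.induction_on with
  | empty => simp
  | insert e B he ih =>
    have ih' := ih (fun e' he' => hinv e' (Finset.mem_insert_of_mem he'))
    have hset : {w : ι → ℝ | ∀ i ∈ insert e B, w i ≤ m} =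
        {w | w e ≤ m} ∩ {w | ∀ i ∈ B, w i ≤ m} := by
      ext w
      simp
    have hmB := measurableSet_all_le B m
    have hme : MeasurableSet {w : ι → ℝ | w e ≤ m} :=
      measurableSet_le (measurable_pi_apply e) measurable_const
    rw [hset, Set.inter_comm, ← setLIntegral_indicator hmB]
    rw [lintegral_indep (hf.indicator hmB) e hm ?_ ?_]
    · rw [lintegral_indicator hmB, ih', Finset.card_insert_of_notMem he, pow_succ]
      ring
    · intro w
      by_cases hw : w ∈ {w : ι → ℝ | ∀ i ∈ B, w i ≤ m}
      · have hw' : sh {e} m w ∈ {w : ι → ℝ | ∀ i ∈ B, w i ≤ m} := by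
          intro i hi
          have hie : i ∉ ({e} : Finset ι) := by
            rw [Finset.mem_singleton]
            rintro rfl
            exact he hi
          simp only [sh, hie, if_false]
          exact hw i hi
        rw [Set.indicator_of_mem hw, Set.indicator_of_mem hw']
        exact hinv e (Finset.mem_insert_self _ _) w
      · have hw' : sh {e} m w ∉ {w : ι → ℝ | ∀ i ∈ B, w i ≤ m} := by
          intro h
          refine hw fun i hi => ?_
          have hie : i ∉ ({e} : Finset ι) := by
            rw [Finset.mem_singleton]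
            rintro rfl
            exact he hi
          have := h i hi
          simp only [sh, hie, if_false] at this
          exact this
        rw [Set.indicator_of_notMem hw, Set.indicator_of_notMem hw']
    · refine ne_top_of_le_ne_top hfin (lintegral_mono fun w => ?_)
      exact Set.indicator_le_self _ _ _

/-- Splitting according to the set of coordinates in `E` that are at most `m`. -/
lemma lintegral_ge_sum {f : (ι → ℝ) → ℝ≥0∞} (hf : Measurable f) (E : Finset ι) {m : ℝ}
    (hm : 0 ≤ m) (g : Finset ι → (ι → ℝ) → ℝ≥0∞) (hg : ∀ B, Measurable (g B))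
    (hinv : ∀ B ⊆ E, ∀ e ∈ B, ∀ w, g B (sh {e} m w) = g B w)
    (hfin : ∀ B, ∫⁻ w, g B w ∂(pex ι) ≠ ∞)
    (hle : ∀ B ⊆ E, ∀ w : ι → ℝ, (∀ i ∈ B, w i ≤ m) → g B w ≤ f (sh (E \ B) m w)) :
    ∑ B ∈ E.powerset, ENNReal.ofReal (1 - Real.exp (-m)) ^ B.card *
      ENNReal.ofReal (Real.exp (-m)) ^ (E \ B).card * ∫⁻ w, g B w ∂(pex ι) ≤
      ∫⁻ w, f w ∂(pex ι) := by
  let R : Finset ι → Set (ι → ℝ) := fun B => {w | (∀ i ∈ B, w i ≤ m) ∧ ∀ i ∈ E \ B, m < w i}
  have hR : ∀ B, MeasurableSet (R B) := fun B =>
    (measurableSet_all_le B m).inter (measurableSet_all_gt (E \ B) m)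
  have hdisj : Set.PairwiseDisjoint (E.powerset : Set (Finset ι)) R := by
    intro B hB B' hB' hne
    rw [Function.onFun, Set.disjoint_left]
    rintro w ⟨h1, h2⟩ ⟨h3, h4⟩
    apply hne
    have hB1 := Finset.mem_powerset.mp hB
    have hB2 := Finset.mem_powerset.mp hB'
    ext i
    constructor
    · intro hi
      by_contra hcon
      exact absurd (h1 i hi) (not_le.mpr (h4 i (Finset.mem_sdiff.mpr ⟨hB1 hi, hcon⟩)))
    · intro hi
      by_contra hcon
      exact absurd (h3 i hi) (not_le.mpr (h2 i (Finset.mem_sdiff.mpr ⟨hB2 hi, hcon⟩)))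
  calc ∑ B ∈ E.powerset, ENNReal.ofReal (1 - Real.exp (-m)) ^ B.card *
      ENNReal.ofReal (Real.exp (-m)) ^ (E \ B).card * ∫⁻ w, g B w ∂(pex ι)
      ≤ ∑ B ∈ E.powerset, ∫⁻ w in R B, f w ∂(pex ι) := by
        refine Finset.sum_le_sum fun B hB => ?_
        have hB' := Finset.mem_powerset.mp hB
        have h1 : ∫⁻ w in R B, f w ∂(pex ι) =
            ∫⁻ w in {w | ∀ i ∈ E \ B, m < w i},
              ({w : ι → ℝ | ∀ i ∈ B, w i ≤ m}.indicator f) w ∂(pex ι) := by
          rw [setLIntegral_indicator (measurableSet_all_le B m)]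
          rfl
        rw [h1, lintegral_sh _ hm (hf.indicator (measurableSet_all_le B m))]
        have h2 : ENNReal.ofReal (Real.exp (-(m * ((E \ B).card : ℝ)))) =
            ENNReal.ofReal (Real.exp (-m)) ^ (E \ B).card := by
          rw [← ENNReal.ofReal_pow (Real.exp_pos _).le, ← Real.exp_nat_mul]
          congr 2
          ring
        rw [h2, mul_comm (ENNReal.ofReal (1 - Real.exp (-m)) ^ B.card), mul_assoc,
          ← lintegral_indep_all (hg B) B hm (hinv B hB') (hfin B),
          ← lintegral_indicator (measurableSet_all_le B m)]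
        gcongr with w
        by_cases hw : w ∈ {w : ι → ℝ | ∀ i ∈ B, w i ≤ m}
        · rw [Set.indicator_of_mem hw, Set.indicator_of_mem]
          · exact hle B hB' w hw
          · intro i hi
            have : i ∉ E \ B := fun h => (Finset.mem_sdiff.mp h).2 hi
            simp only [sh, this, if_false]
            exact hw i hi
        · rw [Set.indicator_of_notMem hw]
          exact zero_le
    _ = ∫⁻ w in ⋃ B ∈ E.powerset, R B, f w ∂(pex ι) := by
        rw [lintegral_biUnion_finset hdisj fun B _ => hR B]
    _ ≤ ∫⁻ w, f w ∂(pex ι) := setLIntegral_le_lintegral _ _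

end indep

variable {V : Type*} [Fintype V] [DecidableEq V] {G : SimpleGraph V} [DecidableRel G.Adj]

/-- The probability that the passage time from `S` to `A` is at most `τ`. -/
noncomputable def pr (G : SimpleGraph V) (A : Set V) (S : Finset V) (τ : ℝ) : ℝ :=
  ((pex (Sym2 V)) {w | pt G A S (cw w) ≤ ENNReal.ofReal τ}).toReal

omit [DecidableEq V] [DecidableRel G.Adj] in
lemma pr_nonneg (A : Set V) (S : Finset V) (τ : ℝ) : 0 ≤ pr G A S τ := ENNReal.toReal_nonneg

omit [DecidableEq V] [DecidableRel G.Adj] in
lemma pr_eq_one {A : Set V} {S : Finset V} (h : ¬ Disjoint (S : Set V) A) (τ : ℝ) :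
    pr G A S τ = 1 := by
  obtain ⟨u, hu, hA⟩ := Set.not_disjoint_iff.mp h
  unfold pr
  simp only [pt_eq_zero hu hA]
  simp

/-- The vertices reached through `B`. -/
def tips (B : Finset (V × V)) : Finset V := B.image Prod.snd

omit [DecidableEq V] [DecidableRel G.Adj] in
lemma measurableSet_pt (A : Set V) (S : Finset V) (τ : ℝ) :
    MeasurableSet {w : Sym2 V → ℝ | pt G A S (cw w) ≤ ENNReal.ofReal τ} :=
  measurableSet_le (measurable_pt (X := fun e w => cw w e) measurable_cw A S) measurable_const

/-- One time step of length `m`. -/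
theorem pr_step {A : Set V} {S : Finset V} {m τ : ℝ} (hm : 0 ≤ m) (hτ : 0 ≤ τ) :
    Eb (1 - Real.exp (-m)) (bd G S) (fun B => pr G A (S ∪ tips B) τ) ≤ pr G A S (τ + m) := by
  set q := 1 - Real.exp (-m) with hq
  have hexp : Real.exp (-m) ≤ 1 := Real.exp_le_one_iff.mpr (by linarith)
  have hq0 : 0 ≤ q := by linarith
  have hq1 : 1 - q = Real.exp (-m) := by rw [hq]; ring
  -- the events as functions of the edge sets
  let e : V × V → Sym2 V := fun p => s(p.1, p.2)
  let pre : Finset (Sym2 V) → Finset (V × V) := fun B => (bd G S).filter fun p => e p ∈ B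
  let g : Finset (Sym2 V) → (Sym2 V → ℝ) → ℝ≥0∞ := fun B =>
    {w | pt G A (S ∪ tips (pre B) : Finset V) (cw w) ≤ ENNReal.ofReal τ}.indicator 1
  have h1 := lintegral_ge_sum (ι := Sym2 V)
    (f := {w | pt G A S (cw w) ≤ ENNReal.ofReal (τ + m)}.indicator 1)
    (measurable_one.indicator (measurableSet_pt A S (τ + m))) (bdE G S) hm g
    (fun B => measurable_one.indicator (measurableSet_pt A _ τ)) ?_ ?_ ?_
  · -- conclusion
    rw [lintegral_indicator_one (measurableSet_pt A S (τ + m))] at h1
    have h2 := ENNReal.toReal_mono (measure_ne_top _ _) h1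
    refine le_trans (le_of_eq ?_) h2
    have hfin : ∀ B ∈ (bdE G S).powerset, ENNReal.ofReal (1 - Real.exp (-m)) ^ B.card *
        ENNReal.ofReal (Real.exp (-m)) ^ (bdE G S \ B).card * ∫⁻ w, g B w ∂(pex (Sym2 V)) ≠ ∞ := by
      intro B _
      refine ENNReal.mul_ne_top (ENNReal.mul_ne_top (ENNReal.pow_ne_top ENNReal.ofReal_ne_top)
        (ENNReal.pow_ne_top ENNReal.ofReal_ne_top)) ?_
      rw [lintegral_indicator_one (measurableSet_pt A _ τ)]
      exact measure_ne_top _ _
    rw [ENNReal.toReal_sum hfin]
    unfold Eb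
    refine Finset.sum_bij (fun C _ => C.image e) ?_ ?_ ?_ ?_
    · intro C hC
      rw [Finset.mem_powerset] at hC ⊢
      exact Finset.image_subset_image hC
    · intro C hC C' hC' heq
      rw [Finset.mem_powerset] at hC hC'
      have hinj := bd_injOn (G := G) S
      ext p
      constructor
      · intro hp
        have h3 : e p ∈ C'.image e := heq ▸ Finset.mem_image_of_mem e hp
        obtain ⟨p', hp', h4⟩ := Finset.mem_image.mp h3
        have := hinj (by exact_mod_cast hC' hp') (by exact_mod_cast hC hp) h4
        exact this ▸ hp'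
      · intro hp
        have h3 : e p ∈ C.image e := heq ▸ Finset.mem_image_of_mem e hp
        obtain ⟨p', hp', h4⟩ := Finset.mem_image.mp h3
        have := hinj (by exact_mod_cast hC hp') (by exact_mod_cast hC' hp) h4
        exact this ▸ hp'
    · intro B hB
      rw [Finset.mem_powerset] at hB
      refine ⟨pre B, Finset.mem_powerset.mpr (Finset.filter_subset _ _), ?_⟩
      ext x
      rw [Finset.mem_image]
      constructor
      · rintro ⟨p, hp, rfl⟩
        exact (Finset.mem_filter.mp hp).2
      · intro hx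
        obtain ⟨p, hp, rfl⟩ := Finset.mem_image.mp (hB hx)
        exact ⟨p, Finset.mem_filter.mpr ⟨hp, hx⟩, rfl⟩
    · intro C hC
      rw [Finset.mem_powerset] at hC
      have hinj := bd_injOn (G := G) S
      have hinjC : Set.InjOn e (C : Set (V × V)) := hinj.mono (by exact_mod_cast hC)
      have hcard : (C.image e).card = C.card := Finset.card_image_of_injOn hinjC
      have hcard2 : (bdE G S \ C.image e).card = (bd G S \ C).card := by
        have h3 : C.image e ⊆ bdE G S := Finset.image_subset_image hC
        rw [Finset.card_sdiff_of_subset h3, Finset.card_sdiff_of_subset hC, hcard, card_bdE]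
      have hpre : pre (C.image e) = C := by
        ext p
        simp only [pre, Finset.mem_filter, Finset.mem_image]
        constructor
        · rintro ⟨hp, p', hp', h4⟩
          have := hinj (by exact_mod_cast hC hp') (by exact_mod_cast hp) h4
          exact this ▸ hp'
        · intro hp
          exact ⟨hC hp, p, hp, rfl⟩
      rw [hcard, hcard2, ENNReal.toReal_mul, ENNReal.toReal_mul, ENNReal.toReal_pow,
        ENNReal.toReal_pow, ENNReal.toReal_ofReal (by linarith),
        ENNReal.toReal_ofReal (Real.exp_pos _).le, hq1,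
        lintegral_indicator_one (measurableSet_pt A _ τ), hpre]
      rfl
  · -- invariance
    intro B hB ed hed w
    have hmem : pt G A (S ∪ tips (pre B) : Finset V) (cw (sh {ed} m w)) =
        pt G A (S ∪ tips (pre B) : Finset V) (cw w) := by
      refine pt_congr_inside fun x y _ hy => ?_
      obtain ⟨p, hp, rfl⟩ := Finset.mem_image.mp (hB hed)
      have hp' := mem_bd.mp hp
      have hpB : p ∈ pre B := Finset.mem_filter.mpr ⟨hp, hed⟩
      have h3 : p.1 ∈ (S ∪ tips (pre B) : Finset V) := Finset.mem_union_left _ hp'.1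
      have h4 : p.2 ∈ (S ∪ tips (pre B) : Finset V) :=
        Finset.mem_union_right _ (Finset.mem_image_of_mem _ hpB)
      have h1 : s(x, y) ∉ ({s(p.1, p.2)} : Finset (Sym2 V)) := by
        rw [Finset.mem_singleton, Sym2.eq_iff]
        rintro (⟨rfl, rfl⟩ | ⟨rfl, rfl⟩)
        · exact hy (by exact_mod_cast h4)
        · exact hy (by exact_mod_cast h3)
      simp only [cw, sh, h1, if_false]
    simp only [g]
    by_cases hw : pt G A (S ∪ tips (pre B) : Finset V) (cw w) ≤ ENNReal.ofReal τ
    · have hw2 : pt G A (S ∪ tips (pre B) : Finset V) (cw (sh {ed} m w)) ≤ ENNReal.ofReal τ := by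
        rw [hmem]; exact hw
      rw [Set.indicator_of_mem (by exact hw2), Set.indicator_of_mem (by exact hw)]
      rfl
    · have hw2 : ¬ pt G A (S ∪ tips (pre B) : Finset V) (cw (sh {ed} m w)) ≤
          ENNReal.ofReal τ := by
        rw [hmem]; exact hw
      rw [Set.indicator_of_notMem (by exact hw2), Set.indicator_of_notMem (by exact hw)]
  · intro B
    rw [lintegral_indicator_one (measurableSet_pt A _ τ)]
    exact measure_ne_top _ _
  · -- comparison
    intro B hB w hw
    simp only [g]
    by_cases hw1 : pt G A (S ∪ tips (pre B) : Finset V) (cw w) ≤ ENNReal.ofReal τ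
    · rw [Set.indicator_of_mem (by exact hw1), Set.indicator_of_mem]
      · rfl
      · show pt G A S (cw (sh (bdE G S \ B) m w)) ≤ ENNReal.ofReal (τ + m)
        rw [ENNReal.ofReal_add hτ hm]
        have h5 : pt G A S (cw (sh (bdE G S \ B) m w)) ≤
            pt G A ((S : Set V) ∪ (tips (pre B) : Finset V)) (cw w) + ENNReal.ofReal m := by
          refine pt_le_union (fun v hv hvS => ?_) (fun x y hxy hx hy hyT => ?_)
            (fun x y hxy hx hy => ?_)
          · obtain ⟨p, hp, rfl⟩ := Finset.mem_image.mp (by exact_mod_cast hv : v ∈ tips (pre B))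
            obtain ⟨hp1, hp2⟩ := Finset.mem_filter.mp hp
            have hp' := mem_bd.mp hp1
            refine ⟨p.1, by exact_mod_cast hp'.1, hp'.2.2, ?_⟩
            have h6 : s(p.1, p.2) ∉ bdE G S \ B := fun h => (Finset.mem_sdiff.mp h).2 hp2
            simp only [cw, sh, h6, if_false]
            exact ENNReal.ofReal_le_ofReal (hw _ hp2)
          · have h6 : s(x, y) ∈ bdE G S \ B := by
              refine Finset.mem_sdiff.mpr ⟨(mem_bdE_iff hxy (by exact_mod_cast hy)).mpr
                (by exact_mod_cast hx), fun h => hyT ?_⟩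
              have hbd : (x, y) ∈ bd G S := mem_bd.mpr ⟨by exact_mod_cast hx, by exact_mod_cast hy, hxy⟩
              have : (x, y) ∈ pre B := Finset.mem_filter.mpr ⟨hbd, h⟩
              exact_mod_cast Finset.mem_image_of_mem Prod.snd this
            simp only [cw, sh, h6, if_true]
            exact ENNReal.ofReal_add_le
          · have h6 : s(x, y) ∉ bdE G S \ B := fun h => hx (by
              exact_mod_cast (mem_bdE_iff hxy (by exact_mod_cast hy)).mp (Finset.mem_sdiff.mp h).1)
            simp only [cw, sh, h6, if_false, le_refl]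
        refine h5.trans ?_
        have h7 : ((S : Set V) ∪ (tips (pre B) : Finset V)) =
            ((S ∪ tips (pre B) : Finset V) : Set V) := by
          rw [Finset.coe_union]
        rw [h7]
        gcongr
    · rw [Set.indicator_of_notMem (by exact hw1)]
      exact zero_le

end Pool.Agent.Lib.MP_edae2b_pr.SM
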