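import Pool.Agent.Lib.MP_edae2b_pr.Upper
import Pool.Agent.Lib.MP_edae2b_pr.SM.Perc

/-!
# Upper bound for the time constant from probabilities (module P3, helper96)
-/

namespace Pool.Agent.Lib.MP_edae2b_pr.SM

open MeasureTheory ProbabilityTheory Filter Topology
open Pool.Agent.Lib.MP_edae2b_pr
open scoped ENNReal

variable {d D : ℕ}

variable {Ω : Type*} [MeasurableSpace Ω] {P : Measure Ω} [IsProbabilityMeasure P]
  {ω : Sym2 (Fin d → ℤ) → Ω → ℝ}

lemma AA_compl_pr (hD : D + 1 ≤ d) (hind : iIndepFun ω P)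
    (hlaw : ∀ e, Measurable (ω e) ∧ P.map (ω e) = ex) (n : ℕ) {r τ δ : ℝ} (hr : 0 < r)
    (hτ : τ < r) (hδ : 0 ≤ δ)
    (hpr : δ ≤ pr (boxG (Fin (D + 1)) n) (face (Fin (D + 1)) n) {⟨0, zero_mem_boxF n⟩} τ) :
    P (AA ω D n r)ᶜ ≤ ENNReal.ofReal (1 - δ) := by
  have hmeasX : Measurable (fun t => fun e : Sym2 (boxF (Fin (D + 1)) n) =>
      ω (e.map fun z => jj D d z.1) t) := measurable_pi_lambda _ fun e => (hlaw _).1
  have hinj : Function.Injective (fun z : boxF (Fin (D + 1)) n => jj D d z.1) :=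
    (jj_injective hD).comp Subtype.val_injective
  have hmap := law_map hind hlaw (fun z : boxF (Fin (D + 1)) n => jj D d z.1) hinj
  have hset := measurableSet_pt (G := boxG (Fin (D + 1)) n) (face (Fin (D + 1)) n)
    {⟨0, zero_mem_boxF n⟩} τ
  have h1 : ENNReal.ofReal δ ≤ P {t | pt (boxG (Fin (D + 1)) n) (face (Fin (D + 1)) n)
      ({⟨0, zero_mem_boxF n⟩} : Set (boxF (Fin (D + 1)) n))
      (cw fun e => ω (e.map fun z => jj D d z.1) t) ≤ ENNReal.ofReal τ} := by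
    have h2 : P {t | pt (boxG (Fin (D + 1)) n) (face (Fin (D + 1)) n)
        ({⟨0, zero_mem_boxF n⟩} : Set (boxF (Fin (D + 1)) n))
        (cw fun e => ω (e.map fun z => jj D d z.1) t) ≤ ENNReal.ofReal τ} =
        (pex (Sym2 (boxF (Fin (D + 1)) n))) {w | pt (boxG (Fin (D + 1)) n)
          (face (Fin (D + 1)) n) (({⟨0, zero_mem_boxF n⟩} : Finset (boxF (Fin (D + 1)) n)) :
          Set (boxF (Fin (D + 1)) n)) (cw w) ≤ ENNReal.ofReal τ} := by
      rw [← hmap, Measure.map_apply hmeasX hset, Finset.coe_singleton]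
      rfl
    rw [h2, ← ENNReal.ofReal_toReal (measure_ne_top (pex (Sym2 (boxF (Fin (D + 1)) n))) _)]
    exact ENNReal.ofReal_le_ofReal hpr
  have h3 : {t | pt (boxG (Fin (D + 1)) n) (face (Fin (D + 1)) n)
      ({⟨0, zero_mem_boxF n⟩} : Set (boxF (Fin (D + 1)) n))
      (cw fun e => ω (e.map fun z => jj D d z.1) t) ≤ ENNReal.ofReal τ} ⊆ AA ω D n r := by
    intro t ht
    have ht' : pt (boxG (Fin (D + 1)) n) (face (Fin (D + 1)) n)
      ({⟨0, zero_mem_boxF n⟩} : Set (boxF (Fin (D + 1)) n))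
      (cw fun e => ω (e.map fun z => jj D d z.1) t) ≤ ENNReal.ofReal τ := ht
    exact lt_of_le_of_lt ht' ((ENNReal.ofReal_lt_ofReal_iff hr).2 hτ)
  rw [prob_compl_eq_one_sub (measurableSet_AA hlaw n r), ENNReal.ofReal_sub 1 hδ,
    ENNReal.ofReal_one]
  exact tsub_le_tsub_left (h1.trans (measure_mono h3)) 1

/-- Upper bound for the time constant. -/
theorem axis_upper_pr (hD : D + 1 ≤ d) (hind : iIndepFun ω P)
    (hlaw : ∀ e, Measurable (ω e) ∧ P.map (ω e) = ex) {μ δ C : ℝ} (hμ0 : 0 ≤ μ) (hδ0 : 0 < δ)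
    (hpr : ∀ n : ℕ, δ ≤ pr (boxG (Fin (D + 1)) n) (face (Fin (D + 1)) n)
      {⟨0, zero_mem_boxF n⟩} (μ * n + C)) {c : ℝ} (hc0 : 0 ≤ c)
    (hc : ∀ x : Fin d → ℤ, ∀ᵐ t ∂P, Tendsto (fun n : ℕ =>
      Tz (gridG (Fin d)) (fun e => ω e t) 0 (n • x) / n) atTop
      (𝓝 (c * Real.sqrt (∑ i, ((x i : ℝ)) ^ 2)))) : c ≤ μ := by
  by_contra hcon
  push Not at hcon
  obtain ⟨ε, hε⟩ : ∃ ε, ε = (c - μ) / 5 := ⟨_, rfl⟩
  have hε0 : 0 < ε := by rw [hε]; linarith
  -- choice of `M`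
  obtain ⟨M, hM⟩ := exists_nat_gt (2 * ((D + 1) * Real.log 2 + 1) / ε)
  have hlog : 0 < Real.log 2 := Real.log_pos (by norm_num)
  have hM1 : (0 : ℝ) < M := by
    refine lt_trans ?_ hM
    positivity
  have hMn : 1 ≤ M := by
    have : 0 < M := by exact_mod_cast hM1
    omega
  have hM2 : (D + 1) * Real.log 2 + 1 < ε * M / 2 := by
    rw [div_lt_iff₀ hε0] at hM
    linarith
  -- the events
  let K : ℕ → Set Ω := fun k => AA ω D ((k + 1) * M) ((μ + ε) * ((k + 1) * M : ℕ)) \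
    BB ω D (k + 1) ((k + 1) * M) (Nat.succ_pos k) (ε * ((k + 1) * M : ℕ))
  have hKmeas : ∀ k, MeasurableSet (K k) := fun k =>
    (measurableSet_AA hlaw _ _).diff (measurableSet_BB hlaw _ _ _ _)
  -- the events happen finitely often
  have hfin : ∀ᵐ t ∂P, ∀ᶠ k : ℕ in atTop, t ∉ K k := by
    have hall : ∀ᵐ t ∂P, ∀ x : Fin d → ℤ, Tendsto (fun n : ℕ =>
        Tz (gridG (Fin d)) (fun e => ω e t) 0 (n • x) / n) atTop
        (𝓝 (c * Real.sqrt (∑ i, ((x i : ℝ)) ^ 2))) := ae_all_iff.mpr hc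
    filter_upwards [hall, weights_nonneg hlaw] with t ht hw
    have h1 : ∀ᶠ n : ℕ in atTop, ∀ x ∈ boxF (Fin (D + 1)) M,
        c * Real.sqrt (∑ i, ((jj D d x i : ℤ) : ℝ) ^ 2) - ε <
          Tz (gridG (Fin d)) (fun e => ω e t) 0 (n • jj D d x) / n := by
      rw [Filter.eventually_all_finset]
      intro x _
      exact (ht (jj D d x)).eventually (lt_mem_nhds (by linarith))
    have h2 : ∀ᶠ k : ℕ in atTop, ∀ x ∈ boxF (Fin (D + 1)) M,
        c * Real.sqrt (∑ i, ((jj D d x i : ℤ) : ℝ) ^ 2) - ε <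
          Tz (gridG (Fin d)) (fun e => ω e t) 0 ((k + 1) • jj D d x) / ((k + 1 : ℕ) : ℝ) :=
      (tendsto_add_atTop_nat 1).eventually h1
    filter_upwards [h2] with k hk htK
    obtain ⟨hA, hB⟩ := htK
    obtain ⟨u, hu, a, ha, hlt⟩ := exists_Tz_lt hw (jhom hD ((k + 1) * M)) hA
    rw [Set.mem_singleton_iff] at hu
    subst hu
    rw [jhom_apply, jhom_apply, jj_zero] at hlt
    obtain ⟨i, hi⟩ := ha
    have hpath : ((pp D d (k + 1) (Nat.succ_pos k) a.1).edges.map fun e => ω e t).sum <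
        ε * ((k + 1) * M : ℕ) := by
      by_contra hcon2
      push Not at hcon2
      apply hB
      refine Set.mem_iUnion₂.mpr ⟨a.1, a.2, ?_⟩
      rw [Set.mem_ofPred_eq, List.sum_toFinset _ (pp_nodup _ _ _)]
      exact hcon2
    have htri := Tz_triangle hw (grid_nonempty_walk 0 (jj D d a.1))
      (pp D d (k + 1) (Nat.succ_pos k) a.1)
    have hx := hk (xx (k + 1) a.1) (xx_mem (Nat.succ_pos k) a.2)
    have hk0 : (0 : ℝ) < ((k + 1 : ℕ) : ℝ) := by positivity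
    rw [lt_div_iff₀ hk0] at hx
    have hnorm := norm_jj_ge hD (xx_face (Nat.succ_pos k) hi)
    have h5 : c * M ≤ c * Real.sqrt (∑ j, ((jj D d (xx (k + 1) a.1) j : ℤ) : ℝ) ^ 2) :=
      mul_le_mul_of_nonneg_left hnorm hc0
    have h6 : (c * M - ε) * ((k + 1 : ℕ) : ℝ) < (μ + ε) * ((k + 1) * M : ℕ) +
        ε * ((k + 1) * M : ℕ) := by
      have h7 : (c * M - ε) * ((k + 1 : ℕ) : ℝ) ≤
          (c * Real.sqrt (∑ j, ((jj D d (xx (k + 1) a.1) j : ℤ) : ℝ) ^ 2) - ε) *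
            ((k + 1 : ℕ) : ℝ) := mul_le_mul_of_nonneg_right (by linarith) hk0.le
      linarith
    have h8 : (c * M - ε) * ((k + 1 : ℕ) : ℝ) < ((μ + 2 * ε) * M) * ((k + 1 : ℕ) : ℝ) := by
      refine h6.trans_le (le_of_eq ?_)
      push_cast
      ring
    have h9 := lt_of_mul_lt_mul_right h8 hk0.le
    have hM1' : (1 : ℝ) ≤ M := by exact_mod_cast hMn
    have h10 : c = μ + 5 * ε := by rw [hε]; ring
    rw [h10] at h9
    nlinarith
  -- hence their probabilities tend to zero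
  have hlim : Tendsto (fun k => P (K k)) atTop (𝓝 (P (∅ : Set Ω))) :=
    tendsto_measure_of_ae_tendsto_indicator_of_isFiniteMeasure atTop MeasurableSet.empty hKmeas
      (by
        filter_upwards [hfin] with t ht
        filter_upwards [ht] with k hk
        simp [hk])
  rw [measure_empty] at hlim
  -- but they are bounded below
  have hμε : 0 < μ + ε := by linarith
  have hA : ∀ᶠ k : ℕ in atTop,
      P (AA ω D ((k + 1) * M) ((μ + ε) * ((k + 1) * M : ℕ)))ᶜ ≤ ENNReal.ofReal (1 - δ) := by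
    obtain ⟨N, hN⟩ := exists_nat_gt (C / ε)
    filter_upwards [eventually_ge_atTop N] with k hk
    have hn0 : (0 : ℝ) < (((k + 1) * M : ℕ) : ℝ) := by
      have : 0 < (k + 1) * M := Nat.mul_pos (Nat.succ_pos k) hMn
      exact_mod_cast this
    refine AA_compl_pr hD hind hlaw _ (mul_pos hμε hn0) ?_ hδ0.le (hpr _)
    rw [div_lt_iff₀ hε0] at hN
    have h2 : (N : ℝ) ≤ (((k + 1) * M : ℕ) : ℝ) := by
      have : N ≤ (k + 1) * M := by nlinarith
      exact_mod_cast this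
    nlinarith
  have hB : Tendsto (fun k : ℕ => P (BB ω D (k + 1) ((k + 1) * M) (Nat.succ_pos k)
      (ε * ((k + 1) * M : ℕ)))) atTop (𝓝 0) := by
    have h1 : ∀ k : ℕ, P (BB ω D (k + 1) ((k + 1) * M) (Nat.succ_pos k)
        (ε * ((k + 1) * M : ℕ))) ≤
        ENNReal.ofReal ((2 * M + 1 : ℝ) ^ (D + 1) *
          (((k + 1 : ℕ) : ℝ) ^ (D + 1) * Real.exp (-((k + 1 : ℕ) : ℝ)))) := by
      intro k
      refine (BB_le hind hlaw _ _ _ _).trans ?_
      refine ENNReal.ofReal_le_ofReal ?_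
      have hk1 : (1 : ℝ) ≤ ((k + 1 : ℕ) : ℝ) := by push_cast; linarith [(Nat.cast_nonneg k : (0 : ℝ) ≤ k)]
      have h2 : (2 * (((k + 1) * M : ℕ) : ℝ) + 1) ^ (D + 1) ≤
          (2 * M + 1 : ℝ) ^ (D + 1) * ((k + 1 : ℕ) : ℝ) ^ (D + 1) := by
        rw [← mul_pow]
        refine pow_le_pow_left₀ (by positivity) ?_ _
        push_cast at hk1 ⊢
        nlinarith
      have h3 : Real.exp (-(ε * (((k + 1) * M : ℕ) : ℝ) / 2)) * 2 ^ ((D + 1) * (k + 1)) ≤
          Real.exp (-((k + 1 : ℕ) : ℝ)) := by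
        have h4 : (2 : ℝ) ^ ((D + 1) * (k + 1)) =
            Real.exp (((D + 1) * (k + 1) : ℕ) * Real.log 2) := by
          rw [Real.exp_nat_mul, Real.exp_log (by norm_num)]
        rw [h4, ← Real.exp_add]
        refine Real.exp_le_exp.mpr ?_
        have h5 := mul_le_mul_of_nonneg_right hM2.le (show (0 : ℝ) ≤ ((k + 1 : ℕ) : ℝ) by linarith)
        push_cast at h5 ⊢
        linarith
      calc _ ≤ ((2 * M + 1 : ℝ) ^ (D + 1) * ((k + 1 : ℕ) : ℝ) ^ (D + 1)) *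
            Real.exp (-((k + 1 : ℕ) : ℝ)) := by
            gcongr
        _ = _ := by ring
    have h2 : Tendsto (fun k : ℕ => ENNReal.ofReal ((2 * M + 1 : ℝ) ^ (D + 1) *
          (((k + 1 : ℕ) : ℝ) ^ (D + 1) * Real.exp (-((k + 1 : ℕ) : ℝ))))) atTop (𝓝 0) := by
      have h3 : Tendsto (fun x : ℝ => x ^ (D + 1) * Real.exp (-x)) atTop (𝓝 0) :=
        Real.tendsto_pow_mul_exp_neg_atTop_nhds_zero (D + 1)
      have h4 : Tendsto (fun k : ℕ => ((k + 1 : ℕ) : ℝ)) atTop atTop :=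
        tendsto_natCast_atTop_atTop.comp (tendsto_add_atTop_nat 1)
      have h5 := (h3.comp h4).const_mul ((2 * M + 1 : ℝ) ^ (D + 1))
      rw [mul_zero] at h5
      have h6 := ENNReal.tendsto_ofReal h5
      simpa using h6
    exact tendsto_of_tendsto_of_tendsto_of_le_of_le tendsto_const_nhds h2 (fun _ => zero_le) h1
  have hB' : ∀ᶠ k : ℕ in atTop, P (BB ω D (k + 1) ((k + 1) * M) (Nat.succ_pos k)
      (ε * ((k + 1) * M : ℕ))) < ENNReal.ofReal (δ / 2) :=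
    hB.eventually (gt_mem_nhds (by simp [hδ0]))
  have hK' : ∀ᶠ k : ℕ in atTop, P (K k) < ENNReal.ofReal (δ / 2) :=
    hlim.eventually (gt_mem_nhds (by simp [hδ0]))
  obtain ⟨k, hk1, hk2, hk3⟩ := (hA.and (hB'.and hK')).exists
  have hcover : (Set.univ : Set Ω) ⊆ (AA ω D ((k + 1) * M) ((μ + ε) * ((k + 1) * M : ℕ)))ᶜ ∪
      (BB ω D (k + 1) ((k + 1) * M) (Nat.succ_pos k) (ε * ((k + 1) * M : ℕ)) ∪ K k) := by
    intro t _
    by_cases h1 : t ∈ AA ω D ((k + 1) * M) ((μ + ε) * ((k + 1) * M : ℕ))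
    · by_cases h2 : t ∈ BB ω D (k + 1) ((k + 1) * M) (Nat.succ_pos k) (ε * ((k + 1) * M : ℕ))
      · exact Or.inr (Or.inl h2)
      · exact Or.inr (Or.inr ⟨h1, h2⟩)
    · exact Or.inl h1
  have h1 : (1 : ℝ≥0∞) ≤ ENNReal.ofReal (1 - δ) + (P (BB ω D (k + 1) ((k + 1) * M)
      (Nat.succ_pos k) (ε * ((k + 1) * M : ℕ))) + P (K k)) := by
    rw [← measure_univ (μ := P)]
    refine (measure_mono hcover).trans ((measure_union_le _ _).trans ?_)
    exact add_le_add hk1 (measure_union_le _ _)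
  have h2 : ENNReal.ofReal (1 - δ) + (P (BB ω D (k + 1) ((k + 1) * M)
      (Nat.succ_pos k) (ε * ((k + 1) * M : ℕ))) + P (K k)) <
      ENNReal.ofReal (1 - δ) + (ENNReal.ofReal (δ / 2) + ENNReal.ofReal (δ / 2)) :=
    ENNReal.add_lt_add_left ENNReal.ofReal_ne_top (ENNReal.add_lt_add hk2 hk3)
  have hδ1 : δ ≤ 1 := by
    refine (hpr 0).trans ?_
    unfold pr
    have h4 : (pex (Sym2 (boxF (Fin (D + 1)) 0))) {w | pt (boxG (Fin (D + 1)) 0)
        (face (Fin (D + 1)) 0) (({⟨0, zero_mem_boxF 0⟩} : Finset (boxF (Fin (D + 1)) 0)) :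
        Set (boxF (Fin (D + 1)) 0)) (cw w) ≤ ENNReal.ofReal (μ * ((0 : ℕ) : ℝ) + C)} ≤ 1 :=
      prob_le_one
    have h5 := ENNReal.toReal_mono ENNReal.one_ne_top h4
    simpa using h5
  rw [← ENNReal.ofReal_add (by positivity) (by positivity),
    ← ENNReal.ofReal_add (by linarith) (by positivity)] at h2
  have h3 : 1 - δ + (δ / 2 + δ / 2) = 1 := by ring
  rw [h3, ENNReal.ofReal_one] at h2
  exact absurd (h1.trans_lt h2) (lt_irrefl _)

/-- The form with the bound `(n + 1) * t`. -/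
theorem axis_upper_pr' (hD : D + 1 ≤ d) (hind : iIndepFun ω P)
    (hlaw : ∀ e, Measurable (ω e) ∧ P.map (ω e) = ex) {τ δ : ℝ} (hτ0 : 0 ≤ τ) (hδ0 : 0 < δ)
    (hpr : ∀ n : ℕ, δ ≤ ((pex (Sym2 (boxF (Fin (D + 1)) n))) {w | pt (boxG (Fin (D + 1)) n)
      (face (Fin (D + 1)) n) {⟨0, zero_mem_boxF n⟩} (cw w) ≤
        ENNReal.ofReal ((n + 1) * τ)}).toReal) {c : ℝ} (hc0 : 0 ≤ c)
    (hc : ∀ x : Fin d → ℤ, ∀ᵐ t ∂P, Tendsto (fun n : ℕ =>
      Tz (gridG (Fin d)) (fun e => ω e t) 0 (n • x) / n) atTop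
      (𝓝 (c * Real.sqrt (∑ i, ((x i : ℝ)) ^ 2)))) : c ≤ τ := by
  refine axis_upper_pr (C := τ) hD hind hlaw hτ0 hδ0 (fun n => ?_) hc0 hc
  have h := hpr n
  rw [show ((n : ℝ) + 1) * τ = τ * n + τ by ring] at h
  unfold pr
  rw [Finset.coe_singleton]
  exact h

end Pool.Agent.Lib.MP_edae2b_pr.SM
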