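import Pool.Agent.Lib.MP_edae2b_pr.SM.Perc

/-!
# The second moment method for first passage percolation
-/

namespace Pool.Agent.Lib.MP_edae2b_pr.SM

open MeasureTheory ProbabilityTheory Filter Topology Finset
open scoped ENNReal

variable {V : Type*} [Fintype V] [DecidableEq V] {G : SimpleGraph V} [DecidableRel G.Adj]

omit [DecidableEq V] in
lemma sq_sum_le_qf {W : V → V → ℝ} {x : V → ℝ} (hx : ∀ u, 0 ≤ x u)
    (hW : ∀ u v, x u ≠ 0 → x v ≠ 0 → 1 ≤ W u v) : (∑ u, x u) ^ 2 ≤ qf W x := by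
  unfold qf
  rw [sq, sum_mul_sum]
  refine sum_le_sum fun u _ => sum_le_sum fun v _ => ?_
  by_cases hu : x u = 0
  · simp [hu]
  · by_cases hv : x v = 0
    · simp [hv]
    · have h1 := hW u v hu hv
      have h2 := mul_nonneg (hx u) (hx v)
      nlinarith

/-- The directed edges starting in `S`. -/
def dE (G : SimpleGraph V) [DecidableRel G.Adj] (S : Finset V) : Finset (V × V) :=
  univ.filter fun p => p.1 ∈ S ∧ G.Adj p.1 p.2

lemma mem_dE {S : Finset V} {p : V × V} : p ∈ dE G S ↔ p.1 ∈ S ∧ G.Adj p.1 p.2 := by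
  simp [dE]

/-- The mass transported in one step. -/
noncomputable def tr (P : V → V → ℝ) (q : ℝ) (x : V → ℝ) (e : V × V) (v : V) : ℝ :=
  if v = e.2 then P e.1 e.2 / q * x e.1 else 0

lemma sum_tr (P : V → V → ℝ) {q : ℝ} (hq : q ≠ 0) {S : Finset V} {x : V → ℝ}
    (hxS : ∀ u, x u ≠ 0 → u ∈ S) (hadj : ∀ u v, x u ≠ 0 → P u v ≠ 0 → u = v ∨ G.Adj u v) (v : V) :
    P v v * x v + q * ∑ e ∈ dE G S, tr P q x e v = ∑ u, P u v * x u := by
  have h1 : q * ∑ e ∈ dE G S, tr P q x e v =
      ∑ u ∈ univ.erase v, P u v * x u := by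
    rw [mul_sum]
    have h2 : ∀ e ∈ dE G S, q * tr P q x e v =
        if e.2 = v then P e.1 e.2 * x e.1 else 0 := by
      intro e _
      unfold tr
      by_cases he : v = e.2
      · rw [if_pos he, if_pos he.symm]
        field_simp
      · rw [if_neg he, if_neg (fun h => he h.symm), mul_zero]
    rw [sum_congr rfl h2, ← sum_filter]
    have h3 : ∑ e ∈ (dE G S).filter (fun e => e.2 = v), P e.1 e.2 * x e.1 =
        ∑ u ∈ ((dE G S).filter (fun e => e.2 = v)).image Prod.fst, P u v * x u := by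
      rw [sum_image]
      · refine sum_congr rfl fun e he => ?_
        rw [(mem_filter.mp he).2]
      · intro e he e' he' h
        have h4 := (mem_filter.mp he).2
        have h5 := (mem_filter.mp he').2
        exact Prod.ext h (h4.trans h5.symm)
    rw [h3]
    refine sum_subset (fun u hu => ?_) (fun u hu hu' => ?_)
    · obtain ⟨e, he, rfl⟩ := mem_image.mp hu
      obtain ⟨he1, he2⟩ := mem_filter.mp he
      have := (mem_dE.mp he1).2
      refine mem_erase.mpr ⟨?_, mem_univ _⟩
      rw [← he2]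
      exact this.ne
    · by_contra hne
      have hx : x u ≠ 0 := right_ne_zero_of_mul hne
      have hP : P u v ≠ 0 := left_ne_zero_of_mul hne
      rcases hadj u v hx hP with h | h
      · exact (mem_erase.mp hu).1 h
      · exact hu' (mem_image.mpr ⟨(u, v), mem_filter.mpr ⟨mem_dE.mpr ⟨hxS u hx, h⟩, rfl⟩, rfl⟩)
  rw [h1, add_sum_erase univ (fun u => P u v * x u) (mem_univ v)]

omit [DecidableEq V] in
lemma qf_transport (W P : V → V → ℝ) (x : V → ℝ) :
    qf W (fun v => ∑ u, P u v * x u) =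
      ∑ u, ∑ v, (∑ u', ∑ v', P u u' * P v v' * W u' v') * (x u * x v) := by
  have h1 : qf W (fun v => ∑ u, P u v * x u) =
      ∑ p' : V × V, ∑ p : V × V, P p.1 p'.1 * P p.2 p'.2 * W p'.1 p'.2 * (x p.1 * x p.2) := by
    unfold qf
    rw [Fintype.sum_prod_type]
    refine sum_congr rfl fun u' _ => sum_congr rfl fun v' _ => ?_
    rw [Fintype.sum_prod_type, sum_mul_sum, mul_sum]
    refine sum_congr rfl fun u _ => ?_
    rw [mul_sum]
    refine sum_congr rfl fun v _ => ?_
    ring
  rw [h1, sum_comm, Fintype.sum_prod_type]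
  refine sum_congr rfl fun u _ => sum_congr rfl fun v _ => ?_
  rw [Fintype.sum_prod_type, sum_mul]
  refine sum_congr rfl fun u' _ => ?_
  rw [sum_mul]

lemma qf_tr (W P : V → V → ℝ) (q : ℝ) (x : V → ℝ) (e : V × V) :
    qf W (tr P q x e) = (P e.1 e.2 / q * x e.1) ^ 2 * W e.2 e.2 := by
  unfold qf tr
  rw [sum_eq_single e.2]
  · rw [sum_eq_single e.2]
    · rw [if_pos rfl]
      ring
    · intro v _ hv
      rw [if_neg hv]
      ring
    · simp
  · intro u _ hu
    refine sum_eq_zero fun v _ => ?_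
    rw [if_neg hu]
    ring
  · simp

/-- The second moment bound for one step. -/
lemma qf_step {P W W' : V → V → ℝ} {q : ℝ} (hq : 0 < q) (hq1 : q ≤ 1) {S : Finset V} {x : V → ℝ}
    (hx : ∀ u, 0 ≤ x u) (hxS : ∀ u, x u ≠ 0 → u ∈ S)
    (hadj : ∀ u v, x u ≠ 0 → P u v ≠ 0 → u = v ∨ G.Adj u v)
    (hWnn : ∀ u v, x u ≠ 0 → P u v ≠ 0 → 0 ≤ W v v)
    (hW : ∀ u v, x u ≠ 0 → x v ≠ 0 → ∑ u', ∑ v', P u u' * P v v' * W u' v' +
      (if u = v then (1 / q - 1) * ∑ v' ∈ univ.erase u, P u v' ^ 2 * W v' v' else 0) ≤ W' u v) :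
    qf W (fun v => P v v * x v + q * ∑ e ∈ dE G S, tr P q x e v) +
      q * (1 - q) * ∑ e ∈ dE G S, qf W (tr P q x e) ≤ qf W' x := by
  have h1 : (fun v => P v v * x v + q * ∑ e ∈ dE G S, tr P q x e v) =
      fun v => ∑ u, P u v * x u := by
    funext v
    exact sum_tr P hq.ne' hxS hadj v
  have hq2 : 0 ≤ 1 / q - 1 := by
    rw [sub_nonneg, le_div_iff₀ hq]
    linarith
  have h5 : q * (1 - q) * ∑ e ∈ dE G S, qf W (tr P q x e) ≤
      ∑ u, (1 / q - 1) * (∑ v ∈ univ.erase u, P u v ^ 2 * W v v) * (x u * x u) := by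
    have h6 : q * (1 - q) * ∑ e ∈ dE G S, qf W (tr P q x e) =
        ∑ e ∈ dE G S, (1 / q - 1) * (P e.1 e.2 ^ 2 * W e.2 e.2) * (x e.1 * x e.1) := by
      rw [mul_sum]
      refine sum_congr rfl fun e _ => ?_
      rw [qf_tr]
      field_simp
    have h7 : ∑ u, (1 / q - 1) * (∑ v ∈ univ.erase u, P u v ^ 2 * W v v) * (x u * x u) =
        ∑ e ∈ (univ : Finset (V × V)).filter (fun e => e.2 ≠ e.1),
          (1 / q - 1) * (P e.1 e.2 ^ 2 * W e.2 e.2) * (x e.1 * x e.1) := by
      rw [sum_filter, Fintype.sum_prod_type]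
      refine sum_congr rfl fun u _ => ?_
      rw [mul_sum, sum_mul]
      rw [← sum_filter]
      refine sum_congr ?_ fun v _ => rfl
      ext v
      simp
    rw [h6, h7]
    refine sum_le_sum_of_subset_of_nonneg (fun e he => ?_) fun e he _ => ?_
    · exact mem_filter.mpr ⟨mem_univ _, (mem_dE.mp he).2.ne'⟩
    · by_cases hxe : x e.1 = 0
      · simp [hxe]
      · by_cases hPe : P e.1 e.2 = 0
        · simp [hPe]
        · have h8 := hWnn e.1 e.2 hxe hPe
          exact mul_nonneg (mul_nonneg hq2 (mul_nonneg (sq_nonneg _) h8))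
            (mul_self_nonneg _)
  rw [h1, qf_transport]
  refine (add_le_add_right h5 _).trans ?_
  have h9 : ∑ u, (1 / q - 1) * (∑ v ∈ univ.erase u, P u v ^ 2 * W v v) * (x u * x u) =
      ∑ u, ∑ v, (if u = v then (1 / q - 1) * ∑ v' ∈ univ.erase u, P u v' ^ 2 * W v' v' else 0) *
        (x u * x v) := by
    refine sum_congr rfl fun u _ => ?_
    symm
    rw [sum_eq_single u]
    · rw [if_pos rfl]
    · intro v _ hv
      rw [if_neg (fun h => hv h.symm), zero_mul]
    · simp
  rw [h9, ← sum_add_distrib]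
  unfold qf
  refine sum_le_sum fun u _ => ?_
  rw [← sum_add_distrib]
  refine sum_le_sum fun v _ => ?_
  rw [← add_mul]
  by_cases hu : x u = 0
  · simp [hu]
  · by_cases hv : x v = 0
    · simp [hv]
    · exact mul_le_mul_of_nonneg_right (hW u v hu hv) (mul_nonneg (hx u) (hx v))

/-- The second moment method: `R i` is the set of sites that are alive when `i` steps remain. -/
theorem second_moment {A : Set V} {m : ℝ} (hm : 0 < m) (R : ℕ → Set V) (P : ℕ → V → V → ℝ)
    (W : ℕ → V → V → ℝ)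
    (hR0 : ∀ u ∈ R 0, u ∈ A)
    (hP0 : ∀ i u v, 0 ≤ P i u v)
    (hPadj : ∀ i u v, u ∈ R (i + 1) → u ∉ A → P i u v ≠ 0 → u = v ∨ G.Adj u v)
    (hPR : ∀ i u v, u ∈ R (i + 1) → u ∉ A → P i u v ≠ 0 → v ∈ R i)
    (hPsum : ∀ i u, u ∈ R (i + 1) → u ∉ A → ∑ v, P i u v = 1)
    (hW1 : ∀ i u v, u ∈ R i → v ∈ R i → 1 ≤ W i u v)
    (hW : ∀ i u v, u ∈ R (i + 1) → v ∈ R (i + 1) → u ∉ A → v ∉ A →
      ∑ u', ∑ v', P i u u' * P i v v' * W i u' v' +
        (if u = v then (1 / (1 - Real.exp (-m)) - 1) *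
          ∑ v' ∈ univ.erase u, P i u v' ^ 2 * W i v' v' else 0) ≤ W (i + 1) u v) :
    ∀ i : ℕ, ∀ S : Finset V, ∀ x : V → ℝ, (∀ u, 0 ≤ x u) → (∀ u, x u ≠ 0 → u ∈ S ∧ u ∈ R i) →
      (∑ u, x u) ^ 2 ≤ pr G A S (i * m) * qf (W i) x := by
  set q := 1 - Real.exp (-m) with hqdef
  have hexp : Real.exp (-m) < 1 := by
    have := Real.exp_lt_exp.mpr (show -m < 0 by linarith)
    rwa [Real.exp_zero] at this
  have hq : 0 < q := by rw [hqdef]; linarith
  have hq1 : q ≤ 1 := by rw [hqdef]; linarith [Real.exp_pos (-m)]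
  have hone : ∀ i : ℕ, ∀ S : Finset V, ∀ x : V → ℝ, (∀ u, 0 ≤ x u) →
      (∀ u, x u ≠ 0 → u ∈ S ∧ u ∈ R i) → ¬ Disjoint (S : Set V) A →
      (∑ u, x u) ^ 2 ≤ pr G A S (i * m) * qf (W i) x := by
    intro i S x hx hxS hSA
    rw [pr_eq_one hSA, one_mul]
    exact sq_sum_le_qf hx fun u v hu hv => hW1 i u v (hxS u hu).2 (hxS v hv).2
  intro i
  induction i with
  | zero =>
    intro S x hx hxS
    by_cases h0 : ∀ u, x u = 0
    · simp [h0, qf]
    · push Not at h0
      obtain ⟨u, hu⟩ := h0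
      refine hone 0 S x hx hxS (Set.not_disjoint_iff.mpr ⟨u, ?_, hR0 u (hxS u hu).2⟩)
      exact_mod_cast (hxS u hu).1
  | succ i ih =>
    intro S x hx hxS
    by_cases hSA : Disjoint (S : Set V) A
    · have hnA : ∀ u, x u ≠ 0 → u ∉ A := fun u hu =>
        Set.disjoint_left.mp hSA (by exact_mod_cast (hxS u hu).1)
      let x' : Finset (V × V) → V → ℝ := fun C v =>
        P i v v * x v + ∑ e ∈ C, tr (P i) q x e v
      have htr : ∀ e v, 0 ≤ tr (P i) q x e v := by
        intro e v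
        unfold tr
        split_ifs
        · exact mul_nonneg (div_nonneg (hP0 _ _ _) hq.le) (hx _)
        · exact le_rfl
      have hx'0 : ∀ C v, 0 ≤ x' C v := fun C v =>
        add_nonneg (mul_nonneg (hP0 _ _ _) (hx _)) (sum_nonneg fun e _ => htr e v)
      have hx'S : ∀ C, ∀ v, x' C v ≠ 0 → v ∈ S ∪ tips C ∧ v ∈ R i := by
        intro C v hv
        by_cases h1 : P i v v * x v = 0
        · have h2 : ∑ e ∈ C, tr (P i) q x e v ≠ 0 := by
            intro h
            exact hv (by simp only [x', h1, h, add_zero])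
          obtain ⟨e, he, hne⟩ := exists_ne_zero_of_sum_ne_zero h2
          unfold tr at hne
          by_cases h3 : v = e.2
          · rw [if_pos h3] at hne
            have hxe : x e.1 ≠ 0 := right_ne_zero_of_mul hne
            have hPe : P i e.1 e.2 ≠ 0 := by
              intro h
              exact hne (by rw [h]; simp)
            refine ⟨mem_union_right _ (mem_image.mpr ⟨e, he, h3.symm⟩), ?_⟩
            rw [h3]
            exact hPR i e.1 e.2 (hxS _ hxe).2 (hnA _ hxe) hPe
          · rw [if_neg h3] at hne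
            exact absurd rfl hne
        · have hxv : x v ≠ 0 := right_ne_zero_of_mul h1
          exact ⟨mem_union_left _ (hxS v hxv).1,
            hPR i v v (hxS v hxv).2 (hnA v hxv) (left_ne_zero_of_mul h1)⟩
      have hadj : ∀ u v, x u ≠ 0 → P i u v ≠ 0 → u = v ∨ G.Adj u v := fun u v hu hP =>
        hPadj i u v (hxS u hu).2 (hnA u hu) hP
      have hxS' : ∀ u, x u ≠ 0 → u ∈ S := fun u hu => (hxS u hu).1
      -- Cauchy-Schwarz
      have hCS := sq_Eb_le (q := q) hq.le hq1 (E := dE G S)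
        (X := fun C => ∑ v, x' C v)
        (p := fun C => pr G A (S ∪ tips C) (i * m)) (Q := fun C => qf (W i) (x' C))
        (fun C _ => pr_nonneg _ _ _) (fun C _ => by
          refine le_trans (sq_nonneg _) (sq_sum_le_qf (W := W i) (hx'0 C) fun u v hu hv => ?_)
          exact hW1 i u v (hx'S C u hu).2 (hx'S C v hv).2)
        (fun C _ => ih (S ∪ tips C) (x' C) (hx'0 C) (hx'S C))
      -- first moment
      have hfirst : Eb q (dE G S) (fun C => ∑ v, x' C v) = ∑ u, x u := by
        have h1 : ∀ C, ∑ v, x' C v = ∑ v, P i v v * x v + ∑ e ∈ C, ∑ v, tr (P i) q x e v := by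
          intro C
          simp only [x']
          rw [sum_add_distrib]
          congr 1
          rw [sum_comm]
        rw [Eb_congr (fun C _ => h1 C), Eb_lin]
        have h2 : q * ∑ e ∈ dE G S, ∑ v, tr (P i) q x e v =
            ∑ v, q * ∑ e ∈ dE G S, tr (P i) q x e v := by
          rw [sum_comm, mul_sum]
        rw [h2, ← sum_add_distrib, sum_congr rfl fun v _ => sum_tr (P i) hq.ne' hxS' hadj v,
          sum_comm]
        refine sum_congr rfl fun u _ => ?_
        rw [← sum_mul]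
        by_cases hu : x u = 0
        · simp [hu]
        · rw [hPsum i u (hxS u hu).2 (hnA u hu), one_mul]
      -- second moment
      have hsecond : Eb q (dE G S) (fun C => qf (W i) (x' C)) ≤ qf (W (i + 1)) x := by
        simp only [x']
        rw [Eb_qf]
        refine qf_step hq hq1 hx hxS' hadj (fun u v hu hP => ?_) (fun u v hu hv => ?_)
        · have hv := hPR i u v (hxS u hu).2 (hnA u hu) hP
          exact le_trans zero_le_one (hW1 i v v hv hv)
        · exact hW i u v (hxS u hu).2 (hxS v hv).2 (hnA u hu) (hnA v hv)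
      -- percolation step
      have hperc : Eb q (dE G S) (fun C => pr G A (S ∪ tips C) (i * m)) ≤
          pr G A S ((i + 1 : ℕ) * m) := by
        have h1 := pr_step (G := G) (A := A) (S := S) hm.le
          (show (0 : ℝ) ≤ i * m by positivity)
        have h2 : ((i + 1 : ℕ) : ℝ) * m = i * m + m := by push_cast; ring
        rw [h2]
        refine le_trans (le_of_eq ?_) h1
        have h3 : dE G S = bd G S ∪ (dE G S).filter (fun p => p.2 ∈ S) := by
          ext p
          rw [mem_union, mem_bd, mem_filter, mem_dE]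
          tauto
        rw [h3]
        refine Eb_union _ _ ?_ _ ?_
        · rw [Finset.disjoint_left]
          intro p hp hp'
          exact (mem_bd.mp hp).2.1 (mem_filter.mp hp').2
        · intro C _ C' hC'
          congr 1
          ext v
          simp only [mem_union, tips, mem_image]
          constructor
          · rintro (h | ⟨e, he | he, rfl⟩)
            · exact Or.inl h
            · exact Or.inr ⟨e, he, rfl⟩
            · exact Or.inl (mem_filter.mp (hC' he)).2
          · rintro (h | ⟨e, he, rfl⟩)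
            · exact Or.inl h
            · exact Or.inr ⟨e, Or.inl he, rfl⟩
      rw [hfirst] at hCS
      refine hCS.trans ?_
      refine mul_le_mul hperc hsecond ?_ (pr_nonneg _ _ _)
      refine Eb_nonneg hq.le hq1 fun C _ => ?_
      refine le_trans (sq_nonneg _) (sq_sum_le_qf (W := W i) (hx'0 C) fun u v hu hv => ?_)
      exact hW1 i u v (hx'S C u hu).2 (hx'S C v hv).2
    · exact hone (i + 1) S x hx hxS hSA

/-- Consequence for a single starting point. -/
theorem pr_ge {A : Set V} {m : ℝ} (hm : 0 < m) (R : ℕ → Set V) (P : ℕ → V → V → ℝ)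
    (W : ℕ → V → V → ℝ)
    (hR0 : ∀ u ∈ R 0, u ∈ A)
    (hP0 : ∀ i u v, 0 ≤ P i u v)
    (hPadj : ∀ i u v, u ∈ R (i + 1) → u ∉ A → P i u v ≠ 0 → u = v ∨ G.Adj u v)
    (hPR : ∀ i u v, u ∈ R (i + 1) → u ∉ A → P i u v ≠ 0 → v ∈ R i)
    (hPsum : ∀ i u, u ∈ R (i + 1) → u ∉ A → ∑ v, P i u v = 1)
    (hW1 : ∀ i u v, u ∈ R i → v ∈ R i → 1 ≤ W i u v)
    (hW : ∀ i u v, u ∈ R (i + 1) → v ∈ R (i + 1) → u ∉ A → v ∉ A →
      ∑ u', ∑ v', P i u u' * P i v v' * W i u' v' +
        (if u = v then (1 / (1 - Real.exp (-m)) - 1) *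
          ∑ v' ∈ univ.erase u, P i u v' ^ 2 * W i v' v' else 0) ≤ W (i + 1) u v)
    {i : ℕ} {o : V} (ho : o ∈ R i) {C : ℝ} (hC : W i o o ≤ C) :
    1 / C ≤ pr G A {o} (i * m) := by
  have h1 := second_moment hm R P W hR0 hP0 hPadj hPR hPsum hW1 hW i {o} (Pi.single o 1)
    (fun u => by
      by_cases h : u = o
      · subst h; simp
      · simp [h]) (fun u hu => by
      have : u = o := by
        by_contra h
        exact hu (by simp [h])
      subst this
      exact ⟨mem_singleton_self _, ho⟩)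
  have h2 : ∑ u, (Pi.single o 1 : V → ℝ) u = 1 := by simp
  have h3 : qf (W i) (Pi.single o 1) = W i o o := by
    unfold qf
    rw [sum_eq_single o]
    · rw [sum_eq_single o]
      · simp
      · intro v _ hv
        simp [hv]
      · simp
    · intro u _ hu
      refine sum_eq_zero fun v _ => ?_
      simp [Pi.single_apply, hu]
    · simp
  rw [h2, h3] at h1
  have h4 : 1 ≤ W i o o := hW1 i o o ho ho
  have hC0 : 0 < C := by linarith
  rw [div_le_iff₀ hC0]
  have h5 := mul_le_mul_of_nonneg_left hC (pr_nonneg (G := G) A {o} (i * m))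
  linarith

end Pool.Agent.Lib.MP_edae2b_pr.SM
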