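import Pool.Agent.Lib.MP_edae2b_pr.Lower
import Pool.Agent.Lib.MP_edae2b_pr.SM.Second

/-!
# The second moment method on boxes, with a moving window of layers
-/

namespace Pool.Agent.Lib.MP_edae2b_pr.SM

open MeasureTheory ProbabilityTheory Filter Topology Finset

variable {D : ℕ}

/-- The one particle transition operator. -/
def Tm (s f ρ : ℝ) (a : ℕ) (z : Fin D → ℤ) (φ : ℕ → (Fin D → ℤ) → ℝ) : ℝ :=
  s * φ a z + f * φ (a - 1) z + ρ * ∑ δ : Fin D × Bool, φ a (z + dv δ)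

/-- The two particle transition operator in terms of the difference. -/
def Tp (s f ρ : ℕ → ℝ) (w : ℕ → ℕ → (Fin D → ℤ) → ℝ) (a b : ℕ) (z : Fin D → ℤ) : ℝ :=
  Tm (s a) (f a) (ρ a) a z fun a' x => Tm (s b) (f b) (ρ b) b 0 fun b' y => w a' b' (x - y)

lemma Tp_eq (s f ρ : ℕ → ℝ) (w : ℕ → ℕ → (Fin D → ℤ) → ℝ) (a b : ℕ) (x y : Fin D → ℤ) :
    (Tm (s a) (f a) (ρ a) a x fun a' x' => Tm (s b) (f b) (ρ b) b y fun b' y' => w a' b' (x' - y')) =
      Tp s f ρ w a b (x - y) := by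
  have h1 : ∀ (x' : Fin D → ℤ) (δ : Fin D × Bool), x' - (y + dv δ) = (x' - y) - (0 + dv δ) := by
    intro x' δ
    abel
  have h2 : ∀ δ : Fin D × Bool, x + dv δ - y = x - y + dv δ := by
    intro δ
    abel
  unfold Tp Tm
  simp only [h1, h2, sub_zero]

/-- The last `D` coordinates. -/
def tl (z : Fin (D + 1) → ℤ) : Fin D → ℤ := fun j => z j.succ

lemma tl_add_fwd (z : Fin (D + 1) → ℤ) : tl (z + dv (0, true)) = tl z := by
  funext j
  simp only [tl, Pi.add_apply]
  rw [dv_other 0 j.succ true (Fin.succ_ne_zero j).symm, add_zero]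

lemma tl_add_succ (z : Fin (D + 1) → ℤ) (δ : Fin D × Bool) :
    tl (z + dv (δ.1.succ, δ.2)) = tl z + dv δ := by
  funext j
  simp only [tl, Pi.add_apply]
  congr 1
  by_cases h : δ.1 = j
  · subst h
    rw [dv_self, ← dv_self δ.1 δ.2]
  · rw [dv_other _ _ _ (fun h' => h (Fin.succ_injective _ h')),
      ← dv_other δ.1 j δ.2 h]

lemma head_add_succ (z : Fin (D + 1) → ℤ) (δ : Fin D × Bool) :
    (z + dv (δ.1.succ, δ.2)) 0 = z 0 := by
  simp only [Pi.add_apply]
  rw [dv_other _ _ _ (Fin.succ_ne_zero _), add_zero]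

lemma head_add_fwd (z : Fin (D + 1) → ℤ) :
    (z + dv (0, true) : Fin (D + 1) → ℤ) 0 = z 0 + 1 := by
  simp only [Pi.add_apply]
  rw [dv_self]
  simp

/-- Weights of the directions. -/
def gw (f ρ : ℝ) (δ : Fin (D + 1) × Bool) : ℝ :=
  if δ.1 = 0 then (if δ.2 then f else 0) else ρ

lemma sum_gw (f ρ : ℝ) (F : Fin (D + 1) × Bool → ℝ) :
    ∑ δ, gw f ρ δ * F δ = f * F (0, true) + ρ * ∑ δ : Fin D × Bool, F (δ.1.succ, δ.2) := by
  rw [Fintype.sum_prod_type, Fin.sum_univ_succ, Fintype.sum_prod_type, mul_sum]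
  congr 1
  · simp [gw]
  · refine sum_congr rfl fun i _ => ?_
    simp [gw, Fin.succ_ne_zero, mul_add]

variable {n : ℕ}

/-- The transition probabilities in the box. -/
def Pk (s f ρ : ℝ) (u v : boxF (Fin (D + 1)) n) : ℝ :=
  (if v = u then s else 0) + ∑ δ, if v.1 = u.1 + dv δ then gw f ρ δ else 0

lemma mem_box_of_interior {u : boxF (Fin (D + 1)) n} (hu : u ∉ face (Fin (D + 1)) n)
    (δ : Fin (D + 1) × Bool) : u.1 + dv δ ∈ boxF (Fin (D + 1)) n := by
  rw [mem_boxF]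
  intro i
  have h8 : |u.1 i| ≤ n := mem_boxF.mp u.2 i
  have h9 : |u.1 i| ≠ n := fun h => hu ⟨i, h⟩
  have h10 : |dv δ i| ≤ 1 := by
    rw [← sum_abs_dv δ]
    exact single_le_sum (f := fun i => |dv δ i|) (fun j _ => abs_nonneg _) (mem_univ i)
  have h11 := abs_add_le (u.1 i) (dv δ i)
  simp only [Pi.add_apply]
  omega

lemma sum_Pk (s f ρ : ℝ) {u : boxF (Fin (D + 1)) n} (hu : u ∉ face (Fin (D + 1)) n)
    (F : (Fin (D + 1) → ℤ) → ℝ) : ∑ v, Pk s f ρ u v * F v.1 =
      s * F u.1 + f * F (u.1 + dv (0, true)) +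
        ρ * ∑ δ : Fin D × Bool, F (u.1 + dv (δ.1.succ, δ.2)) := by
  unfold Pk
  simp only [add_mul, sum_add_distrib, ite_mul, zero_mul, sum_ite_eq', mem_univ, if_true]
  rw [add_assoc]
  congr 1
  rw [← sum_gw f ρ (fun δ => F (u.1 + dv δ))]
  simp only [sum_mul, ite_mul, zero_mul]
  rw [sum_comm]
  refine sum_congr rfl fun δ _ => ?_
  rw [sum_eq_single ⟨u.1 + dv δ, mem_box_of_interior hu δ⟩]
  · rw [if_pos rfl]
  · intro v _ hv
    rw [if_neg (fun h => hv (Subtype.ext h))]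
  · simp

lemma Pk_of_ne {s f ρ : ℝ} {u v : boxF (Fin (D + 1)) n} (h : v ≠ u) {δ : Fin (D + 1) × Bool}
    (hv : v.1 = u.1 + dv δ) : Pk s f ρ u v = gw f ρ δ := by
  unfold Pk
  rw [if_neg h, zero_add, sum_eq_single δ]
  · rw [if_pos hv]
  · intro δ' _ hδ'
    rw [if_neg]
    intro h'
    rw [hv, add_right_inj] at h'
    exact hδ' (dv_injective h').symm
  · simp

lemma sum_Pk_sq (s f ρ : ℝ) {u : boxF (Fin (D + 1)) n} (hu : u ∉ face (Fin (D + 1)) n)
    (F : (Fin (D + 1) → ℤ) → ℝ) : ∑ v ∈ univ.erase u, Pk s f ρ u v ^ 2 * F v.1 =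
      f ^ 2 * F (u.1 + dv (0, true)) +
        ρ ^ 2 * ∑ δ : Fin D × Bool, F (u.1 + dv (δ.1.succ, δ.2)) := by
  have h1 : ∑ δ, gw f ρ δ ^ 2 * F (u.1 + dv δ) = f ^ 2 * F (u.1 + dv (0, true)) +
      ρ ^ 2 * ∑ δ : Fin D × Bool, F (u.1 + dv (δ.1.succ, δ.2)) := by
    rw [← sum_gw (f ^ 2) (ρ ^ 2) (fun δ => F (u.1 + dv δ))]
    refine sum_congr rfl fun δ _ => ?_
    congr 1
    unfold gw
    split_ifs <;> simp
  rw [← h1]
  let i : Fin (D + 1) × Bool → boxF (Fin (D + 1)) n := fun δ =>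
    ⟨u.1 + dv δ, mem_box_of_interior hu δ⟩
  have hinj : Function.Injective i := by
    intro δ δ' h
    have h' := congrArg Subtype.val h
    simp only [i, add_right_inj] at h'
    exact dv_injective h'
  have hne : ∀ δ, i δ ≠ u := by
    intro δ h
    have h' := congrArg Subtype.val h
    simp only [i, add_eq_left] at h'
    exact dv_ne_zero δ h'
  have h2 : ∑ δ, gw f ρ δ ^ 2 * F (u.1 + dv δ) =
      ∑ v ∈ univ.image i, Pk s f ρ u v ^ 2 * F v.1 := by
    rw [sum_image (fun δ _ δ' _ h => hinj h)]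
    refine sum_congr rfl fun δ _ => ?_
    rw [Pk_of_ne (hne δ) (δ := δ) rfl]
  rw [h2]
  symm
  refine sum_subset (fun v hv => ?_) fun v hv hv' => ?_
  · obtain ⟨δ, _, rfl⟩ := mem_image.mp hv
    exact mem_erase.mpr ⟨hne δ, mem_univ _⟩
  · have h3 : Pk s f ρ u v = 0 := by
      unfold Pk
      rw [if_neg (mem_erase.mp hv).1, zero_add]
      refine sum_eq_zero fun δ _ => ?_
      rw [if_neg]
      intro h
      exact hv' (mem_image.mpr ⟨δ, mem_univ _, Subtype.ext h.symm⟩)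
    rw [h3]
    ring

lemma Pk_ne_zero {s f ρ : ℝ} {u v : boxF (Fin (D + 1)) n} (h : Pk s f ρ u v ≠ 0) :
    (v = u ∧ s ≠ 0) ∨ (v.1 = u.1 + dv (0, true) ∧ f ≠ 0) ∨
      (ρ ≠ 0 ∧ ∃ δ : Fin D × Bool, v.1 = u.1 + dv (δ.1.succ, δ.2)) := by
  by_cases hvu : v = u
  · left
    refine ⟨hvu, fun hs => h ?_⟩
    unfold Pk
    rw [if_pos hvu, hs, zero_add]
    refine sum_eq_zero fun δ _ => ?_
    rw [if_neg]
    intro h'
    rw [hvu] at h'
    exact dv_ne_zero δ (by simpa using h'.symm)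
  · right
    by_cases hex : ∃ δ, v.1 = u.1 + dv δ
    · obtain ⟨δ, hδ⟩ := hex
      rw [Pk_of_ne hvu hδ] at h
      obtain ⟨i, b⟩ := δ
      by_cases hi : i = 0
      · subst hi
        cases b
        · exfalso
          exact h (by simp [gw])
        · left
          exact ⟨hδ, by simpa [gw] using h⟩
      · right
        obtain ⟨j, rfl⟩ := Fin.exists_succ_eq.mpr hi
        exact ⟨by simpa [gw, Fin.succ_ne_zero] using h, (j, b), hδ⟩
    · exfalso
      apply h
      unfold Pk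
      rw [if_neg hvu, zero_add]
      refine sum_eq_zero fun δ _ => ?_
      rw [if_neg]
      exact fun h' => hex ⟨δ, h'⟩

lemma Pk_nonneg {s f ρ : ℝ} (hs : 0 ≤ s) (hf : 0 ≤ f) (hρ : 0 ≤ ρ) (u v : boxF (Fin (D + 1)) n) :
    0 ≤ Pk s f ρ u v := by
  unfold Pk gw
  refine add_nonneg (by split_ifs <;> simp [hs]) (sum_nonneg fun δ _ => ?_)
  split_ifs <;> first | exact hf | exact hρ | exact le_rfl

/-- The index of the layer in the window at forward time `t`. -/
def ix (J t : ℕ) (u : Fin (D + 1) → ℤ) : ℕ := (((t / J : ℕ) : ℤ) - u 0 + 1).toNat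

/-- The weight function of the next phase. -/
def nxt (J : ℕ) (w : ℕ → ℕ → ℕ → (Fin D → ℤ) → ℝ) (r : ℕ) (a b : ℕ) (z : Fin D → ℤ) : ℝ :=
  if r + 1 < J then w (r + 1) a b z else w 0 (a + 1) (b + 1) z

/-- The data of a certificate for the second moment method. -/
structure Cer (D K J : ℕ) (m : ℝ) (s f ρ : ℕ → ℕ → ℝ) (w : ℕ → ℕ → ℕ → (Fin D → ℤ) → ℝ) :
    Prop where
  K_pos : 1 ≤ K
  J_pos : 1 ≤ J
  m_pos : 0 < m
  s_nonneg : ∀ r a, 0 ≤ s r a
  f_nonneg : ∀ r a, 0 ≤ f r a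
  ρ_nonneg : ∀ r a, 0 ≤ ρ r a
  sum_eq : ∀ r a, s r a + f r a + 2 * D * ρ r a = 1
  f_top : ∀ r, f r 1 = 0
  f_bot : f (J - 1) K = 1
  one_le : ∀ r a b z, r < J → 1 ≤ a → a ≤ K → 1 ≤ b → b ≤ K → 1 ≤ w r a b z
  main : ∀ r a b z, r < J → 1 ≤ a → a ≤ K → 1 ≤ b → b ≤ K →
    Tp (s r) (f r) (ρ r) (nxt J w r) a b z +
      (if a = b ∧ z = 0 then (1 / (1 - Real.exp (-m)) - 1) *
        (f r a ^ 2 * nxt J w r (a - 1) (a - 1) 0 + 2 * D * ρ r a ^ 2 * nxt J w r a a 0) else 0) ≤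
      w r a b z

variable {K J : ℕ} {m : ℝ} {s f ρ : ℕ → ℕ → ℝ} {w : ℕ → ℕ → ℕ → (Fin D → ℤ) → ℝ}

lemma Cer.stay_bot (h : Cer D K J m s f ρ w) : s (J - 1) K = 0 ∧ 2 * (D : ℝ) * ρ (J - 1) K = 0 := by
  have h1 := h.sum_eq (J - 1) K
  rw [h.f_bot] at h1
  have h2 := h.s_nonneg (J - 1) K
  have h3 := h.ρ_nonneg (J - 1) K
  have h4 : 0 ≤ 2 * (D : ℝ) * ρ (J - 1) K := by positivity
  constructor <;> linarith

/-- The second moment method on the box. -/
theorem Cer.pr_ge (h : Cer D K J m s f ρ w) (n : ℕ) :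
    1 / w 0 1 1 0 ≤ pr (boxG (Fin (D + 1)) n) (face (Fin (D + 1)) n)
      ({⟨0, zero_mem_boxF n⟩} : Finset (boxF (Fin (D + 1)) n)) (((n + K - 1) * J : ℕ) * m) := by
  have hJ := h.J_pos
  have hK := h.K_pos
  set T := (n + K - 1) * J with hT
  -- the alive sites
  let R : ℕ → Set (boxF (Fin (D + 1)) n) := fun i =>
    {u | i ≤ T ∧ (((T - i) / J : ℕ) : ℤ) - K + 1 ≤ u.1 0 ∧ u.1 0 ≤ (((T - i) / J : ℕ) : ℤ)}
  let P : ℕ → boxF (Fin (D + 1)) n → boxF (Fin (D + 1)) n → ℝ := fun i u v =>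
    Pk (s ((T - (i + 1)) % J) (ix J (T - (i + 1)) u.1))
      (f ((T - (i + 1)) % J) (ix J (T - (i + 1)) u.1))
      (ρ ((T - (i + 1)) % J) (ix J (T - (i + 1)) u.1)) u v
  let W : ℕ → boxF (Fin (D + 1)) n → boxF (Fin (D + 1)) n → ℝ := fun i u v =>
    w ((T - i) % J) (ix J (T - i) u.1) (ix J (T - i) v.1) (tl u.1 - tl v.1)
  -- arithmetic of the time
  have htime : ∀ i, i + 1 ≤ T → (((T - (i + 1)) % J + 1 < J ∧ (T - i) % J = (T - (i + 1)) % J + 1 ∧
      (T - i) / J = (T - (i + 1)) / J) ∨ ((T - (i + 1)) % J + 1 = J ∧ (T - i) % J = 0 ∧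
      (T - i) / J = (T - (i + 1)) / J + 1)) := by
    intro i hi
    have h1 : T - i = T - (i + 1) + 1 := by omega
    rw [h1]
    generalize T - (i + 1) = t
    have h2 := Nat.mod_lt t (by omega : J > 0)
    have h3 := Nat.div_add_mod t J
    rcases Nat.lt_or_ge (t % J + 1) J with h4 | h4
    · left
      refine ⟨h4, ?_, ?_⟩
      · rw [← h3]
        rw [add_assoc, Nat.mul_add_mod, Nat.mod_eq_of_lt h4, Nat.mul_add_mod,
          Nat.mod_eq_of_lt h2]
      · rw [← h3]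
        rw [add_assoc, Nat.mul_add_div (by omega), Nat.mul_add_div (by omega),
          Nat.div_eq_of_lt h4, Nat.div_eq_of_lt h2]
    · right
      have h5 : t % J + 1 = J := by omega
      refine ⟨h5, ?_, ?_⟩
      · rw [← h3, add_assoc, h5]
        rw [← Nat.mul_succ]
        simp
      · conv_lhs => rw [← h3]
        rw [add_assoc, h5, ← Nat.mul_succ, Nat.mul_div_cancel_left _ (by omega)]
  have hidx : ∀ t (u : Fin (D + 1) → ℤ), u 0 ≤ ((t / J : ℕ) : ℤ) → ((t / J : ℕ) : ℤ) - K + 1 ≤ u 0 →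
      1 ≤ ix J t u ∧ ix J t u ≤ K := by
    intro t u h1 h2
    unfold ix
    omega
  -- the one-step sums
  have hone : ∀ i (u : boxF (Fin (D + 1)) n), u ∈ R (i + 1) → u ∉ face (Fin (D + 1)) n →
      ∀ φ : ℕ → (Fin D → ℤ) → ℝ, ∑ v, P i u v * φ (ix J (T - (i + 1)) v.1) (tl v.1) =
        Tm (s ((T - (i + 1)) % J) (ix J (T - (i + 1)) u.1))
          (f ((T - (i + 1)) % J) (ix J (T - (i + 1)) u.1))
          (ρ ((T - (i + 1)) % J) (ix J (T - (i + 1)) u.1)) (ix J (T - (i + 1)) u.1) (tl u.1) φ := by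
    intro i u hu huA φ
    have h1 := sum_Pk (s ((T - (i + 1)) % J) (ix J (T - (i + 1)) u.1))
      (f ((T - (i + 1)) % J) (ix J (T - (i + 1)) u.1))
      (ρ ((T - (i + 1)) % J) (ix J (T - (i + 1)) u.1)) huA
      (fun z => φ (ix J (T - (i + 1)) z) (tl z))
    have h2 : ix J (T - (i + 1)) (u.1 + dv (0, true)) = ix J (T - (i + 1)) u.1 - 1 := by
      unfold ix
      rw [head_add_fwd]
      omega
    have h3 : ∀ δ : Fin D × Bool, ix J (T - (i + 1)) (u.1 + dv (δ.1.succ, δ.2)) =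
        ix J (T - (i + 1)) u.1 := by
      intro δ
      unfold ix
      rw [head_add_succ]
    simp only [h2, h3, tl_add_fwd, tl_add_succ] at h1
    exact h1
  -- the value of `W i` in terms of the previous indices
  have hWi : ∀ i (u v : boxF (Fin (D + 1)) n), i + 1 ≤ T →
      u.1 0 ≤ (((T - (i + 1)) / J : ℕ) : ℤ) + 1 → v.1 0 ≤ (((T - (i + 1)) / J : ℕ) : ℤ) + 1 →
      W i u v = nxt J w ((T - (i + 1)) % J) (ix J (T - (i + 1)) u.1) (ix J (T - (i + 1)) v.1)
        (tl u.1 - tl v.1) := by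
    intro i u v hi hu hv
    simp only [W, nxt]
    rcases htime i hi with ⟨h1, h2, h3⟩ | ⟨h1, h2, h3⟩
    · rw [if_pos h1, h2]
      congr 1
      · unfold ix; rw [h3]
      · unfold ix; rw [h3]
    · rw [if_neg (by omega), h2]
      have h4 : ix J (T - i) u.1 = ix J (T - (i + 1)) u.1 + 1 := by
        unfold ix
        rw [h3]
        push_cast
        omega
      have h5 : ix J (T - i) v.1 = ix J (T - (i + 1)) v.1 + 1 := by
        unfold ix
        rw [h3]
        push_cast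
        omega
      rw [h4, h5]
  have hPR : ∀ i (u v : boxF (Fin (D + 1)) n), u ∈ R (i + 1) → u ∉ face (Fin (D + 1)) n →
      P i u v ≠ 0 → v ∈ R i := by
    intro i u v hu huA hP
    obtain ⟨hi, hlo, hhi⟩ := hu
    have hstep : ∀ x : ℤ, (x = u.1 0 + 1 ∧ f ((T - (i + 1)) % J) (ix J (T - (i + 1)) u.1) ≠ 0) ∨
        (x = u.1 0 ∧ (s ((T - (i + 1)) % J) (ix J (T - (i + 1)) u.1) ≠ 0 ∨
          2 * (D : ℝ) * ρ ((T - (i + 1)) % J) (ix J (T - (i + 1)) u.1) ≠ 0)) →
        (((T - i) / J : ℕ) : ℤ) - K + 1 ≤ x ∧ x ≤ (((T - i) / J : ℕ) : ℤ) := by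
      intro x hx
      rcases htime i hi with ⟨h1, h2, h3⟩ | ⟨h1, h2, h3⟩
      · rw [h3]
        rcases hx with ⟨rfl, hf⟩ | ⟨rfl, _⟩
        · refine ⟨by omega, ?_⟩
          by_contra hcon
          apply hf
          have h4 : ix J (T - (i + 1)) u.1 = 1 := by
            unfold ix
            omega
          rw [h4]
          exact h.f_top _
        · exact ⟨hlo, hhi⟩
      · rw [h3]
        push_cast
        rcases hx with ⟨rfl, _⟩ | ⟨rfl, hs⟩
        · constructor <;> omega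
        · refine ⟨?_, by omega⟩
          by_contra hcon
          have h4 : ix J (T - (i + 1)) u.1 = K := by
            unfold ix
            omega
          have h5 : (T - (i + 1)) % J = J - 1 := by omega
          rw [h4, h5] at hs
          obtain ⟨h6, h7⟩ := h.stay_bot
          rcases hs with hs | hs
          · exact hs h6
          · exact hs h7
    refine ⟨by omega, ?_⟩
    rcases Pk_ne_zero hP with ⟨rfl, hs⟩ | ⟨hv, hf⟩ | ⟨hρ, δ, hv⟩
    · exact hstep _ (Or.inr ⟨rfl, Or.inl hs⟩)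
    · exact hstep _ (Or.inl ⟨by rw [hv, head_add_fwd], hf⟩)
    · refine hstep _ (Or.inr ⟨by rw [hv, head_add_succ], Or.inr ?_⟩)
      have hD : 0 < D := Fin.pos δ.1
      have hD' : (D : ℝ) ≠ 0 := by positivity
      exact mul_ne_zero (mul_ne_zero two_ne_zero hD') hρ
  have hres := SM.pr_ge (G := boxG (Fin (D + 1)) n) (A := face (Fin (D + 1)) n) h.m_pos R P W
    ?_ ?_ ?_ hPR ?_ ?_ ?_ (i := T) (o := ⟨0, zero_mem_boxF n⟩) ?_ (C := w 0 1 1 0) ?_
  · exact hres
  · -- hR0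
    intro u hu
    obtain ⟨_, hlo, _⟩ := hu
    refine ⟨0, ?_⟩
    have h1 : (T - 0) / J = n + K - 1 := by
      rw [Nat.sub_zero, hT, Nat.mul_div_cancel _ (by omega)]
    rw [h1] at hlo
    have h2 := mem_boxF.mp u.2 0
    rw [abs_le] at h2
    have h3 : u.1 0 = n := by omega
    rw [h3]
    simp
  · intro i u v
    exact Pk_nonneg (h.s_nonneg _ _) (h.f_nonneg _ _) (h.ρ_nonneg _ _) u v
  · -- adjacency
    intro i u v _ _ hP
    rcases Pk_ne_zero hP with ⟨rfl, _⟩ | ⟨hv, _⟩ | ⟨_, δ, hv⟩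
    · exact Or.inl rfl
    · exact Or.inr (grid_adj_iff.mpr ⟨_, hv⟩)
    · exact Or.inr (grid_adj_iff.mpr ⟨_, hv⟩)
  · -- total mass
    intro i u hu huA
    have h1 := hone i u hu huA (fun _ _ => 1)
    simp only [mul_one] at h1
    rw [h1]
    have h2 := h.sum_eq ((T - (i + 1)) % J) (ix J (T - (i + 1)) u.1)
    unfold Tm
    simp only [mul_one, sum_const, card_univ, Fintype.card_prod, Fintype.card_fin,
      Fintype.card_bool, nsmul_eq_mul]
    push_cast
    linear_combination h2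
  · -- W ≥ 1
    intro i u v hu hv
    obtain ⟨hi, hu1, hu2⟩ := hu
    obtain ⟨_, hv1, hv2⟩ := hv
    have h1 := hidx (T - i) u.1 hu2 hu1
    have h2 := hidx (T - i) v.1 hv2 hv1
    exact h.one_le _ _ _ _ (Nat.mod_lt _ (by omega)) h1.1 h1.2 h2.1 h2.2
  · -- the main inequality
    intro i u v hu hv huA hvA
    have hu' := hu
    have hv' := hv
    obtain ⟨hi, hu1, hu2⟩ := hu
    obtain ⟨_, hv1, hv2⟩ := hv
    have h1 := hidx (T - (i + 1)) u.1 hu2 hu1
    have h2 := hidx (T - (i + 1)) v.1 hv2 hv1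
    have h3 := h.main ((T - (i + 1)) % J) (ix J (T - (i + 1)) u.1) (ix J (T - (i + 1)) v.1)
      (tl u.1 - tl v.1) (Nat.mod_lt _ (by omega)) h1.1 h1.2 h2.1 h2.2
    refine le_trans (le_of_eq ?_) h3
    -- sites reached in one step are not too far
    have hnear : ∀ (x : boxF (Fin (D + 1)) n), x ∈ R (i + 1) → x ∉ face (Fin (D + 1)) n →
        ∀ y, P i x y ≠ 0 → y.1 0 ≤ (((T - (i + 1)) / J : ℕ) : ℤ) + 1 := by
      intro x hx hxA y hP
      obtain ⟨_, _, hx2⟩ := hx
      rcases Pk_ne_zero hP with ⟨rfl, _⟩ | ⟨hy, _⟩ | ⟨_, δ, hy⟩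
      · omega
      · rw [hy, head_add_fwd]; omega
      · rw [hy, head_add_succ]; omega
    congr 1
    · -- the pair expectation
      have h4 : ∑ u', ∑ v', P i u u' * P i v v' * W i u' v' =
          ∑ u', P i u u' * (fun a' x' => ∑ v', P i v v' * (fun b' y' =>
            nxt J w ((T - (i + 1)) % J) a' b' (x' - y')) (ix J (T - (i + 1)) v'.1) (tl v'.1))
            (ix J (T - (i + 1)) u'.1) (tl u'.1) := by
        refine sum_congr rfl fun u' _ => ?_
        simp only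
        rw [mul_sum]
        refine sum_congr rfl fun v' _ => ?_
        by_cases hPu : P i u u' = 0
        · simp [hPu]
        · by_cases hPv : P i v v' = 0
          · simp [hPv]
          · rw [hWi i u' v' hi (hnear u hu' huA u' hPu) (hnear v hv' hvA v' hPv)]
            ring
      rw [h4]
      refine (hone i u hu' huA (fun a' x' => ∑ v', P i v v' * (fun b' y' =>
            nxt J w ((T - (i + 1)) % J) a' b' (x' - y')) (ix J (T - (i + 1)) v'.1)
              (tl v'.1))).trans ?_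
      have h5 : (fun (a' : ℕ) (x' : Fin D → ℤ) => ∑ v', P i v v' * (fun b' y' =>
            nxt J w ((T - (i + 1)) % J) a' b' (x' - y')) (ix J (T - (i + 1)) v'.1)
              (tl v'.1)) = fun a' x' =>
            Tm (s ((T - (i + 1)) % J) (ix J (T - (i + 1)) v.1))
              (f ((T - (i + 1)) % J) (ix J (T - (i + 1)) v.1))
              (ρ ((T - (i + 1)) % J) (ix J (T - (i + 1)) v.1)) (ix J (T - (i + 1)) v.1) (tl v.1)
              fun b' y' => nxt J w ((T - (i + 1)) % J) a' b' (x' - y') := by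
        funext a' x'
        exact hone i v hv' hvA (fun b' y' => nxt J w ((T - (i + 1)) % J) a' b' (x' - y'))
      rw [h5]
      exact Tp_eq (s ((T - (i + 1)) % J)) (f ((T - (i + 1)) % J)) (ρ ((T - (i + 1)) % J)) _ _ _ _ _
    · -- the coincidence term
      have h5 : (u = v) ↔ (ix J (T - (i + 1)) u.1 = ix J (T - (i + 1)) v.1 ∧
          tl u.1 - tl v.1 = 0) := by
        constructor
        · rintro rfl
          simp
        · rintro ⟨h6, h7⟩
          have h8 : u.1 0 = v.1 0 := by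
            unfold ix at h6
            omega
          apply Subtype.ext
          funext j
          refine Fin.cases h8 (fun j => ?_) j
          have := congrFun h7 j
          simp only [Pi.sub_apply, Pi.zero_apply, tl] at this
          omega
      by_cases huv : u = v
      · rw [if_pos huv, if_pos (h5.mp huv)]
        congr 1
        have h6 : ∑ v' ∈ univ.erase u, P i u v' ^ 2 * W i v' v' =
            ∑ v' ∈ univ.erase u, P i u v' ^ 2 * (fun z => nxt J w ((T - (i + 1)) % J)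
              (ix J (T - (i + 1)) z) (ix J (T - (i + 1)) z) 0) v'.1 := by
          refine sum_congr rfl fun v' _ => ?_
          by_cases hPu : P i u v' = 0
          · simp [hPu]
          · have h7 := hnear u hu' huA v' hPu
            rw [hWi i v' v' hi h7 h7, sub_self]
        rw [h6]
        have h7 := sum_Pk_sq (s ((T - (i + 1)) % J) (ix J (T - (i + 1)) u.1))
          (f ((T - (i + 1)) % J) (ix J (T - (i + 1)) u.1))
          (ρ ((T - (i + 1)) % J) (ix J (T - (i + 1)) u.1)) huA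
          (fun z => nxt J w ((T - (i + 1)) % J)
            (ix J (T - (i + 1)) z) (ix J (T - (i + 1)) z) 0)
        have h8 : ix J (T - (i + 1)) (u.1 + dv (0, true)) = ix J (T - (i + 1)) u.1 - 1 := by
          unfold ix
          rw [head_add_fwd]
          omega
        have h9 : ∀ δ : Fin D × Bool, ix J (T - (i + 1)) (u.1 + dv (δ.1.succ, δ.2)) =
            ix J (T - (i + 1)) u.1 := by
          intro δ
          unfold ix
          rw [head_add_succ]
        simp only [h8, h9] at h7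
        refine h7.trans ?_
        simp only [sum_const, card_univ, Fintype.card_prod, Fintype.card_fin,
          Fintype.card_bool, nsmul_eq_mul]
        push_cast
        ring
      · rw [if_neg huv, if_neg (fun h' => huv (h5.mpr h'))]
  · -- the origin is alive
    refine ⟨le_rfl, ?_, ?_⟩
    · simp only [Nat.sub_self, Nat.zero_div]
      push_cast
      simp only [Pi.zero_apply]
      omega
    · simp
  · -- the value at the origin
    have h1 : ix J (T - T) (0 : Fin (D + 1) → ℤ) = 1 := by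
      simp [ix]
    show w ((T - T) % J) (ix J (T - T) (0 : Fin (D + 1) → ℤ)) (ix J (T - T) (0 : Fin (D + 1) → ℤ))
      (tl (0 : Fin (D + 1) → ℤ) - tl (0 : Fin (D + 1) → ℤ)) ≤ w 0 1 1 0
    rw [h1, sub_self, Nat.sub_self, Nat.zero_mod]

end Pool.Agent.Lib.MP_edae2b_pr.SM
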