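import Pool.Agent.Lib.MP_edae2b_pr.SM.Second

/-!
# The second moment method, when only the boundary edges are random
-/

namespace Pool.Agent.Lib.MP_edae2b_pr.SM

open MeasureTheory ProbabilityTheory Filter Topology Finset
open scoped ENNReal

variable {V : Type*} [Fintype V] [DecidableEq V] {G : SimpleGraph V} [DecidableRel G.Adj]

/-- The second moment method in terms of quadratic forms. Mass moves deterministically inside
`S` and at random through the boundary of `S`. -/
theorem second_moment_qf {A : Set V} {m : ℝ} (hm : 0 < m) (R : ℕ → Set V) (P : ℕ → V → V → ℝ)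
    (W : ℕ → V → V → ℝ)
    (hR0 : ∀ u ∈ R 0, u ∈ A)
    (hP0 : ∀ i u v, 0 ≤ P i u v)
    (hPadj : ∀ i u v, u ∈ R (i + 1) → u ∉ A → P i u v ≠ 0 → u = v ∨ G.Adj u v)
    (hPR : ∀ i u v, u ∈ R (i + 1) → u ∉ A → P i u v ≠ 0 → v ∈ R i)
    (hPsum : ∀ i u, u ∈ R (i + 1) → u ∉ A → ∑ v, P i u v = 1)
    (hW1 : ∀ i u v, u ∈ R i → v ∈ R i → 1 ≤ W i u v)
    (hW : ∀ i, ∀ S : Finset V, ∀ x : V → ℝ, (∀ u, 0 ≤ x u) →
      (∀ u, x u ≠ 0 → u ∈ S ∧ u ∈ R (i + 1)) → Disjoint (S : Set V) A →
      qf (W i) (fun v => ∑ u, P i u v * x u) + (1 / (1 - Real.exp (-m)) - 1) *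
        ∑ e ∈ bd G S, P i e.1 e.2 ^ 2 * W i e.2 e.2 * x e.1 ^ 2 ≤ qf (W (i + 1)) x) :
    ∀ i : ℕ, ∀ S : Finset V, ∀ x : V → ℝ, (∀ u, 0 ≤ x u) → (∀ u, x u ≠ 0 → u ∈ S ∧ u ∈ R i) →
      (∑ u, x u) ^ 2 ≤ pr G A S (i * m) * qf (W i) x := by
  set q := 1 - Real.exp (-m) with hqdef
  have hexp : Real.exp (-m) < 1 := by
    have := Real.exp_lt_exp.mpr (show -m < 0 by linarith)
    rwa [Real.exp_zero] at this
  have hq : 0 < q := by rw [hqdef]; linarith
  have hq1 : q ≤ 1 := by rw [hqdef]; linarith [Real.exp_pos (-m)]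
  have hone : ∀ i : ℕ, ∀ S : Finset V, ∀ x : V → ℝ, (∀ u, 0 ≤ x u) →
      (∀ u, x u ≠ 0 → u ∈ S ∧ u ∈ R i) → ¬ Disjoint (S : Set V) A →
      (∑ u, x u) ^ 2 ≤ pr G A S (i * m) * qf (W i) x := by
    intro i S x hx hxS hSA
    rw [pr_eq_one hSA, one_mul]
    exact sq_sum_le_qf hx fun u v hu hv => hW1 i u v (hxS u hu).2 (hxS v hv).2
  intro i
  induction i with
  | zero =>
    intro S x hx hxS
    by_cases h0 : ∀ u, x u = 0
    · simp [h0, qf]
    · push Not at h0
      obtain ⟨u, hu⟩ := h0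
      refine hone 0 S x hx hxS (Set.not_disjoint_iff.mpr ⟨u, ?_, hR0 u (hxS u hu).2⟩)
      exact_mod_cast (hxS u hu).1
  | succ i ih =>
    intro S x hx hxS
    by_cases hSA : Disjoint (S : Set V) A
    · have hnA : ∀ u, x u ≠ 0 → u ∉ A := fun u hu =>
        Set.disjoint_left.mp hSA (by exact_mod_cast (hxS u hu).1)
      have hxS' : ∀ u, x u ≠ 0 → u ∈ S := fun u hu => (hxS u hu).1
      let y : V → ℝ := fun v => if v ∈ S then ∑ u, P i u v * x u else 0
      let x' : Finset (V × V) → V → ℝ := fun C v => y v + ∑ e ∈ C, tr (P i) q x e v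
      have htr : ∀ e v, 0 ≤ tr (P i) q x e v := by
        intro e v
        unfold tr
        split_ifs
        · exact mul_nonneg (div_nonneg (hP0 _ _ _) hq.le) (hx _)
        · exact le_rfl
      have hy0 : ∀ v, 0 ≤ y v := by
        intro v
        simp only [y]
        split_ifs
        · exact sum_nonneg fun u _ => mul_nonneg (hP0 _ _ _) (hx u)
        · exact le_rfl
      have hx'0 : ∀ C v, 0 ≤ x' C v := fun C v =>
        add_nonneg (hy0 v) (sum_nonneg fun e _ => htr e v)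
      have hx'S : ∀ C, ∀ v, x' C v ≠ 0 → v ∈ S ∪ tips C ∧ v ∈ R i := by
        intro C v hv
        by_cases h1 : y v = 0
        · have h2 : ∑ e ∈ C, tr (P i) q x e v ≠ 0 := by
            intro h
            exact hv (by simp only [x', h1, h, add_zero])
          obtain ⟨e, he, hne⟩ := exists_ne_zero_of_sum_ne_zero h2
          unfold tr at hne
          by_cases h3 : v = e.2
          · rw [if_pos h3] at hne
            have hxe : x e.1 ≠ 0 := right_ne_zero_of_mul hne
            have hPe : P i e.1 e.2 ≠ 0 := by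
              intro h
              exact hne (by rw [h]; simp)
            refine ⟨mem_union_right _ (mem_image.mpr ⟨e, he, h3.symm⟩), ?_⟩
            rw [h3]
            exact hPR i e.1 e.2 (hxS _ hxe).2 (hnA _ hxe) hPe
          · rw [if_neg h3] at hne
            exact absurd rfl hne
        · simp only [y] at h1
          by_cases h3 : v ∈ S
          · rw [if_pos h3] at h1
            obtain ⟨u, _, hu⟩ := exists_ne_zero_of_sum_ne_zero h1
            have hxu : x u ≠ 0 := right_ne_zero_of_mul hu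
            exact ⟨mem_union_left _ h3, hPR i u v (hxS u hxu).2 (hnA u hxu)
              (left_ne_zero_of_mul hu)⟩
          · rw [if_neg h3] at h1
            exact absurd rfl h1
      have hadj : ∀ u v, x u ≠ 0 → P i u v ≠ 0 → u = v ∨ G.Adj u v := fun u v hu hP =>
        hPadj i u v (hxS u hu).2 (hnA u hu) hP
      -- the mean of the new mass
      have hmean : ∀ v, y v + q * ∑ e ∈ bd G S, tr (P i) q x e v = ∑ u, P i u v * x u := by
        intro v
        by_cases hvS : v ∈ S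
        · have h1 : ∑ e ∈ bd G S, tr (P i) q x e v = 0 := by
            refine sum_eq_zero fun e he => ?_
            unfold tr
            rw [if_neg]
            rintro rfl
            exact (mem_bd.mp he).2.1 hvS
          rw [h1, mul_zero, add_zero]
          simp only [y]
          rw [if_pos hvS]
        · have h1 := sum_tr (P i) hq.ne' hxS' hadj v (S := S)
          have hxv : x v = 0 := by
            by_contra h
            exact hvS (hxS' v h)
          rw [hxv, mul_zero, zero_add] at h1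
          rw [← h1]
          simp only [y]
          rw [if_neg hvS, zero_add]
          congr 1
          refine sum_subset (fun e he => ?_) fun e he he' => ?_
          · have := mem_bd.mp he
            exact mem_dE.mpr ⟨this.1, this.2.2⟩
          · unfold tr
            rw [if_neg]
            rintro rfl
            have h2 := mem_dE.mp he
            exact he' (mem_bd.mpr ⟨h2.1, hvS, h2.2⟩)
      -- Cauchy-Schwarz
      have hCS := sq_Eb_le (q := q) hq.le hq1 (E := bd G S)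
        (X := fun C => ∑ v, x' C v)
        (p := fun C => pr G A (S ∪ tips C) (i * m)) (Q := fun C => qf (W i) (x' C))
        (fun C _ => pr_nonneg _ _ _) (fun C _ => by
          refine le_trans (sq_nonneg _) (sq_sum_le_qf (W := W i) (hx'0 C) fun u v hu hv => ?_)
          exact hW1 i u v (hx'S C u hu).2 (hx'S C v hv).2)
        (fun C _ => ih (S ∪ tips C) (x' C) (hx'0 C) (hx'S C))
      -- first moment
      have hfirst : Eb q (bd G S) (fun C => ∑ v, x' C v) = ∑ u, x u := by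
        have h1 : ∀ C, ∑ v, x' C v = ∑ v, y v + ∑ e ∈ C, ∑ v, tr (P i) q x e v := by
          intro C
          simp only [x']
          rw [sum_add_distrib]
          congr 1
          rw [sum_comm]
        rw [Eb_congr (fun C _ => h1 C), Eb_lin]
        have h2 : q * ∑ e ∈ bd G S, ∑ v, tr (P i) q x e v =
            ∑ v, q * ∑ e ∈ bd G S, tr (P i) q x e v := by
          rw [sum_comm, mul_sum]
        rw [h2, ← sum_add_distrib, sum_congr rfl fun v _ => hmean v, sum_comm]
        refine sum_congr rfl fun u _ => ?_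
        rw [← sum_mul]
        by_cases hu : x u = 0
        · simp [hu]
        · rw [hPsum i u (hxS u hu).2 (hnA u hu), one_mul]
      -- second moment
      have hsecond : Eb q (bd G S) (fun C => qf (W i) (x' C)) ≤ qf (W (i + 1)) x := by
        simp only [x']
        rw [Eb_qf]
        have h1 : (fun v => y v + q * ∑ e ∈ bd G S, tr (P i) q x e v) =
            fun v => ∑ u, P i u v * x u := by
          funext v
          exact hmean v
        rw [h1]
        refine le_trans (le_of_eq ?_) (hW i S x hx hxS hSA)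
        congr 1
        rw [mul_sum, mul_sum]
        refine sum_congr rfl fun e _ => ?_
        rw [qf_tr]
        field_simp
      -- percolation step
      have hperc : Eb q (bd G S) (fun C => pr G A (S ∪ tips C) (i * m)) ≤
          pr G A S ((i + 1 : ℕ) * m) := by
        have h1 := pr_step (G := G) (A := A) (S := S) hm.le
          (show (0 : ℝ) ≤ i * m by positivity)
        have h2 : ((i + 1 : ℕ) : ℝ) * m = i * m + m := by push_cast; ring
        rw [h2]
        exact h1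
      rw [hfirst] at hCS
      refine hCS.trans ?_
      refine mul_le_mul hperc hsecond ?_ (pr_nonneg _ _ _)
      refine Eb_nonneg hq.le hq1 fun C _ => ?_
      refine le_trans (sq_nonneg _) (sq_sum_le_qf (W := W i) (hx'0 C) fun u v hu hv => ?_)
      exact hW1 i u v (hx'S C u hu).2 (hx'S C v hv).2
    · exact hone (i + 1) S x hx hxS hSA

/-- The penalty of the boundary edges in terms of squares of differences. -/
lemma penalty_le {S : Finset V} {x : V → ℝ} (hxS : ∀ u, x u ≠ 0 → u ∈ S)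
    {Ms Mf Ef : V → V → ℝ} (hMs : ∀ u v, 0 ≤ Ms u v) (hsymm : ∀ u v, Ms u v = Ms v u)
    (hMf : ∀ u v, 0 ≤ Mf u v) :
    ∑ u, ∑ v, (if u ∈ S ∧ v ∉ S then (Ms u v + Mf u v) * x u ^ 2 else 0) ≤
      ∑ u, ∑ v, ((Ms u v + Mf u v) * x u ^ 2 + Ef u v ^ 2 * Mf u v * x v ^ 2
        - Ms u v * (x u * x v) - 2 * (Ef u v * Mf u v) * (x u * x v)) := by
  classical
  have hx0 : ∀ u, u ∉ S → x u = 0 := fun u hu => by
    by_contra h
    exact hu (hxS u h)
  -- symmetrization
  have h1 : ∑ u, ∑ v, (if u ∈ S ∧ v ∉ S then Ms u v * x u ^ 2 else 0) =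
      ∑ u, ∑ v, (if v ∈ S ∧ u ∉ S then Ms u v * x v ^ 2 else 0) := by
    rw [sum_comm]
    refine sum_congr rfl fun u _ => sum_congr rfl fun v _ => ?_
    rw [hsymm u v]
  have h2 : ∑ u, ∑ v, Ms u v * x u ^ 2 = ∑ u, ∑ v, Ms u v * x v ^ 2 := by
    rw [sum_comm]
    refine sum_congr rfl fun u _ => sum_congr rfl fun v _ => ?_
    rw [hsymm u v]
  have h3 : ∑ u, ∑ v, ((if u ∈ S ∧ v ∉ S then Ms u v * x u ^ 2 else 0) +
      (if v ∈ S ∧ u ∉ S then Ms u v * x v ^ 2 else 0)) ≤
      ∑ u, ∑ v, (Ms u v * x u ^ 2 + Ms u v * x v ^ 2 - 2 * (Ms u v * (x u * x v))) := by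
    refine sum_le_sum fun u _ => sum_le_sum fun v _ => ?_
    have h4 : 0 ≤ Ms u v * (x u - x v) ^ 2 := mul_nonneg (hMs u v) (sq_nonneg _)
    by_cases hu : u ∈ S
    · by_cases hv : v ∈ S
      · simp only [hu, hv, not_true_eq_false, and_false, if_false, add_zero]
        nlinarith
      · simp only [hu, hv, not_false_eq_true, and_self, if_true, not_true_eq_false, if_false,
          add_zero, hx0 v hv]
        nlinarith
    · by_cases hv : v ∈ S
      · simp only [hu, hv, not_false_eq_true, and_self, if_true, false_and, if_false,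
          zero_add, hx0 u hu]
        nlinarith
      · simp only [hu, hv, false_and, if_false, add_zero, hx0 u hu, hx0 v hv]
        nlinarith
  have h5 : ∑ u, ∑ v, (if u ∈ S ∧ v ∉ S then Mf u v * x u ^ 2 else 0) ≤
      ∑ u, ∑ v, (Mf u v * x u ^ 2 + Ef u v ^ 2 * Mf u v * x v ^ 2 -
        2 * (Ef u v * Mf u v) * (x u * x v)) := by
    refine sum_le_sum fun u _ => sum_le_sum fun v _ => ?_
    have h6 : 0 ≤ Mf u v * (x u - Ef u v * x v) ^ 2 := mul_nonneg (hMf u v) (sq_nonneg _)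
    by_cases huv : u ∈ S ∧ v ∉ S
    · rw [if_pos huv, hx0 v huv.2]
      nlinarith
    · rw [if_neg huv]
      nlinarith
  simp only [sum_add_distrib, sum_sub_distrib] at h3 h5 ⊢
  have h7 : ∑ u, ∑ v, (if u ∈ S ∧ v ∉ S then (Ms u v + Mf u v) * x u ^ 2 else 0) =
      ∑ u, ∑ v, (if u ∈ S ∧ v ∉ S then Ms u v * x u ^ 2 else 0) +
      ∑ u, ∑ v, (if u ∈ S ∧ v ∉ S then Mf u v * x u ^ 2 else 0) := by
    rw [← sum_add_distrib]
    refine sum_congr rfl fun u _ => ?_
    rw [← sum_add_distrib]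
    refine sum_congr rfl fun v _ => ?_
    split_ifs
    · ring
    · simp
  have h8 : ∑ u, ∑ v, (Ms u v + Mf u v) * x u ^ 2 = ∑ u, ∑ v, Ms u v * x u ^ 2 +
      ∑ u, ∑ v, Mf u v * x u ^ 2 := by
    rw [← sum_add_distrib]
    refine sum_congr rfl fun u _ => ?_
    rw [← sum_add_distrib]
    refine sum_congr rfl fun v _ => ?_
    ring
  have h9 : ∑ u, ∑ v, 2 * (Ms u v * (x u * x v)) = 2 * ∑ u, ∑ v, Ms u v * (x u * x v) := by
    simp only [mul_sum]
  rw [h7, h8]
  rw [← h1, h9, ← h2] at h3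
  linarith

/-- The second moment method with pairwise conditions: the penalties of the edges counted in
`Ms` are symmetric, the others are counted in `Mf`. -/
theorem second_moment2 {A : Set V} {m : ℝ} (hm : 0 < m) (R : ℕ → Set V) (P : ℕ → V → V → ℝ)
    (W Ms Mf Ef : ℕ → V → V → ℝ)
    (hR0 : ∀ u ∈ R 0, u ∈ A)
    (hP0 : ∀ i u v, 0 ≤ P i u v)
    (hPadj : ∀ i u v, u ∈ R (i + 1) → u ∉ A → P i u v ≠ 0 → u = v ∨ G.Adj u v)
    (hPR : ∀ i u v, u ∈ R (i + 1) → u ∉ A → P i u v ≠ 0 → v ∈ R i)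
    (hPsum : ∀ i u, u ∈ R (i + 1) → u ∉ A → ∑ v, P i u v = 1)
    (hW1 : ∀ i u v, u ∈ R i → v ∈ R i → 1 ≤ W i u v)
    (hMs : ∀ i u v, 0 ≤ Ms i u v) (hsymm : ∀ i u v, Ms i u v = Ms i v u)
    (hMf : ∀ i u v, 0 ≤ Mf i u v)
    (hpen : ∀ i u v, u ∈ R (i + 1) → u ∉ A → u ≠ v →
      (1 / (1 - Real.exp (-m)) - 1) * (P i u v ^ 2 * W i v v) ≤ Ms i u v + Mf i u v)
    (hW : ∀ i u v, u ∈ R (i + 1) → v ∈ R (i + 1) → u ∉ A → v ∉ A →
      ∑ u', ∑ v', P i u u' * P i v v' * W i u' v' +
        (if u = v then ∑ v', (Ms i u v' + Mf i u v' + Ef i v' u ^ 2 * Mf i v' u) else 0) -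
        Ms i u v - Ef i u v * Mf i u v - Ef i v u * Mf i v u ≤ W (i + 1) u v) :
    ∀ i : ℕ, ∀ S : Finset V, ∀ x : V → ℝ, (∀ u, 0 ≤ x u) → (∀ u, x u ≠ 0 → u ∈ S ∧ u ∈ R i) →
      (∑ u, x u) ^ 2 ≤ pr G A S (i * m) * qf (W i) x := by
  refine second_moment_qf hm R P W hR0 hP0 hPadj hPR hPsum hW1 ?_
  intro i S x hx hxS hSA
  have hnA : ∀ u, x u ≠ 0 → u ∉ A := fun u hu =>
    Set.disjoint_left.mp hSA (by exact_mod_cast (hxS u hu).1)
  have hxS' : ∀ u, x u ≠ 0 → u ∈ S := fun u hu => (hxS u hu).1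
  -- the penalty
  have h1 : (1 / (1 - Real.exp (-m)) - 1) *
      ∑ e ∈ bd G S, P i e.1 e.2 ^ 2 * W i e.2 e.2 * x e.1 ^ 2 ≤
      ∑ u, ∑ v, (if u ∈ S ∧ v ∉ S then (Ms i u v + Mf i u v) * x u ^ 2 else 0) := by
    rw [← Fintype.sum_prod_type' (f := fun u v => if u ∈ S ∧ v ∉ S then
      (Ms i u v + Mf i u v) * x u ^ 2 else 0), mul_sum]
    unfold bd
    rw [sum_filter]
    refine sum_le_sum fun e _ => ?_
    by_cases he : e.1 ∈ S ∧ e.2 ∉ S
    · rw [if_pos he]
      have hnn : 0 ≤ (Ms i e.1 e.2 + Mf i e.1 e.2) * x e.1 ^ 2 :=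
        mul_nonneg (add_nonneg (hMs _ _ _) (hMf _ _ _)) (sq_nonneg _)
      split_ifs with h2
      · by_cases hxe : x e.1 = 0
        · simp [hxe]
        · have h3 := hpen i e.1 e.2 (hxS _ hxe).2 (hnA _ hxe) (fun h => he.2 (h ▸ he.1))
          have h4 := mul_le_mul_of_nonneg_right h3 (sq_nonneg (x e.1))
          refine le_trans (le_of_eq ?_) h4
          ring
      · exact hnn
    · rw [if_neg he, if_neg (fun h => he ⟨h.1, h.2.1⟩)]
  have h2 := penalty_le hxS' (Ms := Ms i) (Mf := Mf i) (Ef := Ef i) (hMs i) (hsymm i) (hMf i)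
  rw [qf_transport]
  -- collect the diagonal terms
  have h3 : ∑ u, ∑ v, ((Ms i u v + Mf i u v) * x u ^ 2 + Ef i u v ^ 2 * Mf i u v * x v ^ 2
        - Ms i u v * (x u * x v) - 2 * (Ef i u v * Mf i u v) * (x u * x v)) =
      ∑ u, ∑ v, ((if u = v then ∑ v', (Ms i u v' + Mf i u v' + Ef i v' u ^ 2 * Mf i v' u) else 0)
        - Ms i u v - Ef i u v * Mf i u v - Ef i v u * Mf i v u) * (x u * x v) := by
    have h4 : ∑ u, ∑ v, (Ms i u v + Mf i u v) * x u ^ 2 + ∑ u, ∑ v, Ef i u v ^ 2 * Mf i u v * x v ^ 2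
        = ∑ u, ∑ v, (if u = v then ∑ v', (Ms i u v' + Mf i u v' + Ef i v' u ^ 2 * Mf i v' u)
          else 0) * (x u * x v) := by
      rw [sum_comm (f := fun u v => Ef i u v ^ 2 * Mf i u v * x v ^ 2), ← sum_add_distrib]
      refine sum_congr rfl fun u _ => ?_
      have h5 : ∑ v, (if u = v then ∑ v', (Ms i u v' + Mf i u v' + Ef i v' u ^ 2 * Mf i v' u)
          else 0) * (x u * x v) =
          (∑ v', (Ms i u v' + Mf i u v' + Ef i v' u ^ 2 * Mf i v' u)) * (x u * x u) := by
        rw [sum_eq_single u]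
        · rw [if_pos rfl]
        · intro v _ hv
          rw [if_neg (fun h => hv h.symm), zero_mul]
        · simp
      rw [h5, sum_mul, ← sum_add_distrib]
      refine sum_congr rfl fun v _ => ?_
      ring
    have h6 : ∑ u, ∑ v, (Ef i u v * Mf i u v) * (x u * x v) =
        ∑ u, ∑ v, (Ef i v u * Mf i v u) * (x u * x v) := by
      rw [sum_comm]
      refine sum_congr rfl fun u _ => sum_congr rfl fun v _ => ?_
      ring
    obtain ⟨dg, hdg⟩ : ∃ dg : V → ℝ, ∀ u, dg u =
        ∑ v', (Ms i u v' + Mf i u v' + Ef i v' u ^ 2 * Mf i v' u) := ⟨_, fun _ => rfl⟩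
    simp only [← hdg] at h4 ⊢
    simp only [sub_mul, sum_add_distrib, sum_sub_distrib]
    have h7 : ∑ u, ∑ v, 2 * (Ef i u v * Mf i u v) * (x u * x v) =
        2 * ∑ u, ∑ v, (Ef i u v * Mf i u v) * (x u * x v) := by
      simp only [mul_sum]
      refine sum_congr rfl fun u _ => sum_congr rfl fun v _ => ?_
      ring
    rw [h7]
    linarith
  have h8 : ∑ u, ∑ v, (∑ u', ∑ v', P i u u' * P i v v' * W i u' v') * (x u * x v) +
      ∑ u, ∑ v, ((if u = v then ∑ v', (Ms i u v' + Mf i u v' + Ef i v' u ^ 2 * Mf i v' u) else 0)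
        - Ms i u v - Ef i u v * Mf i u v - Ef i v u * Mf i v u) * (x u * x v) ≤
      qf (W (i + 1)) x := by
    unfold qf
    rw [← sum_add_distrib]
    refine sum_le_sum fun u _ => ?_
    rw [← sum_add_distrib]
    refine sum_le_sum fun v _ => ?_
    rw [← add_mul]
    by_cases hu : x u = 0
    · simp [hu]
    · by_cases hv : x v = 0
      · simp [hv]
      · refine mul_le_mul_of_nonneg_right ?_ (mul_nonneg (hx u) (hx v))
        have := hW i u v (hxS u hu).2 (hxS v hv).2 (hnA u hu) (hnA v hv)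
        linarith
  linarith

/-- Consequence for a single starting point. -/
theorem pr_ge2 {A : Set V} {m : ℝ} (hm : 0 < m) (R : ℕ → Set V) (P : ℕ → V → V → ℝ)
    (W Ms Mf Ef : ℕ → V → V → ℝ)
    (hR0 : ∀ u ∈ R 0, u ∈ A)
    (hP0 : ∀ i u v, 0 ≤ P i u v)
    (hPadj : ∀ i u v, u ∈ R (i + 1) → u ∉ A → P i u v ≠ 0 → u = v ∨ G.Adj u v)
    (hPR : ∀ i u v, u ∈ R (i + 1) → u ∉ A → P i u v ≠ 0 → v ∈ R i)
    (hPsum : ∀ i u, u ∈ R (i + 1) → u ∉ A → ∑ v, P i u v = 1)
    (hW1 : ∀ i u v, u ∈ R i → v ∈ R i → 1 ≤ W i u v)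
    (hMs : ∀ i u v, 0 ≤ Ms i u v) (hsymm : ∀ i u v, Ms i u v = Ms i v u)
    (hMf : ∀ i u v, 0 ≤ Mf i u v)
    (hpen : ∀ i u v, u ∈ R (i + 1) → u ∉ A → u ≠ v →
      (1 / (1 - Real.exp (-m)) - 1) * (P i u v ^ 2 * W i v v) ≤ Ms i u v + Mf i u v)
    (hW : ∀ i u v, u ∈ R (i + 1) → v ∈ R (i + 1) → u ∉ A → v ∉ A →
      ∑ u', ∑ v', P i u u' * P i v v' * W i u' v' +
        (if u = v then ∑ v', (Ms i u v' + Mf i u v' + Ef i v' u ^ 2 * Mf i v' u) else 0) -
        Ms i u v - Ef i u v * Mf i u v - Ef i v u * Mf i v u ≤ W (i + 1) u v)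
    {i : ℕ} {o : V} (ho : o ∈ R i) {C : ℝ} (hC : W i o o ≤ C) :
    1 / C ≤ pr G A {o} (i * m) := by
  have h1 := second_moment2 hm R P W Ms Mf Ef hR0 hP0 hPadj hPR hPsum hW1 hMs hsymm hMf hpen hW
    i {o} (Pi.single o 1)
    (fun u => by
      by_cases h : u = o
      · subst h; simp
      · simp [h]) (fun u hu => by
      have : u = o := by
        by_contra h
        exact hu (by simp [h])
      subst this
      exact ⟨mem_singleton_self _, ho⟩)
  have h2 : ∑ u, (Pi.single o 1 : V → ℝ) u = 1 := by simp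
  have h3 : qf (W i) (Pi.single o 1) = W i o o := by
    unfold qf
    rw [sum_eq_single o]
    · rw [sum_eq_single o]
      · simp
      · intro v _ hv
        simp [hv]
      · simp
    · intro u _ hu
      refine sum_eq_zero fun v _ => ?_
      simp [hu]
    · simp
  rw [h2, h3] at h1
  have h4 : 1 ≤ W i o o := hW1 i o o ho ho
  have hC0 : 0 < C := by linarith
  rw [div_le_iff₀ hC0]
  have h5 := mul_le_mul_of_nonneg_left hC (pr_nonneg (G := G) A {o} (i * m))
  linarith

end Pool.Agent.Lib.MP_edae2b_pr.SM
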