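import Pool.Agent.Lib.MP_edae2b_pr.SM.Box
import Pool.Agent.Lib.MP_edae2b_pr.SM.Second2

/-!
# The improved second moment method on boxes: only the boundary edges are random
-/

namespace Pool.Agent.Lib.MP_edae2b_pr.SM

open MeasureTheory ProbabilityTheory Filter Topology Finset

variable {D : ℕ} {n : ℕ}

/-- The data of a certificate for the improved second moment method. -/
structure Cer2 (D K J : ℕ) (m : ℝ) (s f ρ kS kF ε : ℕ → ℕ → ℝ)
    (w : ℕ → ℕ → ℕ → (Fin D → ℤ) → ℝ) : Prop where
  K_pos : 1 ≤ K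
  J_pos : 1 ≤ J
  m_pos : 0 < m
  s_nonneg : ∀ r a, 0 ≤ s r a
  f_nonneg : ∀ r a, 0 ≤ f r a
  ρ_nonneg : ∀ r a, 0 ≤ ρ r a
  sum_eq : ∀ r a, s r a + f r a + 2 * D * ρ r a = 1
  f_top : ∀ r, f r 1 = 0
  f_bot : f (J - 1) K = 1
  kS_nonneg : ∀ r a, 0 ≤ kS r a
  kF_nonneg : ∀ r a, 0 ≤ kF r a
  one_le : ∀ r a b z, r < J → 1 ≤ a → a ≤ K → 1 ≤ b → b ≤ K → 1 ≤ w r a b z
  kS_ge : ∀ r a, r < J → 1 ≤ a → a ≤ K →
    (1 / (1 - Real.exp (-m)) - 1) * (ρ r a ^ 2 * nxt J w r a a 0) ≤ kS r a
  kF_ge : ∀ r a, r < J → 1 ≤ a → a ≤ K →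
    (1 / (1 - Real.exp (-m)) - 1) * (f r a ^ 2 * nxt J w r (a - 1) (a - 1) 0) ≤ kF r a
  diag : ∀ r a, r < J → 1 ≤ a → a ≤ K →
    Tp (s r) (f r) (ρ r) (nxt J w r) a a 0 + 2 * D * kS r a + kF r a +
      (if a + 1 ≤ K then ε r (a + 1) ^ 2 * kF r (a + 1) else 0) ≤ w r a a 0
  adj : ∀ r a (δ : Fin D × Bool), r < J → 1 ≤ a → a ≤ K →
    Tp (s r) (f r) (ρ r) (nxt J w r) a a (dv δ) - kS r a ≤ w r a a (dv δ)
  fwd : ∀ r a, r < J → 1 ≤ a → a + 1 ≤ K →
    Tp (s r) (f r) (ρ r) (nxt J w r) (a + 1) a 0 - ε r (a + 1) * kF r (a + 1) ≤ w r (a + 1) a 0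
  fwd' : ∀ r a, r < J → 1 ≤ a → a + 1 ≤ K →
    Tp (s r) (f r) (ρ r) (nxt J w r) a (a + 1) 0 - ε r (a + 1) * kF r (a + 1) ≤ w r a (a + 1) 0
  rest : ∀ r a b z, r < J → 1 ≤ a → a ≤ K → 1 ≤ b → b ≤ K →
    ¬ (a = b ∧ (z = 0 ∨ ∃ δ : Fin D × Bool, z = dv δ)) → ¬ (z = 0 ∧ (a = b + 1 ∨ b = a + 1)) →
    Tp (s r) (f r) (ρ r) (nxt J w r) a b z ≤ w r a b z

variable {K J : ℕ} {m : ℝ} {s f ρ kS kF ε : ℕ → ℕ → ℝ} {w : ℕ → ℕ → ℕ → (Fin D → ℤ) → ℝ}

lemma Cer2.stay_bot (h : Cer2 D K J m s f ρ kS kF ε w) :
    s (J - 1) K = 0 ∧ 2 * (D : ℝ) * ρ (J - 1) K = 0 := by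
  have h1 := h.sum_eq (J - 1) K
  rw [h.f_bot] at h1
  have h2 := h.s_nonneg (J - 1) K
  have h3 := h.ρ_nonneg (J - 1) K
  have h4 : 0 ≤ 2 * (D : ℝ) * ρ (J - 1) K := by positivity
  constructor <;> linarith

open Classical in
/-- The improved second moment method on the box. -/
theorem Cer2.pr_ge (h : Cer2 D K J m s f ρ kS kF ε w) (n : ℕ) :
    1 / w 0 1 1 0 ≤ pr (boxG (Fin (D + 1)) n) (face (Fin (D + 1)) n)
      ({⟨0, zero_mem_boxF n⟩} : Finset (boxF (Fin (D + 1)) n)) (((n + K - 1) * J : ℕ) * m) := by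
  have hJ := h.J_pos
  have hK := h.K_pos
  set T := (n + K - 1) * J with hT
  -- the alive sites
  let R : ℕ → Set (boxF (Fin (D + 1)) n) := fun i =>
    {u | i ≤ T ∧ (((T - i) / J : ℕ) : ℤ) - K + 1 ≤ u.1 0 ∧ u.1 0 ≤ (((T - i) / J : ℕ) : ℤ)}
  let P : ℕ → boxF (Fin (D + 1)) n → boxF (Fin (D + 1)) n → ℝ := fun i u v =>
    Pk (s ((T - (i + 1)) % J) (ix J (T - (i + 1)) u.1))
      (f ((T - (i + 1)) % J) (ix J (T - (i + 1)) u.1))
      (ρ ((T - (i + 1)) % J) (ix J (T - (i + 1)) u.1)) u v
  let W : ℕ → boxF (Fin (D + 1)) n → boxF (Fin (D + 1)) n → ℝ := fun i u v =>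
    w ((T - i) % J) (ix J (T - i) u.1) (ix J (T - i) v.1) (tl u.1 - tl v.1)
  -- arithmetic of the time
  have htime : ∀ i, i + 1 ≤ T → (((T - (i + 1)) % J + 1 < J ∧ (T - i) % J = (T - (i + 1)) % J + 1 ∧
      (T - i) / J = (T - (i + 1)) / J) ∨ ((T - (i + 1)) % J + 1 = J ∧ (T - i) % J = 0 ∧
      (T - i) / J = (T - (i + 1)) / J + 1)) := by
    intro i hi
    have h1 : T - i = T - (i + 1) + 1 := by omega
    rw [h1]
    generalize T - (i + 1) = t
    have h2 := Nat.mod_lt t (by omega : J > 0)
    have h3 := Nat.div_add_mod t J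
    rcases Nat.lt_or_ge (t % J + 1) J with h4 | h4
    · left
      refine ⟨h4, ?_, ?_⟩
      · rw [← h3]
        rw [add_assoc, Nat.mul_add_mod, Nat.mod_eq_of_lt h4, Nat.mul_add_mod,
          Nat.mod_eq_of_lt h2]
      · rw [← h3]
        rw [add_assoc, Nat.mul_add_div (by omega), Nat.mul_add_div (by omega),
          Nat.div_eq_of_lt h4, Nat.div_eq_of_lt h2]
    · right
      have h5 : t % J + 1 = J := by omega
      refine ⟨h5, ?_, ?_⟩
      · rw [← h3, add_assoc, h5]
        rw [← Nat.mul_succ]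
        simp
      · conv_lhs => rw [← h3]
        rw [add_assoc, h5, ← Nat.mul_succ, Nat.mul_div_cancel_left _ (by omega)]
  have hidx : ∀ t (u : Fin (D + 1) → ℤ), u 0 ≤ ((t / J : ℕ) : ℤ) → ((t / J : ℕ) : ℤ) - K + 1 ≤ u 0 →
      1 ≤ ix J t u ∧ ix J t u ≤ K := by
    intro t u h1 h2
    unfold ix
    omega
  -- the one-step sums
  have hone : ∀ i (u : boxF (Fin (D + 1)) n), u ∈ R (i + 1) → u ∉ face (Fin (D + 1)) n →
      ∀ φ : ℕ → (Fin D → ℤ) → ℝ, ∑ v, P i u v * φ (ix J (T - (i + 1)) v.1) (tl v.1) =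
        Tm (s ((T - (i + 1)) % J) (ix J (T - (i + 1)) u.1))
          (f ((T - (i + 1)) % J) (ix J (T - (i + 1)) u.1))
          (ρ ((T - (i + 1)) % J) (ix J (T - (i + 1)) u.1)) (ix J (T - (i + 1)) u.1) (tl u.1) φ := by
    intro i u hu huA φ
    have h1 := sum_Pk (s ((T - (i + 1)) % J) (ix J (T - (i + 1)) u.1))
      (f ((T - (i + 1)) % J) (ix J (T - (i + 1)) u.1))
      (ρ ((T - (i + 1)) % J) (ix J (T - (i + 1)) u.1)) huA
      (fun z => φ (ix J (T - (i + 1)) z) (tl z))
    have h2 : ix J (T - (i + 1)) (u.1 + dv (0, true)) = ix J (T - (i + 1)) u.1 - 1 := by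
      unfold ix
      rw [head_add_fwd]
      omega
    have h3 : ∀ δ : Fin D × Bool, ix J (T - (i + 1)) (u.1 + dv (δ.1.succ, δ.2)) =
        ix J (T - (i + 1)) u.1 := by
      intro δ
      unfold ix
      rw [head_add_succ]
    simp only [h2, h3, tl_add_fwd, tl_add_succ] at h1
    exact h1
  -- the value of `W i` in terms of the previous indices
  have hWi : ∀ i (u v : boxF (Fin (D + 1)) n), i + 1 ≤ T →
      u.1 0 ≤ (((T - (i + 1)) / J : ℕ) : ℤ) + 1 → v.1 0 ≤ (((T - (i + 1)) / J : ℕ) : ℤ) + 1 →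
      W i u v = nxt J w ((T - (i + 1)) % J) (ix J (T - (i + 1)) u.1) (ix J (T - (i + 1)) v.1)
        (tl u.1 - tl v.1) := by
    intro i u v hi hu hv
    simp only [W, nxt]
    rcases htime i hi with ⟨h1, h2, h3⟩ | ⟨h1, h2, h3⟩
    · rw [if_pos h1, h2]
      congr 1
      · unfold ix; rw [h3]
      · unfold ix; rw [h3]
    · rw [if_neg (by omega), h2]
      have h4 : ix J (T - i) u.1 = ix J (T - (i + 1)) u.1 + 1 := by
        unfold ix
        rw [h3]
        push_cast
        omega
      have h5 : ix J (T - i) v.1 = ix J (T - (i + 1)) v.1 + 1 := by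
        unfold ix
        rw [h3]
        push_cast
        omega
      rw [h4, h5]
  have hPR : ∀ i (u v : boxF (Fin (D + 1)) n), u ∈ R (i + 1) → u ∉ face (Fin (D + 1)) n →
      P i u v ≠ 0 → v ∈ R i := by
    intro i u v hu huA hP
    obtain ⟨hi, hlo, hhi⟩ := hu
    have hstep : ∀ x : ℤ, (x = u.1 0 + 1 ∧ f ((T - (i + 1)) % J) (ix J (T - (i + 1)) u.1) ≠ 0) ∨
        (x = u.1 0 ∧ (s ((T - (i + 1)) % J) (ix J (T - (i + 1)) u.1) ≠ 0 ∨
          2 * (D : ℝ) * ρ ((T - (i + 1)) % J) (ix J (T - (i + 1)) u.1) ≠ 0)) →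
        (((T - i) / J : ℕ) : ℤ) - K + 1 ≤ x ∧ x ≤ (((T - i) / J : ℕ) : ℤ) := by
      intro x hx
      rcases htime i hi with ⟨h1, h2, h3⟩ | ⟨h1, h2, h3⟩
      · rw [h3]
        rcases hx with ⟨rfl, hf⟩ | ⟨rfl, _⟩
        · refine ⟨by omega, ?_⟩
          by_contra hcon
          apply hf
          have h4 : ix J (T - (i + 1)) u.1 = 1 := by
            unfold ix
            omega
          rw [h4]
          exact h.f_top _
        · exact ⟨hlo, hhi⟩
      · rw [h3]
        push_cast
        rcases hx with ⟨rfl, _⟩ | ⟨rfl, hs⟩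
        · constructor <;> omega
        · refine ⟨?_, by omega⟩
          by_contra hcon
          have h4 : ix J (T - (i + 1)) u.1 = K := by
            unfold ix
            omega
          have h5 : (T - (i + 1)) % J = J - 1 := by omega
          rw [h4, h5] at hs
          obtain ⟨h6, h7⟩ := h.stay_bot
          rcases hs with hs | hs
          · exact hs h6
          · exact hs h7
    refine ⟨by omega, ?_⟩
    rcases Pk_ne_zero hP with ⟨rfl, hs⟩ | ⟨hv, hf⟩ | ⟨hρ, δ, hv⟩
    · exact hstep _ (Or.inr ⟨rfl, Or.inl hs⟩)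
    · exact hstep _ (Or.inl ⟨by rw [hv, head_add_fwd], hf⟩)
    · refine hstep _ (Or.inr ⟨by rw [hv, head_add_succ], Or.inr ?_⟩)
      have hD : 0 < D := Fin.pos δ.1
      have hD' : (D : ℝ) ≠ 0 := by positivity
      exact mul_ne_zero (mul_ne_zero two_ne_zero hD') hρ
  -- penalties
  let Ms : ℕ → boxF (Fin (D + 1)) n → boxF (Fin (D + 1)) n → ℝ := fun i u v =>
    if ∃ δ : Fin D × Bool, v.1 = u.1 + dv (δ.1.succ, δ.2) then
      kS ((T - (i + 1)) % J) (ix J (T - (i + 1)) u.1) else 0
  let Mf : ℕ → boxF (Fin (D + 1)) n → boxF (Fin (D + 1)) n → ℝ := fun i u v =>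
    if v.1 = u.1 + dv (0, true) ∧ u ∈ R (i + 1) then
      kF ((T - (i + 1)) % J) (ix J (T - (i + 1)) u.1) else 0
  let Ef : ℕ → boxF (Fin (D + 1)) n → boxF (Fin (D + 1)) n → ℝ := fun i u _ =>
    ε ((T - (i + 1)) % J) (ix J (T - (i + 1)) u.1)
  -- indices of neighbours
  have hixf : ∀ t (z : Fin (D + 1) → ℤ), ix J t (z + dv (0, true)) = ix J t z - 1 := by
    intro t z
    unfold ix
    rw [head_add_fwd]
    omega
  have hixs : ∀ t (z : Fin (D + 1) → ℤ) (δ : Fin D × Bool),
      ix J t (z + dv (δ.1.succ, δ.2)) = ix J t z := by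
    intro t z δ
    unfold ix
    rw [head_add_succ]
  have hnear : ∀ i (x : boxF (Fin (D + 1)) n), x ∈ R (i + 1) →
      ∀ y, P i x y ≠ 0 → y.1 0 ≤ (((T - (i + 1)) / J : ℕ) : ℤ) + 1 := by
    intro i x hx y hP
    obtain ⟨_, _, hx2⟩ := hx
    rcases Pk_ne_zero hP with ⟨rfl, _⟩ | ⟨hy, _⟩ | ⟨_, δ, hy⟩
    · omega
    · rw [hy, head_add_fwd]; omega
    · rw [hy, head_add_succ]; omega
  have hres := SM.pr_ge2 (G := boxG (Fin (D + 1)) n) (A := face (Fin (D + 1)) n) h.m_pos R P W
    Ms Mf Ef ?_ ?_ ?_ hPR ?_ ?_ ?_ ?_ ?_ ?_ ?_ (i := T) (o := ⟨0, zero_mem_boxF n⟩) ?_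
    (C := w 0 1 1 0) ?_
  · exact hres
  · -- hR0
    intro u hu
    obtain ⟨_, hlo, _⟩ := hu
    refine ⟨0, ?_⟩
    have h1 : (T - 0) / J = n + K - 1 := by
      rw [Nat.sub_zero, hT, Nat.mul_div_cancel _ (by omega)]
    rw [h1] at hlo
    have h2 := mem_boxF.mp u.2 0
    rw [abs_le] at h2
    have h3 : u.1 0 = n := by omega
    rw [h3]
    simp
  · intro i u v
    exact Pk_nonneg (h.s_nonneg _ _) (h.f_nonneg _ _) (h.ρ_nonneg _ _) u v
  · -- adjacency
    intro i u v _ _ hP
    rcases Pk_ne_zero hP with ⟨rfl, _⟩ | ⟨hv, _⟩ | ⟨_, δ, hv⟩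
    · exact Or.inl rfl
    · exact Or.inr (grid_adj_iff.mpr ⟨_, hv⟩)
    · exact Or.inr (grid_adj_iff.mpr ⟨_, hv⟩)
  · -- total mass
    intro i u hu huA
    have h1 := hone i u hu huA (fun _ _ => 1)
    simp only [mul_one] at h1
    rw [h1]
    have h2 := h.sum_eq ((T - (i + 1)) % J) (ix J (T - (i + 1)) u.1)
    unfold Tm
    simp only [mul_one, sum_const, card_univ, Fintype.card_prod, Fintype.card_fin,
      Fintype.card_bool, nsmul_eq_mul]
    push_cast
    linear_combination h2
  · -- W ≥ 1
    intro i u v hu hv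
    obtain ⟨hi, hu1, hu2⟩ := hu
    obtain ⟨_, hv1, hv2⟩ := hv
    have h1 := hidx (T - i) u.1 hu2 hu1
    have h2 := hidx (T - i) v.1 hv2 hv1
    exact h.one_le _ _ _ _ (Nat.mod_lt _ (by omega)) h1.1 h1.2 h2.1 h2.2
  · -- Ms nonneg
    intro i u v
    simp only [Ms]
    split_ifs
    · exact h.kS_nonneg _ _
    · exact le_rfl
  · -- Ms symmetric
    intro i u v
    simp only [Ms]
    have h1 : ∀ u v : boxF (Fin (D + 1)) n,
        (∃ δ : Fin D × Bool, v.1 = u.1 + dv (δ.1.succ, δ.2)) →
        (∃ δ : Fin D × Bool, u.1 = v.1 + dv (δ.1.succ, δ.2)) := by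
      rintro u v ⟨δ, hδ⟩
      refine ⟨(δ.1, !δ.2), ?_⟩
      have h2 := dv_neg (δ.1.succ, δ.2)
      simp only at h2 ⊢
      rw [h2, hδ]
      abel
    by_cases h2 : ∃ δ : Fin D × Bool, v.1 = u.1 + dv (δ.1.succ, δ.2)
    · rw [if_pos h2, if_pos (h1 u v h2)]
      obtain ⟨δ, hδ⟩ := h2
      rw [hδ, hixs]
    · rw [if_neg h2, if_neg (fun h3 => h2 (h1 v u h3))]
  · -- Mf nonneg
    intro i u v
    simp only [Mf]
    split_ifs
    · exact h.kF_nonneg _ _
    · exact le_rfl
  · -- the penalties dominate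
    intro i u v hu huA huv
    have hu' := hu
    obtain ⟨hi, hu1, hu2⟩ := hu
    have h1 := hidx (T - (i + 1)) u.1 hu2 hu1
    have hMs0 : 0 ≤ Ms i u v := by
      simp only [Ms]
      split_ifs
      · exact h.kS_nonneg _ _
      · exact le_rfl
    have hMf0 : 0 ≤ Mf i u v := by
      simp only [Mf]
      split_ifs
      · exact h.kF_nonneg _ _
      · exact le_rfl
    by_cases hP : P i u v = 0
    · rw [hP]
      simp only [ne_eq, OfNat.ofNat_ne_zero, not_false_eq_true, zero_pow, zero_mul, mul_zero]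
      exact add_nonneg hMs0 hMf0
    · have h7 := hnear i u hu' v hP
      have hWv : W i v v = nxt J w ((T - (i + 1)) % J) (ix J (T - (i + 1)) v.1)
          (ix J (T - (i + 1)) v.1) 0 := by
        rw [hWi i v v hi h7 h7, sub_self]
      rcases Pk_ne_zero hP with ⟨rfl, _⟩ | ⟨hv, _⟩ | ⟨_, δ, hv⟩
      · exact absurd rfl huv
      · have h2 := h.kF_ge ((T - (i + 1)) % J) (ix J (T - (i + 1)) u.1) (Nat.mod_lt _ (by omega))
          h1.1 h1.2
        have h3 : P i u v = f ((T - (i + 1)) % J) (ix J (T - (i + 1)) u.1) := by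
          have := Pk_of_ne (s := s ((T - (i + 1)) % J) (ix J (T - (i + 1)) u.1))
            (f := f ((T - (i + 1)) % J) (ix J (T - (i + 1)) u.1))
            (ρ := ρ ((T - (i + 1)) % J) (ix J (T - (i + 1)) u.1)) (fun h => huv h.symm) hv
          refine this.trans ?_
          simp [gw]
        have h4 : Mf i u v = kF ((T - (i + 1)) % J) (ix J (T - (i + 1)) u.1) := by
          simp only [Mf]
          rw [if_pos ⟨hv, hu'⟩]
        rw [h3, hWv, h4, hv, hixf]
        linarith
      · have h2 := h.kS_ge ((T - (i + 1)) % J) (ix J (T - (i + 1)) u.1) (Nat.mod_lt _ (by omega))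
          h1.1 h1.2
        have h3 : P i u v = ρ ((T - (i + 1)) % J) (ix J (T - (i + 1)) u.1) := by
          have := Pk_of_ne (s := s ((T - (i + 1)) % J) (ix J (T - (i + 1)) u.1))
            (f := f ((T - (i + 1)) % J) (ix J (T - (i + 1)) u.1))
            (ρ := ρ ((T - (i + 1)) % J) (ix J (T - (i + 1)) u.1)) (fun h => huv h.symm) hv
          refine this.trans ?_
          simp [gw, Fin.succ_ne_zero]
        have h4 : Ms i u v = kS ((T - (i + 1)) % J) (ix J (T - (i + 1)) u.1) := by
          simp only [Ms]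
          rw [if_pos ⟨δ, hv⟩]
        rw [h3, hWv, h4, hv, hixs]
        linarith
  · -- the main inequality
    intro i u v hu hv huA hvA
    have hu' := hu
    have hv' := hv
    obtain ⟨hi, hu1, hu2⟩ := hu
    obtain ⟨_, hv1, hv2⟩ := hv
    have h1 := hidx (T - (i + 1)) u.1 hu2 hu1
    have h2 := hidx (T - (i + 1)) v.1 hv2 hv1
    have hr : (T - (i + 1)) % J < J := Nat.mod_lt _ (by omega)
    -- the pair expectation
    have hpair : ∑ u', ∑ v', P i u u' * P i v v' * W i u' v' =
        Tp (s ((T - (i + 1)) % J)) (f ((T - (i + 1)) % J)) (ρ ((T - (i + 1)) % J))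
          (nxt J w ((T - (i + 1)) % J)) (ix J (T - (i + 1)) u.1) (ix J (T - (i + 1)) v.1)
          (tl u.1 - tl v.1) := by
      have h4 : ∑ u', ∑ v', P i u u' * P i v v' * W i u' v' =
          ∑ u', P i u u' * (fun a' x' => ∑ v', P i v v' * (fun b' y' =>
            nxt J w ((T - (i + 1)) % J) a' b' (x' - y')) (ix J (T - (i + 1)) v'.1) (tl v'.1))
            (ix J (T - (i + 1)) u'.1) (tl u'.1) := by
        refine sum_congr rfl fun u' _ => ?_
        simp only
        rw [mul_sum]
        refine sum_congr rfl fun v' _ => ?_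
        by_cases hPu : P i u u' = 0
        · simp [hPu]
        · by_cases hPv : P i v v' = 0
          · simp [hPv]
          · rw [hWi i u' v' hi (hnear i u hu' u' hPu) (hnear i v hv' v' hPv)]
            ring
      rw [h4]
      refine (hone i u hu' huA (fun a' x' => ∑ v', P i v v' * (fun b' y' =>
            nxt J w ((T - (i + 1)) % J) a' b' (x' - y')) (ix J (T - (i + 1)) v'.1)
              (tl v'.1))).trans ?_
      have h5 : (fun (a' : ℕ) (x' : Fin D → ℤ) => ∑ v', P i v v' * (fun b' y' =>
            nxt J w ((T - (i + 1)) % J) a' b' (x' - y')) (ix J (T - (i + 1)) v'.1)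
              (tl v'.1)) = fun a' x' =>
            Tm (s ((T - (i + 1)) % J) (ix J (T - (i + 1)) v.1))
              (f ((T - (i + 1)) % J) (ix J (T - (i + 1)) v.1))
              (ρ ((T - (i + 1)) % J) (ix J (T - (i + 1)) v.1)) (ix J (T - (i + 1)) v.1) (tl v.1)
              fun b' y' => nxt J w ((T - (i + 1)) % J) a' b' (x' - y') := by
        funext a' x'
        exact hone i v hv' hvA (fun b' y' => nxt J w ((T - (i + 1)) % J) a' b' (x' - y'))
      rw [h5]
      exact Tp_eq (s ((T - (i + 1)) % J)) (f ((T - (i + 1)) % J)) (ρ ((T - (i + 1)) % J)) _ _ _ _ _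
    -- the values of the penalties
    have hMsv : ∀ v' : boxF (Fin (D + 1)) n, Ms i u v' =
        ∑ δ : Fin D × Bool, if v'.1 = u.1 + dv (δ.1.succ, δ.2) then
          kS ((T - (i + 1)) % J) (ix J (T - (i + 1)) u.1) else 0 := by
      intro v'
      simp only [Ms]
      by_cases hex : ∃ δ : Fin D × Bool, v'.1 = u.1 + dv (δ.1.succ, δ.2)
      · rw [if_pos hex]
        obtain ⟨δ, hδ⟩ := hex
        rw [sum_eq_single δ]
        · rw [if_pos hδ]
        · intro δ' _ hδ'
          rw [if_neg]
          intro h'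
          rw [hδ, add_right_inj] at h'
          have h'' := dv_injective h'
          simp only [Prod.mk.injEq] at h''
          exact hδ' (Prod.ext (Fin.succ_injective _ h''.1).symm h''.2.symm)
        · simp
      · rw [if_neg hex]
        symm
        refine sum_eq_zero fun δ _ => ?_
        rw [if_neg]
        exact fun h' => hex ⟨δ, h'⟩
    have hsumMs : ∑ v', Ms i u v' = 2 * D * kS ((T - (i + 1)) % J) (ix J (T - (i + 1)) u.1) := by
      simp only [hMsv]
      rw [sum_comm]
      have h3 : ∀ δ : Fin D × Bool, ∑ v' : boxF (Fin (D + 1)) n,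
          (if v'.1 = u.1 + dv (δ.1.succ, δ.2) then
            kS ((T - (i + 1)) % J) (ix J (T - (i + 1)) u.1) else 0) =
            kS ((T - (i + 1)) % J) (ix J (T - (i + 1)) u.1) := by
        intro δ
        rw [sum_eq_single ⟨u.1 + dv (δ.1.succ, δ.2), mem_box_of_interior huA _⟩]
        · rw [if_pos rfl]
        · intro v' _ hv'
          rw [if_neg (fun h' => hv' (Subtype.ext h'))]
        · simp
      rw [sum_congr rfl fun δ _ => h3 δ]
      simp only [sum_const, card_univ, Fintype.card_prod, Fintype.card_fin,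
        Fintype.card_bool, nsmul_eq_mul]
      push_cast
      ring
    have hsumMf : ∑ v', Mf i u v' = kF ((T - (i + 1)) % J) (ix J (T - (i + 1)) u.1) := by
      rw [sum_eq_single ⟨u.1 + dv (0, true), mem_box_of_interior huA _⟩]
      · simp only [Mf]
        rw [if_pos ⟨trivial, hu'⟩]
      · intro v' _ hv'
        simp only [Mf]
        rw [if_neg (fun h' => hv' (Subtype.ext h'.1))]
      · simp
    have hsumE : ∑ v', Ef i v' u ^ 2 * Mf i v' u ≤
        if ix J (T - (i + 1)) u.1 + 1 ≤ K then
          ε ((T - (i + 1)) % J) (ix J (T - (i + 1)) u.1 + 1) ^ 2 *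
            kF ((T - (i + 1)) % J) (ix J (T - (i + 1)) u.1 + 1) else 0 := by
      have hback : u.1 + dv (0, false) ∈ boxF (Fin (D + 1)) n := mem_box_of_interior huA _
      have hback2 : u.1 = (u.1 + dv (0, false)) + dv (0, true) := by
        have h3 := dv_neg ((0 : Fin (D + 1)), true)
        simp only [Bool.not_true] at h3
        rw [h3]
        abel
      rw [sum_eq_single ⟨u.1 + dv (0, false), hback⟩]
      · by_cases hal : (⟨u.1 + dv (0, false), hback⟩ : boxF (Fin (D + 1)) n) ∈ R (i + 1)
        · obtain ⟨_, hal1, hal2⟩ := hal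
          have h3 := hidx (T - (i + 1)) _ hal2 hal1
          have h4 : ix J (T - (i + 1)) (u.1 + dv (0, false)) = ix J (T - (i + 1)) u.1 + 1 := by
            have h5 := hixf (T - (i + 1)) (u.1 + dv (0, false))
            rw [← hback2] at h5
            have h6 := h3.1
            simp only at h6
            omega
          have h5 : ix J (T - (i + 1)) u.1 + 1 ≤ K := by
            rw [← h4]
            exact h3.2
          rw [if_pos h5]
          simp only [Ef, Mf]
          rw [if_pos ⟨hback2, ⟨by omega, hal1, hal2⟩⟩, h4]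
        · have h3 : Mf i ⟨u.1 + dv (0, false), hback⟩ u = 0 := by
            simp only [Mf]
            rw [if_neg (fun h' => hal h'.2)]
          rw [h3, mul_zero]
          split_ifs
          · exact mul_nonneg (sq_nonneg _) (h.kF_nonneg _ _)
          · exact le_rfl
      · intro v' _ hv'
        have h3 : Mf i v' u = 0 := by
          simp only [Mf]
          rw [if_neg]
          rintro ⟨h4, _⟩
          apply hv'
          apply Subtype.ext
          simp only
          rw [hback2] at h4
          exact (add_right_cancel h4).symm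
        rw [h3, mul_zero]
      · simp
    have hMs0 : ∀ x y, 0 ≤ Ms i x y := by
      intro x y
      simp only [Ms]
      split_ifs
      · exact h.kS_nonneg _ _
      · exact le_rfl
    have hMf0 : ∀ x y, 0 ≤ Mf i x y := by
      intro x y
      simp only [Mf]
      split_ifs
      · exact h.kF_nonneg _ _
      · exact le_rfl
    -- the target
    have hWuv : W (i + 1) u v = w ((T - (i + 1)) % J) (ix J (T - (i + 1)) u.1)
        (ix J (T - (i + 1)) v.1) (tl u.1 - tl v.1) := rfl
    rw [hpair, hWuv]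
    have heq0 : ix J (T - (i + 1)) u.1 = ix J (T - (i + 1)) v.1 → u.1 0 = v.1 0 := by
      intro h6
      unfold ix at h6
      omega
    have hext : u.1 0 = v.1 0 → tl u.1 - tl v.1 = 0 → u = v := by
      intro h8 h7
      apply Subtype.ext
      funext j
      refine Fin.cases h8 (fun j => ?_) j
      have := congrFun h7 j
      simp only [Pi.sub_apply, Pi.zero_apply, tl] at this
      omega
    by_cases huv : u = v
    · -- diagonal
      subst huv
      have h3 := h.diag ((T - (i + 1)) % J) (ix J (T - (i + 1)) u.1) hr h1.1 h1.2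
      have h4 : Ms i u u = 0 := by
        simp only [Ms]
        rw [if_neg]
        rintro ⟨δ, hδ⟩
        exact dv_ne_zero _ (by simpa using hδ.symm)
      have h5 : Mf i u u = 0 := by
        simp only [Mf]
        rw [if_neg]
        rintro ⟨hδ, _⟩
        exact dv_ne_zero _ (by simpa using hδ.symm)
      rw [if_pos rfl, h4, h5, sum_add_distrib, sum_add_distrib, hsumMs, hsumMf, sub_self]
      linarith
    · rw [if_neg huv]
      by_cases hadj : ∃ δ : Fin D × Bool, v.1 = u.1 + dv (δ.1.succ, δ.2)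
      · -- neighbours in the same layer
        obtain ⟨δ, hδ⟩ := hadj
        have h3 : Ms i u v = kS ((T - (i + 1)) % J) (ix J (T - (i + 1)) u.1) := by
          simp only [Ms]
          rw [if_pos ⟨δ, hδ⟩]
        have h4 : ix J (T - (i + 1)) v.1 = ix J (T - (i + 1)) u.1 := by
          rw [hδ, hixs]
        have h5 : tl u.1 - tl v.1 = dv (δ.1, !δ.2) := by
          rw [hδ, tl_add_succ, dv_neg]
          abel
        have h6 := h.adj ((T - (i + 1)) % J) (ix J (T - (i + 1)) u.1) (δ.1, !δ.2) hr h1.1 h1.2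
        rw [h4, h5, h3]
        have h7 : 0 ≤ Ef i u v * Mf i u v := by
          have : Mf i u v = 0 := by
            simp only [Mf]
            rw [if_neg]
            rintro ⟨h8, _⟩
            rw [hδ, add_right_inj] at h8
            have := dv_injective h8
            simp only [Prod.mk.injEq] at this
            exact Fin.succ_ne_zero _ this.1
          rw [this, mul_zero]
        have h8 : 0 ≤ Ef i v u * Mf i v u := by
          have : Mf i v u = 0 := by
            simp only [Mf]
            rw [if_neg]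
            rintro ⟨h8, _⟩
            have h9 := congrFun h8 0
            rw [head_add_fwd, hδ, head_add_succ] at h9
            omega
          rw [this, mul_zero]
        linarith
      · have h3 : Ms i u v = 0 := by
          simp only [Ms]
          rw [if_neg hadj]
        rw [h3, add_zero, sub_zero]
        by_cases hfw : v.1 = u.1 + dv (0, true)
        · -- `v` is in front of `u`
          have h4 : Mf i u v = kF ((T - (i + 1)) % J) (ix J (T - (i + 1)) u.1) := by
            simp only [Mf]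
            rw [if_pos ⟨hfw, hu'⟩]
          have h5 : Mf i v u = 0 := by
            simp only [Mf]
            rw [if_neg]
            rintro ⟨h8, _⟩
            have h9 := congrFun h8 0
            rw [head_add_fwd, hfw, head_add_fwd] at h9
            omega
          have h6 : ix J (T - (i + 1)) v.1 = ix J (T - (i + 1)) u.1 - 1 := by
            rw [hfw, hixf]
          have h7 : ix J (T - (i + 1)) u.1 = ix J (T - (i + 1)) v.1 + 1 := by
            have := h2.1
            omega
          have h8 : tl u.1 - tl v.1 = 0 := by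
            rw [hfw, tl_add_fwd, sub_self]
          have h9 := h.fwd ((T - (i + 1)) % J) (ix J (T - (i + 1)) v.1) hr h2.1
            (by rw [← h7]; exact h1.2)
          rw [h5, mul_zero, sub_zero, h4, h8]
          simp only [Ef]
          rw [h7]
          exact h9
        · by_cases hbw : u.1 = v.1 + dv (0, true)
          · -- `u` is in front of `v`
            have h4 : Mf i v u = kF ((T - (i + 1)) % J) (ix J (T - (i + 1)) v.1) := by
              simp only [Mf]
              rw [if_pos ⟨hbw, hv'⟩]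
            have h5 : Mf i u v = 0 := by
              simp only [Mf]
              rw [if_neg (fun h' => hfw h'.1)]
            have h6 : ix J (T - (i + 1)) u.1 = ix J (T - (i + 1)) v.1 - 1 := by
              rw [hbw, hixf]
            have h7 : ix J (T - (i + 1)) v.1 = ix J (T - (i + 1)) u.1 + 1 := by
              have := h1.1
              omega
            have h8 : tl u.1 - tl v.1 = 0 := by
              rw [hbw, tl_add_fwd, sub_self]
            have h9 := h.fwd' ((T - (i + 1)) % J) (ix J (T - (i + 1)) u.1) hr h1.1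
              (by rw [← h7]; exact h2.2)
            rw [h5, mul_zero, sub_zero, h4, h8]
            simp only [Ef]
            rw [h7]
            exact h9
          · -- the remaining pairs
            have h4 : Mf i u v = 0 := by
              simp only [Mf]
              rw [if_neg (fun h' => hfw h'.1)]
            have h5 : Mf i v u = 0 := by
              simp only [Mf]
              rw [if_neg (fun h' => hbw h'.1)]
            rw [h4, h5, mul_zero, mul_zero, sub_zero, sub_zero]
            have hzero : ∀ x y : boxF (Fin (D + 1)) n, tl x.1 - tl y.1 = 0 → y.1 0 = x.1 0 + 1 →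
                y.1 = x.1 + dv (0, true) := by
              intro x y h6 h7
              funext j
              refine Fin.cases ?_ (fun j => ?_) j
              · rw [head_add_fwd, h7]
              · have h8 := congrFun h6 j
                have h9 := congrFun (tl_add_fwd x.1) j
                simp only [Pi.sub_apply, Pi.zero_apply, tl] at h8 h9
                rw [h9]
                omega
            refine h.rest ((T - (i + 1)) % J) _ _ _ hr h1.1 h1.2 h2.1 h2.2 ?_ ?_
            · rintro ⟨h6, h7 | ⟨δ, h7⟩⟩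
              · exact huv (hext (heq0 h6) h7)
              · apply hadj
                refine ⟨(δ.1, !δ.2), ?_⟩
                have h8 := heq0 h6
                have h9 : dv ((δ.1, !δ.2) : Fin D × Bool) = -dv δ := dv_neg δ
                funext j
                refine Fin.cases ?_ (fun j => ?_) j
                · have h10 := head_add_succ u.1 (δ.1, !δ.2)
                  rw [h10, h8]
                · have h10 := congrFun (tl_add_succ u.1 (δ.1, !δ.2)) j
                  have h11 := congrFun h7 j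
                  simp only [Pi.sub_apply, Pi.add_apply, tl] at h10 h11 ⊢
                  rw [h10, h9]
                  simp only [Pi.neg_apply]
                  omega
            · rintro ⟨h6, h7 | h7⟩
              · apply hfw
                refine hzero u v h6 ?_
                unfold ix at h7
                omega
              · apply hbw
                have h8 : tl v.1 - tl u.1 = 0 := by
                  rw [← neg_sub, h6, neg_zero]
                refine hzero v u h8 ?_
                unfold ix at h7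
                omega
  · -- the origin is alive
    refine ⟨le_rfl, ?_, ?_⟩
    · simp only [Nat.sub_self, Nat.zero_div]
      push_cast
      simp only [Pi.zero_apply]
      omega
    · simp
  · -- the value at the origin
    have h1 : ix J (T - T) (0 : Fin (D + 1) → ℤ) = 1 := by
      simp [ix]
    show w ((T - T) % J) (ix J (T - T) (0 : Fin (D + 1) → ℤ)) (ix J (T - T) (0 : Fin (D + 1) → ℤ))
      (tl (0 : Fin (D + 1) → ℤ) - tl (0 : Fin (D + 1) → ℤ)) ≤ w 0 1 1 0
    rw [h1, sub_self, Nat.sub_self, Nat.zero_mod]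

end Pool.Agent.Lib.MP_edae2b_pr.SM
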