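import Pool.Agent.Lib.MP_edae2b_pr.SM.CR6Dat

set_option autoImplicit false
set_option maxRecDepth 100000

/-!
# The certificate in dimension 6: phases 20 to 29
-/

namespace Pool.Agent.Lib.MP_edae2b_pr.SM.Chk

lemma dat6_r4 : Nat.beq (dat6.run ((dat6.phs.drop 20).take 5) dat6_P4) dat6_P5 = true := by
  decide +kernel

lemma dat6_r5 : Nat.beq (dat6.run ((dat6.phs.drop 25).take 5) dat6_P5) dat6_P6 = true := by
  decide +kernel

end Pool.Agent.Lib.MP_edae2b_pr.SM.Chk
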