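import Pool.Agent.Lib.MP_edae2b_pr.SM.CR6Dat

set_option autoImplicit false
set_option maxRecDepth 100000

/-!
# The certificate in dimension 6: phases 100 to 109
-/

namespace Pool.Agent.Lib.MP_edae2b_pr.SM.Chk

lemma dat6_r20 : Nat.beq (dat6.run ((dat6.phs.drop 100).take 5) dat6_P20) dat6_P21 = true := by
  decide +kernel

lemma dat6_r21 : Nat.beq (dat6.run ((dat6.phs.drop 105).take 5) dat6_P21) dat6_P22 = true := by
  decide +kernel

end Pool.Agent.Lib.MP_edae2b_pr.SM.Chk
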