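import Pool.Agent.Lib.MP_edae2b_pr.SM.ChkC
import Pool.Agent.Lib.MP_edae2b_pr.SM.CR6a
import Pool.Agent.Lib.MP_edae2b_pr.SM.CR6b
import Pool.Agent.Lib.MP_edae2b_pr.SM.CR6c
import Pool.Agent.Lib.MP_edae2b_pr.SM.CR6d
import Pool.Agent.Lib.MP_edae2b_pr.SM.CR6e
import Pool.Agent.Lib.MP_edae2b_pr.SM.CR6f
import Pool.Agent.Lib.MP_edae2b_pr.SM.CR6g
import Pool.Agent.Lib.MP_edae2b_pr.SM.CR6h
import Pool.Agent.Lib.MP_edae2b_pr.SM.CR6i
import Pool.Agent.Lib.MP_edae2b_pr.SM.CR6j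
import Pool.Agent.Lib.MP_edae2b_pr.SM.CR6k
import Pool.Agent.Lib.MP_edae2b_pr.SM.CR6l
import Pool.Agent.Lib.MP_edae2b_pr.SM.CR6m
import Pool.Agent.Lib.MP_edae2b_pr.SM.CR6n
import Pool.Agent.Lib.MP_edae2b_pr.SM.CR6o

set_option autoImplicit false
set_option maxRecDepth 100000

/-!
# The certificate in dimension 6 (helper83)
-/

namespace Pool.Agent.Lib.MP_edae2b_pr.SM.Chk

lemma dat6_ok : Dat.ok dat6 = true := by decide +kernel

lemma dat6_okP : Dat.okP dat6 = true := by decide +kernel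

lemma dat6_cl : Dat.closeOK dat6 dat6_P30 = true := by decide +kernel

lemma dat6_run : dat6.run dat6.phs dat6.P0 = dat6_P30 := by
  have e : dat6.phs = (dat6.phs.drop 0).take 5 ++ ((dat6.phs.drop 5).take 5 ++ ((dat6.phs.drop 10).take 5 ++ ((dat6.phs.drop 15).take 5 ++ ((dat6.phs.drop 20).take 5 ++ ((dat6.phs.drop 25).take 5 ++ ((dat6.phs.drop 30).take 5 ++ ((dat6.phs.drop 35).take 5 ++ ((dat6.phs.drop 40).take 5 ++ ((dat6.phs.drop 45).take 5 ++ ((dat6.phs.drop 50).take 5 ++ ((dat6.phs.drop 55).take 5 ++ ((dat6.phs.drop 60).take 5 ++ ((dat6.phs.drop 65).take 5 ++ ((dat6.phs.drop 70).take 5 ++ ((dat6.phs.drop 75).take 5 ++ ((dat6.phs.drop 80).take 5 ++ ((dat6.phs.drop 85).take 5 ++ ((dat6.phs.drop 90).take 5 ++ ((dat6.phs.drop 95).take 5 ++ ((dat6.phs.drop 100).take 5 ++ ((dat6.phs.drop 105).take 5 ++ ((dat6.phs.drop 110).take 5 ++ ((dat6.phs.drop 115).take 5 ++ ((dat6.phs.drop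 120).take 5 ++ ((dat6.phs.drop 125).take 5 ++ ((dat6.phs.drop 130).take 5 ++ ((dat6.phs.drop 135).take 5 ++ ((dat6.phs.drop 140).take 5 ++ ((dat6.phs.drop 145).take 5))))))))))))))))))))))))))))) := rfl
  rw [e]
  rw [Dat.run_append, Nat.eq_of_beq_eq_true dat6_r0]
  rw [Dat.run_append, Nat.eq_of_beq_eq_true dat6_r1]
  rw [Dat.run_append, Nat.eq_of_beq_eq_true dat6_r2]
  rw [Dat.run_append, Nat.eq_of_beq_eq_true dat6_r3]
  rw [Dat.run_append, Nat.eq_of_beq_eq_true dat6_r4]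
  rw [Dat.run_append, Nat.eq_of_beq_eq_true dat6_r5]
  rw [Dat.run_append, Nat.eq_of_beq_eq_true dat6_r6]
  rw [Dat.run_append, Nat.eq_of_beq_eq_true dat6_r7]
  rw [Dat.run_append, Nat.eq_of_beq_eq_true dat6_r8]
  rw [Dat.run_append, Nat.eq_of_beq_eq_true dat6_r9]
  rw [Dat.run_append, Nat.eq_of_beq_eq_true dat6_r10]
  rw [Dat.run_append, Nat.eq_of_beq_eq_true dat6_r11]
  rw [Dat.run_append, Nat.eq_of_beq_eq_true dat6_r12]
  rw [Dat.run_append, Nat.eq_of_beq_eq_true dat6_r13]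
  rw [Dat.run_append, Nat.eq_of_beq_eq_true dat6_r14]
  rw [Dat.run_append, Nat.eq_of_beq_eq_true dat6_r15]
  rw [Dat.run_append, Nat.eq_of_beq_eq_true dat6_r16]
  rw [Dat.run_append, Nat.eq_of_beq_eq_true dat6_r17]
  rw [Dat.run_append, Nat.eq_of_beq_eq_true dat6_r18]
  rw [Dat.run_append, Nat.eq_of_beq_eq_true dat6_r19]
  rw [Dat.run_append, Nat.eq_of_beq_eq_true dat6_r20]
  rw [Dat.run_append, Nat.eq_of_beq_eq_true dat6_r21]
  rw [Dat.run_append, Nat.eq_of_beq_eq_true dat6_r22]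
  rw [Dat.run_append, Nat.eq_of_beq_eq_true dat6_r23]
  rw [Dat.run_append, Nat.eq_of_beq_eq_true dat6_r24]
  rw [Dat.run_append, Nat.eq_of_beq_eq_true dat6_r25]
  rw [Dat.run_append, Nat.eq_of_beq_eq_true dat6_r26]
  rw [Dat.run_append, Nat.eq_of_beq_eq_true dat6_r27]
  rw [Dat.run_append, Nat.eq_of_beq_eq_true dat6_r28]
  exact Nat.eq_of_beq_eq_true dat6_r29

/-- Dimension 6. -/
theorem hasCer_6 : HasCer 5 (14597 / 100000) :=
  hasCer dat6 dat6_ok dat6_okP dat6_run dat6_cl (by norm_num [dat6])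

end Pool.Agent.Lib.MP_edae2b_pr.SM.Chk
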