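import Mathlib

set_option autoImplicit false

/-!
# The kernel checker, part A: packed naturals (helper33)

A table of `N` digits in base `2 ^ 64` is one natural number; a state is one natural number made of
`K ^ 2` such tables. `frc` forces the evaluation of a natural number in the kernel.
-/

namespace Pool.Agent.Lib.MP_edae2b_pr.SM.Chk

/-- Forced evaluation. -/
noncomputable def frc {β : Type} (n : ℕ) (k : ℕ → β) : β :=
  Nat.rec (motive := fun _ => (ℕ → β) → β) (fun k => k 0) (fun m _ k => k (Nat.succ m)) n k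

theorem frc_eq {β : Type} (n : ℕ) (k : ℕ → β) : frc n k = k n := by
  cases n <;> rfl

/-- A row of a class: the shift of its digit, its slack, its neighbours (shift, multiplicity). -/
abbrev Row := ℕ × ℕ × List (ℕ × ℕ)

/-- The digit with the given shift. -/
def dgs (V sh : ℕ) : ℕ := Nat.mod (Nat.shiftRight V sh) 18446744073709551616

/-- The sum over the neighbours. -/
noncomputable def nsum (V : ℕ) (l : List (ℕ × ℕ)) : ℕ :=
  List.rec 0 (fun e _ ih => Nat.add (Nat.mul e.2 (dgs V e.1)) ih) l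

/-- Put the digit `v` in front; `0` is failure. -/
noncomputable def cmb (W v y : ℕ) : ℕ :=
  Bool.rec 0 (Nat.rec 0 (fun _ _ => Nat.add v (Nat.mul W y)) y) (Nat.blt v W)

/-- Forced version. -/
noncomputable def cmbF (W v y : ℕ) : ℕ := frc v fun v => frc y fun y => cmb W v y

/-- The packed list of the values of `g`, with the sentinel `1` on top; `0` is failure. -/
noncomputable def hor {α : Type} (W : ℕ) (g : α → ℕ) (l : List α) : ℕ :=
  List.rec 1 (fun x _ ih => cmbF W (g x) ih) l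

/-- The value of a row. -/
noncomputable def vl (V U s f ρ Q1 Q p m : ℕ) (row : Row) : ℕ :=
  Nat.div (Nat.sub (Nat.add (Nat.add (Nat.mul s (dgs V row.1)) (Nat.mul f (dgs U row.1)))
    (Nat.add (Nat.mul ρ (nsum V row.2.2)) (Nat.add p Q1)))
    (Nat.add (Nat.mul ρ row.2.1) m)) Q

/-- The leak rows are covered by their slack. -/
noncomputable def okO (V : ℕ) (outs : List (ℕ × List (ℕ × ℕ))) : Bool :=
  List.rec true (fun o _ ih => Bool.rec false ih (Nat.ble (nsum V o.2) o.1)) outs

/-- The new table; `0` is failure. -/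
noncomputable def tabp (V U s f ρ Q1 Q p0 m0 m1 : ℕ) (r0 r1 : Row) (rest : List Row)
    (outs : List (ℕ × List (ℕ × ℕ))) : ℕ :=
  Bool.rec 0 (cmbF 18446744073709551616 (vl V U s f ρ Q1 Q p0 m0 r0)
    (cmbF 18446744073709551616 (vl V U s f ρ Q1 Q 0 m1 r1)
      (hor 18446744073709551616 (fun row => vl V U s f ρ Q1 Q 0 0 row) rest))) (okO V outs)

/-- Replace `0` by `BW`. -/
noncomputable def fl (BW y : ℕ) : ℕ := Nat.rec BW (fun m _ => Nat.succ m) y

/-- `0` stays `0`. -/
noncomputable def gd (n m : ℕ) : ℕ := Nat.rec 0 (fun _ _ => m) n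

@[simp] lemma gd_zero (m : ℕ) : gd 0 m = 0 := rfl
@[simp] lemma gd_succ (n m : ℕ) : gd (n + 1) m = m := rfl

lemma gd_ne {n m : ℕ} (h : gd n m ≠ 0) : n ≠ 0 ∧ gd n m = m ∧ m ≠ 0 := by
  cases n with
  | zero => exact absurd rfl h
  | succ n => exact ⟨Nat.succ_ne_zero n, rfl, h⟩

lemma fl_eq (BW y : ℕ) : fl BW y = if y = 0 then BW else y := by
  cases y <;> rfl

lemma dgs_eq (V sh : ℕ) : dgs V sh = V / 2 ^ sh % 2 ^ 64 := by
  have h : dgs V sh = (V >>> sh) % 2 ^ 64 := rfl
  rw [h, Nat.shiftRight_eq_div_pow]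

lemma nsum_nil (V : ℕ) : nsum V [] = 0 := rfl

lemma nsum_cons (V : ℕ) (e : ℕ × ℕ) (l : List (ℕ × ℕ)) :
    nsum V (e :: l) = e.2 * dgs V e.1 + nsum V l := rfl

lemma cmb_eq (W v y : ℕ) : cmb W v y = if v < W ∧ y ≠ 0 then v + W * y else 0 := by
  unfold cmb
  by_cases h : v < W
  · have h1 : Nat.blt v W = true := by simp [Nat.blt_eq, h]
    rw [h1]
    cases y with
    | zero => simp
    | succ y => simp [h]
  · have h1 : Nat.blt v W = false := by
      rw [Bool.eq_false_iff, Ne, Nat.blt_eq]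
      exact h
    rw [h1]
    simp [h]

lemma cmbF_eq (W v y : ℕ) : cmbF W v y = if v < W ∧ y ≠ 0 then v + W * y else 0 := by
  unfold cmbF
  rw [frc_eq, frc_eq, cmb_eq]

lemma cmbF_ne {W v y : ℕ} (h : cmbF W v y ≠ 0) : v < W ∧ y ≠ 0 ∧ cmbF W v y = v + W * y := by
  rw [cmbF_eq] at h ⊢
  by_cases h1 : v < W ∧ y ≠ 0
  · rw [if_pos h1]
    exact ⟨h1.1, h1.2, rfl⟩
  · rw [if_neg h1] at h
    exact absurd rfl h

lemma hor_nil {α : Type} (W : ℕ) (g : α → ℕ) : hor W g [] = 1 := rfl

lemma hor_cons {α : Type} (W : ℕ) (g : α → ℕ) (x : α) (l : List α) :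
    hor W g (x :: l) = cmbF W (g x) (hor W g l) := rfl

lemma vl_eq (V U s f ρ Q1 Q p m : ℕ) (row : Row) : vl V U s f ρ Q1 Q p m row =
    (s * dgs V row.1 + f * dgs U row.1 + (ρ * nsum V row.2.2 + (p + Q1)) - (ρ * row.2.1 + m)) / Q :=
  rfl

lemma okO_iff (V : ℕ) (outs : List (ℕ × List (ℕ × ℕ))) (h : okO V outs = true) :
    ∀ o ∈ outs, nsum V o.2 ≤ o.1 := by
  induction outs with
  | nil => intro o ho; exact absurd ho List.not_mem_nil
  | cons x l ih =>
    have h1 : okO V (x :: l) = Bool.rec false (okO V l) (Nat.ble (nsum V x.2) x.1) := rfl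
    rw [h1] at h
    cases h2 : Nat.ble (nsum V x.2) x.1 with
    | false => rw [h2] at h; exact absurd h (by simp)
    | true =>
      rw [h2] at h
      intro o ho
      rcases List.mem_cons.mp ho with rfl | ho
      · exact Nat.le_of_ble_eq_true h2
      · exact ih h o ho

/-! ### Digits -/

lemma digit_zero {W v y : ℕ} (h : v < W) : (v + W * y) % W = v := by
  rw [Nat.add_mul_mod_self_left, Nat.mod_eq_of_lt h]

lemma div_base {W v y : ℕ} (h : v < W) : (v + W * y) / W = y := by
  rw [Nat.add_mul_div_left _ _ (by omega), Nat.div_eq_of_lt h, zero_add]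

lemma digit_succ {W v y : ℕ} (h : v < W) (i : ℕ) : (v + W * y) / W ^ (i + 1) = y / W ^ i := by
  rw [pow_succ', ← Nat.div_div_eq_div_mul, div_base h]

theorem hor_spec {α : Type} {W : ℕ} (g : α → ℕ) (l : List α) (h : hor W g l ≠ 0) :
    (∀ i (hi : i < l.length), hor W g l / W ^ i % W = g l[i]) ∧
      (∀ i (hi : i < l.length), g l[i] < W) := by
  induction l with
  | nil => exact ⟨fun i hi => absurd hi (by simp), fun i hi => absurd hi (by simp)⟩
  | cons x l ih =>
    rw [hor_cons] at h ⊢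
    obtain ⟨h1, h2, h3⟩ := cmbF_ne h
    obtain ⟨h4, h5⟩ := ih h2
    rw [h3]
    constructor
    · intro i hi
      cases i with
      | zero =>
        rw [pow_zero, Nat.div_one, digit_zero h1]
        rfl
      | succ i =>
        rw [digit_succ h1]
        have := h4 i (by simpa using hi)
        rw [this]
        rfl
    · intro i hi
      cases i with
      | zero => exact h1
      | succ i => exact h5 i (by simpa using hi)

/-- The digits of a table. -/
theorem tabp_spec {V U s f ρ Q1 Q p0 m0 m1 : ℕ} {r0 r1 : Row} {rest : List Row}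
    {outs : List (ℕ × List (ℕ × ℕ))} (h : tabp V U s f ρ Q1 Q p0 m0 m1 r0 r1 rest outs ≠ 0) :
    (∀ o ∈ outs, nsum V o.2 ≤ o.1) ∧
    (∀ i (hi : i < (r0 :: r1 :: rest).length),
      dgs (tabp V U s f ρ Q1 Q p0 m0 m1 r0 r1 rest outs) (64 * i) =
        vl V U s f ρ Q1 Q (if i = 0 then p0 else 0) (if i = 0 then m0 else if i = 1 then m1 else 0)
          (r0 :: r1 :: rest)[i]) := by
  cases hO : okO V outs with
  | false =>
    unfold tabp at h
    rw [hO] at h
    exact absurd rfl h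
  | true =>
    refine ⟨okO_iff V outs hO, ?_⟩
    have e : tabp V U s f ρ Q1 Q p0 m0 m1 r0 r1 rest outs =
        cmbF 18446744073709551616 (vl V U s f ρ Q1 Q p0 m0 r0)
        (cmbF 18446744073709551616 (vl V U s f ρ Q1 Q 0 m1 r1)
        (hor 18446744073709551616 (fun row => vl V U s f ρ Q1 Q 0 0 row) rest)) := by
      unfold tabp
      rw [hO]
    rw [e] at h ⊢
    obtain ⟨h1, h2, h3⟩ := cmbF_ne h
    obtain ⟨h4, h5, h6⟩ := cmbF_ne h2
    obtain ⟨h7, h8⟩ := hor_spec _ _ h5
    intro i hi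
    have hW : ∀ j, (2 : ℕ) ^ (64 * j) = 18446744073709551616 ^ j := by
      intro j
      rw [pow_mul]
      norm_num
    have hW1 : (2 : ℕ) ^ 64 = 18446744073709551616 := by norm_num
    rw [h3, h6, dgs_eq, hW, hW1]
    rcases i with _ | _ | i
    · rw [pow_zero, Nat.div_one, digit_zero h1]
      simp
    · rw [digit_succ h1, pow_zero, Nat.div_one, digit_zero h4]
      simp
    · rw [digit_succ h1, digit_succ h4]
      have := h7 i (by simpa using hi)
      rw [this]
      simp

/-! ### States -/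

/-- The shift of the table `(a, b)`. -/
def shf (K BS a b : ℕ) : ℕ := BS * ((a - 1) * K + (b - 1))

/-- The table `(a, b)` of a state. -/
def tv (K BS P a b : ℕ) : ℕ := Nat.mod (Nat.shiftRight P (shf K BS a b)) (Nat.pow 2 BS)

/-- The packed `K ^ 2` tables. -/
noncomputable def stk (K BW : ℕ) (g : ℕ → ℕ → ℕ) : ℕ :=
  hor BW (fun i => fl BW (g (Nat.succ (Nat.div i K)) (Nat.succ (Nat.mod i K))))
    (List.range (Nat.mul K K))

theorem stk_spec {K BS : ℕ} {g : ℕ → ℕ → ℕ} (h : stk K (2 ^ BS) g ≠ 0) {a b : ℕ}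
    (ha : 1 ≤ a) (ha' : a ≤ K) (hb : 1 ≤ b) (hb' : b ≤ K) :
    g a b ≠ 0 ∧ tv K BS (stk K (2 ^ BS) g) a b = g a b := by
  obtain ⟨a, rfl⟩ : ∃ a', a = a' + 1 := ⟨a - 1, by omega⟩
  obtain ⟨b, rfl⟩ : ∃ b', b = b' + 1 := ⟨b - 1, by omega⟩
  obtain ⟨h1, h2⟩ := hor_spec _ _ h
  have hidx : a * K + b < (List.range (Nat.mul K K)).length := by
    rw [List.length_range]
    change a * K + b < K * K
    calc a * K + b < a * K + K := by omega
      _ = (a + 1) * K := by ring
      _ ≤ K * K := Nat.mul_le_mul_right K ha'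
  have e1 : Nat.succ (Nat.div (a * K + b) K) = a + 1 := by
    change (a * K + b) / K + 1 = a + 1
    rw [mul_comm, Nat.mul_add_div (by omega), Nat.div_eq_of_lt (by omega), add_zero]
  have e2 : Nat.succ (Nat.mod (a * K + b) K) = b + 1 := by
    change (a * K + b) % K + 1 = b + 1
    rw [mul_comm, Nat.mul_add_mod, Nat.mod_eq_of_lt (by omega)]
  have h3 := h1 (a * K + b) hidx
  have h4 := h2 (a * K + b) hidx
  rw [List.getElem_range, e1, e2] at h3 h4
  have h5 : g (a + 1) (b + 1) ≠ 0 := by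
    intro h0
    rw [fl_eq, if_pos h0] at h4
    exact lt_irrefl _ h4
  rw [fl_eq, if_neg h5] at h3
  refine ⟨h5, ?_⟩
  rw [← h3]
  unfold tv shf
  simp only [Nat.add_sub_cancel]
  change (stk K (2 ^ BS) g >>> (BS * (a * K + b))) % 2 ^ BS = _
  rw [Nat.shiftRight_eq_div_pow, pow_mul]
  rfl

end Pool.Agent.Lib.MP_edae2b_pr.SM.Chk
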