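import Pool.Agent.Lib.MP_edae2b_pr.SM.ChkA

set_option autoImplicit false

/-!
# The kernel checker, part B: the data and the steps (helper33)
-/

namespace Pool.Agent.Lib.MP_edae2b_pr.SM.Chk

/-- The parameters `(s, f, ρ, ε)` of a layer, times `Q`. -/
abbrev Par := ℕ × ℕ × ℕ × ℕ

/-- The data of a certificate. -/
structure Dat where
  D : ℕ
  K : ℕ
  J : ℕ
  B : ℕ
  M : ℕ
  Q : ℕ
  S : ℕ
  c0 : ℕ
  C : ℕ
  cn : ℕ
  cd : ℕ
  mn : ℕ
  md : ℕ
  E : ℕ
  L : List ℕ
  Out : List ℕ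
  r0 : Row
  r1 : Row
  rest : List Row
  outs : List (ℕ × List (ℕ × ℕ))
  phs : List (List Par)
  P0 : ℕ

/-- The parameters of the layer `a ≥ 1`. -/
noncomputable def gt (ph : List Par) (a : ℕ) : Par :=
  List.rec (motive := fun _ => ℕ → Par) (fun _ => (0, 0, 0, 0))
    (fun x _ ih n => Nat.rec x (fun m _ => ih m) n) ph (Nat.pred a)

/-- Division, rounded up. -/
def cdv (x y : ℕ) : ℕ := (x + (y - 1)) / y

lemma le_cdv {y : ℕ} (hy : 0 < y) (x : ℕ) : x ≤ y * cdv x y := by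
  unfold cdv
  have h1 := Nat.div_add_mod (x + (y - 1)) y
  have h2 := Nat.mod_lt (x + (y - 1)) hy
  omega

namespace Dat

variable (d : Dat)

/-- The number of classes. -/
def N : ℕ := d.rest.length + 2

/-- The shift of one table. -/
def BS : ℕ := 64 * (d.N + 1)

/-- The rows. -/
def rows : List Row := d.r0 :: d.r1 :: d.rest

/-- `S * κS`. -/
noncomputable def kS (ph : List Par) (P a : ℕ) : ℕ :=
  cdv (d.cn * ((gt ph a).2.2.1 * (gt ph a).2.2.1) * (d.E + dgs (tv d.K d.BS P a a) 0))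
    (d.cd * (d.Q * d.Q))

/-- `S * κF`. -/
noncomputable def kF (ph : List Par) (P a : ℕ) : ℕ :=
  cdv (d.cn * ((gt ph a).2.1 * (gt ph a).2.1) *
    (d.E + dgs (tv d.K d.BS P (a - 1) (a - 1)) 0)) (d.cd * (d.Q * d.Q))

/-- The positive source at the class `0`. -/
noncomputable def p0 (ph : List Par) (P a b : ℕ) : ℕ :=
  if a = b then d.Q * (2 * d.D * d.kS ph P a + d.kF ph P a) +
    (if a + 1 ≤ d.K then cdv ((gt ph (a + 1)).2.2.2 * (gt ph (a + 1)).2.2.2 *
      d.kF ph P (a + 1)) d.Q else 0) else 0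

/-- The negative source at the class `0`. -/
noncomputable def m0 (ph : List Par) (P a b : ℕ) : ℕ :=
  if a = b + 1 then (gt ph a).2.2.2 * d.kF ph P a else
    if b = a + 1 then (gt ph b).2.2.2 * d.kF ph P b else 0

/-- The negative source at the class `1`. -/
noncomputable def m1 (ph : List Par) (P a b : ℕ) : ℕ :=
  if a = b then d.Q * d.kS ph P a else 0

/-- One new table, forced. -/
noncomputable def tab (V U : ℕ) (q : Par) (p0 m0 m1 : ℕ) : ℕ :=
  frc V fun V => frc U fun U => frc q.1 fun s => frc q.2.1 fun f => frc q.2.2.1 fun ρ =>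
    frc p0 fun p0 => frc m0 fun m0 => frc m1 fun m1 =>
      tabp V U s f ρ (d.Q - 1) d.Q p0 m0 m1 d.r0 d.r1 d.rest d.outs

lemma tab_eq (V U : ℕ) (q : Par) (p0 m0 m1 : ℕ) : d.tab V U q p0 m0 m1 =
    tabp V U q.1 q.2.1 q.2.2.1 (d.Q - 1) d.Q p0 m0 m1 d.r0 d.r1 d.rest d.outs := by
  unfold tab
  simp only [frc_eq]

/-- The half step of the second particle. -/
noncomputable def stX (ph : List Par) (P : ℕ) : ℕ :=
  stk d.K (2 ^ d.BS) fun a b => frc a fun a => frc b fun b =>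
    d.tab (tv d.K d.BS P a b) (tv d.K d.BS P a (b - 1)) (gt ph b) 0 0 0

/-- The half step of the first particle, with the sources. -/
noncomputable def stT (ph : List Par) (P X : ℕ) : ℕ :=
  stk d.K (2 ^ d.BS) fun a b => frc a fun a => frc b fun b =>
    d.tab (tv d.K d.BS X a b) (tv d.K d.BS X (a - 1) b) (gt ph a) (d.p0 ph P a b)
      (d.m0 ph P a b) (d.m1 ph P a b)

/-- One phase; `0` is failure. -/
noncomputable def stp (ph : List Par) (P : ℕ) : ℕ :=
  gd P (frc (d.stX ph P) fun X => gd X (d.stT ph P X))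

/-- Several phases. -/
noncomputable def run (l : List (List Par)) (P : ℕ) : ℕ :=
  List.rec (motive := fun _ => ℕ → ℕ) (fun P => P) (fun ph _ ih P => frc (d.stp ph P) ih) l P

lemma run_nil (P : ℕ) : d.run [] P = P := rfl

lemma run_cons (ph : List Par) (l : List (List Par)) (P : ℕ) :
    d.run (ph :: l) P = d.run l (d.stp ph P) := by
  change frc (d.stp ph P) (fun P => d.run l P) = _
  rw [frc_eq]

lemma run_append (l₁ l₂ : List (List Par)) (P : ℕ) :
    d.run (l₁ ++ l₂) P = d.run l₂ (d.run l₁ P) := by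
  induction l₁ generalizing P with
  | nil => rfl
  | cons x l ih => rw [List.cons_append, run_cons, run_cons, ih]

lemma stp_zero (ph : List Par) : d.stp ph 0 = 0 := rfl

lemma run_zero (l : List (List Par)) : d.run l 0 = 0 := by
  induction l with
  | nil => rfl
  | cons x l ih => rw [run_cons, stp_zero, ih]

lemma run_take_ne {l : List (List Par)} {P : ℕ} (h : d.run l P ≠ 0) (k : ℕ) :
    d.run (l.take k) P ≠ 0 := by
  intro h0
  apply h
  rw [← List.take_append_drop k l, run_append, h0, run_zero]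

lemma stp_ne {ph : List Par} {P : ℕ} (h : d.stp ph P ≠ 0) :
    d.stX ph P ≠ 0 ∧ d.stp ph P = d.stT ph P (d.stX ph P) ∧ d.stT ph P (d.stX ph P) ≠ 0 := by
  unfold stp at h ⊢
  rw [frc_eq] at h ⊢
  obtain ⟨_, h2, h3⟩ := gd_ne h
  obtain ⟨h4, h5, h6⟩ := gd_ne h3
  exact ⟨h4, by rw [h2, h5], h6⟩

lemma length_rows : d.rows.length = d.N := rfl

theorem stX_spec {ph : List Par} {P : ℕ} (h : d.stX ph P ≠ 0) {a b : ℕ}
    (ha : 1 ≤ a) (ha' : a ≤ d.K) (hb : 1 ≤ b) (hb' : b ≤ d.K) :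
    (∀ o ∈ d.outs, nsum (tv d.K d.BS P a b) o.2 ≤ o.1) ∧
    ∀ i (hi : i < d.rows.length), dgs (tv d.K d.BS (d.stX ph P) a b) (64 * i) =
      vl (tv d.K d.BS P a b) (tv d.K d.BS P a (b - 1)) (gt ph b).1 (gt ph b).2.1
        (gt ph b).2.2.1 (d.Q - 1) d.Q 0 0 d.rows[i] := by
  constructor
  · have h1 := (stk_spec h ha ha' hb hb').1
    simp only [frc_eq, tab_eq] at h1
    exact (tabp_spec h1).1
  · intro i hi
    obtain ⟨h1, h2⟩ := stk_spec h ha ha' hb hb'
    simp only [frc_eq, tab_eq] at h1 h2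
    have h3 := (tabp_spec h1).2 i hi
    have h4 : tv d.K d.BS (d.stX ph P) a b = tv d.K d.BS (stk d.K (2 ^ d.BS) fun a b =>
      tabp (tv d.K d.BS P a b) (tv d.K d.BS P a (b - 1)) (gt ph b).1 (gt ph b).2.1
        (gt ph b).2.2.1 (d.Q - 1) d.Q 0 0 0 d.r0 d.r1 d.rest d.outs) a b := by
      unfold stX
      simp only [frc_eq, tab_eq]
    rw [h4, h2, h3]
    simp only [ite_self]
    rfl

theorem stT_spec {ph : List Par} {P X : ℕ} (h : d.stT ph P X ≠ 0) {a b : ℕ}
    (ha : 1 ≤ a) (ha' : a ≤ d.K) (hb : 1 ≤ b) (hb' : b ≤ d.K) :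
    (∀ o ∈ d.outs, nsum (tv d.K d.BS X a b) o.2 ≤ o.1) ∧
    ∀ i (hi : i < d.rows.length), dgs (tv d.K d.BS (d.stT ph P X) a b) (64 * i) =
      vl (tv d.K d.BS X a b) (tv d.K d.BS X (a - 1) b) (gt ph a).1 (gt ph a).2.1
        (gt ph a).2.2.1 (d.Q - 1) d.Q (if i = 0 then d.p0 ph P a b else 0)
        (if i = 0 then d.m0 ph P a b else if i = 1 then d.m1 ph P a b else 0) d.rows[i] := by
  constructor
  · have h1 := (stk_spec h ha ha' hb hb').1
    simp only [frc_eq, tab_eq] at h1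
    exact (tabp_spec h1).1
  · intro i hi
    obtain ⟨h1, h2⟩ := stk_spec h ha ha' hb hb'
    simp only [frc_eq, tab_eq] at h1 h2
    have h3 := (tabp_spec h1).2 i hi
    have h4 : tv d.K d.BS (d.stT ph P X) a b = tv d.K d.BS (stk d.K (2 ^ d.BS) fun a b =>
      tabp (tv d.K d.BS X a b) (tv d.K d.BS X (a - 1) b) (gt ph a).1 (gt ph a).2.1
        (gt ph a).2.2.1 (d.Q - 1) d.Q (d.p0 ph P a b) (d.m0 ph P a b) (d.m1 ph P a b)
        d.r0 d.r1 d.rest d.outs) a b := by
      unfold stT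
      simp only [frc_eq, tab_eq]
    rw [h4, h2, h3]
    rfl

end Dat

end Pool.Agent.Lib.MP_edae2b_pr.SM.Chk
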