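import Pool.Agent.Lib.MP_edae2b_pr.SM.GRN
import Pool.Agent.Lib.MP_edae2b_pr.SM.Box2

set_option autoImplicit false

/-!
# From tables on `ℤ^D` to the certificate `Cer2`, in two half steps

`w r a b z = 1 + C gr z + t r a b z`. The exact slack `slz = 2 D gr - nb gr` is used.
-/

namespace Pool.Agent.Lib.MP_edae2b_pr.SM

open Finset

variable {D : ℕ}

/-- The slack of `gr`. -/
noncomputable def slz (c0 : ℝ) (z : Fin D → ℤ) : ℝ := 2 * D * gr c0 z - nb (gr c0) z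

/-- The half step of the second particle. -/
noncomputable def Gb {D : ℕ} (s f ρ : ℝ) (w : ℕ → ℕ → (Fin D → ℤ) → ℝ) (a b : ℕ)
    (z : Fin D → ℤ) : ℝ :=
  s * w a b z + f * w a (b - 1) z + ρ * nb (w a b) z

/-- The half step of the first particle. -/
noncomputable def Ga {D : ℕ} (s f ρ : ℝ) (w : ℕ → ℕ → (Fin D → ℤ) → ℝ) (a b : ℕ)
    (z : Fin D → ℤ) : ℝ :=
  s * w a b z + f * w (a - 1) b z + ρ * nb (w a b) z

open Classical in
/-- The source. -/
noncomputable def srcZ (K : ℕ) (kS kF ε : ℕ → ℝ) (a b : ℕ) (z : Fin D → ℤ) : ℝ :=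
  (if a = b ∧ z = 0 then 2 * D * kS a + kF a +
    (if a + 1 ≤ K then ε (a + 1) ^ 2 * kF (a + 1) else 0) else 0) -
  (if a = b ∧ (∃ δ : Fin D × Bool, z = dv δ) then kS a else 0) -
  (if a = b + 1 ∧ z = 0 then ε a * kF a else 0) -
  (if b = a + 1 ∧ z = 0 then ε b * kF b else 0)

namespace TabM

lemma nb_sub (F : (Fin D → ℤ) → ℝ) (x : Fin D → ℤ) :
    ∑ δ : Fin D × Bool, F (x - (0 + dv δ)) = nb F x := by
  unfold nb
  rw [Fintype.sum_prod_type, Fintype.sum_prod_type]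
  refine sum_congr rfl fun i _ => ?_
  rw [Fintype.sum_bool, Fintype.sum_bool, add_comm]
  have h1 : ∀ b : Bool, (dv (i, !b) : Fin D → ℤ) = - dv (i, b) := by
    intro b
    funext j
    by_cases h : i = j
    · subst h
      rw [Pi.neg_apply, dv_self, dv_self]
      cases b <;> simp
    · rw [Pi.neg_apply, dv_other i j _ h, dv_other i j _ h, neg_zero]
  have h2 := h1 true
  have h3 := h1 false
  simp only [Bool.not_true, Bool.not_false] at h2 h3
  congr 1
  · rw [zero_add, h3, sub_eq_add_neg]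
  · rw [zero_add, h2, sub_eq_add_neg]

lemma Tp_half (s f ρ : ℕ → ℝ) (w : ℕ → ℕ → (Fin D → ℤ) → ℝ) (a b : ℕ) (z : Fin D → ℤ) :
    Tp s f ρ w a b z =
      Ga (s a) (f a) (ρ a) (fun a' b' => Gb (s b') (f b') (ρ b') w a' b') a b z := by
  unfold Tp Tm Ga Gb
  simp only [sub_zero, nb_sub]
  rfl

lemma nb_mono {F G : (Fin D → ℤ) → ℝ} (h : ∀ z, F z ≤ G z) (z : Fin D → ℤ) : nb F z ≤ nb G z :=
  sum_le_sum fun _ _ => h _

lemma nb_affine (C : ℝ) (g t : (Fin D → ℤ) → ℝ) (z : Fin D → ℤ) :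
    nb (fun x => 1 + C * g x + t x) z = 2 * D + C * nb g z + nb t z := by
  unfold nb
  rw [sum_add_distrib, sum_add_distrib, mul_sum]
  simp [Fintype.card_prod]
  ring

lemma slz_nonneg (hD : 4 ≤ D) {c0 : ℝ} (hc0 : 2 ≤ c0) (z : Fin D → ℤ) : 0 ≤ slz c0 z := by
  have h1 := specGRN D c0 z hc0
  have h2 : (4 : ℝ) ≤ D := by exact_mod_cast hD
  have h3 : (0 : ℝ) ≤ (2 * D - 8) / ((sq z + c0) * (sq z + c0 + 1)) := by
    apply div_nonneg
    · linarith
    · positivity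
  unfold slz
  linarith

lemma gr_zero (c0 : ℝ) : gr c0 (0 : Fin D → ℤ) = 1 / c0 := by
  unfold gr sq
  simp

/-- The half step of one particle, for one pair of layers. -/
lemma half {s f ρ C c0 : ℝ} {W0 W1 T0 T1 X : (Fin D → ℤ) → ℝ} (hs : 0 ≤ s) (hf : 0 ≤ f)
    (hρ : 0 ≤ ρ) (hsum : s + f + 2 * D * ρ = 1)
    (h0 : (s = 0 ∧ ρ = 0) ∨ ∀ z, W0 z ≤ 1 + C * gr c0 z + T0 z)
    (h1 : f = 0 ∨ ∀ z, W1 z ≤ 1 + C * gr c0 z + T1 z) (z : Fin D → ℤ)
    (h : s * T0 z + f * T1 z + ρ * nb T0 z ≤ X z + ρ * (C * (2 * D * gr c0 z - nb (gr c0) z))) :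
    s * W0 z + f * W1 z + ρ * nb W0 z ≤ 1 + C * gr c0 z + X z := by
  have e0 : s * W0 z + ρ * nb W0 z ≤ s * (1 + C * gr c0 z + T0 z) +
      ρ * (2 * D + C * nb (gr c0) z + nb T0 z) := by
    rcases h0 with ⟨h2, h3⟩ | h0
    · rw [h2, h3]
      simp
    · have h2 := nb_mono h0 z
      rw [nb_affine C (gr c0) T0] at h2
      have h3 := mul_le_mul_of_nonneg_left (h0 z) hs
      have h4 := mul_le_mul_of_nonneg_left h2 hρ
      linarith
  have e1 : f * W1 z ≤ f * (1 + C * gr c0 z + T1 z) := by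
    rcases h1 with h1 | h1
    · rw [h1]; simp
    · exact mul_le_mul_of_nonneg_left (h1 z) hf
  have e2 : s * (1 + C * gr c0 z + T0 z) + ρ * (2 * D + C * nb (gr c0) z + nb T0 z) +
      f * (1 + C * gr c0 z + T1 z) = (s + f + 2 * D * ρ) * (1 + C * gr c0 z) +
      (s * T0 z + f * T1 z + ρ * nb T0 z) - ρ * (C * (2 * D * gr c0 z - nb (gr c0) z)) := by
    ring
  rw [hsum] at e2
  linarith

lemma dv_ne_zero (δ : Fin D × Bool) : (dv δ : Fin D → ℤ) ≠ 0 := by
  intro h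
  have h1 := congrFun h δ.1
  obtain ⟨i, b⟩ := δ
  rw [dv_self] at h1
  cases b <;> simp at h1

end TabM

open TabM

/-- Tables on `ℤ^D`. -/
structure TabZ (D K J : ℕ) (m C c0 cup : ℝ) (s f ρ kS kF ε : ℕ → ℕ → ℝ)
    (t x : ℕ → ℕ → ℕ → (Fin D → ℤ) → ℝ) : Prop where
  K_pos : 1 ≤ K
  J_pos : 1 ≤ J
  m_pos : 0 < m
  s_nonneg : ∀ r a, 0 ≤ s r a
  f_nonneg : ∀ r a, 0 ≤ f r a
  ρ_nonneg : ∀ r a, 0 ≤ ρ r a
  sum_eq : ∀ r a, s r a + f r a + 2 * D * ρ r a = 1
  f_top : ∀ r, f r 1 = 0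
  f_bot : f (J - 1) K = 1
  kS_nonneg : ∀ r a, 0 ≤ kS r a
  kF_nonneg : ∀ r a, 0 ≤ kF r a
  hD : 1 ≤ D
  hC : 0 ≤ C
  hc0 : 0 < c0
  cup_ge : 1 / (1 - Real.exp (-m)) - 1 ≤ cup
  t_nonneg : ∀ r a b z, 0 ≤ t r a b z
  hB : ∀ r a b z, r < J → 1 ≤ a → a ≤ K → 1 ≤ b → b ≤ K → (r + 1 < J ∨ a < K) →
    s r b * t (r + 1) a b z + f r b * t (r + 1) a (b - 1) z + ρ r b * nb (t (r + 1) a b) z ≤
      x r a b z + ρ r b * (C * slz c0 z)
  hA : ∀ r a b z, r < J → 1 ≤ a → a ≤ K → 1 ≤ b → b ≤ K →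
    s r a * x r a b z + f r a * x r (a - 1) b z + ρ r a * nb (x r a b) z +
      srcZ K (kS r) (kF r) (ε r) a b z ≤ t r a b z + ρ r a * (C * slz c0 z)
  kS_ge : ∀ r a, r < J → 1 ≤ a → a ≤ K → (r + 1 < J ∨ a < K) →
    cup * (ρ r a ^ 2 * (1 + C / c0 + t (r + 1) a a 0)) ≤ kS r a
  kF_ge : ∀ r a, r < J → 2 ≤ a → a ≤ K →
    cup * (f r a ^ 2 * (1 + C / c0 + t (r + 1) (a - 1) (a - 1) 0)) ≤ kF r a
  close : ∀ a b z, 1 ≤ a → a < K → 1 ≤ b → b < K → t 0 (a + 1) (b + 1) z ≤ t J a b z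

variable {K J : ℕ} {m C c0 cup : ℝ} {s f ρ kS kF ε : ℕ → ℕ → ℝ}
  {t x : ℕ → ℕ → ℕ → (Fin D → ℤ) → ℝ}

/-- The weight function of the tables. -/
noncomputable def wZ (C c0 : ℝ) (t : ℕ → ℕ → ℕ → (Fin D → ℤ) → ℝ) (r a b : ℕ)
    (z : Fin D → ℤ) : ℝ :=
  1 + C * gr c0 z + t r a b z

lemma TabZ.nxt_le (h : TabZ D K J m C c0 cup s f ρ kS kF ε t x) {r a b : ℕ} (hr : r < J)
    (hab : r + 1 < J ∨ (1 ≤ a ∧ a < K ∧ 1 ≤ b ∧ b < K)) (z : Fin D → ℤ) :
    nxt J (wZ C c0 t) r a b z ≤ 1 + C * gr c0 z + t (r + 1) a b z := by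
  unfold nxt wZ
  by_cases h1 : r + 1 < J
  · rw [if_pos h1]
  · rw [if_neg h1]
    rcases hab with h2 | ⟨h2, h3, h4, h5⟩
    · exact absurd h2 h1
    · have h6 : r + 1 = J := by omega
      rw [h6]
      have h7 := h.close a b z h2 h3 h4 h5
      linarith

lemma TabZ.bot (h : TabZ D K J m C c0 cup s f ρ kS kF ε t x) :
    s (J - 1) K = 0 ∧ ρ (J - 1) K = 0 := by
  have h1 := h.sum_eq (J - 1) K
  rw [h.f_bot] at h1
  have h2 := h.s_nonneg (J - 1) K
  have h3 := h.ρ_nonneg (J - 1) K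
  have h5 : (1 : ℝ) ≤ D := by exact_mod_cast h.hD
  have h4 : 0 ≤ 2 * (D : ℝ) * ρ (J - 1) K := by positivity
  constructor
  · linarith
  · have h6 : 2 * (D : ℝ) * ρ (J - 1) K = 0 := by linarith
    rcases mul_eq_zero.mp h6 with h7 | h7
    · linarith
    · exact h7

/-- The half step of the second particle. -/
lemma TabZ.stepB (h : TabZ D K J m C c0 cup s f ρ kS kF ε t x) {r a b : ℕ} (hr : r < J)
    (ha : 1 ≤ a) (haK : a ≤ K) (hb : 1 ≤ b) (hbK : b ≤ K) (hra : r + 1 < J ∨ a < K)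
    (z : Fin D → ℤ) :
    Gb (s r b) (f r b) (ρ r b) (nxt J (wZ C c0 t) r) a b z ≤ 1 + C * gr c0 z + x r a b z := by
  unfold Gb
  refine half (T0 := t (r + 1) a b) (T1 := t (r + 1) a (b - 1))
    (X := x r a b) (h.s_nonneg r b) (h.f_nonneg r b) (h.ρ_nonneg r b) (h.sum_eq r b) ?_ ?_ z ?_
  · by_cases h1 : r + 1 < J
    · exact Or.inr fun z => h.nxt_le hr (Or.inl h1) z
    · have h2 : r = J - 1 := by omega
      by_cases h3 : b = K
      · left
        rw [h2, h3]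
        exact h.bot
      · right
        intro z
        refine h.nxt_le hr (Or.inr ⟨ha, ?_, hb, by omega⟩) z
        rcases hra with h4 | h4
        · exact absurd h4 h1
        · exact h4
  · by_cases h1 : b = 1
    · left
      rw [h1]
      exact h.f_top r
    · right
      intro z
      by_cases h2 : r + 1 < J
      · exact h.nxt_le hr (Or.inl h2) z
      · refine h.nxt_le hr (Or.inr ⟨ha, ?_, by omega, by omega⟩) z
        rcases hra with h4 | h4
        · exact absurd h4 h2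
        · exact h4
  · exact h.hB r a b z hr ha haK hb hbK hra

/-- The full step with the source. -/
lemma TabZ.stepA (h : TabZ D K J m C c0 cup s f ρ kS kF ε t x) {r a b : ℕ} (hr : r < J)
    (ha : 1 ≤ a) (haK : a ≤ K) (hb : 1 ≤ b) (hbK : b ≤ K) (z : Fin D → ℤ) :
    Tp (s r) (f r) (ρ r) (nxt J (wZ C c0 t) r) a b z +
      srcZ K (kS r) (kF r) (ε r) a b z ≤ wZ C c0 t r a b z := by
  rw [Tp_half]
  unfold Ga
  have key := half (s := s r a) (f := f r a) (ρ := ρ r a) (C := C) (c0 := c0)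
    (W0 := fun z => Gb (s r b) (f r b) (ρ r b) (nxt J (wZ C c0 t) r) a b z)
    (W1 := fun z => Gb (s r b) (f r b) (ρ r b) (nxt J (wZ C c0 t) r) (a - 1) b z)
    (T0 := x r a b) (T1 := x r (a - 1) b)
    (X := fun z => t r a b z - srcZ K (kS r) (kF r) (ε r) a b z)
    (h.s_nonneg r a) (h.f_nonneg r a) (h.ρ_nonneg r a) (h.sum_eq r a) ?_ ?_ z ?_
  · unfold wZ at key ⊢
    linarith
  · by_cases h1 : r + 1 < J
    · exact Or.inr fun z => h.stepB hr ha haK hb hbK (Or.inl h1) z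
    · have h2 : r = J - 1 := by omega
      by_cases h3 : a = K
      · left
        rw [h2, h3]
        exact h.bot
      · exact Or.inr fun z => h.stepB hr ha haK hb hbK (Or.inr (by omega)) z
  · by_cases h1 : a = 1
    · left
      rw [h1]
      exact h.f_top r
    · exact Or.inr fun z => h.stepB hr (by omega) (by omega) hb hbK (Or.inr (by omega)) z
  · have h1 := h.hA r a b z hr ha haK hb hbK
    unfold slz at h1
    linarith

/-- Tables give a certificate. -/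
theorem TabZ.cer2 (h : TabZ D K J m C c0 cup s f ρ kS kF ε t x) :
    Cer2 D K J m s f ρ kS kF ε (wZ C c0 t) := by
  have hC := h.hC
  have hc0 := h.hc0
  have hgr : ∀ z : Fin D → ℤ, 0 ≤ C * gr c0 z := by
    intro z
    unfold gr
    positivity
  have hcup0 : 0 ≤ 1 / (1 - Real.exp (-m)) - 1 := by
    have h1 : Real.exp (-m) < 1 := by
      rw [Real.exp_lt_one_iff]
      linarith [h.m_pos]
    have h2 : 0 < Real.exp (-m) := Real.exp_pos _
    rw [sub_nonneg, le_div_iff₀ (by linarith)]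
    linarith
  have hw0 : ∀ r a, r < J → (r + 1 < J ∨ (1 ≤ a ∧ a < K)) →
      nxt J (wZ C c0 t) r a a 0 ≤ 1 + C / c0 + t (r + 1) a a 0 := by
    intro r a hr hra
    have h1 := h.nxt_le (a := a) (b := a) hr (hra.imp id fun h => ⟨h.1, h.2, h.1, h.2⟩) 0
    rw [gr_zero] at h1
    have h2 : C * (1 / c0) = C / c0 := by ring
    linarith
  refine
    { K_pos := h.K_pos
      J_pos := h.J_pos
      m_pos := h.m_pos
      s_nonneg := h.s_nonneg
      f_nonneg := h.f_nonneg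
      ρ_nonneg := h.ρ_nonneg
      sum_eq := h.sum_eq
      f_top := h.f_top
      f_bot := h.f_bot
      kS_nonneg := h.kS_nonneg
      kF_nonneg := h.kF_nonneg
      one_le := ?_
      kS_ge := ?_
      kF_ge := ?_
      diag := ?_
      adj := ?_
      fwd := ?_
      fwd' := ?_
      rest := ?_ }
  · intro r a b z _ _ _ _ _
    unfold wZ
    have h1 := hgr z
    have h2 := h.t_nonneg r a b z
    linarith
  · intro r a hr ha haK
    by_cases h1 : r + 1 < J ∨ a < K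
    · have h2 := hw0 r a hr (h1.imp id fun h => ⟨ha, h⟩)
      have h3 := h.kS_ge r a hr ha haK h1
      refine le_trans ?_ h3
      have h4 : ρ r a ^ 2 * nxt J (wZ C c0 t) r a a 0 ≤
          ρ r a ^ 2 * (1 + C / c0 + t (r + 1) a a 0) := mul_le_mul_of_nonneg_left h2 (sq_nonneg _)
      have h5 : 0 ≤ 1 + C / c0 + t (r + 1) a a 0 := by
        have := h.t_nonneg (r + 1) a a 0
        positivity
      calc _ ≤ (1 / (1 - Real.exp (-m)) - 1) * (ρ r a ^ 2 * (1 + C / c0 + t (r + 1) a a 0)) :=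
            mul_le_mul_of_nonneg_left h4 hcup0
        _ ≤ _ := mul_le_mul_of_nonneg_right h.cup_ge (by positivity)
    · have h2 : r = J - 1 := by omega
      have h3 : a = K := by omega
      rw [h2, h3, h.bot.2]
      have h4 := h.kS_nonneg (J - 1) K
      simpa using h4
  · intro r a hr ha haK
    by_cases h1 : a = 1
    · rw [h1, h.f_top r]
      have h4 := h.kF_nonneg r 1
      simpa using h4
    · have h2 := hw0 r (a - 1) hr (Or.inr ⟨by omega, by omega⟩)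
      have h3 := h.kF_ge r a hr (by omega) haK
      refine le_trans ?_ h3
      have h4 : f r a ^ 2 * nxt J (wZ C c0 t) r (a - 1) (a - 1) 0 ≤
          f r a ^ 2 * (1 + C / c0 + t (r + 1) (a - 1) (a - 1) 0) :=
        mul_le_mul_of_nonneg_left h2 (sq_nonneg _)
      have h5 : 0 ≤ 1 + C / c0 + t (r + 1) (a - 1) (a - 1) 0 := by
        have := h.t_nonneg (r + 1) (a - 1) (a - 1) 0
        positivity
      calc _ ≤ (1 / (1 - Real.exp (-m)) - 1) *
            (f r a ^ 2 * (1 + C / c0 + t (r + 1) (a - 1) (a - 1) 0)) :=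
            mul_le_mul_of_nonneg_left h4 hcup0
        _ ≤ _ := mul_le_mul_of_nonneg_right h.cup_ge (by positivity)
  · intro r a hr ha haK
    have h1 := h.stepA hr ha haK ha haK (0 : Fin D → ℤ)
    have e2 : ¬ ∃ δ : Fin D × Bool, (0 : Fin D → ℤ) = dv δ :=
      fun ⟨δ, hδ⟩ => dv_ne_zero δ hδ.symm
    have h2 : srcZ K (kS r) (kF r) (ε r) a a (0 : Fin D → ℤ) =
        2 * D * kS r a + kF r a + (if a + 1 ≤ K then ε r (a + 1) ^ 2 * kF r (a + 1) else 0) := by
      have e3 : ¬ (a = a ∧ ∃ δ : Fin D × Bool, (0 : Fin D → ℤ) = dv δ) := fun h => e2 h.2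
      have e4 : ¬ (a = a + 1 ∧ (0 : Fin D → ℤ) = 0) := fun h => by omega
      unfold srcZ
      rw [if_neg e3, if_neg e4, if_pos ⟨rfl, rfl⟩]
      ring
    rw [h2] at h1
    linarith
  · intro r a δ hr ha haK
    have h1 := h.stepA hr ha haK ha haK (dv δ : Fin D → ℤ)
    have h2 : srcZ K (kS r) (kF r) (ε r) a a (dv δ : Fin D → ℤ) = - kS r a := by
      have e2 : ¬ (a = a ∧ (dv δ : Fin D → ℤ) = 0) := fun h => dv_ne_zero δ h.2
      have e4 : ¬ (a = a + 1 ∧ (dv δ : Fin D → ℤ) = 0) := fun h => dv_ne_zero δ h.2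
      unfold srcZ
      rw [if_neg e2, if_neg e4, if_pos ⟨rfl, δ, rfl⟩]
      ring
    rw [h2] at h1
    linarith
  · intro r a hr ha haK
    have h1 := h.stepA (a := a + 1) (b := a) hr (by omega) haK ha (by omega) (0 : Fin D → ℤ)
    have h2 : srcZ K (kS r) (kF r) (ε r) (a + 1) a (0 : Fin D → ℤ) =
        - (ε r (a + 1) * kF r (a + 1)) := by
      unfold srcZ
      rw [if_neg (fun h => by omega), if_neg (fun h => by omega), if_pos ⟨rfl, rfl⟩,
        if_neg (fun h => by omega)]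
      ring
    rw [h2] at h1
    linarith
  · intro r a hr ha haK
    have h1 := h.stepA (a := a) (b := a + 1) hr ha (by omega) (by omega) haK (0 : Fin D → ℤ)
    have h2 : srcZ K (kS r) (kF r) (ε r) a (a + 1) (0 : Fin D → ℤ) =
        - (ε r (a + 1) * kF r (a + 1)) := by
      unfold srcZ
      rw [if_neg (fun h => by omega), if_neg (fun h => by omega), if_neg (fun h => by omega),
        if_pos ⟨rfl, rfl⟩]
      ring
    rw [h2] at h1
    linarith
  · intro r a b z hr ha haK hb hbK h1 h2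
    have h3 := h.stepA hr ha haK hb hbK z
    have h4 : srcZ K (kS r) (kF r) (ε r) a b z = 0 := by
      unfold srcZ
      rw [if_neg (fun h5 => h1 ⟨h5.1, Or.inl h5.2⟩), if_neg (fun h5 => h1 ⟨h5.1, Or.inr h5.2⟩),
        if_neg (fun h5 => h2 ⟨h5.2, Or.inl h5.1⟩), if_neg (fun h5 => h2 ⟨h5.2, Or.inr h5.1⟩)]
      ring
    rw [h4] at h3
    linarith

/-- The variance factor. -/
lemma cup_ge_of {m : ℝ} {cup : ℝ} (hm : 0 < m) (h : 1 ≤ cup * (m + m ^ 2 / 2)) :
    1 / (1 - Real.exp (-m)) - 1 ≤ cup := by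
  have h1 : m + m ^ 2 / 2 ≤ Real.exp m - 1 := by
    have := Real.quadratic_le_exp_of_nonneg hm.le
    linarith
  have h2 : 0 < m + m ^ 2 / 2 := by positivity
  have h3 : 0 < Real.exp m - 1 := lt_of_lt_of_le h2 h1
  have h4 : 1 / (1 - Real.exp (-m)) - 1 = 1 / (Real.exp m - 1) := by
    have h5 : Real.exp m ≠ 0 := (Real.exp_pos m).ne'
    have h6 : (1 : ℝ) - (Real.exp m)⁻¹ ≠ 0 := by
      have h7 : (Real.exp m)⁻¹ < 1 := inv_lt_one_of_one_lt₀ (by linarith)
      linarith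
    rw [Real.exp_neg]
    field_simp
    ring
  rw [h4, div_le_iff₀ h3]
  have h7 : 0 ≤ cup := by
    by_contra h8
    push Not at h8
    nlinarith
  nlinarith [mul_le_mul_of_nonneg_left h1 h7]

end Pool.Agent.Lib.MP_edae2b_pr.SM
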