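import Pool.Agent.Lib.MP_edae2b_pr.SM.Code
import Pool.Agent.Lib.MP_edae2b_pr.SM.TabZ

set_option autoImplicit false

/-!
# From tables on codes to `TabZ`

The inequalities are only needed for the codes of a list `O` which contains the near set `L` and
all codes with a neighbour in `L`.
-/

namespace Pool.Agent.Lib.MP_edae2b_pr.SM

open Finset

/-- The square of the norm, from the code (`N` digits). -/
def sqc (B N c : ℕ) : ℕ := ∑ k ∈ range N, dg B c (k + 1) * (k + 1) ^ 2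

/-- The slack `2 D gr z - nb gr z`, from the code (`|z_i| + 1 ≤ N`). -/
noncomputable def slc (D B N : ℕ) (c0 : ℝ) (c : ℕ) : ℝ :=
  2 * D * (1 / (sqc B N c + c0)) - NBS D B N (fun c' => 1 / (sqc B N c' + c0)) c

/-- The source on the codes. -/
noncomputable def srcT (D K : ℕ) (kS kF ε : ℕ → ℝ) (a b c : ℕ) : ℝ :=
  (if a = b ∧ c = 0 then 2 * D * kS a + kF a +
    (if a + 1 ≤ K then ε (a + 1) ^ 2 * kF (a + 1) else 0) else 0) -
  (if a = b ∧ c = 1 then kS a else 0) -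
  (if a = b + 1 ∧ c = 0 then ε a * kF a else 0) -
  (if b = a + 1 ∧ c = 0 then ε b * kF b else 0)

variable {D : ℕ}

namespace TabM

lemma sq_eq_sqc {B N : ℕ} (hB : D < B) (z : Fin D → ℤ) (h : ∀ i, (z i).natAbs ≤ N) :
    sq z = sqc B N (code B z) := by
  rw [CodeM.sq_code hB z h]
  rfl

lemma slack_eq {B N : ℕ} (hB : D < B) (c0 : ℝ) (z : Fin D → ℤ) (h : ∀ i, (z i).natAbs + 1 ≤ N) :
    slz c0 z = slc D B N c0 (code B z) := by
  unfold slc slz
  rw [← nb_code hB _ z (fun i => by have := h i; omega)]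
  congr 1
  · unfold gr
    rw [sq_eq_sqc (N := N) hB z (fun i => by have := h i; omega)]
  · unfold nb
    refine sum_congr rfl fun δ _ => ?_
    unfold gr
    rw [sq_eq_sqc hB (z + dv δ) (N := N)]
    intro i
    have h1 := h i
    have h2 : |dv δ i| ≤ 1 := by
      rw [← sum_abs_dv δ]
      exact single_le_sum (f := fun i => |dv δ i|) (fun j _ => abs_nonneg _) (mem_univ i)
    rw [Pi.add_apply]
    rw [abs_le] at h2
    omega

/-- The table inequality at a point, from the one for its code. -/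
lemma pointwise {B N : ℕ} {L O : List ℕ} {s f ρ C c0 : ℝ} {sl T0 T1 X : ℕ → ℝ} {src : ℝ}
    (hD : 4 ≤ D) (hB : D < B) (hρ : 0 ≤ ρ) (hC : 0 ≤ C) (hc0 : 2 ≤ c0)
    (hT0 : ∀ c, c ∉ L → T0 c = 0) (hT1 : ∀ c, c ∉ L → T1 c = 0) (hX : ∀ c, c ∉ L → X c = 0)
    (hbd : ∀ z : Fin D → ℤ, code B z ∈ O → ∀ i, (z i).natAbs + 1 ≤ N)
    (hsub : ∀ c ∈ L, c ∈ O)
    (hclo : ∀ (z : Fin D → ℤ) (δ : Fin D × Bool), code B (z + dv δ) ∈ L → code B z ∈ O)
    (hsl : ∀ c ∈ O, sl c ≤ C * slc D B N c0 c) (z : Fin D → ℤ)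
    (hsrc : code B z ∉ O → src = 0)
    (h : code B z ∈ O → s * T0 (code B z) + f * T1 (code B z) + ρ * NBS D B N T0 (code B z) + src ≤
      X (code B z) + ρ * sl (code B z)) :
    s * T0 (code B z) + f * T1 (code B z) + ρ * nb (fun x => T0 (code B x)) z + src ≤
      X (code B z) + ρ * (C * slz c0 z) := by
  by_cases hz : code B z ∈ O
  · have h1 := hbd z hz
    rw [nb_code hB T0 z (M := N) (fun i => by have := h1 i; omega), slack_eq hB c0 z h1]
    have h2 := h hz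
    have h3 := mul_le_mul_of_nonneg_left (hsl _ hz) hρ
    linarith
  · have h1 : code B z ∉ L := fun h2 => hz (hsub _ h2)
    have h2 : nb (fun x => T0 (code B x)) z = 0 := by
      unfold nb
      refine sum_eq_zero fun δ _ => ?_
      exact hT0 _ fun h3 => hz (hclo z δ h3)
    rw [hT0 _ h1, hT1 _ h1, hX _ h1, h2, hsrc hz]
    have h3 := slz_nonneg hD hc0 z
    have h4 := mul_nonneg hρ (mul_nonneg hC h3)
    linarith

/-- The two sources agree. -/
lemma src_eq {K B : ℕ} (hB : 2 ≤ B) (kS kF ε : ℕ → ℝ) (a b : ℕ) (z : Fin D → ℤ) :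
    srcZ K kS kF ε a b z = srcT D K kS kF ε a b (code B z) := by
  have h0 : z = 0 ↔ code B z = 0 :=
    ⟨fun h => by rw [h, code_zero], fun h => code_eq_zero hB h⟩
  have h1 : (∃ δ : Fin D × Bool, z = dv δ) ↔ code B z = 1 :=
    ⟨fun ⟨δ, h⟩ => by rw [h, code_dv], fun h => code_eq_one hB h⟩
  unfold srcZ srcT
  simp only [h0, h1]

end TabM

open TabM

/-- Tables on the codes. `L` is the near set, `O` contains it and all codes with a neighbour in it. -/
structure TabH (D K J B N : ℕ) (m C c0 cup : ℝ) (s f ρ kS kF ε : ℕ → ℕ → ℝ) (L O : List ℕ)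
    (sl : ℕ → ℝ) (t x : ℕ → ℕ → ℕ → ℕ → ℝ) : Prop where
  K_pos : 1 ≤ K
  J_pos : 1 ≤ J
  m_pos : 0 < m
  s_nonneg : ∀ r a, 0 ≤ s r a
  f_nonneg : ∀ r a, 0 ≤ f r a
  ρ_nonneg : ∀ r a, 0 ≤ ρ r a
  sum_eq : ∀ r a, s r a + f r a + 2 * D * ρ r a = 1
  f_top : ∀ r, f r 1 = 0
  f_bot : f (J - 1) K = 1
  kS_nonneg : ∀ r a, 0 ≤ kS r a
  kF_nonneg : ∀ r a, 0 ≤ kF r a
  hD : 4 ≤ D
  hDB : D < B
  hC : 0 ≤ C
  hc0 : 2 ≤ c0
  cup_ge : 1 / (1 - Real.exp (-m)) - 1 ≤ cup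
  t_nonneg : ∀ r a b c, 0 ≤ t r a b c
  t_supp : ∀ r a b c, c ∉ L → t r a b c = 0
  x_supp : ∀ r a b c, c ∉ L → x r a b c = 0
  bd : ∀ z : Fin D → ℤ, code B z ∈ O → ∀ i, (z i).natAbs + 1 ≤ N
  sub : ∀ c ∈ L, c ∈ O
  zero_mem : 0 ∈ O
  one_mem : 1 ∈ O
  clo : ∀ (z : Fin D → ℤ) (δ : Fin D × Bool), code B (z + dv δ) ∈ L → code B z ∈ O
  sl_le : ∀ c ∈ O, sl c ≤ C * slc D B N c0 c
  hB : ∀ r a b c, r < J → 1 ≤ a → a ≤ K → 1 ≤ b → b ≤ K → (r + 1 < J ∨ a < K) → c ∈ O →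
    s r b * t (r + 1) a b c + f r b * t (r + 1) a (b - 1) c +
      ρ r b * NBS D B N (t (r + 1) a b) c ≤ x r a b c + ρ r b * sl c
  hA : ∀ r a b c, r < J → 1 ≤ a → a ≤ K → 1 ≤ b → b ≤ K → c ∈ O →
    s r a * x r a b c + f r a * x r (a - 1) b c + ρ r a * NBS D B N (x r a b) c +
      srcT D K (kS r) (kF r) (ε r) a b c ≤ t r a b c + ρ r a * sl c
  kS_ge : ∀ r a, r < J → 1 ≤ a → a ≤ K → (r + 1 < J ∨ a < K) →
    cup * (ρ r a ^ 2 * (1 + C / c0 + t (r + 1) a a 0)) ≤ kS r a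
  kF_ge : ∀ r a, r < J → 2 ≤ a → a ≤ K →
    cup * (f r a ^ 2 * (1 + C / c0 + t (r + 1) (a - 1) (a - 1) 0)) ≤ kF r a
  close : ∀ a b c, 1 ≤ a → a < K → 1 ≤ b → b < K → t 0 (a + 1) (b + 1) c ≤ t J a b c

variable {K J B N : ℕ} {m C c0 cup : ℝ} {s f ρ kS kF ε : ℕ → ℕ → ℝ} {L O : List ℕ}
  {sl : ℕ → ℝ} {t x : ℕ → ℕ → ℕ → ℕ → ℝ}

/-- Tables on codes give tables on `ℤ^D`. -/
theorem TabH.tabZ (h : TabH D K J B N m C c0 cup s f ρ kS kF ε L O sl t x) :
    TabZ D K J m C c0 cup s f ρ kS kF ε (fun r a b z => t r a b (code B z))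
      (fun r a b z => x r a b (code B z)) := by
  have hB2 : 2 ≤ B := by have := h.hD; have := h.hDB; omega
  refine
    { K_pos := h.K_pos
      J_pos := h.J_pos
      m_pos := h.m_pos
      s_nonneg := h.s_nonneg
      f_nonneg := h.f_nonneg
      ρ_nonneg := h.ρ_nonneg
      sum_eq := h.sum_eq
      f_top := h.f_top
      f_bot := h.f_bot
      kS_nonneg := h.kS_nonneg
      kF_nonneg := h.kF_nonneg
      hD := by have := h.hD; omega
      hC := h.hC
      hc0 := lt_of_lt_of_le (by norm_num) h.hc0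
      cup_ge := h.cup_ge
      t_nonneg := fun r a b z => h.t_nonneg r a b _
      hB := ?_
      hA := ?_
      kS_ge := ?_
      kF_ge := ?_
      close := fun a b z h1 h2 h3 h4 => h.close a b _ h1 h2 h3 h4 }
  · intro r a b z hr ha haK hb hbK hra
    have h1 := pointwise (src := 0) (s := s r b) (f := f r b) (ρ := ρ r b) (T0 := t (r + 1) a b)
      (T1 := t (r + 1) a (b - 1)) (X := x r a b) h.hD h.hDB (h.ρ_nonneg r b) h.hC h.hc0
      (fun c hc => h.t_supp _ _ _ c hc) (fun c hc => h.t_supp _ _ _ c hc)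
      (fun c hc => h.x_supp _ _ _ c hc) h.bd h.sub h.clo h.sl_le z (fun _ => rfl)
      (fun hz => by rw [add_zero]; exact h.hB r a b _ hr ha haK hb hbK hra hz)
    rw [add_zero] at h1
    exact h1
  · intro r a b z hr ha haK hb hbK
    rw [src_eq (D := D) (K := K) hB2]
    refine pointwise (src := srcT D K (kS r) (kF r) (ε r) a b (code B z)) (s := s r a)
      (f := f r a) (ρ := ρ r a) (T0 := x r a b)
      (T1 := x r (a - 1) b) (X := t r a b) h.hD h.hDB (h.ρ_nonneg r a) h.hC h.hc0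
      (fun c hc => h.x_supp _ _ _ c hc) (fun c hc => h.x_supp _ _ _ c hc)
      (fun c hc => h.t_supp _ _ _ c hc) h.bd h.sub h.clo h.sl_le z
      (fun hz => ?_)
      (fun hz => h.hA r a b _ hr ha haK hb hbK hz)
    have h2 : code B z ≠ 0 := fun h3 => hz (h3 ▸ h.zero_mem)
    have h3 : code B z ≠ 1 := fun h4 => hz (h4 ▸ h.one_mem)
    unfold srcT
    simp [h2, h3]
  · intro r a hr ha haK hra
    have h1 := h.kS_ge r a hr ha haK hra
    simpa only [code_zero] using h1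
  · intro r a hr ha haK
    have h1 := h.kF_ge r a hr ha haK
    simpa only [code_zero] using h1

/-- Tables on codes give a certificate. -/
theorem TabH.cer2 (h : TabH D K J B N m C c0 cup s f ρ kS kF ε L O sl t x) :
    Cer2 D K J m s f ρ kS kF ε (wZ C c0 fun r a b z => t r a b (code B z)) :=
  h.tabZ.cer2

end Pool.Agent.Lib.MP_edae2b_pr.SM
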