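import Pool.Agent.Lib.MP_edae2b_pr.SM.ChkA
import Pool.Agent.Lib.MP_edae2b_pr.SM.TabH

set_option autoImplicit false

/-!
# The kernel checker, rows: neighbours of codes and the slack

All definitions are computable on natural numbers and lists. `N` is the number of digits.
-/

namespace Pool.Agent.Lib.MP_edae2b_pr.SM.Chk

open Pool.Agent.Lib.MP_edae2b_pr Pool.Agent.Lib.MP_edae2b_pr.SM

/-- The neighbour codes with their multiplicities. -/
def nbp (D B N c : ℕ) : List (ℕ × ℕ) :=
  (c + 1, 2 * (D - ((List.range N).map fun k => dg B c (k + 1)).sum)) ::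
    (List.range N).flatMap fun k => [(c - ec B (k + 1) + ec B (k + 2), dg B c (k + 1)),
      (c - ec B (k + 1) + ec B k, dg B c (k + 1))]

/-- The neighbours in `L`: shift of the digit, multiplicity. -/
def nbl (D B N : ℕ) (L : List ℕ) (c : ℕ) : List (ℕ × ℕ) :=
  (nbp D B N c).filterMap fun p => if p.2 = 0 then none else
    if L.idxOf p.1 < L.length then some (64 * L.idxOf p.1, p.2) else none

/-- The value of a packed table at a code. -/
def tt (L : List ℕ) (V c : ℕ) : ℕ := if L.idxOf c < L.length then dgs V (64 * L.idxOf c) else 0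

/-- The square of the norm. -/
def sqn (B N c : ℕ) : ℕ := ((List.range N).map fun k => dg B c (k + 1) * ((k + 1) * (k + 1))).sum

/-- The positive part of the slack, rounded down. -/
def slA (D B N c0 CS c : ℕ) : ℕ := (CS * 2 * D) / (sqn B N c + c0)

/-- The negative part of the slack, rounded up. -/
def slB (D B N c0 CS c : ℕ) : ℕ :=
  ((nbp D B N c).map fun p =>
    p.2 * ((CS + (sqn B N p.1 + c0 - 1)) / (sqn B N p.1 + c0))).sum

/-- The slack, rounded down. -/
def slN (D B N c0 CS c : ℕ) : ℕ := slA D B N c0 CS c - slB D B N c0 CS c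

/-- The true neighbour codes. -/
def nbtrue (D B N c : ℕ) : List ℕ :=
  (nbp D B N c).filterMap fun p => if p.2 = 0 then none else some p.1

lemma list_sum_range {M : Type*} [AddCommMonoid M] (f : ℕ → M) (n : ℕ) :
    ((List.range n).map f).sum = ∑ k ∈ Finset.range n, f k := by
  induction n with
  | zero => simp
  | succ n ih => rw [List.range_succ, List.map_append, List.sum_append, ih, Finset.sum_range_succ]; simp

theorem sqn_eq (B N c : ℕ) : sqn B N c = sqc B N c := by
  unfold sqn sqc
  rw [list_sum_range]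
  exact Finset.sum_congr rfl fun k _ => by ring

/-- The sum over the neighbours as a sum over the list. -/
lemma nbp_sum {D B N c : ℕ} (g : ℕ → ℝ)
    (h : ((List.range N).map fun k => dg B c (k + 1)).sum ≤ D) :
    ((nbp D B N c).map fun p => (p.2 : ℝ) * g p.1).sum = NBS D B N g c := by
  unfold nbp NBS
  rw [List.map_cons, List.sum_cons]
  congr 1
  · rw [list_sum_range] at h ⊢
    push_cast [Nat.cast_sub h]
    ring
  · clear h
    induction N with
    | zero => simp
    | succ n ih =>
      rw [List.range_succ, List.flatMap_append, List.map_append, List.sum_append, ih,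
        Finset.sum_range_succ]
      congr 1
      simp
      ring

lemma nsum_filterMap (L : List ℕ) (V : ℕ) (l : List (ℕ × ℕ)) :
    (nsum V (l.filterMap fun p => if p.2 = 0 then none else
      if L.idxOf p.1 < L.length then some (64 * L.idxOf p.1, p.2) else none) : ℝ) =
    (l.map fun p => (p.2 : ℝ) * (tt L V p.1 : ℝ)).sum := by
  induction l with
  | nil => simp [nsum_nil]
  | cons p l ih =>
    rw [List.map_cons, List.sum_cons, ← ih]
    by_cases h1 : p.2 = 0
    · rw [List.filterMap_cons_none (by simp [h1]), h1]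
      simp
    · by_cases h2 : L.idxOf p.1 < L.length
      · rw [List.filterMap_cons_some (b := (64 * L.idxOf p.1, p.2)) (by simp only [h1, h2, if_false, if_true]), nsum_cons]
        unfold tt
        rw [if_pos h2]
        push_cast
        ring
      · rw [List.filterMap_cons_none (by simp only [h1, h2, if_false])]
        unfold tt
        rw [if_neg h2]
        simp

theorem nsum_nbl {D B N c V : ℕ} {L : List ℕ}
    (h : ((List.range N).map fun k => dg B c (k + 1)).sum ≤ D) :
    (nsum V (nbl D B N L c) : ℝ) = NBS D B N (fun c' => (tt L V c' : ℝ)) c := by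
  rw [← nbp_sum _ h]
  exact nsum_filterMap L V _

lemma div_up (a b : ℕ) (hb : 0 < b) : (a : ℝ) / b ≤ ((a + (b - 1)) / b : ℕ) := by
  rw [div_le_iff₀ (by exact_mod_cast hb)]
  have h1 : a ≤ (a + (b - 1)) / b * b := by
    have h2 := Nat.div_add_mod (a + (b - 1)) b
    have h3 := Nat.mod_lt (a + (b - 1)) hb
    have h4 : (a + (b - 1)) / b * b = b * ((a + (b - 1)) / b) := Nat.mul_comm _ _
    omega
  exact_mod_cast h1

lemma list_sum_le {α : Type*} (l : List α) (f : α → ℝ) (g : α → ℕ) (h : ∀ x, f x ≤ g x) :
    (l.map f).sum ≤ ((l.map g).sum : ℕ) := by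
  induction l with
  | nil => simp
  | cons x l ih =>
    rw [List.map_cons, List.sum_cons, List.map_cons, List.sum_cons, Nat.cast_add]
    exact add_le_add (h x) ih

theorem slN_le {D B N c0 C S c : ℕ} (h : ((List.range N).map fun k => dg B c (k + 1)).sum ≤ D)
    (h2 : slB D B N c0 (C * S) c ≤ slA D B N c0 (C * S) c) (hS : 0 < S) (hc0 : 0 < c0) :
    (slN D B N c0 (C * S) c : ℝ) / S ≤ C * slc D B N c0 c := by
  have hS' : (0 : ℝ) < S := by exact_mod_cast hS
  have e1 : (slA D B N c0 (C * S) c : ℝ) ≤ C * S * (2 * D) * (1 / (sqc B N c + c0)) := by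
    unfold slA
    refine Nat.cast_div_le.trans (le_of_eq ?_)
    rw [sqn_eq]
    push_cast
    ring
  have e2 : (C : ℝ) * S * NBS D B N (fun c' => 1 / ((sqc B N c' : ℝ) + c0)) c ≤
      slB D B N c0 (C * S) c := by
    rw [← nbp_sum _ h]
    have h3 : (C : ℝ) * S * ((nbp D B N c).map fun p =>
        (p.2 : ℝ) * (1 / ((sqc B N p.1 : ℝ) + c0))).sum =
        ((nbp D B N c).map fun p => (p.2 : ℝ) * ((C * S : ℕ) / ((sqn B N p.1 + c0 : ℕ) : ℝ))).sum := by
      rw [← List.sum_map_mul_left]
      congr 1
      refine List.map_congr_left fun p _ => ?_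
      rw [sqn_eq]
      push_cast
      ring
    rw [h3]
    unfold slB
    refine list_sum_le _ _ _ fun p => ?_
    push_cast
    refine mul_le_mul_of_nonneg_left ?_ (Nat.cast_nonneg _)
    have h4 := div_up (C * S) (sqn B N p.1 + c0) (by omega)
    push_cast at h4 ⊢
    exact h4
  have e3 : (slN D B N c0 (C * S) c : ℝ) =
      slA D B N c0 (C * S) c - slB D B N c0 (C * S) c := by
    unfold slN
    rw [Nat.cast_sub h2]
  rw [div_le_iff₀ hS', e3]
  unfold slc
  nlinarith [e1, e2]

theorem mem_nbtrue {D B N : ℕ} {z : Fin D → ℤ} (hB : D < B) (h : ∀ i, (z i).natAbs ≤ N)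
    (δ : Fin D × Bool) : code B (z + dv δ) ∈ nbtrue D B N (code B z) := by
  obtain ⟨i, b⟩ := δ
  have key : ∃ p ∈ nbp D B N (code B z), p.2 ≠ 0 ∧ p.1 = code B (z + dv (i, b)) := by
    by_cases h0 : z i = 0
    · refine ⟨_, List.mem_cons_self, ?_, ?_⟩
      · have h1 := CodeM.sum_cnt z (L := N + 1) (fun i => Nat.lt_succ_of_le (h i))
        rw [Finset.sum_range_succ'] at h1
        have h2 : ∑ k ∈ Finset.range N, dg B (code B z) (k + 1) =
            ∑ k ∈ Finset.range N, CodeM.cnt z (k + 1) :=
          Finset.sum_congr rfl fun k hk => CodeM.dg_code hB z h (Finset.mem_range.mp hk)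
        have h3 : 0 < CodeM.cnt z 0 :=
          Finset.card_pos.mpr ⟨i, Finset.mem_filter.mpr ⟨Finset.mem_univ i, by rw [h0]; rfl⟩⟩
        simp only [list_sum_range]
        rw [h2]
        omega
      · rw [CodeM.code_add, h0, dv_self]
        cases b <;> simp [ec]
    · have hk : (z i).natAbs - 1 < N := by
        have := h i
        omega
      have e1 : (z i).natAbs - 1 + 1 = (z i).natAbs := by omega
      have e2 : (z i + dv (i, b) i).natAbs = (z i).natAbs - 1 + 2 ∨
          (z i + dv (i, b) i).natAbs = (z i).natAbs - 1 := by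
        rw [dv_self]
        cases b
        · simp only [Bool.false_eq_true, if_false]
          omega
        · simp only [if_true]
          omega
      have e3 : dg B (code B z) ((z i).natAbs - 1 + 1) ≠ 0 := by
        rw [CodeM.dg_code hB z h hk, e1]
        have h4 : 0 < CodeM.cnt z (z i).natAbs :=
          Finset.card_pos.mpr ⟨i, Finset.mem_filter.mpr ⟨Finset.mem_univ i, rfl⟩⟩
        exact h4.ne'
      rcases e2 with e2 | e2
      · refine ⟨(code B z - ec B ((z i).natAbs - 1 + 1) + ec B ((z i).natAbs - 1 + 2),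
          dg B (code B z) ((z i).natAbs - 1 + 1)), ?_, e3, ?_⟩
        · refine List.mem_cons_of_mem _ (List.mem_flatMap.mpr ⟨(z i).natAbs - 1,
            List.mem_range.mpr hk, ?_⟩)
          exact List.mem_cons_self
        · rw [CodeM.code_add, e2, e1]
      · refine ⟨(code B z - ec B ((z i).natAbs - 1 + 1) + ec B ((z i).natAbs - 1),
          dg B (code B z) ((z i).natAbs - 1 + 1)), ?_, e3, ?_⟩
        · refine List.mem_cons_of_mem _ (List.mem_flatMap.mpr ⟨(z i).natAbs - 1,
            List.mem_range.mpr hk, ?_⟩)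
          exact List.mem_cons_of_mem _ List.mem_cons_self
        · rw [CodeM.code_add, e2, e1]
  obtain ⟨p, h1, h2, h3⟩ := key
  unfold nbtrue
  rw [List.mem_filterMap]
  exact ⟨p, h1, by rw [if_neg h2, h3]⟩

end Pool.Agent.Lib.MP_edae2b_pr.SM.Chk
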