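import Pool.Agent.Lib.MP_edae2b_pr.SM.Code

set_option autoImplicit false

/-!
# Enumeration of the codes, and neighbour codes (module ENUM, helper92)
-/

namespace Pool.Agent.Lib.MP_edae2b_pr.SM

open Finset

/-- The codes of the multisets with parts `≤ M`, at most `D` parts and sum `≤ N`. -/
def codesTo (B : ℕ) : ℕ → ℕ → ℕ → List ℕ
  | 0, _, _ => [0]
  | M + 1, D, N => (List.range (D + 1)).flatMap fun j =>
      if j * (M + 1) ≤ N then (codesTo B M (D - j) (N - j * (M + 1))).map (· + j * B ^ M) else []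

/-- The codes of all `z : Fin D → ℤ` with `nn z ≤ N`. -/
def codes (D B N : ℕ) : List ℕ := codesTo B N D N

/-- The codes of the possible neighbours of a point with code `c` and entries `≤ M`. -/
def nbrs (B M c : ℕ) : List ℕ :=
  (c + 1) :: (List.range M).flatMap fun k =>
    [c - ec B (k + 1) + ec B (k + 2), c - ec B (k + 1) + ec B k]

namespace EnumM

open CodeM

variable {D : ℕ}

lemma mem_codesTo (B : ℕ) (m : ℕ → ℕ) (M D N : ℕ) (h1 : ∑ k ∈ range M, m k ≤ D)
    (h2 : ∑ k ∈ range M, m k * (k + 1) ≤ N) : ∑ k ∈ range M, m k * B ^ k ∈ codesTo B M D N := by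
  induction M generalizing D N with
  | zero => simp [codesTo]
  | succ M ih =>
    rw [sum_range_succ] at h1 h2
    unfold codesTo
    rw [List.mem_flatMap]
    refine ⟨m M, List.mem_range.mpr (by omega), ?_⟩
    rw [if_pos (by omega), List.mem_map]
    exact ⟨_, ih (D - m M) (N - m M * (M + 1)) (by omega) (by omega), by
      rw [sum_range_succ]⟩

lemma le_pow_pred {B : ℕ} (z : Fin D → ℤ) (i : Fin D) (h : z i ≠ 0) :
    B ^ ((z i).natAbs - 1) ≤ code B z := by
  have h1 : ec B (z i).natAbs ≤ code B z :=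
    single_le_sum (f := fun i => ec B (z i).natAbs) (fun _ _ => Nat.zero_le _) (mem_univ i)
  unfold ec at h1
  rwa [if_neg (by omega)] at h1

end EnumM

open CodeM EnumM

variable {D : ℕ}

/-- Every point with `ℓ¹` norm at most `N` has its code in the list `codes D B N`. -/
theorem code_mem_codes (B : ℕ) {N : ℕ} {z : Fin D → ℤ} (h : nn z ≤ N) :
    code B z ∈ codes D B N := by
  have hM : ∀ i, (z i).natAbs ≤ N := fun i => (natAbs_le_nn z i).trans h
  rw [code_eq B z hM]
  refine mem_codesTo B (fun k => cnt z (k + 1)) N D N ?_ ?_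
  · have h1 := sum_cnt z (L := N + 1) (fun i => Nat.lt_succ_of_le (hM i))
    rw [sum_range_succ'] at h1
    omega
  · have h1 : nn z = ∑ k ∈ range N, cnt z (k + 1) * (k + 1) := by
      unfold nn
      rw [sum_comp_nat z (fun a => a) (L := N + 1) (fun i => Nat.lt_succ_of_le (hM i)),
        sum_range_succ', mul_zero, add_zero]
    omega

/-- The entries are bounded if the code is. -/
theorem natAbs_le_of_code_lt {B M : ℕ} (hB : 2 ≤ B) {z : Fin D → ℤ} (h : code B z < B ^ M)
    (i : Fin D) : (z i).natAbs ≤ M := by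
  by_contra hcon
  push Not at hcon
  have h1 := le_pow_pred (B := B) z i (by omega)
  have h2 : B ^ M ≤ B ^ ((z i).natAbs - 1) := Nat.pow_le_pow_right (by omega) (by omega)
  omega

/-- The code of a neighbour. -/
theorem code_mem_nbrs (B : ℕ) {M : ℕ} {z : Fin D → ℤ} (h : ∀ i, (z i).natAbs ≤ M)
    (δ : Fin D × Bool) : code B (z + dv δ) ∈ nbrs B M (code B z) := by
  obtain ⟨i, b⟩ := δ
  unfold nbrs
  rw [code_add, List.mem_cons, List.mem_flatMap]
  have hi := h i
  by_cases h0 : z i = 0
  · left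
    rw [h0, dv_self]
    cases b <;> simp [ec]
  · right
    refine ⟨(z i).natAbs - 1, List.mem_range.mpr (by omega), ?_⟩
    have e1 : (z i).natAbs - 1 + 1 = (z i).natAbs := by omega
    have e2 : (z i + dv (i, b) i).natAbs = (z i).natAbs - 1 + 2 ∨
        (z i + dv (i, b) i).natAbs = (z i).natAbs - 1 := by
      rw [dv_self]
      cases b
      · simp only [Bool.false_eq_true, if_false]
        omega
      · simp only [if_true]
        omega
    rw [e1]
    rcases e2 with e2 | e2
    · rw [e2]
      exact List.mem_cons_self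
    · rw [e2]
      exact List.mem_cons_of_mem _ List.mem_cons_self

lemma dv_add_cancel (z : Fin D → ℤ) (δ : Fin D × Bool) : z + dv δ + dv (δ.1, !δ.2) = z := by
  rw [dv_neg, add_neg_cancel_right]

/-- If the code of a neighbour of `z` is in `L`, then the code of `z` is a neighbour code of an
element of `L`. -/
theorem code_mem_flatMap {B M : ℕ} (hB : 2 ≤ B) {L : List ℕ} (hL : ∀ c ∈ L, c < B ^ M)
    {z : Fin D → ℤ} {δ : Fin D × Bool} (h : code B (z + dv δ) ∈ L) :
    code B z ∈ L.flatMap (nbrs B M) := by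
  rw [List.mem_flatMap]
  refine ⟨_, h, ?_⟩
  have h1 := code_mem_nbrs B (natAbs_le_of_code_lt hB (hL _ h)) (δ.1, !δ.2)
  rwa [dv_add_cancel] at h1

/-- Outside `L` and its neighbour codes, a function of the code which is supported on `L` vanishes at
all neighbours. -/
theorem nb_eq_zero {B M : ℕ} (hB : 2 ≤ B) {L : List ℕ} (hL : ∀ c ∈ L, c < B ^ M) {t : ℕ → ℝ}
    (ht : ∀ c, c ∉ L → t c = 0) {z : Fin D → ℤ} (hz : code B z ∉ L.flatMap (nbrs B M)) :
    nb (fun x => t (code B x)) z = 0 := by
  unfold nb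
  refine sum_eq_zero fun δ _ => ht _ fun h => hz ?_
  exact code_mem_flatMap hB hL h

/-- `code B z` has at most `D` parts: the sum of the digits. -/
theorem sum_dg_le {B : ℕ} (hB : D < B) (z : Fin D → ℤ) {M : ℕ} (h : ∀ i, (z i).natAbs ≤ M) :
    ∑ k ∈ range M, dg B (code B z) (k + 1) ≤ D := by
  have h1 := sum_cnt z (L := M + 1) (fun i => Nat.lt_succ_of_le (h i))
  rw [sum_range_succ'] at h1
  have h2 : ∑ k ∈ range M, dg B (code B z) (k + 1) = ∑ k ∈ range M, cnt z (k + 1) :=
    sum_congr rfl fun k hk => dg_code hB z h (mem_range.mp hk)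
  omega

end Pool.Agent.Lib.MP_edae2b_pr.SM
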