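import Pool.Agent.Lib.MP_edae2b_pr.SM.KeyP
import Pool.Agent.Lib.MP_edae2b_pr.SM.Box2

/-!
# From a certificate to the limit shape (helper96)
-/

namespace Pool.Agent.Lib.MP_edae2b_pr.SM

open MeasureTheory ProbabilityTheory Filter Topology
open Pool.Agent.Lib.MP_edae2b_pr

/-- There is a certificate with a period at most `μ₀`. -/
def HasCer (D : ℕ) (μ₀ : ℝ) : Prop := ∃ (K J : ℕ) (m : ℝ) (s f ρ kS kF ε : ℕ → ℕ → ℝ)
  (w : ℕ → ℕ → ℕ → (Fin D → ℤ) → ℝ), Cer2 D K J m s f ρ kS kF ε w ∧ (J : ℝ) * m ≤ μ₀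

variable {d : ℕ} {Ω : Type*} [MeasurableSpace Ω] {P : Measure Ω} [IsProbabilityMeasure P]
  {ω : Sym2 (Fin d → ℤ) → Ω → ℝ}

/-- A certificate refutes the Euclidean ball, general parameter `θ` in the diagonal bound. -/
theorem not_ball_of_cer {D : ℕ} {μ₀ s θ A B : ℝ} (h : HasCer D μ₀) (hD : D + 1 ≤ d)
    (hind : iIndepFun ω P) (hlaw : ∀ e, Measurable (ω e) ∧ P.map (ω e) = ex) (hs : 0 < s)
    (hμs : μ₀ ^ 2 * d < s ^ 2) (hθ : 0 ≤ θ) (hA : Real.exp θ ≤ A) (hB : Real.exp (-θ) ≤ B)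
    (hsl : ((d : ℝ) * A + (d - 1) * B - 1) * s < θ * d) :
    ¬ ∃ c : ℝ, ∀ x : Fin d → ℤ, ∀ᵐ t ∂P, Tendsto (fun n : ℕ =>
      Tz (gridG (Fin d)) (fun e => ω e t) 0 (n • x) / n) atTop
      (𝓝 (c * Real.sqrt (∑ i, ((x i : ℝ)) ^ 2))) := by
  obtain ⟨K, J, m, s', f, ρ, kS, kF, ε, w, hc, hJm⟩ := h
  have hJ := hc.J_pos
  have hK := hc.K_pos
  have hm := hc.m_pos
  have hμ : 0 ≤ (J : ℝ) * m := by positivity
  have hw : 1 ≤ w 0 1 1 0 := hc.one_le 0 1 1 0 (by omega) le_rfl hK le_rfl hK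
  have hδ : 0 < 1 / w 0 1 1 0 := by positivity
  refine key_pr (μ := J * m) (δ := 1 / w 0 1 1 0) (C := ((K - 1 : ℕ) : ℝ) * J * m) hD hind hlaw
    hμ hδ (fun n => ?_) hs (lt_of_le_of_lt ?_ hμs) hθ hA hB hsl
  · have h1 := hc.pr_ge n
    have h2 : (((n + K - 1) * J : ℕ) : ℝ) * m = J * m * n + ((K - 1 : ℕ) : ℝ) * J * m := by
      rw [Nat.add_sub_assoc hK]
      push_cast
      ring
    rwa [h2] at h1
  · have h3 : ((J : ℝ) * m) ^ 2 ≤ μ₀ ^ 2 := pow_le_pow_left₀ hμ hJm 2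
    exact mul_le_mul_of_nonneg_right h3 (Nat.cast_nonneg _)

/-- The same with `θ = 59 / 50`. -/
theorem not_ball_of_cer' {D : ℕ} {μ₀ s : ℝ} (h : HasCer D μ₀) (hD : D + 1 ≤ d)
    (hind : iIndepFun ω P) (hlaw : ∀ e, Measurable (ω e) ∧ P.map (ω e) = ex) (hs : 0 < s)
    (hμs : μ₀ ^ 2 * d < s ^ 2)
    (hsl : ((d : ℝ) * (32544 / 10000) + (d - 1) * (3073 / 10000) - 1) * s < 59 / 50 * d) :
    ¬ ∃ c : ℝ, ∀ x : Fin d → ℤ, ∀ᵐ t ∂P, Tendsto (fun n : ℕ =>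
      Tz (gridG (Fin d)) (fun e => ω e t) 0 (n • x) / n) atTop
      (𝓝 (c * Real.sqrt (∑ i, ((x i : ℝ)) ^ 2))) :=
  not_ball_of_cer h hD hind hlaw hs hμs (by norm_num) exp_upper_pr exp_lower_pr hsl

lemma exp_upper_seven : Real.exp (57 / 50) ≤ 312678 / 100000 := by
  have h1 : Real.exp (57 / 100) ≤ 1768268 / 1000000 := by
    refine (Real.exp_bound' (by norm_num) (by norm_num) (n := 10) (by norm_num)).trans ?_
    simp only [Finset.sum_range_succ, Finset.sum_range_zero, Nat.factorial]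
    norm_num
  rw [show (57 / 50 : ℝ) = 57 / 100 + 57 / 100 by norm_num, Real.exp_add]
  calc Real.exp (57 / 100) * Real.exp (57 / 100) ≤ (1768268 / 1000000) * (1768268 / 1000000) := by
        gcongr
    _ ≤ _ := by norm_num

lemma exp_lower_seven : Real.exp (-(57 / 50)) ≤ 31983 / 100000 := by
  have h1 : (1768267 / 1000000 : ℝ) ≤ Real.exp (57 / 100) := by
    refine le_trans ?_ (Real.sum_le_exp_of_nonneg (by norm_num) 10)
    simp only [Finset.sum_range_succ, Finset.sum_range_zero, Nat.factorial]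
    norm_num
  have h2 : (100000 / 31983 : ℝ) ≤ Real.exp (57 / 50) := by
    rw [show (57 / 50 : ℝ) = 57 / 100 + 57 / 100 by norm_num, Real.exp_add]
    calc (100000 / 31983 : ℝ) ≤ (1768267 / 1000000) * (1768267 / 1000000) := by norm_num
      _ ≤ _ := by gcongr
  rw [Real.exp_neg]
  refine inv_le_of_inv_le₀ (by norm_num) ?_
  rw [inv_div]
  exact h2

lemma exp_upper_six : Real.exp (113 / 100) ≤ 309567 / 100000 := by
  have h1 : Real.exp (113 / 200) ≤ 1759448 / 1000000 := by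
    refine (Real.exp_bound' (by norm_num) (by norm_num) (n := 10) (by norm_num)).trans ?_
    simp only [Finset.sum_range_succ, Finset.sum_range_zero, Nat.factorial]
    norm_num
  rw [show (113 / 100 : ℝ) = 113 / 200 + 113 / 200 by norm_num, Real.exp_add]
  calc Real.exp (113 / 200) * Real.exp (113 / 200) ≤ (1759448 / 1000000) * (1759448 / 1000000) := by
        gcongr
    _ ≤ _ := by norm_num

lemma exp_lower_six : Real.exp (-(113 / 100)) ≤ 32304 / 100000 := by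
  have h1 : (1759447 / 1000000 : ℝ) ≤ Real.exp (113 / 200) := by
    refine le_trans ?_ (Real.sum_le_exp_of_nonneg (by norm_num) 10)
    simp only [Finset.sum_range_succ, Finset.sum_range_zero, Nat.factorial]
    norm_num
  have h2 : (100000 / 32304 : ℝ) ≤ Real.exp (113 / 100) := by
    rw [show (113 / 100 : ℝ) = 113 / 200 + 113 / 200 by norm_num, Real.exp_add]
    calc (100000 / 32304 : ℝ) ≤ (1759447 / 1000000) * (1759447 / 1000000) := by norm_num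
      _ ≤ _ := by gcongr
  rw [Real.exp_neg]
  refine inv_le_of_inv_le₀ (by norm_num) ?_
  rw [inv_div]
  exact h2

lemma cer_7 (h : HasCer 6 (13224 / 100000)) (hd : d = 7) (hind : iIndepFun ω P)
    (hlaw : ∀ e, Measurable (ω e) ∧ P.map (ω e) = ex) :
    ¬ ∃ c : ℝ, ∀ x : Fin d → ℤ, ∀ᵐ t ∂P, Tendsto (fun n : ℕ =>
      Tz (gridG (Fin d)) (fun e => ω e t) 0 (n • x) / n) atTop
      (𝓝 (c * Real.sqrt (∑ i, ((x i : ℝ)) ^ 2))) := by
  subst hd
  exact not_ball_of_cer (s := 349887 / 1000000) h (by norm_num) hind hlaw (by norm_num) (by norm_num)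
    (by norm_num) exp_upper_seven exp_lower_seven (by norm_num)

lemma cer_6 (h : HasCer 5 (14423 / 100000)) (hd : d = 6) (hind : iIndepFun ω P)
    (hlaw : ∀ e, Measurable (ω e) ∧ P.map (ω e) = ex) :
    ¬ ∃ c : ℝ, ∀ x : Fin d → ℤ, ∀ᵐ t ∂P, Tendsto (fun n : ℕ =>
      Tz (gridG (Fin d)) (fun e => ω e t) 0 (n • x) / n) atTop
      (𝓝 (c * Real.sqrt (∑ i, ((x i : ℝ)) ^ 2))) := by
  subst hd
  exact not_ball_of_cer (s := 176653 / 500000) h (by norm_num) hind hlaw (by norm_num) (by norm_num)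
    (by norm_num) exp_upper_six exp_lower_six (by norm_num)

lemma cer_8 (h : HasCer 7 (12276 / 100000)) (hd : d = 8) (hind : iIndepFun ω P)
    (hlaw : ∀ e, Measurable (ω e) ∧ P.map (ω e) = ex) :
    ¬ ∃ c : ℝ, ∀ x : Fin d → ℤ, ∀ᵐ t ∂P, Tendsto (fun n : ℕ =>
      Tz (gridG (Fin d)) (fun e => ω e t) 0 (n • x) / n) atTop
      (𝓝 (c * Real.sqrt (∑ i, ((x i : ℝ)) ^ 2))) := by
  subst hd
  exact not_ball_of_cer' (s := 13889 / 40000) h (by norm_num) hind hlaw (by norm_num) (by norm_num)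
    (by norm_num)

lemma cer_9 (h : HasCer 8 (11512 / 100000)) (hd : d = 9) (hind : iIndepFun ω P)
    (hlaw : ∀ e, Measurable (ω e) ∧ P.map (ω e) = ex) :
    ¬ ∃ c : ℝ, ∀ x : Fin d → ℤ, ∀ᵐ t ∂P, Tendsto (fun n : ℕ =>
      Tz (gridG (Fin d)) (fun e => ω e t) 0 (n • x) / n) atTop
      (𝓝 (c * Real.sqrt (∑ i, ((x i : ℝ)) ^ 2))) := by
  subst hd
  exact not_ball_of_cer' (s := 172687 / 500000) h (by norm_num) hind hlaw (by norm_num) (by norm_num)
    (by norm_num)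

lemma cer_10 (h : HasCer 9 (10875 / 100000)) (hd : d = 10) (hind : iIndepFun ω P)
    (hlaw : ∀ e, Measurable (ω e) ∧ P.map (ω e) = ex) :
    ¬ ∃ c : ℝ, ∀ x : Fin d → ℤ, ∀ᵐ t ∂P, Tendsto (fun n : ℕ =>
      Tz (gridG (Fin d)) (fun e => ω e t) 0 (n • x) / n) atTop
      (𝓝 (c * Real.sqrt (∑ i, ((x i : ℝ)) ^ 2))) := by
  subst hd
  exact not_ball_of_cer' (s := 343911 / 1000000) h (by norm_num) hind hlaw (by norm_num) (by norm_num)
    (by norm_num)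

lemma cer_11 (h : HasCer 10 (10333 / 100000)) (hd : d = 11) (hind : iIndepFun ω P)
    (hlaw : ∀ e, Measurable (ω e) ∧ P.map (ω e) = ex) :
    ¬ ∃ c : ℝ, ∀ x : Fin d → ℤ, ∀ᵐ t ∂P, Tendsto (fun n : ℕ =>
      Tz (gridG (Fin d)) (fun e => ω e t) 0 (n • x) / n) atTop
      (𝓝 (c * Real.sqrt (∑ i, ((x i : ℝ)) ^ 2))) := by
  subst hd
  exact not_ball_of_cer' (s := 171361 / 500000) h (by norm_num) hind hlaw (by norm_num) (by norm_num)
    (by norm_num)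

lemma cer_12 (h : HasCer 11 (9865 / 100000)) (hd : d = 12) (hind : iIndepFun ω P)
    (hlaw : ∀ e, Measurable (ω e) ∧ P.map (ω e) = ex) :
    ¬ ∃ c : ℝ, ∀ x : Fin d → ℤ, ∀ᵐ t ∂P, Tendsto (fun n : ℕ =>
      Tz (gridG (Fin d)) (fun e => ω e t) 0 (n • x) / n) atTop
      (𝓝 (c * Real.sqrt (∑ i, ((x i : ℝ)) ^ 2))) := by
  subst hd
  exact not_ball_of_cer' (s := 21359 / 62500) h (by norm_num) hind hlaw (by norm_num) (by norm_num)
    (by norm_num)

lemma cer_13 (h : HasCer 12 (9455 / 100000)) (hd : d = 13) (hind : iIndepFun ω P)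
    (hlaw : ∀ e, Measurable (ω e) ∧ P.map (ω e) = ex) :
    ¬ ∃ c : ℝ, ∀ x : Fin d → ℤ, ∀ᵐ t ∂P, Tendsto (fun n : ℕ =>
      Tz (gridG (Fin d)) (fun e => ω e t) 0 (n • x) / n) atTop
      (𝓝 (c * Real.sqrt (∑ i, ((x i : ℝ)) ^ 2))) := by
  subst hd
  exact not_ball_of_cer' (s := 85229 / 250000) h (by norm_num) hind hlaw (by norm_num) (by norm_num)
    (by norm_num)

end Pool.Agent.Lib.MP_edae2b_pr.SM
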