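import Pool.Agent.Lib.MP_edae2b_pr.SM.ChkB
import Pool.Agent.Lib.MP_edae2b_pr.SM.ChkR
import Pool.Agent.Lib.MP_edae2b_pr.SM.Enum
import Pool.Agent.Lib.MP_edae2b_pr.SM.MaiP

set_option autoImplicit false

/-!
# The kernel checker, part C: soundness (helper33)
-/

namespace Pool.Agent.Lib.MP_edae2b_pr.SM.Chk

open Finset

/-- The row of the class `c`. -/
def mkRow (D B N c0 CS : ℕ) (L : List ℕ) (c : ℕ) : Row :=
  (64 * L.idxOf c, slN D B N c0 CS c, nbl D B N L c)

/-- The leak row of the class `c`. -/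
def mkOut (D B N c0 CS : ℕ) (L : List ℕ) (c : ℕ) : ℕ × List (ℕ × ℕ) :=
  (slN D B N c0 CS c, nbl D B N L c)

namespace Dat

variable (d : Dat)

/-- The conditions on the data. -/
structure Ok : Prop where
  hJ : d.phs.length = d.J
  hJ1 : 1 ≤ d.J
  hK1 : 1 ≤ d.K
  hD : 4 ≤ d.D
  hDB : d.D < d.B
  hc0 : 2 ≤ d.c0
  hQ : 1 ≤ d.Q
  hS : 1 ≤ d.S
  hcd : 1 ≤ d.cd
  hmn : 1 ≤ d.mn
  hmd : 1 ≤ d.md
  hE : d.S * (d.c0 + d.C) ≤ d.E * d.c0
  hcup : 2 * d.cd * (d.md * d.md) ≤ d.cn * (2 * d.mn * d.md + d.mn * d.mn)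
  hL : ∃ l, d.L = 0 :: 1 :: l
  hrow : d.rows = d.L.map (mkRow d.D d.B (d.M + 1) d.c0 (d.C * d.S) d.L)
  hout : d.outs = d.Out.map (mkOut d.D d.B (d.M + 1) d.c0 (d.C * d.S) d.L)
  hlt : ∀ c ∈ d.L ++ d.Out, c < d.B ^ d.M
  hdg : ∀ c ∈ d.L ++ d.Out, ((List.range (d.M + 1)).map fun k => dg d.B c (k + 1)).sum ≤ d.D
  hsl : ∀ c ∈ d.L ++ d.Out, slB d.D d.B (d.M + 1) d.c0 (d.C * d.S) c ≤
    slA d.D d.B (d.M + 1) d.c0 (d.C * d.S) c
  hclo : ∀ c ∈ d.L, ∀ c' ∈ nbtrue d.D d.B (d.M + 1) c, c' ∈ d.L ++ d.Out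
  hph : ∀ ph ∈ d.phs, ph.length = d.K ∧ (gt ph 1).2.1 = 0 ∧
    ∀ q ∈ ph, q.1 + q.2.1 + 2 * d.D * q.2.2.1 = d.Q
  hbot : (gt (d.phs.getD 0 []) d.K).2.1 = d.Q

/-- The Boolean check of the data. -/
def ok : Bool :=
  decide (d.phs.length = d.J) && decide (1 ≤ d.J) && decide (1 ≤ d.K) && decide (4 ≤ d.D) &&
  decide (d.D < d.B) && decide (2 ≤ d.c0) && decide (1 ≤ d.Q) && decide (1 ≤ d.S) &&
  decide (1 ≤ d.cd) && decide (1 ≤ d.mn) && decide (1 ≤ d.md) &&
  decide (d.S * (d.c0 + d.C) ≤ d.E * d.c0) &&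
  decide (2 * d.cd * (d.md * d.md) ≤ d.cn * (2 * d.mn * d.md + d.mn * d.mn)) &&
  decide (d.L = 0 :: 1 :: d.L.drop 2) &&
  decide (d.rows = d.L.map (mkRow d.D d.B (d.M + 1) d.c0 (d.C * d.S) d.L)) &&
  decide (d.outs = d.Out.map (mkOut d.D d.B (d.M + 1) d.c0 (d.C * d.S) d.L)) &&
  (d.L ++ d.Out).all (fun c => decide (c < d.B ^ d.M)) &&
  (d.L ++ d.Out).all (fun c =>
    decide (((List.range (d.M + 1)).map fun k => dg d.B c (k + 1)).sum ≤ d.D)) &&
  (d.L ++ d.Out).all (fun c => decide (slB d.D d.B (d.M + 1) d.c0 (d.C * d.S) c ≤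
    slA d.D d.B (d.M + 1) d.c0 (d.C * d.S) c)) &&
  d.L.all (fun c => (nbtrue d.D d.B (d.M + 1) c).all fun c' => decide (c' ∈ d.L ++ d.Out))

/-- The Boolean check of the phases. -/
noncomputable def okP : Bool :=
  d.phs.all (fun ph => decide (ph.length = d.K) && Nat.beq (gt ph 1).2.1 0 &&
    ph.all fun q => decide (q.1 + q.2.1 + 2 * d.D * q.2.2.1 = d.Q)) &&
  Nat.beq (gt (d.phs.getD 0 []) d.K).2.1 d.Q

theorem Ok.mk' {d : Dat} (h : d.ok = true) (h' : d.okP = true) : d.Ok := by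
  unfold ok at h
  unfold okP at h'
  simp only [Bool.and_eq_true, decide_eq_true_eq, List.all_eq_true] at h h'
  obtain ⟨⟨⟨⟨⟨⟨⟨⟨⟨⟨⟨⟨⟨⟨⟨⟨⟨⟨⟨h1, h2⟩, h3⟩, h4⟩, h5⟩, h6⟩, h7⟩, h8⟩, h9⟩, h10⟩, h11⟩, h12⟩, h13⟩, h14⟩,
    h15⟩, h16⟩, h17⟩, h18⟩, h19⟩, h20⟩ := h
  exact
    { hJ := h1, hJ1 := h2, hK1 := h3, hD := h4, hDB := h5, hc0 := h6, hQ := h7, hS := h8
      hcd := h9, hmn := h10, hmd := h11, hE := h12, hcup := h13, hL := ⟨_, h14⟩
      hrow := h15, hout := h16, hlt := h17, hdg := h18, hsl := h19, hclo := h20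
      hph := fun ph hp => ⟨(h'.1 ph hp).1.1, Nat.eq_of_beq_eq_true (h'.1 ph hp).1.2, (h'.1 ph hp).2⟩
      hbot := Nat.eq_of_beq_eq_true h'.2 }

/-- The comparison of one layer pair. -/
noncomputable def cle (K BS P P0 N a b : ℕ) : Bool :=
  frc (tv K BS P (a + 1) (b + 1)) fun U => frc (tv K BS P0 a b) fun V =>
    (List.range N).all fun i => Nat.ble (dgs U (64 * i)) (dgs V (64 * i))

/-- The closure. -/
noncomputable def closeOK (P : ℕ) : Bool :=
  Nat.ble 1 P && (List.range (d.K - 1)).all fun a => (List.range (d.K - 1)).all fun b =>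
    cle d.K d.BS P d.P0 d.N (a + 1) (b + 1)

theorem closeOK_spec {P : ℕ} (h : d.closeOK P = true) :
    P ≠ 0 ∧ ∀ a b i, 1 ≤ a → a < d.K → 1 ≤ b → b < d.K → i < d.N →
      dgs (tv d.K d.BS P (a + 1) (b + 1)) (64 * i) ≤ dgs (tv d.K d.BS d.P0 a b) (64 * i) := by
  unfold closeOK at h
  rw [Bool.and_eq_true, Nat.ble_eq] at h
  refine ⟨by have := h.1; omega, ?_⟩
  intro a b i ha ha' hb hb' hi
  have h1 := h.2
  rw [List.all_eq_true] at h1
  have h2 := h1 (a - 1) (List.mem_range.mpr (by omega))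
  rw [List.all_eq_true] at h2
  have h3 := h2 (b - 1) (List.mem_range.mpr (by omega))
  unfold cle at h3
  rw [frc_eq, frc_eq, List.all_eq_true] at h3
  have h4 := h3 i (List.mem_range.mpr hi)
  rw [Nat.ble_eq, Nat.sub_add_cancel ha, Nat.sub_add_cancel hb] at h4
  exact h4

/-! ### The tables -/

/-- The data of the phase `r`. -/
def ph (r : ℕ) : List Par := d.phs.getD (d.J - 1 - r) []

/-- The parameters. -/
noncomputable def par (r a : ℕ) : Par := gt (d.ph r) a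

/-- The state after `k` phases. -/
noncomputable def st (k : ℕ) : ℕ := d.run (d.phs.take k) d.P0

/-- The table at the phase `r`. -/
noncomputable def t (r a b c : ℕ) : ℝ := (tt d.L (tv d.K d.BS (d.st (d.J - r)) a b) c : ℝ) / d.S

/-- The half step state. -/
noncomputable def sx (r : ℕ) : ℕ := d.stX (d.ph r) (d.st (d.J - 1 - r))

/-- The half step table. -/
noncomputable def x (r a b c : ℕ) : ℝ := (tt d.L (tv d.K d.BS (d.sx r) a b) c : ℝ) / d.S

noncomputable def f (r a : ℕ) : ℝ := ((d.par r a).2.1 : ℝ) / d.Q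
noncomputable def ρ (r a : ℕ) : ℝ := ((d.par r a).2.2.1 : ℝ) / d.Q
noncomputable def s (r a : ℕ) : ℝ := 1 - d.f r a - 2 * d.D * d.ρ r a
noncomputable def ε (r a : ℕ) : ℝ := ((d.par r a).2.2.2 : ℝ) / d.Q
noncomputable def κS (r a : ℕ) : ℝ := (d.kS (d.ph r) (d.st (d.J - 1 - r)) a : ℝ) / d.S
noncomputable def κF (r a : ℕ) : ℝ := (d.kF (d.ph r) (d.st (d.J - 1 - r)) a : ℝ) / d.S
noncomputable def sl (c : ℕ) : ℝ := (slN d.D d.B (d.M + 1) d.c0 (d.C * d.S) c : ℝ) / d.S

end Dat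

/-- `gt` gives an element of the list or zero. -/
lemma gt_mem (ph : List Par) (a : ℕ) : gt ph a ∈ ph ∨ gt ph a = (0, 0, 0, 0) := by
  unfold gt
  generalize Nat.pred a = n
  induction ph generalizing n with
  | nil => right; rfl
  | cons x l ih =>
    cases n with
    | zero => left; exact List.mem_cons_self
    | succ n =>
      rcases ih n with h | h
      · left; exact List.mem_cons_of_mem _ h
      · right; exact h

lemma gt_mem_of_le {ph : List Par} {a : ℕ} (h1 : 1 ≤ a) (h2 : a ≤ ph.length) : gt ph a ∈ ph := by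
  unfold gt
  have h3 : Nat.pred a < ph.length := by
    have : Nat.pred a = a - 1 := rfl
    omega
  revert h3
  generalize Nat.pred a = n
  intro h3
  clear h1 h2
  induction ph generalizing n with
  | nil => exact absurd h3 (by simp)
  | cons x l ih =>
    cases n with
    | zero => exact List.mem_cons_self
    | succ n => exact List.mem_cons_of_mem _ (ih n (by simpa using h3))

/-- Rounding up. -/
lemma round_up {Q X Y p : ℕ} (hQ : 1 ≤ Q) {v : ℕ} (hv : v = (X + (Y + (p + (Q - 1))) - 0) / Q) :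
    X + Y + p ≤ Q * v := by
  have h1 := Nat.div_add_mod (X + (Y + (p + (Q - 1))) - 0) Q
  have h2 := Nat.mod_lt (X + (Y + (p + (Q - 1))) - 0) (by omega : Q > 0)
  rw [← hv] at h1
  omega

lemma vl_ge {V U s f ρ Q p m : ℕ} {row : Row} (hQ : 1 ≤ Q) {v : ℕ}
    (hv : v = vl V U s f ρ (Q - 1) Q p m row) :
    s * dgs V row.1 + f * dgs U row.1 + ρ * nsum V row.2.2 + p ≤ Q * v + ρ * row.2.1 + m := by
  rw [vl_eq] at hv
  have h1 := Nat.div_add_mod (s * dgs V row.1 + f * dgs U row.1 +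
    (ρ * nsum V row.2.2 + (p + (Q - 1))) - (ρ * row.2.1 + m)) Q
  have h2 := Nat.mod_lt (s * dgs V row.1 + f * dgs U row.1 +
    (ρ * nsum V row.2.2 + (p + (Q - 1))) - (ρ * row.2.1 + m)) (by omega : Q > 0)
  rw [← hv] at h1
  omega

lemma NBS_div (D B N : ℕ) (u : ℕ → ℝ) (S : ℝ) (c : ℕ) :
    NBS D B N (fun c' => u c' / S) c = NBS D B N u c / S := by
  unfold NBS
  rw [add_div, sum_div]
  congr 1
  · ring
  · refine sum_congr rfl fun k _ => ?_
    ring

namespace Dat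

variable {d : Dat}

lemma Ok.phs_mem (h : d.Ok) {k : ℕ} (hk : k < d.J) : d.phs.getD k [] ∈ d.phs := by
  rw [← h.hJ] at hk
  rw [List.getD_eq_getElem _ _ hk]
  exact List.getElem_mem hk

lemma Ok.par_cases (h : d.Ok) (r a : ℕ) : (d.par r a).1 + (d.par r a).2.1 +
    2 * d.D * (d.par r a).2.2.1 = d.Q ∨ d.par r a = (0, 0, 0, 0) := by
  unfold par
  rcases gt_mem (d.ph r) a with h1 | h1
  · left
    have h2 : d.ph r ∈ d.phs := h.phs_mem (by have := h.hJ1; omega)
    exact (h.hph _ h2).2.2 _ h1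
  · right; exact h1

lemma Ok.par_sum (h : d.Ok) {r a : ℕ} (h1 : 1 ≤ a) (h2 : a ≤ d.K) :
    (d.par r a).1 + (d.par r a).2.1 + 2 * d.D * (d.par r a).2.2.1 = d.Q := by
  have h3 : d.ph r ∈ d.phs := h.phs_mem (by have := h.hJ1; omega)
  exact (h.hph _ h3).2.2 _ (gt_mem_of_le h1 (by rw [(h.hph _ h3).1]; exact h2))

lemma Ok.Qpos (h : d.Ok) : (0 : ℝ) < d.Q := by
  have := h.hQ
  exact_mod_cast this

lemma Ok.Spos (h : d.Ok) : (0 : ℝ) < d.S := by
  have := h.hS
  exact_mod_cast this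

lemma Ok.s_eq (h : d.Ok) {r a : ℕ} (h1 : 1 ≤ a) (h2 : a ≤ d.K) :
    d.s r a = ((d.par r a).1 : ℝ) / d.Q := by
  have h3 := h.par_sum (r := r) h1 h2
  have h4 : ((d.par r a).1 : ℝ) + (d.par r a).2.1 + 2 * d.D * (d.par r a).2.2.1 = d.Q := by
    exact_mod_cast h3
  have hQ := h.Qpos
  unfold s f ρ
  rw [eq_div_iff hQ.ne']
  field_simp
  linarith

lemma Ok.s_nonneg (h : d.Ok) (r a : ℕ) : 0 ≤ d.s r a := by
  have hQ := h.Qpos
  rcases h.par_cases r a with h1 | h1
  · have h4 : ((d.par r a).1 : ℝ) + (d.par r a).2.1 + 2 * d.D * (d.par r a).2.2.1 = d.Q := by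
      exact_mod_cast h1
    have h5 : d.s r a = ((d.par r a).1 : ℝ) / d.Q := by
      unfold s f ρ
      rw [eq_div_iff hQ.ne']
      field_simp
      linarith
    rw [h5]
    positivity
  · unfold s f ρ
    rw [h1]
    simp

lemma st_zero : d.st 0 = d.P0 := rfl

lemma Ok.st_succ (h : d.Ok) {k : ℕ} (hk : k < d.J) :
    d.st (k + 1) = d.stp (d.phs.getD k []) (d.st k) := by
  rw [← h.hJ] at hk
  unfold st
  rw [List.take_succ_eq_append_getElem hk, run_append, run_cons, run_nil,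
    List.getD_eq_getElem _ _ hk]

lemma st_ne {P : ℕ} (hrun : d.run d.phs d.P0 = P) (hP : P ≠ 0) (k : ℕ) : d.st k ≠ 0 :=
  d.run_take_ne (by rw [hrun]; exact hP) k

lemma Ok.step_facts (h : d.Ok) {P : ℕ} (hrun : d.run d.phs d.P0 = P) (hP : P ≠ 0) {r : ℕ}
    (hr : r < d.J) : d.stX (d.ph r) (d.st (d.J - 1 - r)) ≠ 0 ∧
      d.st (d.J - r) = d.stT (d.ph r) (d.st (d.J - 1 - r)) (d.sx r) ∧
      d.stT (d.ph r) (d.st (d.J - 1 - r)) (d.sx r) ≠ 0 := by
  have h1 : d.J - r = d.J - 1 - r + 1 := by omega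
  have h2 := h.st_succ (k := d.J - 1 - r) (by omega)
  have h3 := st_ne hrun hP (d.J - 1 - r + 1)
  rw [h2] at h3
  obtain ⟨h4, h5, h6⟩ := d.stp_ne h3
  refine ⟨h4, ?_, h6⟩
  rw [h1, h2]
  exact h5

lemma Ok.idx (h : d.Ok) {c : ℕ} (hc : c ∈ d.L) : d.L.idxOf c < d.L.length ∧
    d.L.idxOf c < d.rows.length := by
  have h1 : d.L.idxOf c < d.L.length := List.idxOf_lt_length_iff.mpr hc
  refine ⟨h1, ?_⟩
  rw [h.hrow, List.length_map]
  exact h1

lemma Ok.row_eq (h : d.Ok) {c : ℕ} (hc : c ∈ d.L) (hi : d.L.idxOf c < d.rows.length) :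
    d.rows[d.L.idxOf c] = mkRow d.D d.B (d.M + 1) d.c0 (d.C * d.S) d.L c := by
  have h1 : d.L.idxOf c < d.L.length := List.idxOf_lt_length_iff.mpr hc
  have h2 : d.rows[d.L.idxOf c]'hi = (d.L.map (mkRow d.D d.B (d.M + 1) d.c0 (d.C * d.S)
      d.L))[d.L.idxOf c]'(by rw [List.length_map]; exact h1) := by
    congr 1
    exact h.hrow
  rw [h2, List.getElem_map, List.getElem_idxOf]

lemma tt_mem {L : List ℕ} {c : ℕ} (hc : c ∈ L) (V : ℕ) : tt L V c = dgs V (64 * L.idxOf c) := by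
  unfold tt
  rw [if_pos (List.idxOf_lt_length_iff.mpr hc)]

lemma tt_not_mem {L : List ℕ} {c : ℕ} (hc : c ∉ L) (V : ℕ) : tt L V c = 0 := by
  unfold tt
  rw [if_neg (fun h => hc (List.idxOf_lt_length_iff.mp h))]

/-- The real form of a row. -/
lemma row_real {Q S s f ρ V U W n l p m : ℝ} (hQ : 0 < Q) (hS : 0 < S)
    (h : s * V + f * U + ρ * n + p ≤ Q * W + ρ * l + m) :
    s / Q * (V / S) + f / Q * (U / S) + ρ / Q * (n / S) + (p - m) / (Q * S) ≤
      W / S + ρ / Q * (l / S) := by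
  have h1 : s / Q * (V / S) + f / Q * (U / S) + ρ / Q * (n / S) + (p - m) / (Q * S) =
      (s * V + f * U + ρ * n + p - m) / (Q * S) := by
    field_simp
    ring
  have h2 : W / S + ρ / Q * (l / S) = (Q * W + ρ * l) / (Q * S) := by
    field_simp
  rw [h1, h2]
  exact div_le_div_of_nonneg_right (by linarith) (by positivity)

lemma Ok.hB (h : d.Ok) {P : ℕ} (hrun : d.run d.phs d.P0 = P) (hP : P ≠ 0) {r a b c : ℕ}
    (hr : r < d.J) (ha : 1 ≤ a) (ha' : a ≤ d.K) (hb : 1 ≤ b) (hb' : b ≤ d.K)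
    (hc : c ∈ d.L ++ d.Out) :
    d.s r b * d.t (r + 1) a b c + d.f r b * d.t (r + 1) a (b - 1) c +
      d.ρ r b * NBS d.D d.B (d.M + 1) (d.t (r + 1) a b) c ≤ d.x r a b c + d.ρ r b * d.sl c := by
  obtain ⟨h1, h2, h3⟩ := h.step_facts hrun hP hr
  have hQ := h.Qpos
  have hS := h.Spos
  have e1 : d.J - (r + 1) = d.J - 1 - r := by omega
  obtain ⟨h4, h5⟩ := d.stX_spec h1 ha ha' hb hb'
  have h6 : NBS d.D d.B (d.M + 1) (d.t (r + 1) a b) c =
      (nsum (tv d.K d.BS (d.st (d.J - 1 - r)) a b) (nbl d.D d.B (d.M + 1) d.L c) : ℝ) / d.S := by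
    rw [nsum_nbl (h.hdg c hc), ← NBS_div]
    unfold t
    rw [e1]
  rw [h6, h.s_eq hb hb']
  unfold f ρ t x sl
  rw [e1]
  by_cases hcL : c ∈ d.L
  · have hi := (h.idx hcL).2
    have h7 := h5 _ hi
    rw [h.row_eq hcL hi] at h7
    have h8 := vl_ge h.hQ h7
    simp only [mkRow, add_zero] at h8
    rw [tt_mem hcL, tt_mem hcL, tt_mem hcL]
    have h9 := row_real (Q := d.Q) (S := d.S) (s := (d.par r b).1) (f := (d.par r b).2.1)
      (ρ := (d.par r b).2.2.1) (V := dgs (tv d.K d.BS (d.st (d.J - 1 - r)) a b)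
        (64 * d.L.idxOf c)) (U := dgs (tv d.K d.BS (d.st (d.J - 1 - r)) a (b - 1))
        (64 * d.L.idxOf c)) (W := dgs (tv d.K d.BS (d.sx r) a b) (64 * d.L.idxOf c))
      (n := nsum (tv d.K d.BS (d.st (d.J - 1 - r)) a b) (nbl d.D d.B (d.M + 1) d.L c))
      (l := slN d.D d.B (d.M + 1) d.c0 (d.C * d.S) c) (p := 0) (m := 0) hQ hS (by
        rw [add_zero, add_zero]
        exact_mod_cast h8)
    simp only [sub_zero, zero_div, add_zero] at h9
    exact h9
  · have hcO : c ∈ d.Out := by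
      rcases List.mem_append.mp hc with h' | h'
      · exact absurd h' hcL
      · exact h'
    have h7 := h4 (mkOut d.D d.B (d.M + 1) d.c0 (d.C * d.S) d.L c) (by
      rw [h.hout]
      exact List.mem_map.mpr ⟨c, hcO, rfl⟩)
    simp only [mkOut] at h7
    rw [tt_not_mem hcL, tt_not_mem hcL, tt_not_mem hcL]
    simp only [Nat.cast_zero, zero_div, mul_zero, zero_add]
    have h8 : (nsum (tv d.K d.BS (d.st (d.J - 1 - r)) a b) (nbl d.D d.B (d.M + 1) d.L c) : ℝ) ≤
        slN d.D d.B (d.M + 1) d.c0 (d.C * d.S) c := by exact_mod_cast h7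
    gcongr

/-- The source. -/
lemma Ok.src (h : d.Ok) {r a b c i : ℕ} (hc0 : c = 0 ↔ i = 0) (hc1 : c = 1 ↔ i = 1) :
    srcT d.D d.K (d.κS r) (d.κF r) (d.ε r) a b c ≤
      (((if i = 0 then d.p0 (d.ph r) (d.st (d.J - 1 - r)) a b else 0 : ℕ) : ℝ) -
        ((if i = 0 then d.m0 (d.ph r) (d.st (d.J - 1 - r)) a b else if i = 1 then
          d.m1 (d.ph r) (d.st (d.J - 1 - r)) a b else 0 : ℕ) : ℝ)) / (d.Q * d.S) := by
  have hQ := h.Qpos
  have hS := h.Spos
  unfold srcT κS κF ε par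
  simp only [hc0, hc1]
  generalize d.st (d.J - 1 - r) = P
  generalize d.ph r = ph
  rw [le_div_iff₀ (by positivity)]
  by_cases h0 : i = 0
  · have h1 : ¬ i = 1 := by omega
    simp only [h0, and_true, if_true]
    rw [if_neg (by omega : ¬ (a = b ∧ (0 : ℕ) = 1))]
    unfold p0 m0
    by_cases hab : a = b
    · have n1 : ¬ a = b + 1 := by omega
      have n2 : ¬ b = a + 1 := by omega
      rw [if_pos hab, if_neg n1, if_neg n2, if_pos hab, if_neg n1, if_neg n2]
      by_cases haK : a + 1 ≤ d.K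
      · rw [if_pos haK, if_pos haK]
        have h2 := le_cdv (y := d.Q) (by have := h.hQ; omega)
          ((gt ph (a + 1)).2.2.2 * (gt ph (a + 1)).2.2.2 * d.kF ph P (a + 1))
        have h3 : ((gt ph (a + 1)).2.2.2 : ℝ) * (gt ph (a + 1)).2.2.2 * d.kF ph P (a + 1) ≤
            d.Q * (cdv ((gt ph (a + 1)).2.2.2 * (gt ph (a + 1)).2.2.2 * d.kF ph P (a + 1)) d.Q : ℕ) := by
          exact_mod_cast h2
        push_cast
        have h4 : (2 * (d.D : ℝ) * ((d.kS ph P a : ℝ) / d.S) + (d.kF ph P a : ℝ) / d.S +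
            (((gt ph (a + 1)).2.2.2 : ℝ) / d.Q) ^ 2 * ((d.kF ph P (a + 1) : ℝ) / d.S) - 0 - 0 - 0) *
            (d.Q * d.S) = d.Q * (2 * d.D * d.kS ph P a + d.kF ph P a) +
            (((gt ph (a + 1)).2.2.2 : ℝ) * (gt ph (a + 1)).2.2.2 * d.kF ph P (a + 1)) / d.Q := by
          field_simp
          ring
        rw [h4]
        have h5 : (((gt ph (a + 1)).2.2.2 : ℝ) * (gt ph (a + 1)).2.2.2 * d.kF ph P (a + 1)) / d.Q ≤
            (cdv ((gt ph (a + 1)).2.2.2 * (gt ph (a + 1)).2.2.2 * d.kF ph P (a + 1)) d.Q : ℕ) := by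
          rw [div_le_iff₀ hQ]
          linarith
        linarith
      · rw [if_neg haK, if_neg haK]
        push_cast
        have h4 : (2 * (d.D : ℝ) * ((d.kS ph P a : ℝ) / d.S) + (d.kF ph P a : ℝ) / d.S +
            0 - 0 - 0 - 0) * (d.Q * d.S) = d.Q * (2 * d.D * d.kS ph P a + d.kF ph P a) := by
          field_simp
          ring
        rw [h4]
        linarith
    · rw [if_neg hab, if_neg hab]
      by_cases h2 : a = b + 1
      · have n2 : ¬ b = a + 1 := by omega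
        rw [if_pos h2, if_neg n2, if_pos h2]
        push_cast
        have h4 : ((0 : ℝ) - 0 - ((gt ph a).2.2.2 : ℝ) / d.Q * ((d.kF ph P a : ℝ) / d.S) - 0) *
            (d.Q * d.S) = 0 - (gt ph a).2.2.2 * d.kF ph P a := by
          field_simp
          ring
        rw [h4]
      · rw [if_neg h2, if_neg h2]
        by_cases h3 : b = a + 1
        · rw [if_pos h3, if_pos h3]
          push_cast
          have h4 : ((0 : ℝ) - 0 - 0 - ((gt ph b).2.2.2 : ℝ) / d.Q * ((d.kF ph P b : ℝ) / d.S)) *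
              (d.Q * d.S) = 0 - (gt ph b).2.2.2 * d.kF ph P b := by
            field_simp
            ring
          rw [h4]
        · rw [if_neg h3, if_neg h3]
          simp
  · simp only [h0, and_false, if_false]
    by_cases h1 : i = 1
    · simp only [h1, and_true, if_true]
      unfold m1
      by_cases hab : a = b
      · rw [if_pos hab, if_pos hab]
        push_cast
        have h4 : ((0 : ℝ) - (d.kS ph P a : ℝ) / d.S - 0 - 0) * (d.Q * d.S) =
            0 - d.Q * d.kS ph P a := by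
          field_simp
          ring
        rw [h4]
      · rw [if_neg hab, if_neg hab]
        simp
    · simp only [h1, and_false, if_false]
      simp

lemma Ok.hA (h : d.Ok) {P : ℕ} (hrun : d.run d.phs d.P0 = P) (hP : P ≠ 0) {r a b c : ℕ}
    (hr : r < d.J) (ha : 1 ≤ a) (ha' : a ≤ d.K) (hb : 1 ≤ b) (hb' : b ≤ d.K)
    (hc : c ∈ d.L ++ d.Out) :
    d.s r a * d.x r a b c + d.f r a * d.x r (a - 1) b c +
      d.ρ r a * NBS d.D d.B (d.M + 1) (d.x r a b) c +
      srcT d.D d.K (d.κS r) (d.κF r) (d.ε r) a b c ≤ d.t r a b c + d.ρ r a * d.sl c := by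
  obtain ⟨h1, h2, h3⟩ := h.step_facts hrun hP hr
  have hQ := h.Qpos
  have hS := h.Spos
  obtain ⟨h4, h5⟩ := d.stT_spec h3 ha ha' hb hb'
  obtain ⟨l, hl⟩ := h.hL
  have h6 : NBS d.D d.B (d.M + 1) (d.x r a b) c =
      (nsum (tv d.K d.BS (d.sx r) a b) (nbl d.D d.B (d.M + 1) d.L c) : ℝ) / d.S := by
    rw [nsum_nbl (h.hdg c hc), ← NBS_div]
    rfl
  rw [h6, h.s_eq ha ha']
  have ht : d.t r a b c = (tt d.L (tv d.K d.BS (d.stT (d.ph r) (d.st (d.J - 1 - r)) (d.sx r)) a b) c :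
      ℝ) / d.S := by
    unfold t
    rw [h2]
  rw [ht]
  by_cases hcL : c ∈ d.L
  · have hi := (h.idx hcL).2
    have h7 := h5 _ hi
    rw [h.row_eq hcL hi] at h7
    have h8 := vl_ge h.hQ h7
    simp only [mkRow] at h8
    have hc0 : c = 0 ↔ d.L.idxOf c = 0 := by
      constructor
      · intro h'
        rw [h', hl]
        simp
      · intro h'
        have h9 := List.getElem_idxOf (h.idx hcL).1
        have h10 : d.L[d.L.idxOf c]'(h.idx hcL).1 = d.L[0]'(by rw [hl]; simp) := by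
          congr 1
        rw [← h9, h10]
        simp [hl]
    have hc1 : c = 1 ↔ d.L.idxOf c = 1 := by
      constructor
      · intro h'
        rw [h', hl]
        rfl
      · intro h'
        have h9 := List.getElem_idxOf (h.idx hcL).1
        have h10 : d.L[d.L.idxOf c]'(h.idx hcL).1 = d.L[1]'(by rw [hl]; simp) := by
          congr 1
        rw [← h9, h10]
        simp [hl]
    have h9 := h.src (r := r) (a := a) (b := b) hc0 hc1
    have h10 := row_real (Q := d.Q) (S := d.S) (s := (d.par r a).1) (f := (d.par r a).2.1)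
      (ρ := (d.par r a).2.2.1) (V := dgs (tv d.K d.BS (d.sx r) a b)
        (64 * d.L.idxOf c)) (U := dgs (tv d.K d.BS (d.sx r) (a - 1) b)
        (64 * d.L.idxOf c)) (W := dgs (tv d.K d.BS (d.stT (d.ph r) (d.st (d.J - 1 - r)) (d.sx r)) a b)
        (64 * d.L.idxOf c))
      (n := nsum (tv d.K d.BS (d.sx r) a b) (nbl d.D d.B (d.M + 1) d.L c))
      (l := slN d.D d.B (d.M + 1) d.c0 (d.C * d.S) c)
      (p := ((if d.L.idxOf c = 0 then d.p0 (d.ph r) (d.st (d.J - 1 - r)) a b else 0 : ℕ) : ℝ))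
      (m := ((if d.L.idxOf c = 0 then d.m0 (d.ph r) (d.st (d.J - 1 - r)) a b else
        if d.L.idxOf c = 1 then d.m1 (d.ph r) (d.st (d.J - 1 - r)) a b else 0 : ℕ) : ℝ)) hQ hS (by
        exact_mod_cast h8)
    unfold f ρ x sl
    rw [tt_mem hcL, tt_mem hcL, tt_mem hcL]
    linarith
  · have hcO : c ∈ d.Out := by
      rcases List.mem_append.mp hc with h' | h'
      · exact absurd h' hcL
      · exact h'
    have h7 := h4 (mkOut d.D d.B (d.M + 1) d.c0 (d.C * d.S) d.L c) (by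
      rw [h.hout]
      exact List.mem_map.mpr ⟨c, hcO, rfl⟩)
    simp only [mkOut] at h7
    have n0 : c ≠ 0 := fun h' => hcL (by rw [h', hl]; simp)
    have n1 : c ≠ 1 := fun h' => hcL (by rw [h', hl]; simp)
    have h9 : srcT d.D d.K (d.κS r) (d.κF r) (d.ε r) a b c = 0 := by
      unfold srcT
      simp [n0, n1]
    rw [h9]
    unfold f ρ x sl
    rw [tt_not_mem hcL, tt_not_mem hcL, tt_not_mem hcL]
    simp only [Nat.cast_zero, zero_div, mul_zero, zero_add, add_zero]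
    have h8 : (nsum (tv d.K d.BS (d.sx r) a b) (nbl d.D d.B (d.M + 1) d.L c) : ℝ) ≤
        slN d.D d.B (d.M + 1) d.c0 (d.C * d.S) c := by exact_mod_cast h7
    gcongr

lemma Ok.t_zero (h : d.Ok) (r a b : ℕ) :
    d.t r a b 0 = (dgs (tv d.K d.BS (d.st (d.J - r)) a b) 0 : ℝ) / d.S := by
  obtain ⟨l, hl⟩ := h.hL
  unfold t
  rw [tt_mem (by rw [hl]; simp)]
  rw [hl]
  simp

/-- The constant of a jump. -/
lemma Ok.kap (h : d.Ok) (q T k : ℕ) (hk : k = cdv (d.cn * (q * q) * (d.E + T)) (d.cd * (d.Q * d.Q))) :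
    ((d.cn : ℝ) / d.cd) * (((q : ℝ) / d.Q) ^ 2 * (1 + (d.C : ℝ) / d.c0 + (T : ℝ) / d.S)) ≤
      (k : ℝ) / d.S := by
  have hQ := h.Qpos
  have hS := h.Spos
  have hcd : (0 : ℝ) < d.cd := by have := h.hcd; exact_mod_cast this
  have hc0 : (0 : ℝ) < d.c0 := by
    have := h.hc0
    have : 0 < d.c0 := by omega
    exact_mod_cast this
  have h1 := le_cdv (y := d.cd * (d.Q * d.Q)) (by
    have := h.hcd; have := h.hQ; positivity) (d.cn * (q * q) * (d.E + T))
  rw [← hk] at h1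
  have h2 : (d.cn : ℝ) * (q * q) * (d.E + T) ≤ d.cd * (d.Q * d.Q) * k := by exact_mod_cast h1
  have h3 : (1 : ℝ) + d.C / d.c0 ≤ d.E / d.S := by
    rw [le_div_iff₀ hS, add_mul, div_mul_eq_mul_div, one_mul, ← sub_nonneg]
    have h4 : (d.S : ℝ) * (d.c0 + d.C) ≤ d.E * d.c0 := by exact_mod_cast h.hE
    have h5 : (d.E : ℝ) - (d.S + d.C * d.S / d.c0) = (d.E * d.c0 - d.S * (d.c0 + d.C)) / d.c0 := by
      field_simp
    rw [h5]
    exact div_nonneg (by linarith) hc0.le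
  have h4 : (1 : ℝ) + d.C / d.c0 + T / d.S ≤ (d.E + T) / d.S := by
    rw [add_div]
    linarith
  calc ((d.cn : ℝ) / d.cd) * (((q : ℝ) / d.Q) ^ 2 * (1 + (d.C : ℝ) / d.c0 + (T : ℝ) / d.S))
      ≤ ((d.cn : ℝ) / d.cd) * (((q : ℝ) / d.Q) ^ 2 * ((d.E + T) / d.S)) := by gcongr
    _ = ((d.cn : ℝ) * (q * q) * (d.E + T)) / (d.cd * (d.Q * d.Q)) / d.S := by
      field_simp
    _ ≤ (k : ℝ) / d.S := by
      refine div_le_div_of_nonneg_right ?_ hS.le
      rw [div_le_iff₀ (by positivity)]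
      linarith

/-- Soundness. -/
theorem Ok.tabH (h : d.Ok) {P : ℕ} (hrun : d.run d.phs d.P0 = P) (hcl : d.closeOK P = true) :
    TabH d.D d.K d.J d.B (d.M + 1) ((d.mn : ℝ) / d.md) d.C d.c0 ((d.cn : ℝ) / d.cd)
      d.s d.f d.ρ d.κS d.κF d.ε d.L (d.L ++ d.Out) d.sl d.t d.x := by
  obtain ⟨hP, hclose⟩ := d.closeOK_spec hcl
  have hQ := h.Qpos
  have hS := h.Spos
  have hcd : (0 : ℝ) < d.cd := by have := h.hcd; exact_mod_cast this
  have hmd : (0 : ℝ) < d.md := by have := h.hmd; exact_mod_cast this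
  have hmn : (0 : ℝ) < d.mn := by have := h.hmn; exact_mod_cast this
  have hB2 : 2 ≤ d.B := by have := h.hD; have := h.hDB; omega
  obtain ⟨l, hl⟩ := h.hL
  refine
    { K_pos := h.hK1
      J_pos := h.hJ1
      m_pos := by positivity
      s_nonneg := h.s_nonneg
      f_nonneg := fun r a => by unfold f; positivity
      ρ_nonneg := fun r a => by unfold ρ; positivity
      sum_eq := fun r a => by unfold s; ring
      f_top := ?_
      f_bot := ?_
      kS_nonneg := fun r a => by unfold κS; positivity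
      kF_nonneg := fun r a => by unfold κF; positivity
      hD := h.hD
      hDB := h.hDB
      hC := by positivity
      hc0 := by have := h.hc0; exact_mod_cast this
      cup_ge := ?_
      t_nonneg := fun r a b c => by unfold t; positivity
      t_supp := fun r a b c hc => by unfold t; rw [tt_not_mem hc]; simp
      x_supp := fun r a b c hc => by unfold x; rw [tt_not_mem hc]; simp
      bd := ?_
      sub := fun c hc => List.mem_append_left _ hc
      zero_mem := by rw [hl]; simp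
      one_mem := by rw [hl]; simp
      clo := ?_
      sl_le := fun c hc => slN_le (h.hdg c hc) (h.hsl c hc) h.hS (by have := h.hc0; omega)
      hB := fun r a b c hr ha ha' hb hb' _ hc => h.hB hrun hP hr ha ha' hb hb' hc
      hA := fun r a b c hr ha ha' hb hb' hc => h.hA hrun hP hr ha ha' hb hb' hc
      kS_ge := ?_
      kF_ge := ?_
      close := ?_ }
  · intro r
    have h3 : d.ph r ∈ d.phs := h.phs_mem (by have := h.hJ1; omega)
    unfold f par
    rw [(h.hph _ h3).2.1]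
    simp
  · unfold f par ph
    have e : d.J - 1 - (d.J - 1) = 0 := by omega
    rw [e, h.hbot]
    exact div_self hQ.ne'
  · refine cup_ge_of (by positivity) ?_
    have h1 := h.hcup
    have h2 : 2 * (d.cd : ℝ) * (d.md * d.md) ≤ d.cn * (2 * d.mn * d.md + d.mn * d.mn) := by
      exact_mod_cast h1
    have h3 : (d.cn : ℝ) / d.cd * ((d.mn : ℝ) / d.md + ((d.mn : ℝ) / d.md) ^ 2 / 2) =
        (d.cn * (2 * d.mn * d.md + d.mn * d.mn)) / (2 * d.cd * (d.md * d.md)) := by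
      field_simp
    rw [h3, le_div_iff₀ (by positivity)]
    linarith
  · intro z hz i
    have h1 := natAbs_le_of_code_lt hB2 (h.hlt _ hz) i
    omega
  · intro z δ hz
    have h1 : ∀ i, ((z + dv δ) i).natAbs ≤ d.M + 1 := by
      intro i
      have := natAbs_le_of_code_lt hB2 (h.hlt _ (List.mem_append_left _ hz)) i
      omega
    have h2 := mem_nbtrue h.hDB h1 (δ.1, !δ.2)
    rw [dv_add_cancel] at h2
    exact h.hclo _ hz _ h2
  · intro r a hr ha ha' _
    rw [h.t_zero]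
    have e1 : d.J - (r + 1) = d.J - 1 - r := by omega
    rw [e1]
    exact h.kap _ _ _ rfl
  · intro r a hr ha ha'
    rw [h.t_zero]
    have e1 : d.J - (r + 1) = d.J - 1 - r := by omega
    rw [e1]
    exact h.kap _ _ _ rfl
  · intro a b c ha ha' hb hb'
    have e0 : d.J - 0 = d.phs.length := by rw [h.hJ]; omega
    have e1 : d.J - d.J = 0 := by omega
    unfold t
    rw [e0, e1, st_zero]
    have e2 : d.st d.phs.length = P := by
      unfold st
      rw [List.take_length, hrun]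
    rw [e2]
    by_cases hcL : c ∈ d.L
    · rw [tt_mem hcL, tt_mem hcL]
      have hi := (h.idx hcL).2
      rw [length_rows] at hi
      have h4 : (dgs (tv d.K d.BS P (a + 1) (b + 1)) (64 * d.L.idxOf c) : ℝ) ≤
          dgs (tv d.K d.BS d.P0 a b) (64 * d.L.idxOf c) := by
        exact_mod_cast hclose a b _ ha ha' hb hb' hi
      gcongr
    · rw [tt_not_mem hcL, tt_not_mem hcL]

end Dat

/-- A checked certificate. -/
theorem hasCer (d : Dat) {P : ℕ} {μ : ℝ} (h1 : d.ok = true) (h2 : d.okP = true)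
    (hrun : d.run d.phs d.P0 = P) (hcl : d.closeOK P = true)
    (hμ : (d.J : ℝ) * ((d.mn : ℝ) / d.md) ≤ μ) : HasCer d.D μ := by
  have h : d.Ok := Dat.Ok.mk' h1 h2
  exact ⟨_, _, _, _, _, _, _, _, _, _, (h.tabH hrun hcl).cer2, hμ⟩

end Pool.Agent.Lib.MP_edae2b_pr.SM.Chk
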