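import Pool.Agent.Lib.MP_edae2b_pr.SM.Defs

set_option autoImplicit false

/-!
# Codes of the classes of `ℤ^D` under the signed permutations, and sums over the neighbours

`code B z` is `∑ n_a B^(a-1)`, `n_a = #{i | |z_i| = a}`, `a ≥ 1`; for `D < B` its digits are the `n_a`.
-/

namespace Pool.Agent.Lib.MP_edae2b_pr.SM

open Finset

/-- The weight of an entry of absolute value `a`. -/
def ec (B a : ℕ) : ℕ := if a = 0 then 0 else B ^ (a - 1)

/-- The code of `z`. -/
def code {D : ℕ} (B : ℕ) (z : Fin D → ℤ) : ℕ := ∑ i, ec B (z i).natAbs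

/-- The number of entries of absolute value `a ≥ 1`, from the code. -/
def dg (B c a : ℕ) : ℕ := c / B ^ (a - 1) % B

/-- The sum over the neighbours, from the code. -/
def NBS (D B M : ℕ) (t : ℕ → ℝ) (c : ℕ) : ℝ :=
  2 * ((D : ℝ) - ∑ k ∈ range M, (dg B c (k + 1) : ℝ)) * t (c + 1) +
    ∑ k ∈ range M, (dg B c (k + 1) : ℝ) *
      (t (c - ec B (k + 1) + ec B (k + 2)) + t (c - ec B (k + 1) + ec B k))

namespace CodeM

variable {D : ℕ}

/-- The number of entries of absolute value `a`. -/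
def cnt (z : Fin D → ℤ) (a : ℕ) : ℕ := (univ.filter fun i => (z i).natAbs = a).card

lemma sum_comp (z : Fin D → ℤ) (F : ℕ → ℝ) {L : ℕ} (h : ∀ i, (z i).natAbs < L) :
    ∑ i, F (z i).natAbs = ∑ a ∈ range L, (cnt z a : ℝ) * F a := by
  rw [← sum_fiberwise_of_maps_to (s := univ) (t := range L) (g := fun i => (z i).natAbs)
    (fun i _ => mem_range.mpr (h i))]
  refine sum_congr rfl fun a _ => ?_
  rw [sum_congr rfl (g := fun _ => F a) (fun i hi => by rw [(mem_filter.mp hi).2]), sum_const,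
    nsmul_eq_mul]
  rfl

lemma sum_comp_nat (z : Fin D → ℤ) (F : ℕ → ℕ) {L : ℕ} (h : ∀ i, (z i).natAbs < L) :
    ∑ i, F (z i).natAbs = ∑ a ∈ range L, cnt z a * F a := by
  rw [← sum_fiberwise_of_maps_to (s := univ) (t := range L) (g := fun i => (z i).natAbs)
    (fun i _ => mem_range.mpr (h i))]
  refine sum_congr rfl fun a _ => ?_
  rw [sum_congr rfl (g := fun _ => F a) (fun i hi => by rw [(mem_filter.mp hi).2]), sum_const,
    smul_eq_mul]
  rfl

lemma cnt_le (z : Fin D → ℤ) (a : ℕ) : cnt z a ≤ D := by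
  unfold cnt
  calc _ ≤ (univ : Finset (Fin D)).card := card_filter_le _ _
    _ = D := by simp

lemma sum_cnt (z : Fin D → ℤ) {L : ℕ} (h : ∀ i, (z i).natAbs < L) :
    ∑ a ∈ range L, cnt z a = D := by
  have h1 := sum_comp_nat z (fun _ => 1) h
  simp only [mul_one] at h1
  rw [← h1]
  simp

/-- Digits. -/
lemma digit_aux {B : ℕ} (m : ℕ → ℕ) (hm : ∀ k, m k < B) (L k : ℕ) (hk : k < L) :
    (∑ j ∈ range L, m j * B ^ j) / B ^ k % B = m k := by
  induction L generalizing m k with
  | zero => omega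
  | succ L ih =>
    have hB : 0 < B := lt_of_le_of_lt (Nat.zero_le _) (hm 0)
    have h1 : ∑ j ∈ range (L + 1), m j * B ^ j = m 0 + B * ∑ j ∈ range L, m (j + 1) * B ^ j := by
      rw [sum_range_succ', mul_sum, add_comm]
      congr 1
      · simp
      · refine sum_congr rfl fun j _ => ?_
        rw [pow_succ]
        ring
    rw [h1]
    cases k with
    | zero =>
      simp only [pow_zero, Nat.div_one]
      rw [Nat.add_mul_mod_self_left, Nat.mod_eq_of_lt (hm 0)]
    | succ k =>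
      have h2 : (m 0 + B * ∑ j ∈ range L, m (j + 1) * B ^ j) / B ^ (k + 1) =
          (∑ j ∈ range L, m (j + 1) * B ^ j) / B ^ k := by
        rw [pow_succ', ← Nat.div_div_eq_div_mul, Nat.add_mul_div_left _ _ hB,
          Nat.div_eq_of_lt (hm 0), zero_add]
      rw [h2]
      exact ih (fun j => m (j + 1)) (fun j => hm (j + 1)) k (by omega)

lemma code_eq (B : ℕ) (z : Fin D → ℤ) {M : ℕ} (h : ∀ i, (z i).natAbs ≤ M) :
    code B z = ∑ k ∈ range M, cnt z (k + 1) * B ^ k := by
  unfold code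
  rw [sum_comp_nat z (ec B) (L := M + 1) (fun i => Nat.lt_succ_of_le (h i)), sum_range_succ']
  simp [ec]

lemma dg_code {B : ℕ} (hB : D < B) (z : Fin D → ℤ) {M k : ℕ} (h : ∀ i, (z i).natAbs ≤ M)
    (hk : k < M) : dg B (code B z) (k + 1) = cnt z (k + 1) := by
  unfold dg
  rw [code_eq B z h, Nat.add_sub_cancel]
  exact digit_aux (fun j => cnt z (j + 1)) (fun j => lt_of_le_of_lt (cnt_le z _) hB) M k hk

lemma nn_code {B : ℕ} (hB : D < B) (z : Fin D → ℤ) {M : ℕ} (h : ∀ i, (z i).natAbs ≤ M) :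
    nn z = ∑ k ∈ range M, dg B (code B z) (k + 1) * (k + 1) := by
  unfold nn
  rw [sum_comp_nat z (fun a => a) (L := M + 1) (fun i => Nat.lt_succ_of_le (h i)),
    sum_range_succ', mul_zero, add_zero]
  exact sum_congr rfl fun k hk => by rw [dg_code hB z h (mem_range.mp hk)]

lemma sq_code {B : ℕ} (hB : D < B) (z : Fin D → ℤ) {M : ℕ} (h : ∀ i, (z i).natAbs ≤ M) :
    sq z = ∑ k ∈ range M, dg B (code B z) (k + 1) * (k + 1) ^ 2 := by
  unfold sq
  rw [sum_comp_nat z (fun a => a ^ 2) (L := M + 1) (fun i => Nat.lt_succ_of_le (h i)),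
    sum_range_succ']
  simp only [ne_eq, OfNat.ofNat_ne_zero, not_false_eq_true, zero_pow, mul_zero, add_zero]
  exact sum_congr rfl fun k hk => by rw [dg_code hB z h (mem_range.mp hk)]

lemma code_add (B : ℕ) (z : Fin D → ℤ) (i : Fin D) (b : Bool) :
    code B (z + dv (i, b)) = code B z - ec B (z i).natAbs + ec B (z i + dv (i, b) i).natAbs := by
  have h1 : code B z = ec B (z i).natAbs + ∑ j ∈ univ.erase i, ec B (z j).natAbs :=
    (add_sum_erase univ (fun j => ec B (z j).natAbs) (mem_univ i)).symm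
  have h2 : code B (z + dv (i, b)) = ec B (z i + dv (i, b) i).natAbs +
      ∑ j ∈ univ.erase i, ec B (z j).natAbs := by
    unfold code
    rw [← add_sum_erase univ (fun j => ec B ((z + dv (i, b)) j).natAbs) (mem_univ i)]
    congr 1
    refine sum_congr rfl fun j hj => ?_
    rw [Pi.add_apply, dv_other i j b (fun h => (mem_erase.mp hj).1 h.symm), add_zero]
  rw [h1, h2, Nat.add_sub_cancel_left, add_comm]

/-- The sum over the two neighbours in one direction. -/
lemma two (B : ℕ) (t : ℕ → ℝ) (z : Fin D → ℤ) (i : Fin D) :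
    t (code B (z + dv (i, true))) + t (code B (z + dv (i, false))) =
      t (code B z - ec B (z i).natAbs + ec B ((z i).natAbs + 1)) +
        t (code B z - ec B (z i).natAbs +
          ec B (if (z i).natAbs = 0 then 1 else (z i).natAbs - 1)) := by
  rw [code_add, code_add, dv_self, dv_self]
  simp only [if_true, Bool.false_eq_true, if_false]
  rcases lt_trichotomy (z i) 0 with h | h | h
  · have h1 : (z i + 1).natAbs = (z i).natAbs - 1 := by omega
    have h2 : (z i + -1).natAbs = (z i).natAbs + 1 := by omega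
    have h3 : (z i).natAbs ≠ 0 := by omega
    rw [h1, h2, if_neg h3, add_comm]
  · rw [h]
    simp
  · have h1 : (z i + 1).natAbs = (z i).natAbs + 1 := by omega
    have h2 : (z i + -1).natAbs = (z i).natAbs - 1 := by omega
    have h3 : (z i).natAbs ≠ 0 := by omega
    rw [h1, h2, if_neg h3]

end CodeM

open CodeM

variable {D : ℕ}

/-- The sum over the neighbours of a function of the code. -/
theorem nb_code {B M : ℕ} (hB : D < B) (t : ℕ → ℝ) (z : Fin D → ℤ)
    (h : ∀ i, (z i).natAbs ≤ M) :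
    nb (fun x => t (code B x)) z = NBS D B M t (code B z) := by
  unfold nb
  rw [Fintype.sum_prod_type]
  have h1 : ∀ i : Fin D, ∑ b : Bool, t (code B (z + dv (i, b))) =
      (fun a : ℕ => t (code B z - ec B a + ec B (a + 1)) +
        t (code B z - ec B a + ec B (if a = 0 then 1 else a - 1))) (z i).natAbs := by
    intro i
    rw [Fintype.sum_bool]
    exact two B t z i
  rw [sum_congr rfl fun i _ => h1 i]
  refine (sum_comp z (fun a : ℕ => t (code B z - ec B a + ec B (a + 1)) +
        t (code B z - ec B a + ec B (if a = 0 then 1 else a - 1))) (L := M + 1)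
        (fun i => Nat.lt_succ_of_le (h i))).trans ?_
  rw [sum_range_succ']
  unfold NBS
  have h2 : (cnt z 0 : ℝ) = D - ∑ k ∈ range M, (dg B (code B z) (k + 1) : ℝ) := by
    have h3 := sum_cnt z (L := M + 1) (fun i => Nat.lt_succ_of_le (h i))
    rw [sum_range_succ'] at h3
    have h4 : ∑ k ∈ range M, (cnt z (k + 1) : ℝ) + cnt z 0 = D := by
      exact_mod_cast h3
    have h5 : ∑ k ∈ range M, (dg B (code B z) (k + 1) : ℝ) = ∑ k ∈ range M, (cnt z (k + 1) : ℝ) :=
      sum_congr rfl fun k hk => by rw [dg_code hB z h (mem_range.mp hk)]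
    linarith
  have h6 : ∑ k ∈ range M, (cnt z (k + 1) : ℝ) * (t (code B z - ec B (k + 1) + ec B (k + 1 + 1)) +
      t (code B z - ec B (k + 1) + ec B (if k + 1 = 0 then 1 else k + 1 - 1))) =
      ∑ k ∈ range M, (dg B (code B z) (k + 1) : ℝ) *
      (t (code B z - ec B (k + 1) + ec B (k + 2)) + t (code B z - ec B (k + 1) + ec B k)) := by
    refine sum_congr rfl fun k hk => ?_
    rw [dg_code hB z h (mem_range.mp hk), if_neg (Nat.succ_ne_zero k), Nat.add_sub_cancel]
  rw [h6, h2]
  simp only [ec, if_true, Nat.sub_zero, zero_add, one_ne_zero, if_false, Nat.sub_self,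
    pow_zero]
  ring

lemma natAbs_le_nn (z : Fin D → ℤ) (i : Fin D) : (z i).natAbs ≤ nn z :=
  single_le_sum (f := fun i => (z i).natAbs) (fun _ _ => Nat.zero_le _) (mem_univ i)

lemma nn_eq_zero {z : Fin D → ℤ} (h : nn z = 0) : z = 0 := by
  funext i
  have := natAbs_le_nn z i
  simp only [Pi.zero_apply]
  omega

lemma nn_zero : nn (0 : Fin D → ℤ) = 0 := by simp [nn]

lemma nn_neg (z : Fin D → ℤ) : nn (-z) = nn z := by simp [nn]

lemma sq_neg (z : Fin D → ℤ) : sq (-z) = sq z := by simp [sq]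

lemma code_neg (B : ℕ) (z : Fin D → ℤ) : code B (-z) = code B z := by simp [code]

lemma code_zero (B : ℕ) : code B (0 : Fin D → ℤ) = 0 := by simp [code, ec]

lemma nn_dv (δ : Fin D × Bool) : nn (dv δ : Fin D → ℤ) = 1 := by
  have h := sum_abs_dv δ
  unfold nn
  zify
  exact h

lemma nn_eq_one {z : Fin D → ℤ} (h : nn z = 1) : ∃ δ, z = dv δ := by
  have h1 : (gridG (Fin D)).Adj 0 z := by
    unfold gridG
    rw [SimpleGraph.fromRel_adj]
    refine ⟨?_, Or.inr ?_⟩
    · intro h0
      rw [← h0, nn_zero] at h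
      exact absurd h (by norm_num)
    · unfold nn at h
      zify at h
      simpa using h
  obtain ⟨δ, hδ⟩ := grid_adj_iff.mp h1
  exact ⟨δ, by rw [hδ, zero_add]⟩

lemma le_ec {B : ℕ} (hB : 2 ≤ B) (a : ℕ) : a ≤ ec B a := by
  unfold ec
  split_ifs with h
  · omega
  · obtain ⟨k, rfl⟩ := Nat.exists_eq_succ_of_ne_zero h
    simp only [Nat.succ_eq_add_one, Nat.add_sub_cancel]
    calc k + 1 ≤ 2 ^ k := Nat.lt_two_pow_self
      _ ≤ B ^ k := Nat.pow_le_pow_left hB k

lemma nn_le_code {B : ℕ} (hB : 2 ≤ B) (z : Fin D → ℤ) : nn z ≤ code B z :=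
  sum_le_sum fun _ _ => le_ec hB _

lemma code_dv (B : ℕ) (δ : Fin D × Bool) : code B (dv δ : Fin D → ℤ) = 1 := by
  obtain ⟨i, b⟩ := δ
  have h := code_add B (0 : Fin D → ℤ) i b
  rw [zero_add, code_zero] at h
  rw [h, dv_self]
  cases b <;> simp [ec]

lemma code_eq_zero {B : ℕ} (hB : 2 ≤ B) {z : Fin D → ℤ} (h : code B z = 0) : z = 0 :=
  nn_eq_zero (Nat.le_zero.mp (h ▸ nn_le_code hB z))

lemma code_eq_one {B : ℕ} (hB : 2 ≤ B) {z : Fin D → ℤ} (h : code B z = 1) : ∃ δ, z = dv δ := by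
  have h1 := nn_le_code hB z
  rw [h] at h1
  refine nn_eq_one (le_antisymm h1 ?_)
  by_contra h2
  have h3 : z = 0 := nn_eq_zero (by omega)
  rw [h3, code_zero] at h
  exact absurd h (by norm_num)

end Pool.Agent.Lib.MP_edae2b_pr.SM
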