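import Pool.Agent.Lib.MP_edae2b_pr.Upper

set_option autoImplicit false

/-!
# MP_edae2b_pr: a second moment method for first passage percolation, definitions (helper53)

`FF G A S τ` is the probability that the passage time from `S` to `A` is at most `τ`. A `Sys` is a
time dependent sub-probability walk `q j` (one step of duration `δ`, `j` = number of remaining
steps; `q j v v` is the probability to stay) together with a supersolution `W j v w ≥ 1` of the
equation of pairs. `Cert` is the finite certificate (layers `a = 1, .., K`, phases `r = 0, .., J`).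
-/

namespace Pool.Agent.Lib.MP_edae2b_pr.SM

open MeasureTheory ProbabilityTheory Finset

section Abstract

variable {V : Type} [Fintype V] [DecidableEq V]

/-- The probability that the passage time from `S` to `A` is at most `τ`. -/
noncomputable def FF (G : SimpleGraph V) (A : Set V) (S : Finset V) (τ : ℝ) : ℝ :=
  (pex (Sym2 V)).real {w | pt G A S (cw w) ≤ ENNReal.ofReal τ}

/-- The probability that exactly the elements of `R ⊆ B` are chosen. -/
def bw {β : Type} [DecidableEq β] (p : ℝ) (B R : Finset β) : ℝ :=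
  p ^ R.card * (1 - p) ^ (B \ R).card

/-- A walk with alive sets `L j` (`j` = number of remaining steps) and a supersolution `W` of the
equation of pairs. -/
structure Sys (G : SimpleGraph V) (A : Set V) (c : ℝ) (L : ℕ → Set V) (q : ℕ → V → V → ℝ)
    (W : ℕ → V → V → ℝ) : Prop where
  fin : ∀ v, v ∈ L 0 → v ∈ A
  qnn : ∀ j v u, 0 ≤ q j v u
  adj : ∀ j v u, u ≠ v → q j v u ≠ 0 → G.Adj v u
  alive : ∀ j v u, v ∈ L (j + 1) → v ∉ A → q j v u ≠ 0 → u ∈ L j
  one : ∀ j v, v ∈ L (j + 1) → v ∉ A → ∑ u, q j v u = 1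
  Wone : ∀ j v w, v ∈ L j → w ∈ L j → 1 ≤ W j v w
  step : ∀ j v w, v ∈ L (j + 1) → w ∈ L (j + 1) → v ∉ A → w ∉ A →
    ∑ v', ∑ w', q j v v' * q j w w' * W j v' w' +
      (if v = w then c * ∑ u ∈ univ.erase v, q j v u ^ 2 * W j u u else 0) ≤ W (j + 1) v w

end Abstract

section Transverse

variable {D : ℕ}

/-- The `ℓ¹` norm. -/
def nn (z : Fin D → ℤ) : ℕ := ∑ i, (z i).natAbs

/-- The square of the Euclidean norm. -/
def sq (z : Fin D → ℤ) : ℕ := ∑ i, (z i).natAbs ^ 2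

/-- The sum over the neighbours. -/
noncomputable def nb (F : (Fin D → ℤ) → ℝ) (z : Fin D → ℤ) : ℝ := ∑ δ : Fin D × Bool, F (z + dv δ)

/-- The superharmonic function. -/
noncomputable def gr (c0 : ℝ) (z : Fin D → ℤ) : ℝ := 1 / (sq z + c0)

/-- The operator which bounds the sum over the neighbours of `T (nn z)`, `T` decreasing. -/
noncomputable def BB1 (D : ℕ) (T : ℕ → ℝ) (m : ℕ) : ℝ :=
  (min m D : ℕ) * T (m - 1) + (2 * D - (min m D : ℕ)) * T (m + 1)

/-- One lazy step: stay with probability `1 - θ`. -/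
noncomputable def A1 (D : ℕ) (θ : ℝ) (T : ℕ → ℝ) (m : ℕ) : ℝ :=
  (1 - θ) * T m + θ / (2 * D) * BB1 D T m

/-- The bound `2 D - 8` over `(r + c0) (r + c0 + 1)`, `r = (M + 2) ^ 2`. -/
noncomputable def eta (D M : ℕ) (c0 : ℝ) : ℝ :=
  (2 * D - 8) / ((((M : ℝ) + 2) ^ 2 + c0) * (((M : ℝ) + 2) ^ 2 + c0 + 1))

/-- The mean of `T r a' b'` after one step of both walks, started in the layers `a` and `b`. -/
noncomputable def PT (D : ℕ) (θ : ℝ) (f : ℕ → ℕ → ℝ) (T : ℕ → ℕ → ℕ → ℕ → ℝ) (r a b m : ℕ) : ℝ :=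
  (1 - f a r) * (1 - f b r) * A1 D θ (A1 D θ (T r a b)) m +
  f a r * (1 - f b r) * A1 D θ (T r (a - 1) b) m +
  (1 - f a r) * f b r * A1 D θ (T r a (b - 1)) m +
  f a r * f b r * T r (a - 1) (b - 1) m

/-- The certificate. `a, b` are layers, `1 ≤ a ≤ K` (layer 1 is the top of the window), `r` is the
phase (remaining steps in the present period of `J` steps), `m` the transversal distance. -/
structure Cert (D K J M : ℕ) (θ ε c0 c : ℝ) (f : ℕ → ℕ → ℝ) (T : ℕ → ℕ → ℕ → ℕ → ℝ) : Prop where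
  hD : 5 ≤ D
  hK : 2 ≤ K
  hJ : 1 ≤ J
  hθ : 0 ≤ θ
  hθ' : θ * (2 * D + 1) ≤ 2 * D
  hε : 0 ≤ ε
  hc0 : 2 ≤ c0
  hc : 0 ≤ c
  f0 : ∀ a r, 0 ≤ f a r
  f1 : ∀ a r, f a r ≤ 1
  ftop : ∀ r, r < J → f 1 r = 0
  fbot : f K 0 = 1
  nonneg : ∀ r a b m, 0 ≤ T r a b m
  anti : ∀ r a b, Antitone (T r a b)
  zero : ∀ r a b m, M < m → T r a b m = 0
  step : ∀ r a b m, r < J → 1 ≤ a → a ≤ K → 1 ≤ b → b ≤ K → m ≤ M →
    PT D θ f T r a b m + (if a = b ∧ m = 0 then c * ((1 - f a r) ^ 2 * θ ^ 2 / (2 * D) *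
      (1 + ε / c0 + T r a a 0) + f a r ^ 2 * (1 + ε / c0 + T r (a - 1) (a - 1) 0)) else 0) ≤
      T (r + 1) a b m
  out : ∀ r a b m, r < J → 1 ≤ a → a ≤ K → 1 ≤ b → b ≤ K → m = M + 1 ∨ m = M + 2 →
    PT D θ f T r a b m ≤ ε * (θ / (2 * D)) * eta D M c0 * (1 - f a r * f b r)
  close : ∀ a b m, 1 ≤ a → a < K → 1 ≤ b → b < K → T J (a + 1) (b + 1) m ≤ T 0 a b m

end Transverse

section Grid

variable {D n : ℕ}

/-- The transversal difference. -/
def tz (v w : Fin (D + 1) → ℤ) : Fin D → ℤ := fun i => v i.succ - w i.succ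

/-- The layer of a site in the window, `i` = number of complete remaining periods. -/
def la (n K i : ℕ) (v : Fin (D + 1) → ℤ) : ℤ := (n : ℤ) + K - 1 - i - v 0

/-- The alive sites; `j` remaining steps are `j / J` periods and `j % J` steps. -/
def LL (D n K J j : ℕ) : Set (boxF (Fin (D + 1)) n) :=
  {v | 1 ≤ la n K (j / J) v.1 ∧ la n K (j / J) v.1 ≤ K ∧ (j % J = 0 → la n K (j / J) v.1 < K)}

/-- The walk. -/
noncomputable def qq (D n K J : ℕ) (θ : ℝ) (f : ℕ → ℕ → ℝ) (j : ℕ)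
    (v u : boxF (Fin (D + 1)) n) : ℝ :=
  (if u = v then (1 - f (la n K (j / J) v.1).toNat (j % J)) * (1 - θ) else 0) +
  (if u.1 = v.1 + dv ((0 : Fin (D + 1)), true) then f (la n K (j / J) v.1).toNat (j % J) else 0) +
  ∑ δ : Fin D × Bool, if u.1 = v.1 + dv (δ.1.succ, δ.2) then
    (1 - f (la n K (j / J) v.1).toNat (j % J)) * (θ / (2 * D)) else 0

/-- The function of pairs. -/
noncomputable def WW (D n K J : ℕ) (ε c0 : ℝ) (T : ℕ → ℕ → ℕ → ℕ → ℝ) (j : ℕ)
    (v w : boxF (Fin (D + 1)) n) : ℝ :=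
  1 + ε * gr c0 (tz v.1 w.1) +
    T (j % J) (la n K (j / J) v.1).toNat (la n K (j / J) w.1).toNat (nn (tz v.1 w.1))

end Grid

end Pool.Agent.Lib.MP_edae2b_pr.SM
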