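import Pool.Agent.Lib.MP_edae2b_pr.Lower

set_option autoImplicit false

/-!
# MP_edae2b_pr: the diagonal lower bound with the exact non-backtracking eigenvalue (helper92)

The potential of a finite set `S` is the sum over its boundary edges `(z, δ)` (in `ℤ^ι`) of
`g δ * psi θ y (z + dv δ)`, where `g δ` is `gp` for a forward and `gm` for a backward direction.
-/

namespace Pool.Agent.Lib.MP_edae2b_pr

open Finset

variable {ι : Type*} [Fintype ι] [DecidableEq ι]

namespace NB

/-- The weight of a direction. -/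
def gd (gp gm : ℝ) (b : Bool) : ℝ := if b then gp else gm

/-- The weight of a boundary edge. -/
noncomputable def we (θ gp gm : ℝ) (y : ι → ℤ) (p : (ι → ℤ) × (ι × Bool)) : ℝ :=
  gd gp gm p.2.2 * psi θ y (p.1 + dv p.2)

/-- The potential (not normalised). -/
noncomputable def pot (θ gp gm : ℝ) (y : ι → ℤ) (S : Finset (ι → ℤ)) : ℝ :=
  ∑ p ∈ TT S, we θ gp gm y p

lemma gd_pos {gp gm : ℝ} (hp : 0 < gp) (hm : 0 < gm) (b : Bool) : 0 < gd gp gm b := by
  cases b
  · simpa [gd] using hm
  · simpa [gd] using hp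

lemma we_pos {θ gp gm : ℝ} (hp : 0 < gp) (hm : 0 < gm) (y : ι → ℤ) (p : (ι → ℤ) × (ι × Bool)) :
    0 < we θ gp gm y p := mul_pos (gd_pos hp hm _) (psi_pos _ _ _)

lemma sum_we (θ gp gm : ℝ) (y v : ι → ℤ) :
    ∑ δ : ι × Bool, we θ gp gm y (v, δ) =
      Fintype.card ι * (gp * Real.exp θ + gm * Real.exp (-θ)) * psi θ y v := by
  unfold we gd
  rw [Fintype.sum_prod_type]
  simp only [Fintype.sum_bool, psi_dv_true, psi_dv_false, if_true, Bool.false_eq_true, if_false]
  rw [sum_const, card_univ, nsmul_eq_mul]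
  ring

/-- The sum over the new edges at `v`, which is reached in the direction `δ₀`. -/
lemma sum_new {θ gp gm lam : ℝ}
    (h1 : Fintype.card ι * (gp * Real.exp θ) + (Fintype.card ι - 1) * (gm * Real.exp (-θ)) ≤
      (1 + lam) * gp)
    (h2 : (Fintype.card ι - 1) * (gp * Real.exp θ) + Fintype.card ι * (gm * Real.exp (-θ)) ≤
      (1 + lam) * gm) (y v : ι → ℤ) (δ₀ : ι × Bool) :
    ∑ δ ∈ univ.erase (δ₀.1, !δ₀.2), we θ gp gm y (v, δ) ≤
      (1 + lam) * (gd gp gm δ₀.2 * psi θ y v) := by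
  have h3 := sum_we θ gp gm y v
  have h4 := add_sum_erase univ (fun δ => we θ gp gm y (v, δ)) (mem_univ (δ₀.1, !δ₀.2))
  have hpos := psi_pos θ y v
  obtain ⟨i, b⟩ := δ₀
  cases b
  · have h5 : we θ gp gm y (v, (i, true)) = gp * Real.exp θ * psi θ y v := by
      simp only [we, gd, psi_dv_true, if_true]
      ring
    have h6 := mul_le_mul_of_nonneg_right h2 hpos.le
    simp only [Bool.not_false] at h4 ⊢
    simp only [gd, Bool.false_eq_true, if_false]
    rw [h5, h3] at h4
    linarith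
  · have h5 : we θ gp gm y (v, (i, false)) = gm * Real.exp (-θ) * psi θ y v := by
      simp only [we, gd, psi_dv_false, Bool.false_eq_true, if_false]
      ring
    have h6 := mul_le_mul_of_nonneg_right h1 hpos.le
    simp only [Bool.not_true] at h4 ⊢
    simp only [gd, if_true]
    rw [h5, h3] at h4
    linarith

lemma pot_insert {θ gp gm lam : ℝ} (hp : 0 < gp) (hm : 0 < gm)
    (h1 : Fintype.card ι * (gp * Real.exp θ) + (Fintype.card ι - 1) * (gm * Real.exp (-θ)) ≤
      (1 + lam) * gp)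
    (h2 : (Fintype.card ι - 1) * (gp * Real.exp θ) + Fintype.card ι * (gm * Real.exp (-θ)) ≤
      (1 + lam) * gm) (y : ι → ℤ) {S : Finset (ι → ℤ)} {p : (ι → ℤ) × (ι × Bool)}
    (hpS : p ∈ TT S) :
    pot θ gp gm y (insert (p.1 + dv p.2) S) ≤ pot θ gp gm y S + lam * we θ gp gm y p := by
  obtain ⟨hz, hv⟩ := mem_TT.mp hpS
  set v := p.1 + dv p.2 with hvdef
  have hsub : TT (insert v S) ⊆ (TT S).erase p ∪
      (univ.erase (p.2.1, !p.2.2)).image fun δ => (v, δ) := by
    intro r hr
    obtain ⟨hr1, hr2⟩ := mem_TT.mp hr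
    rw [mem_union]
    by_cases hrv : r.1 = v
    · right
      rw [mem_image]
      refine ⟨r.2, mem_erase.mpr ⟨fun h => hr2 ?_, mem_univ _⟩, by rw [← hrv]⟩
      have h7 : r.1 + dv r.2 = p.1 := by
        rw [hrv, h, dv_neg, hvdef]
        abel
      rw [h7]
      exact mem_insert_of_mem hz
    · left
      refine mem_erase.mpr ⟨fun h => hr2 ?_, mem_TT.mpr ⟨(mem_insert.mp hr1).resolve_left hrv,
        fun h => hr2 (mem_insert_of_mem h)⟩⟩
      rw [h]
      exact mem_insert_self _ _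
  have h3 : pot θ gp gm y (insert v S) ≤ ∑ r ∈ (TT S).erase p, we θ gp gm y r +
      ∑ δ ∈ univ.erase (p.2.1, !p.2.2), we θ gp gm y (v, δ) := by
    unfold pot
    refine (sum_le_sum_of_subset_of_nonneg hsub fun r _ _ => (we_pos hp hm y r).le).trans ?_
    have h7 := sum_union_inter (s₁ := (TT S).erase p)
      (s₂ := (univ.erase (p.2.1, !p.2.2)).image fun δ => (v, δ)) (f := fun r => we θ gp gm y r)
    have h8 : 0 ≤ ∑ r ∈ (TT S).erase p ∩ (univ.erase (p.2.1, !p.2.2)).image fun δ => (v, δ),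
        we θ gp gm y r := sum_nonneg fun r _ => (we_pos hp hm y r).le
    have h9 : ∑ r ∈ (univ.erase (p.2.1, !p.2.2)).image (fun δ => (v, δ)), we θ gp gm y r =
        ∑ δ ∈ univ.erase (p.2.1, !p.2.2), we θ gp gm y (v, δ) := by
      rw [sum_image]
      intro a _ b _ hab
      exact (Prod.mk.injEq _ _ _ _ ▸ hab).2
    linarith
  have h4 := add_sum_erase (TT S) (fun r => we θ gp gm y r) hpS
  have h5 := sum_new h1 h2 y v p.2
  unfold pot at h3 ⊢
  have h6 : we θ gp gm y p = gd gp gm p.2.2 * psi θ y v := rfl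
  rw [h6] at h4 ⊢
  linarith

/-- Comparison of the sums over the boundary in the box and in the lattice. -/
lemma sum_bd_we {θ gp gm : ℝ} (hp : 0 < gp) (hm : 0 < gm) (y : ι → ℤ) {n : ℕ}
    (S : Finset (boxF ι n)) (D : boxF ι n × boxF ι n → ι × Bool)
    (hD : ∀ q ∈ bd (boxG ι n) S, q.2.1 = q.1.1 + dv (D q)) :
    (∀ q ∈ bd (boxG ι n) S, (q.1.1, D q) ∈ TT (im S)) ∧
    ∑ q ∈ bd (boxG ι n) S, we θ gp gm y (q.1.1, D q) ≤ pot θ gp gm y (im S) := by
  have h0 : ∀ q ∈ bd (boxG ι n) S, (q.1.1, D q) ∈ TT (im S) := by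
    intro q hq
    obtain ⟨h3, h4, _⟩ := mem_bd.mp hq
    refine mem_TT.mpr ⟨mem_im.mpr ⟨q.1.2, h3⟩, ?_⟩
    rw [← hD q hq]
    intro h
    obtain ⟨_, h⟩ := mem_im.mp h
    exact h4 h
  refine ⟨h0, ?_⟩
  have h1 : ∑ q ∈ bd (boxG ι n) S, we θ gp gm y (q.1.1, D q) =
      ∑ r ∈ (bd (boxG ι n) S).image (fun q => (q.1.1, D q)), we θ gp gm y r := by
    rw [sum_image]
    rintro a ha b hb h
    simp only [Prod.mk.injEq] at h
    refine Prod.ext (Subtype.ext h.1) (Subtype.ext ?_)
    rw [hD a ha, hD b hb, h.1, h.2]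
  rw [h1]
  unfold pot
  refine sum_le_sum_of_subset_of_nonneg (fun r hr => ?_) fun r _ _ => (we_pos hp hm y r).le
  obtain ⟨q, hq, rfl⟩ := mem_image.mp hr
  exact h0 q hq

/-- A finite set which contains `y` has a forward boundary edge of weight at least `gp e^θ`. -/
lemma le_pot {θ gp gm : ℝ} (hθ : 0 ≤ θ) (hp : 0 < gp) (hm : 0 < gm) (i : ι) {y : ι → ℤ}
    {S : Finset (ι → ℤ)} (hy : y ∈ S) : gp * Real.exp θ ≤ pot θ gp gm y S := by
  have hex : ∃ k : ℕ, y + (k + 1) • dv (i, true) ∉ S := by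
    by_contra hcon
    push Not at hcon
    have hinj : Function.Injective fun k : ℕ => y + (k + 1) • dv (i, true) := by
      intro a b hab
      have h1 : (y + (a + 1) • dv (i, true)) i = (y + (b + 1) • dv (i, true)) i := congrFun hab i
      rw [Pi.add_apply, Pi.add_apply, Pi.smul_apply, Pi.smul_apply, dv_self, if_pos rfl,
        nsmul_eq_mul, nsmul_eq_mul, mul_one, mul_one] at h1
      omega
    have h2 : (Set.range fun k : ℕ => y + (k + 1) • dv (i, true)) ⊆ (S : Set (ι → ℤ)) := by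
      rintro _ ⟨k, rfl⟩
      exact hcon k
    exact Set.infinite_range_of_injective hinj (S.finite_toSet.subset h2)
  classical
  set k := Nat.find hex with hk
  have hk1 : y + (k + 1) • dv (i, true) ∉ S := Nat.find_spec hex
  have hk2 : y + k • dv (i, true) ∈ S := by
    rcases Nat.eq_zero_or_pos k with h | h
    · rw [h]
      simpa using hy
    · have h3 := Nat.find_min hex (m := k - 1) (by omega)
      rw [not_not] at h3
      rw [show k - 1 + 1 = k by omega] at h3
      exact h3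
  have h4 : (y + k • dv (i, true), ((i, true) : ι × Bool)) ∈ TT S := by
    refine mem_TT.mpr ⟨hk2, ?_⟩
    have : y + k • dv (i, true) + dv (i, true) = y + (k + 1) • dv (i, true) := by
      rw [succ_nsmul, add_assoc]
    rw [this]
    exact hk1
  have h5 : we θ gp gm y (y + k • dv (i, true), (i, true)) ≤ pot θ gp gm y S :=
    single_le_sum (f := fun r => we θ gp gm y r) (fun r _ => (we_pos hp hm y r).le) h4
  refine le_trans ?_ h5
  have h6 : 1 ≤ psi θ y (y + k • dv (i, true)) := by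
    unfold psi
    refine Real.one_le_exp (mul_nonneg hθ ?_)
    have h7 : ∑ j, ((y + k • dv (i, true) : ι → ℤ) j : ℝ) = ∑ j, (y j : ℝ) + k := by
      have h8 : ∀ j, ((y + k • dv (i, true) : ι → ℤ) j : ℝ) =
          (y j : ℝ) + k * ((uv i : ι → ℤ) j : ℝ) := by
        intro j
        rw [Pi.add_apply, Pi.smul_apply, nsmul_eq_mul]
        simp only [dv, if_true]
        push_cast
        rfl
      rw [sum_congr rfl fun j _ => h8 j, sum_add_distrib, ← mul_sum, sum_uv, mul_one]
    rw [h7]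
    have : (0 : ℝ) ≤ k := Nat.cast_nonneg k
    linarith
  simp only [we, gd, if_true]
  rw [psi_dv_true, ← mul_assoc]
  have h8 : 0 < gp * Real.exp θ := mul_pos hp (Real.exp_pos _)
  nlinarith

/-- Upper bound for the Laplace transform of the passage time from the origin to `y`. -/
theorem LT_box_le_nb [Nonempty ι] {θ gp gm lam : ℝ} (hθ : 0 ≤ θ) (hlam : 0 < lam) (hp : 0 < gp)
    (hm : 0 < gm)
    (h1 : Fintype.card ι * (gp * Real.exp θ) + (Fintype.card ι - 1) * (gm * Real.exp (-θ)) ≤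
      (1 + lam) * gp)
    (h2 : (Fintype.card ι - 1) * (gp * Real.exp θ) + Fintype.card ι * (gm * Real.exp (-θ)) ≤
      (1 + lam) * gm) {n : ℕ} (o y : boxF ι n) :
    (LT (boxG ι n) lam {y} {o}).toReal ≤
      Fintype.card ι * (gp * Real.exp θ + gm * Real.exp (-θ)) / (gp * Real.exp θ) *
        psi θ y.1 o.1 := by
  obtain ⟨i⟩ := ‹Nonempty ι›
  set c : ℝ := gp * Real.exp θ with hc
  have hc0 : 0 < c := mul_pos hp (Real.exp_pos _)
  have h3 := LT_le (G := boxG ι n) hlam (A := ({y} : Set (boxF ι n)))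
    (fun S => pot θ gp gm y.1 (im S) / c) (fun _ => True) ?_ ?_ ?_ {o} trivial
  · refine h3.trans ?_
    have him : im ({o} : Finset (boxF ι n)) = {o.1} := by simp [im]
    have h4 : pot θ gp gm y.1 {o.1} ≤ ∑ δ : ι × Bool, we θ gp gm y.1 (o.1, δ) := by
      unfold pot
      have hsub : TT ({o.1} : Finset (ι → ℤ)) ⊆ univ.image fun δ => (o.1, δ) := by
        intro r hr
        obtain ⟨hr1, _⟩ := mem_TT.mp hr
        rw [mem_singleton] at hr1
        exact mem_image.mpr ⟨r.2, mem_univ _, by rw [← hr1]⟩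
      refine (sum_le_sum_of_subset_of_nonneg hsub fun r _ _ => (we_pos hp hm y.1 r).le).trans
        (le_of_eq ?_)
      rw [sum_image]
      intro a _ b _ hab
      exact (Prod.mk.injEq _ _ _ _ ▸ hab).2
    rw [him]
    rw [sum_we] at h4
    calc pot θ gp gm y.1 {o.1} / c ≤
        Fintype.card ι * (gp * Real.exp θ + gm * Real.exp (-θ)) * psi θ y.1 o.1 / c := by
          gcongr
      _ = _ := by ring
  · intro S _ hS
    rw [Set.disjoint_singleton_right, not_not, mem_coe] at hS
    have hy : y.1 ∈ im S := mem_im.mpr ⟨y.2, hS⟩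
    rw [le_div_iff₀ hc0, one_mul]
    exact le_pot hθ hp hm i hy
  · intro _ _ _ _ _
    trivial
  · intro S _ _
    classical
    have hex : ∀ q ∈ bd (boxG ι n) S, ∃ δ, q.2.1 = q.1.1 + dv δ := by
      intro q hq
      obtain ⟨_, _, h5⟩ := mem_bd.mp hq
      have h6 : (gridG ι).Adj q.1.1 q.2.1 := h5
      exact grid_adj_iff.mp h6
    let D : boxF ι n × boxF ι n → ι × Bool := fun q =>
      if h : ∃ δ, q.2.1 = q.1.1 + dv δ then h.choose else (i, true)
    have hD : ∀ q ∈ bd (boxG ι n) S, q.2.1 = q.1.1 + dv (D q) := by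
      intro q hq
      have h := hex q hq
      simp only [D, dif_pos h]
      exact h.choose_spec
    obtain ⟨h5, h6⟩ := sum_bd_we (θ := θ) hp hm y.1 S D hD
    have h7 : ∀ q ∈ bd (boxG ι n) S, pot θ gp gm y.1 (im (insert q.2 S)) / c ≤
        pot θ gp gm y.1 (im S) / c + lam / c * we θ gp gm y.1 (q.1.1, D q) := by
      intro q hq
      rw [im_insert, hD q hq]
      have h8 := pot_insert hp hm h1 h2 y.1 (h5 q hq)
      calc pot θ gp gm y.1 (insert (q.1.1 + dv (D q)) (im S)) / c ≤
          (pot θ gp gm y.1 (im S) + lam * we θ gp gm y.1 (q.1.1, D q)) / c := by gcongr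
        _ = _ := by ring
    refine (sum_le_sum h7).trans ?_
    rw [sum_add_distrib, sum_const, nsmul_eq_mul, ← mul_sum, add_mul]
    have h9 : lam / c * ∑ q ∈ bd (boxG ι n) S, we θ gp gm y.1 (q.1.1, D q) ≤
        lam / c * pot θ gp gm y.1 (im S) := by gcongr
    have h10 : lam / c * pot θ gp gm y.1 (im S) = lam * (pot θ gp gm y.1 (im S) / c) := by ring
    linarith

end NB

open MeasureTheory ProbabilityTheory Filter Topology
open scoped ENNReal

variable {Ω : Type*} [MeasurableSpace Ω] {P : Measure Ω} [IsProbabilityMeasure P]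
  {ω : Sym2 (ι → ℤ) → Ω → ℝ}

/-- Tail bound for the passage time to a point, from a bound for the Laplace transform. -/
theorem tail_bound_of (hind : iIndepFun ω P) (hlaw : ∀ e, Measurable (ω e) ∧ P.map (ω e) = ex)
    {θ lam τ C : ℝ} (hlam : 0 < lam) (hτ : 0 < τ)
    (hLT : ∀ (n : ℕ) (o y : boxF ι n),
      (LT (boxG ι n) lam {y} {o}).toReal ≤ C * psi θ y.1 o.1)
    (y : ι → ℤ) :
    P {t | Tz (gridG ι) (fun e => ω e t) 0 y < τ} ≤
      ENNReal.ofReal (Real.exp (lam * τ) * (C * psi θ y 0)) := by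
  set b : ℝ≥0∞ := ENNReal.ofReal (Real.exp (lam * τ) * (C * psi θ y 0)) with hb
  set m1 := (∑ i, |y i|).toNat with hm1
  have hy : ∀ k, y ∈ boxF ι (m1 + k) := fun k => mem_boxF_of_le (by omega)
  let E : ℕ → Set Ω := fun k => {t | pt (boxG ι (m1 + k)) {⟨y, hy k⟩}
    ({⟨0, zero_mem_boxF _⟩} : Set (boxF ι (m1 + k))) (cw fun e => ω (e.map Subtype.val) t) <
      ENNReal.ofReal τ}
  have hE : ∀ k, P (E k) ≤ b := by
    intro k
    have hmap := law_map hind hlaw (fun z : boxF ι (m1 + k) => z.1) Subtype.val_injective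
    have hmeasA : MeasurableSet {w : Sym2 (boxF ι (m1 + k)) → ℝ |
        pt (boxG ι (m1 + k)) {⟨y, hy k⟩} ({⟨0, zero_mem_boxF _⟩} : Set (boxF ι (m1 + k))) (cw w) <
          ENNReal.ofReal τ} :=
      measurableSet_lt (measurable_pt (X := fun e w => cw w e) measurable_cw _ _) measurable_const
    have hmeasX : Measurable (fun t => fun e : Sym2 (boxF ι (m1 + k)) =>
        ω (e.map (fun z : boxF ι (m1 + k) => z.1)) t) :=
      measurable_pi_lambda _ fun e => (hlaw _).1
    have h1 : P (E k) = pex (Sym2 (boxF ι (m1 + k))) {w | pt (boxG ι (m1 + k)) {⟨y, hy k⟩}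
        ({⟨0, zero_mem_boxF _⟩} : Set (boxF ι (m1 + k))) (cw w) < ENNReal.ofReal τ} := by
      rw [← hmap, Measure.map_apply hmeasX hmeasA]
      rfl
    rw [h1]
    have h2 := measure_pt_lt_le (G := boxG ι (m1 + k)) (A := {⟨y, hy k⟩})
      (S := ({⟨0, zero_mem_boxF _⟩} : Finset (boxF ι (m1 + k)))) hlam.le hτ.le
    rw [Finset.coe_singleton] at h2
    refine h2.trans ?_
    have h3 := hLT (m1 + k) ⟨0, zero_mem_boxF _⟩ ⟨y, hy k⟩
    rw [hb, ENNReal.ofReal_mul (Real.exp_pos _).le]
    gcongr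
    have hfin : LT (boxG ι (m1 + k)) lam {⟨y, hy k⟩} {⟨0, zero_mem_boxF _⟩} ≠ ∞ :=
      ne_top_of_le_ne_top ENNReal.one_ne_top (LT_le_one hlam.le _ _)
    rw [← ENNReal.ofReal_toReal hfin]
    exact ENNReal.ofReal_le_ofReal h3
  let F : ℕ → Set Ω := fun K => ⋂ k ∈ Set.Ici K, E k
  have hF : Monotone F := by
    intro K K' hKK' t ht
    simp only [F, Set.mem_iInter, Set.mem_Ici] at ht ⊢
    exact fun k hk => ht k (hKK'.trans hk)
  have hsub : {t | Tz (gridG ι) (fun e => ω e t) 0 y < τ} ≤ᵐ[P] (⋃ K, F K : Set Ω) := by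
    filter_upwards [weights_nonneg hlaw] with t ht hT
    obtain ⟨m0, hm0⟩ := pt_lt_of_Tz_lt ht hτ hT
    refine Set.mem_iUnion.mpr ⟨m0, ?_⟩
    simp only [F, Set.mem_iInter, Set.mem_Ici]
    intro k hk
    exact hm0 (m1 + k) (by omega) (hy k)
  refine (measure_mono_ae hsub).trans ?_
  rw [hF.measure_iUnion]
  refine iSup_le fun K => (measure_mono ?_).trans (hE K)
  intro t ht
  simp only [F, Set.mem_iInter, Set.mem_Ici] at ht
  exact ht K le_rfl

/-- Lower bound for the time constant in the diagonal direction, non-backtracking version. -/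
theorem diag_lower_nb [Nonempty ι] (hind : iIndepFun ω P)
    (hlaw : ∀ e, Measurable (ω e) ∧ P.map (ω e) = ex)
    {θ gp gm lam s L : ℝ} (hθ : 0 ≤ θ) (hlam : 0 < lam) (hp : 0 < gp) (hm : 0 < gm)
    (h1 : Fintype.card ι * (gp * Real.exp θ) + (Fintype.card ι - 1) * (gm * Real.exp (-θ)) ≤
      (1 + lam) * gp)
    (h2 : (Fintype.card ι - 1) * (gp * Real.exp θ) + Fintype.card ι * (gm * Real.exp (-θ)) ≤
      (1 + lam) * gm) (hs : 0 < s) (hsl : lam * s < θ * Fintype.card ι)
    (hL : ∀ᵐ t ∂P, Tendsto (fun n : ℕ => Tz (gridG ι) (fun e => ω e t) 0 (n • (1 : ι → ℤ)) / n)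
      atTop (𝓝 L)) : s ≤ L := by
  by_contra hcon
  push Not at hcon
  set δ : ℝ := θ * Fintype.card ι - lam * s with hδ
  have hδ0 : 0 < δ := by linarith
  set C : ℝ := Fintype.card ι * (gp * Real.exp θ + gm * Real.exp (-θ)) / (gp * Real.exp θ) with hC
  have hcard : (0 : ℝ) < Fintype.card ι := by exact_mod_cast Fintype.card_pos
  have hC0 : 0 < C := by positivity
  let E : ℕ → Set Ω := fun n => {t | Tz (gridG ι) (fun e => ω e t) 0 (n • (1 : ι → ℤ)) < s * n}
  have hE : ∀ n : ℕ, 0 < n → P (E n) ≤ ENNReal.ofReal (C * Real.exp (-(δ * n))) := by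
    intro n hn
    have hn' : (0 : ℝ) < n := by exact_mod_cast hn
    refine (tail_bound_of hind hlaw hlam (by positivity)
      (fun n o y => NB.LT_box_le_nb hθ hlam hp hm h1 h2 o y) _).trans (le_of_eq ?_)
    congr 1
    unfold psi
    have h3 : ∑ i : ι, (((n • (1 : ι → ℤ)) i : ℤ) : ℝ) = Fintype.card ι * n := by
      simp
    rw [h3]
    simp only [Pi.zero_apply, Int.cast_zero, Finset.sum_const_zero, zero_sub]
    rw [← hC, mul_left_comm, ← Real.exp_add]
    congr 2
    rw [hδ]
    ring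
  let F : ℕ → Set Ω := fun N => ⋂ n ∈ Set.Ici N, E n
  have hF0 : ∀ N, P (F N) = 0 := by
    intro N
    have h1 : ∀ n, max N 1 ≤ n → P (F N) ≤ ENNReal.ofReal (C * Real.exp (-(δ * n))) := by
      intro n hn
      refine (measure_mono ?_).trans (hE n (by omega))
      intro t ht
      simp only [F, Set.mem_iInter, Set.mem_Ici] at ht
      exact ht n (by omega)
    have h2 : Tendsto (fun n : ℕ => ENNReal.ofReal (C * Real.exp (-(δ * n)))) atTop (𝓝 0) := by
      have h3 : Tendsto (fun n : ℕ => C * Real.exp (-(δ * n))) atTop (𝓝 (C * 0)) := by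
        refine Tendsto.const_mul _ ?_
        refine Real.tendsto_exp_neg_atTop_nhds_zero.comp ?_
        exact Tendsto.const_mul_atTop hδ0 tendsto_natCast_atTop_atTop
      rw [mul_zero] at h3
      have := ENNReal.tendsto_ofReal h3
      simpa using this
    have h3 := ge_of_tendsto h2 (eventually_atTop.mpr ⟨max N 1, fun n hn => h1 n hn⟩)
    exact le_antisymm h3 zero_le
  have hU : P (⋃ N, F N) = 0 := measure_iUnion_null hF0
  have hae : ∀ᵐ t ∂P, t ∈ ⋃ N, F N := by
    filter_upwards [hL] with t ht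
    have h1 : ∀ᶠ n : ℕ in atTop, Tz (gridG ι) (fun e => ω e t) 0 (n • (1 : ι → ℤ)) / n < s :=
      ht.eventually (gt_mem_nhds hcon)
    obtain ⟨N, hN⟩ := eventually_atTop.mp h1
    refine Set.mem_iUnion.mpr ⟨max N 1, ?_⟩
    simp only [F, Set.mem_iInter, Set.mem_Ici]
    intro n hn
    have hn' : (0 : ℝ) < n := by
      have : 0 < n := by omega
      exact_mod_cast this
    have h2 := hN n (by omega)
    rw [div_lt_iff₀ hn'] at h2
    exact h2
  have h1 : P (⋃ N, F N) = 1 := by
    rw [← measure_univ (μ := P)]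
    refine measure_congr ?_
    filter_upwards [hae] with t ht
    exact propext ⟨fun _ => trivial, fun _ => ht⟩
  rw [hU] at h1
  exact zero_ne_one h1

namespace NB

lemma exp_upper : Real.exp (113 / 100) ≤ 309566 / 100000 := by
  have h1 : Real.exp (113 / 200) ≤ 1759448 / 1000000 := by
    refine (Real.exp_bound' (by norm_num) (by norm_num) (n := 10) (by norm_num)).trans ?_
    simp only [Finset.sum_range_succ, Finset.sum_range_zero, Nat.factorial]
    norm_num
  rw [show (113 / 100 : ℝ) = 113 / 200 + 113 / 200 by norm_num, Real.exp_add]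
  calc Real.exp (113 / 200) * Real.exp (113 / 200) ≤
        (1759448 / 1000000) * (1759448 / 1000000) := by gcongr
    _ ≤ _ := by norm_num

lemma exp_lower : Real.exp (-(113 / 100)) ≤ 32304 / 100000 := by
  have h1 : (175944 / 100000 : ℝ) ≤ Real.exp (113 / 200) := by
    refine le_trans ?_ (Real.sum_le_exp_of_nonneg (by norm_num) 9)
    simp only [Finset.sum_range_succ, Finset.sum_range_zero, Nat.factorial]
    norm_num
  have h2 : (100000 / 32304 : ℝ) ≤ Real.exp (113 / 100) := by
    rw [show (113 / 100 : ℝ) = 113 / 200 + 113 / 200 by norm_num, Real.exp_add]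
    calc (100000 / 32304 : ℝ) ≤ (175944 / 100000) * (175944 / 100000) := by norm_num
      _ ≤ _ := by gcongr
  rw [Real.exp_neg]
  refine inv_le_of_inv_le₀ (by norm_num) ?_
  rw [inv_div]
  exact h2

end NB

/-- Numerical form with `θ = 113 / 100`: it suffices to check three rational inequalities. -/
theorem diag_lower_113 {d : ℕ} (hd : 1 ≤ d) {ω : Sym2 (Fin d → ℤ) → Ω → ℝ} (hind : iIndepFun ω P)
    (hlaw : ∀ e, Measurable (ω e) ∧ P.map (ω e) = ex) {r lam s L : ℝ} (hr : 0 < r)
    (hlam : 0 < lam)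
    (h1 : d * (309566 / 100000) + (d - 1) * (r * (32304 / 100000)) ≤ 1 + lam)
    (h2 : (d - 1) * (309566 / 100000) + d * (r * (32304 / 100000)) ≤ (1 + lam) * r)
    (hs : 0 < s) (hsl : lam * s < 113 / 100 * d)
    (hL : ∀ᵐ t ∂P, Tendsto (fun n : ℕ => Tz (gridG (Fin d)) (fun e => ω e t) 0
      (n • (1 : Fin d → ℤ)) / n) atTop (𝓝 L)) : s ≤ L := by
  have : Nonempty (Fin d) := ⟨⟨0, by omega⟩⟩
  have hd' : (1 : ℝ) ≤ d := by exact_mod_cast hd
  have e1 := NB.exp_upper
  have e2 := NB.exp_lower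
  refine diag_lower_nb (ι := Fin d) hind hlaw (θ := 113 / 100) (gp := 1) (gm := r) (lam := lam)
    (by norm_num) hlam one_pos hr ?_ ?_ hs (by rw [Fintype.card_fin]; exact hsl) hL
  · rw [Fintype.card_fin]
    have h3 : (d : ℝ) * (1 * Real.exp (113 / 100)) ≤ d * (309566 / 100000) := by
      rw [one_mul]; gcongr
    have h4 : ((d : ℝ) - 1) * (r * Real.exp (-(113 / 100))) ≤ (d - 1) * (r * (32304 / 100000)) :=
      mul_le_mul_of_nonneg_left (mul_le_mul_of_nonneg_left e2 hr.le) (by linarith)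
    linarith
  · rw [Fintype.card_fin]
    have h3 : ((d : ℝ) - 1) * (1 * Real.exp (113 / 100)) ≤ (d - 1) * (309566 / 100000) := by
      rw [one_mul]
      exact mul_le_mul_of_nonneg_left e1 (by linarith)
    have h4 : (d : ℝ) * (r * Real.exp (-(113 / 100))) ≤ d * (r * (32304 / 100000)) := by gcongr
    linarith

/-- The lower bounds which are needed in the dimensions `6` to `13`. -/
noncomputable def sNB : ℕ → ℝ
  | 6 => 35756 / 100000
  | 7 => 35351 / 100000
  | 8 => 35043 / 100000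
  | 9 => 34814 / 100000
  | 10 => 34638 / 100000
  | 11 => 34473 / 100000
  | 12 => 34367 / 100000
  | 13 => 34252 / 100000
  | _ => 0

theorem diag_lower_num {d : ℕ} (h6 : 6 ≤ d) (h13 : d ≤ 13) {ω : Sym2 (Fin d → ℤ) → Ω → ℝ}
    (hind : iIndepFun ω P) (hlaw : ∀ e, Measurable (ω e) ∧ P.map (ω e) = ex) {L : ℝ}
    (hL : ∀ᵐ t ∂P, Tendsto (fun n : ℕ => Tz (gridG (Fin d)) (fun e => ω e t) 0
      (n • (1 : Fin d → ℤ)) / n) atTop (𝓝 L)) : sNB d ≤ L := by
  interval_cases d
  · exact diag_lower_113 (r := 859 / 1000) (lam := 37923 / 2000) (by norm_num) hind hlaw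
      (by norm_num) (by norm_num) (by norm_num) (by norm_num) (by norm_num [sNB])
      (by norm_num [sNB]) hL
  · exact diag_lower_113 (r := 22 / 25) (lam := 223753 / 10000) (by norm_num) hind hlaw
      (by norm_num) (by norm_num) (by norm_num) (by norm_num) (by norm_num [sNB])
      (by norm_num [sNB]) hL
  · exact diag_lower_113 (r := 179 / 200) (lam := 128981 / 5000) (by norm_num) hind hlaw
      (by norm_num) (by norm_num) (by norm_num) (by norm_num) (by norm_num [sNB])
      (by norm_num [sNB]) hL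
  · exact diag_lower_113 (r := 907 / 1000) (lam := 7303 / 250) (by norm_num) hind hlaw
      (by norm_num) (by norm_num) (by norm_num) (by norm_num) (by norm_num [sNB])
      (by norm_num [sNB]) hL
  · exact diag_lower_113 (r := 917 / 1000) (lam := 326227 / 10000) (by norm_num) hind hlaw
      (by norm_num) (by norm_num) (by norm_num) (by norm_num) (by norm_num [sNB])
      (by norm_num [sNB]) hL
  · exact diag_lower_113 (r := 231 / 250) (lam := 360563 / 10000) (by norm_num) hind hlaw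
      (by norm_num) (by norm_num) (by norm_num) (by norm_num) (by norm_num [sNB])
      (by norm_num [sNB]) hL
  · exact diag_lower_113 (r := 931 / 1000) (lam := 197281 / 5000) (by norm_num) hind hlaw
      (by norm_num) (by norm_num) (by norm_num) (by norm_num) (by norm_num [sNB])
      (by norm_num [sNB]) hL
  · exact diag_lower_113 (r := 117 / 125) (lam := 3431 / 80) (by norm_num) hind hlaw
      (by norm_num) (by norm_num) (by norm_num) (by norm_num) (by norm_num [sNB])
      (by norm_num [sNB]) hL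

end Pool.Agent.Lib.MP_edae2b_pr
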