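import Pool.Agent.Lib.MP_edae2b_pr.SM.MaiN
import Pool.Agent.Lib.MP_edae2b_pr.Main

/-!
# The final theorem from certificates for the dimensions up to 13 (helper96)
-/

namespace Pool.Agent.Lib.MP_edae2b_pr.SM

open MeasureTheory ProbabilityTheory Filter Topology
open Pool.Agent.Lib.MP_edae2b_pr

/-- The thresholds. -/
noncomputable def muNB : ℕ → ℝ
  | 6 => 14597 / 100000
  | 7 => 13361 / 100000
  | 8 => 12389 / 100000
  | 9 => 11604 / 100000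
  | 10 => 10953 / 100000
  | 11 => 10394 / 100000
  | 12 => 9920 / 100000
  | 13 => 9499 / 100000
  | _ => 0

variable {d : ℕ} {Ω : Type*} [MeasurableSpace Ω] {P : Measure Ω} [IsProbabilityMeasure P]
  {ω : Sym2 (Fin d → ℤ) → Ω → ℝ}

theorem not_ball_mid (h6 : 6 ≤ d) (h13 : d ≤ 13) (h : HasCer (d - 1) (muNB d))
    (hind : iIndepFun ω P) (hlaw : ∀ e, Measurable (ω e) ∧ P.map (ω e) = ex) :
    ¬ ∃ c : ℝ, ∀ x : Fin d → ℤ, ∀ᵐ t ∂P, Tendsto (fun n : ℕ =>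
      Tz (gridG (Fin d)) (fun e => ω e t) 0 (n • x) / n) atTop
      (𝓝 (c * Real.sqrt (∑ i, ((x i : ℝ)) ^ 2))) := by
  interval_cases d
  · exact nb_6 h rfl hind hlaw
  · exact nb_7 h rfl hind hlaw
  · exact nb_8 h rfl hind hlaw
  · exact nb_9 h rfl hind hlaw
  · exact nb_10 h rfl hind hlaw
  · exact nb_11 h rfl hind hlaw
  · exact nb_12 h rfl hind hlaw
  · exact nb_13 h rfl hind hlaw

/-- Dimensions `d₀` to `34`. -/
theorem not_ball_from {d₀ : ℕ} (h6 : 6 ≤ d₀)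
    (hc : ∀ k, d₀ ≤ k → k ≤ 13 → HasCer (k - 1) (muNB k)) (h0 : d₀ ≤ d) (h35 : d < 35)
    (hind : iIndepFun ω P) (hlaw : ∀ e, Measurable (ω e) ∧ P.map (ω e) = ex) :
    ¬ ∃ c : ℝ, ∀ x : Fin d → ℤ, ∀ᵐ t ∂P, Tendsto (fun n : ℕ =>
      Tz (gridG (Fin d)) (fun e => ω e t) 0 (n • x) / n) atTop
      (𝓝 (c * Real.sqrt (∑ i, ((x i : ℝ)) ^ 2))) := by
  rcases Nat.lt_or_ge 13 d with h | h
  · exact not_ball h h35 hind hlaw
  · exact not_ball_mid (h6.trans h0) h (hc d h0 h) hind hlaw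

end Pool.Agent.Lib.MP_edae2b_pr.SM
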