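import Pool.Agent.Lib.MP_edae2b_pr.SM.Spec

set_option autoImplicit false

/-!
# GRN: `1 / (|z|^2 + c0)` is superharmonic
-/

namespace Pool.Agent.Lib.MP_edae2b_pr.SM

open MeasureTheory ProbabilityTheory Finset

namespace GRNM

variable {D : ℕ}

lemma sq_cast (z : Fin D → ℤ) : ((sq z : ℕ) : ℝ) = ∑ j, (z j : ℝ) ^ 2 := by
  unfold sq
  rw [Nat.cast_sum]
  refine sum_congr rfl fun j _ => ?_
  rw [Nat.cast_pow, Nat.cast_natAbs, Int.cast_abs, sq_abs]

lemma sq_add (z : Fin D → ℤ) (i : Fin D) (b : Bool) :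
    ((sq (z + dv (i, b)) : ℕ) : ℝ) = sq z + 1 + 2 * (if b then 1 else -1) * (z i : ℝ) := by
  rw [sq_cast, sq_cast]
  have h1 : ∀ j, (((z + dv (i, b)) j : ℤ) : ℝ) ^ 2 - (z j : ℝ) ^ 2 =
      if j = i then 1 + 2 * (if b then 1 else -1) * (z i : ℝ) else 0 := by
    intro j
    by_cases hj : j = i
    · subst hj
      rw [if_pos rfl, Pi.add_apply, dv_self]
      cases b
      · push_cast
        simp
        ring
      · push_cast
        simp
        ring
    · rw [if_neg hj, Pi.add_apply, dv_other i j b (fun h => hj h.symm)]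
      simp
  have h2 : ∑ j, ((((z + dv (i, b)) j : ℤ) : ℝ) ^ 2 - (z j : ℝ) ^ 2) =
      1 + 2 * (if b then 1 else -1) * (z i : ℝ) := by
    rw [sum_congr rfl fun j _ => h1 j, sum_ite_eq' univ i]
    simp
  rw [sum_sub_distrib] at h2
  linarith

/-- The two neighbours in one direction. -/
lemma two_terms {N t c : ℝ} (hc : 2 ≤ c) (hN : c + 1 ≤ N) (ht : t ^ 2 ≤ N - 1 - c) :
    1 / (N + 2 * t) + 1 / (N - 2 * t) ≤ 2 / N + 8 * t ^ 2 / (N * ((N - 2) ^ 2 + 4 * c)) := by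
  have hN0 : 0 < N := by linarith
  have hM : 0 < (N - 2) ^ 2 + 4 * c := by positivity
  have hK : (N - 2) ^ 2 + 4 * c ≤ N ^ 2 - 4 * t ^ 2 := by nlinarith
  have hK0 : 0 < N ^ 2 - 4 * t ^ 2 := lt_of_lt_of_le hM hK
  have hp : 0 < (N + 2 * t) * (N - 2 * t) := by nlinarith
  have hs : 0 < (N + 2 * t) + (N - 2 * t) := by linarith
  have h1 : 0 < N + 2 * t := by
    rcases pos_and_pos_or_neg_and_neg_of_mul_pos hp with h | h
    · exact h.1
    · linarith [h.1, h.2]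
  have h2 : 0 < N - 2 * t := by
    rcases pos_and_pos_or_neg_and_neg_of_mul_pos hp with h | h
    · exact h.2
    · linarith [h.1, h.2]
  have h3 : 1 / (N + 2 * t) + 1 / (N - 2 * t) = 2 / N + 8 * t ^ 2 / (N * (N ^ 2 - 4 * t ^ 2)) := by
    have h4 : N ^ 2 - 4 * t ^ 2 = (N + 2 * t) * (N - 2 * t) := by ring
    rw [h4]
    field_simp
    ring
  rw [h3]
  gcongr

end GRNM

open GRNM in
theorem specGRN : SpecGRN := by
  intro D c z hc
  have hsq : (0 : ℝ) ≤ sq z := Nat.cast_nonneg _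
  set N : ℝ := sq z + c + 1 with hNdef
  have hN : c + 1 ≤ N := by linarith
  have hN0 : 0 < N := by linarith
  have hM : 0 < (N - 2) ^ 2 + 4 * c := by positivity
  have ht : ∀ i, (z i : ℝ) ^ 2 ≤ N - 1 - c := by
    intro i
    have h1 : (z i : ℝ) ^ 2 ≤ ∑ j, (z j : ℝ) ^ 2 :=
      single_le_sum (f := fun j => (z j : ℝ) ^ 2) (fun j _ => sq_nonneg _) (mem_univ i)
    rw [← sq_cast] at h1
    linarith
  have h1 : nb (gr c) z = ∑ i : Fin D, (1 / (N + 2 * (z i : ℝ)) + 1 / (N - 2 * (z i : ℝ))) := by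
    unfold nb
    rw [Fintype.sum_prod_type]
    refine sum_congr rfl fun i _ => ?_
    rw [Fintype.sum_bool]
    unfold gr
    rw [sq_add, sq_add]
    simp only [if_true, Bool.false_eq_true, if_false]
    congr 2
    · rw [hNdef]; ring
    · rw [hNdef]; ring
  have h2 : ∑ i : Fin D, (1 / (N + 2 * (z i : ℝ)) + 1 / (N - 2 * (z i : ℝ))) ≤
      ∑ i : Fin D, (2 / N + 8 * (z i : ℝ) ^ 2 / (N * ((N - 2) ^ 2 + 4 * c))) :=
    sum_le_sum fun i _ => two_terms hc hN (ht i)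
  have h3 : ∑ i : Fin D, (2 / N + 8 * (z i : ℝ) ^ 2 / (N * ((N - 2) ^ 2 + 4 * c))) =
      D * (2 / N) + 8 * (N - 1 - c) / (N * ((N - 2) ^ 2 + 4 * c)) := by
    rw [sum_add_distrib, sum_const, card_univ, Fintype.card_fin, nsmul_eq_mul, ← sum_div,
      ← mul_sum, ← sq_cast]
    congr 3
    rw [hNdef]; ring
  have hN1 : 0 < N - 1 := by linarith
  have h4 : 8 * (N - 1 - c) / (N * ((N - 2) ^ 2 + 4 * c)) ≤ 8 / (N * (N - 1)) := by
    rw [div_le_div_iff₀ (mul_pos hN0 hM) (mul_pos hN0 hN1)]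
    have h5 : (N - 1) * (N - 1 - c) ≤ (N - 2) ^ 2 + 4 * c := by nlinarith
    have h6 := mul_le_mul_of_nonneg_left h5 hN0.le
    nlinarith
  have h5 : 2 * (D : ℝ) * gr c z - (2 * D - 8) / ((sq z + c) * (sq z + c + 1)) =
      D * (2 / N) + 8 / (N * (N - 1)) := by
    unfold gr
    have h6 : (sq z : ℝ) + c = N - 1 := by rw [hNdef]; ring
    rw [h6]
    have h7 : N - 1 + 1 = N := by ring
    rw [h7]
    field_simp
    ring
  rw [h1, h5]
  linarith

end Pool.Agent.Lib.MP_edae2b_pr.SM
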