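import Pool.Agent.Lib.MP_edae2b_pr.Lower
import Pool.Agent.Lib.MP_edae2b_pr.SM.AxisP

/-!
# The contradiction, from a lower bound for probabilities (helper96)
-/

namespace Pool.Agent.Lib.MP_edae2b_pr.SM

open MeasureTheory ProbabilityTheory Filter Topology
open Pool.Agent.Lib.MP_edae2b_pr

lemma exp_upper_pr : Real.exp (59 / 50) ≤ 32544 / 10000 := by
  have h1 : Real.exp (59 / 100) ≤ 180399 / 100000 := by
    refine (Real.exp_bound' (by norm_num) (by norm_num) (n := 9) (by norm_num)).trans ?_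
    simp only [Finset.sum_range_succ, Finset.sum_range_zero, Nat.factorial]
    norm_num
  rw [show (59 / 50 : ℝ) = 59 / 100 + 59 / 100 by norm_num, Real.exp_add]
  calc Real.exp (59 / 100) * Real.exp (59 / 100) ≤ (180399 / 100000) * (180399 / 100000) := by
        gcongr
    _ ≤ _ := by norm_num

lemma exp_lower_pr : Real.exp (-(59 / 50)) ≤ 3073 / 10000 := by
  have h1 : (180398 / 100000 : ℝ) ≤ Real.exp (59 / 100) := by
    refine le_trans ?_ (Real.sum_le_exp_of_nonneg (by norm_num) 9)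
    simp only [Finset.sum_range_succ, Finset.sum_range_zero, Nat.factorial]
    norm_num
  have h2 : (10000 / 3073 : ℝ) ≤ Real.exp (59 / 50) := by
    rw [show (59 / 50 : ℝ) = 59 / 100 + 59 / 100 by norm_num, Real.exp_add]
    calc (10000 / 3073 : ℝ) ≤ (180398 / 100000) * (180398 / 100000) := by norm_num
      _ ≤ _ := by gcongr
  rw [Real.exp_neg]
  refine inv_le_of_inv_le₀ (by norm_num) ?_
  rw [inv_div]
  exact h2

variable {d : ℕ} {Ω : Type*} [MeasurableSpace Ω] {P : Measure Ω} [IsProbabilityMeasure P]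
  {ω : Sym2 (Fin d → ℤ) → Ω → ℝ}

/-- The contradiction, with a general parameter `θ` in the diagonal bound. -/
theorem key_pr {D : ℕ} (hD : D + 1 ≤ d) (hind : iIndepFun ω P)
    (hlaw : ∀ e, Measurable (ω e) ∧ P.map (ω e) = ex) {μ δ C s θ A B : ℝ} (hμ0 : 0 ≤ μ)
    (hδ0 : 0 < δ) (hpr : ∀ n : ℕ, δ ≤ pr (boxG (Fin (D + 1)) n) (face (Fin (D + 1)) n)
      {⟨0, zero_mem_boxF n⟩} (μ * n + C)) (hs : 0 < s) (hμs : μ ^ 2 * d < s ^ 2)
    (hθ : 0 ≤ θ) (hA : Real.exp θ ≤ A) (hB : Real.exp (-θ) ≤ B)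
    (hsl : ((d : ℝ) * A + (d - 1) * B - 1) * s < θ * d) :
    ¬ ∃ c : ℝ, ∀ x : Fin d → ℤ, ∀ᵐ t ∂P, Tendsto (fun n : ℕ =>
      Tz (gridG (Fin d)) (fun e => ω e t) 0 (n • x) / n) atTop
      (𝓝 (c * Real.sqrt (∑ i, ((x i : ℝ)) ^ 2))) := by
  rintro ⟨c, hc⟩
  have hd : 1 ≤ d := by omega
  have hd' : (1 : ℝ) ≤ d := by exact_mod_cast hd
  have : Nonempty (Fin d) := ⟨⟨0, by omega⟩⟩
  have hA1 : 1 ≤ A := le_trans (Real.one_le_exp hθ) hA
  have hB0 : 0 < B := lt_of_lt_of_le (Real.exp_pos _) hB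
  have hAB : 2 ≤ A + B := by
    have h1 := Real.one_le_cosh θ
    rw [Real.cosh_eq] at h1
    linarith
  have hlam : 0 < (d : ℝ) * A + (d - 1) * B - 1 := by
    rcases eq_or_lt_of_le hd with h | h
    · have hdr : (d : ℝ) = 1 := by exact_mod_cast h.symm
      rw [hdr] at hsl ⊢
      by_contra hcon
      push Not at hcon
      have hA2 : A = 1 := by linarith
      have hθ0 : θ = 0 := by
        have h3 : Real.exp θ ≤ 1 := hA2 ▸ hA
        rw [← Real.exp_zero, Real.exp_le_exp] at h3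
        linarith
      rw [hA2, hθ0] at hsl
      norm_num at hsl
    · have hd2 : (2 : ℝ) ≤ d := by exact_mod_cast h
      nlinarith
  have h1 : s ≤ c * Real.sqrt d := by
    refine diag_lower (ι := Fin d) hind hlaw (θ := θ)
      (lam := (d : ℝ) * A + (d - 1) * B - 1) hθ hlam ?_ hs ?_ ?_
    · rw [Fintype.card_fin, Real.cosh_eq]
      have h4 : (d : ℝ) * Real.exp θ ≤ d * A :=
        mul_le_mul_of_nonneg_left hA (by linarith)
      have h5 : ((d : ℝ) - 1) * Real.exp (-θ) ≤ (d - 1) * B :=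
        mul_le_mul_of_nonneg_left hB (by linarith)
      linarith
    · rw [Fintype.card_fin]
      exact hsl
    · have h2 := hc 1
      have h3 : ∑ i : Fin d, (((1 : Fin d → ℤ) i : ℤ) : ℝ) ^ 2 = d := by simp
      rw [h3] at h2
      exact h2
  have hsq : 0 < Real.sqrt d := Real.sqrt_pos.mpr (by linarith)
  have hc0 : 0 < c := by
    by_contra hcon
    push Not at hcon
    have := mul_nonpos_of_nonpos_of_nonneg hcon hsq.le
    linarith
  have h2 := axis_upper_pr hD hind hlaw hμ0 hδ0 hpr hc0.le hc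
  have h3 : μ * Real.sqrt d < s := by
    refine lt_of_pow_lt_pow_left₀ 2 hs.le ?_
    rw [mul_pow, Real.sq_sqrt (by linarith)]
    exact hμs
  have h4 : c * Real.sqrt d ≤ μ * Real.sqrt d := mul_le_mul_of_nonneg_right h2 hsq.le
  linarith

/-- The contradiction with `θ = 59 / 50`. -/
theorem key_pr' {D : ℕ} (hD : D + 1 ≤ d) (hind : iIndepFun ω P)
    (hlaw : ∀ e, Measurable (ω e) ∧ P.map (ω e) = ex) {μ δ C s : ℝ} (hμ0 : 0 ≤ μ)
    (hδ0 : 0 < δ) (hpr : ∀ n : ℕ, δ ≤ pr (boxG (Fin (D + 1)) n) (face (Fin (D + 1)) n)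
      {⟨0, zero_mem_boxF n⟩} (μ * n + C)) (hs : 0 < s) (hμs : μ ^ 2 * d < s ^ 2)
    (hsl : ((d : ℝ) * (32544 / 10000) + (d - 1) * (3073 / 10000) - 1) * s < 59 / 50 * d) :
    ¬ ∃ c : ℝ, ∀ x : Fin d → ℤ, ∀ᵐ t ∂P, Tendsto (fun n : ℕ =>
      Tz (gridG (Fin d)) (fun e => ω e t) 0 (n • x) / n) atTop
      (𝓝 (c * Real.sqrt (∑ i, ((x i : ℝ)) ^ 2))) :=
  key_pr hD hind hlaw hμ0 hδ0 hpr hs hμs (by norm_num) exp_upper_pr exp_lower_pr hsl

end Pool.Agent.Lib.MP_edae2b_pr.SM
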