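import Pool.Agent.Lib.MP_edae2b_pr.SM.MaiP
import Pool.Agent.Lib.MP_edae2b_pr.SM.DiagNB

/-!
# From a certificate to the limit shape, with the non-backtracking diagonal bound (helper96)
-/

namespace Pool.Agent.Lib.MP_edae2b_pr.SM

open MeasureTheory ProbabilityTheory Filter Topology
open Pool.Agent.Lib.MP_edae2b_pr

variable {d : ℕ} {Ω : Type*} [MeasurableSpace Ω] {P : Measure Ω} [IsProbabilityMeasure P]
  {ω : Sym2 (Fin d → ℤ) → Ω → ℝ}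

/-- A certificate refutes the Euclidean ball, with an arbitrary diagonal bound. -/
theorem not_ball_of_cer_gen {D : ℕ} {μ₀ s : ℝ} (h : HasCer D μ₀) (hD : D + 1 ≤ d)
    (hind : iIndepFun ω P) (hlaw : ∀ e, Measurable (ω e) ∧ P.map (ω e) = ex) (hs : 0 < s)
    (hμs : μ₀ ^ 2 * d < s ^ 2)
    (hdiag : ∀ L : ℝ, (∀ᵐ t ∂P, Tendsto (fun n : ℕ => Tz (gridG (Fin d)) (fun e => ω e t) 0
      (n • (1 : Fin d → ℤ)) / n) atTop (𝓝 L)) → s ≤ L) :
    ¬ ∃ c : ℝ, ∀ x : Fin d → ℤ, ∀ᵐ t ∂P, Tendsto (fun n : ℕ =>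
      Tz (gridG (Fin d)) (fun e => ω e t) 0 (n • x) / n) atTop
      (𝓝 (c * Real.sqrt (∑ i, ((x i : ℝ)) ^ 2))) := by
  rintro ⟨c, hc⟩
  obtain ⟨K, J, m, s', f, ρ, kS, kF, ε, w, hcer, hJm⟩ := h
  have hJ := hcer.J_pos
  have hK := hcer.K_pos
  have hm := hcer.m_pos
  have hμ : 0 ≤ (J : ℝ) * m := by positivity
  have hw : 1 ≤ w 0 1 1 0 := hcer.one_le 0 1 1 0 (by omega) le_rfl hK le_rfl hK
  have hδ : 0 < 1 / w 0 1 1 0 := by positivity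
  have hd' : (1 : ℝ) ≤ d := by
    have : 1 ≤ d := by omega
    exact_mod_cast this
  have h1 : s ≤ c * Real.sqrt d := by
    refine hdiag _ ?_
    have h2 := hc 1
    have h3 : ∑ i : Fin d, (((1 : Fin d → ℤ) i : ℤ) : ℝ) ^ 2 = d := by simp
    rw [h3] at h2
    exact h2
  have hsq : 0 < Real.sqrt d := Real.sqrt_pos.mpr (by linarith)
  have hc0 : 0 < c := by
    by_contra hcon
    push Not at hcon
    have := mul_nonpos_of_nonpos_of_nonneg hcon hsq.le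
    linarith
  have h2 : c ≤ J * m := by
    refine axis_upper_pr (μ := J * m) (δ := 1 / w 0 1 1 0) (C := ((K - 1 : ℕ) : ℝ) * J * m) hD
      hind hlaw hμ hδ (fun n => ?_) hc0.le hc
    have h1 := hcer.pr_ge n
    have h2 : (((n + K - 1) * J : ℕ) : ℝ) * m = J * m * n + ((K - 1 : ℕ) : ℝ) * J * m := by
      rw [Nat.add_sub_assoc hK]
      push_cast
      ring
    rwa [h2] at h1
  have h3 : μ₀ * Real.sqrt d < s := by
    refine lt_of_pow_lt_pow_left₀ 2 hs.le ?_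
    rw [mul_pow, Real.sq_sqrt (by linarith)]
    exact hμs
  have h4 : c * Real.sqrt d ≤ μ₀ * Real.sqrt d :=
    mul_le_mul_of_nonneg_right (h2.trans hJm) hsq.le
  linarith

/-- The same with the non-backtracking diagonal bound. -/
theorem not_ball_of_cer_nb {D : ℕ} {μ₀ : ℝ} (h : HasCer D μ₀) (hD : D + 1 = d) (h6 : 6 ≤ d)
    (h13 : d ≤ 13) (hind : iIndepFun ω P) (hlaw : ∀ e, Measurable (ω e) ∧ P.map (ω e) = ex)
    (hs : 0 < sNB d) (hμs : μ₀ ^ 2 * d < sNB d ^ 2) :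
    ¬ ∃ c : ℝ, ∀ x : Fin d → ℤ, ∀ᵐ t ∂P, Tendsto (fun n : ℕ =>
      Tz (gridG (Fin d)) (fun e => ω e t) 0 (n • x) / n) atTop
      (𝓝 (c * Real.sqrt (∑ i, ((x i : ℝ)) ^ 2))) :=
  not_ball_of_cer_gen h hD.le hind hlaw hs hμs
    (fun _ hL => diag_lower_num h6 h13 hind hlaw hL)

/-- Dimension 6. -/
lemma nb_6 (h : HasCer 5 (14597 / 100000)) (hd : d = 6) (hind : iIndepFun ω P)
    (hlaw : ∀ e, Measurable (ω e) ∧ P.map (ω e) = ex) :
    ¬ ∃ c : ℝ, ∀ x : Fin d → ℤ, ∀ᵐ t ∂P, Tendsto (fun n : ℕ =>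
      Tz (gridG (Fin d)) (fun e => ω e t) 0 (n • x) / n) atTop
      (𝓝 (c * Real.sqrt (∑ i, ((x i : ℝ)) ^ 2))) := by
  subst hd
  exact not_ball_of_cer_nb h rfl (by norm_num) (by norm_num) hind hlaw (by norm_num [sNB])
    (by norm_num [sNB])

/-- Dimension 7. -/
lemma nb_7 (h : HasCer 6 (13361 / 100000)) (hd : d = 7) (hind : iIndepFun ω P)
    (hlaw : ∀ e, Measurable (ω e) ∧ P.map (ω e) = ex) :
    ¬ ∃ c : ℝ, ∀ x : Fin d → ℤ, ∀ᵐ t ∂P, Tendsto (fun n : ℕ =>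
      Tz (gridG (Fin d)) (fun e => ω e t) 0 (n • x) / n) atTop
      (𝓝 (c * Real.sqrt (∑ i, ((x i : ℝ)) ^ 2))) := by
  subst hd
  exact not_ball_of_cer_nb h rfl (by norm_num) (by norm_num) hind hlaw (by norm_num [sNB])
    (by norm_num [sNB])

/-- Dimension 8. -/
lemma nb_8 (h : HasCer 7 (12389 / 100000)) (hd : d = 8) (hind : iIndepFun ω P)
    (hlaw : ∀ e, Measurable (ω e) ∧ P.map (ω e) = ex) :
    ¬ ∃ c : ℝ, ∀ x : Fin d → ℤ, ∀ᵐ t ∂P, Tendsto (fun n : ℕ =>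
      Tz (gridG (Fin d)) (fun e => ω e t) 0 (n • x) / n) atTop
      (𝓝 (c * Real.sqrt (∑ i, ((x i : ℝ)) ^ 2))) := by
  subst hd
  exact not_ball_of_cer_nb h rfl (by norm_num) (by norm_num) hind hlaw (by norm_num [sNB])
    (by norm_num [sNB])

/-- Dimension 9. -/
lemma nb_9 (h : HasCer 8 (11604 / 100000)) (hd : d = 9) (hind : iIndepFun ω P)
    (hlaw : ∀ e, Measurable (ω e) ∧ P.map (ω e) = ex) :
    ¬ ∃ c : ℝ, ∀ x : Fin d → ℤ, ∀ᵐ t ∂P, Tendsto (fun n : ℕ =>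
      Tz (gridG (Fin d)) (fun e => ω e t) 0 (n • x) / n) atTop
      (𝓝 (c * Real.sqrt (∑ i, ((x i : ℝ)) ^ 2))) := by
  subst hd
  exact not_ball_of_cer_nb h rfl (by norm_num) (by norm_num) hind hlaw (by norm_num [sNB])
    (by norm_num [sNB])

/-- Dimension 10. -/
lemma nb_10 (h : HasCer 9 (10953 / 100000)) (hd : d = 10) (hind : iIndepFun ω P)
    (hlaw : ∀ e, Measurable (ω e) ∧ P.map (ω e) = ex) :
    ¬ ∃ c : ℝ, ∀ x : Fin d → ℤ, ∀ᵐ t ∂P, Tendsto (fun n : ℕ =>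
      Tz (gridG (Fin d)) (fun e => ω e t) 0 (n • x) / n) atTop
      (𝓝 (c * Real.sqrt (∑ i, ((x i : ℝ)) ^ 2))) := by
  subst hd
  exact not_ball_of_cer_nb h rfl (by norm_num) (by norm_num) hind hlaw (by norm_num [sNB])
    (by norm_num [sNB])

/-- Dimension 11. -/
lemma nb_11 (h : HasCer 10 (10394 / 100000)) (hd : d = 11) (hind : iIndepFun ω P)
    (hlaw : ∀ e, Measurable (ω e) ∧ P.map (ω e) = ex) :
    ¬ ∃ c : ℝ, ∀ x : Fin d → ℤ, ∀ᵐ t ∂P, Tendsto (fun n : ℕ =>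
      Tz (gridG (Fin d)) (fun e => ω e t) 0 (n • x) / n) atTop
      (𝓝 (c * Real.sqrt (∑ i, ((x i : ℝ)) ^ 2))) := by
  subst hd
  exact not_ball_of_cer_nb h rfl (by norm_num) (by norm_num) hind hlaw (by norm_num [sNB])
    (by norm_num [sNB])

/-- Dimension 12. -/
lemma nb_12 (h : HasCer 11 (9920 / 100000)) (hd : d = 12) (hind : iIndepFun ω P)
    (hlaw : ∀ e, Measurable (ω e) ∧ P.map (ω e) = ex) :
    ¬ ∃ c : ℝ, ∀ x : Fin d → ℤ, ∀ᵐ t ∂P, Tendsto (fun n : ℕ =>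
      Tz (gridG (Fin d)) (fun e => ω e t) 0 (n • x) / n) atTop
      (𝓝 (c * Real.sqrt (∑ i, ((x i : ℝ)) ^ 2))) := by
  subst hd
  exact not_ball_of_cer_nb h rfl (by norm_num) (by norm_num) hind hlaw (by norm_num [sNB])
    (by norm_num [sNB])

/-- Dimension 13. -/
lemma nb_13 (h : HasCer 12 (9499 / 100000)) (hd : d = 13) (hind : iIndepFun ω P)
    (hlaw : ∀ e, Measurable (ω e) ∧ P.map (ω e) = ex) :
    ¬ ∃ c : ℝ, ∀ x : Fin d → ℤ, ∀ᵐ t ∂P, Tendsto (fun n : ℕ =>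
      Tz (gridG (Fin d)) (fun e => ω e t) 0 (n • x) / n) atTop
      (𝓝 (c * Real.sqrt (∑ i, ((x i : ℝ)) ^ 2))) := by
  subst hd
  exact not_ball_of_cer_nb h rfl (by norm_num) (by norm_num) hind hlaw (by norm_num [sNB])
    (by norm_num [sNB])

end Pool.Agent.Lib.MP_edae2b_pr.SM
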