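import Pool.Agent.Lib.MP_edae2b_pr.SM.Defs

set_option autoImplicit false

/-!
# MP_edae2b_pr: a second moment method for the axis direction, specifications (helper53)

TARGET: the limit shape of the Eden model is not a Euclidean ball for `9 ≤ d ≤ 34` (landed:
`14 ≤ d ≤ 34`, `not_ball`). Only the upper bound for the time constant in the axis direction is new.

IDEA. Let `p = 1 - e^{-δ}`. In a step of duration `δ` every boundary edge of the infected set `S` opens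
with probability `p`, independently (STP). Put masses `y ≥ 0` on infected alive sites; in one step the
mass `y v` is divided: `q v v y v` stays, and to each neighbour `u` goes `q v u y v ξ / p` (`ξ` = the
edge opens; if `u ∈ S` then `q v u y v`). Cauchy-Schwarz and induction over the number `j` of the
remaining steps give (CAP): `(∑ y)^2 ≤ FF S (j δ) * ∑ W j v w y v y w`.
`Cert` is a finite certificate for a window of `K` layers which moves one layer in `J` steps; `W` is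
`1 + ε / (|z|^2 + c0) + T`, `T` a table with `T = 0` for `|z|_1 > M`.

Module `XXX` = file `SM/XXX.lean`, `import Pool.Agent.Lib.MP_edae2b_pr.SM.Spec`, namespace
`Pool.Agent.Lib.MP_edae2b_pr.SM`, own lemmas in the namespace `...SM.XXXM`, theorem
`specXXX (hYYY : SpecYYY) .. : SpecXXX`; any Spec may be a hypothesis. Lemmas of `Shift.lean`,
`Walks.lean`, `Bellman.lean`, `Grid.lean`, `Axis.lean`, `Lower.lean`, `Upper.lean` may be used.
-/

namespace Pool.Agent.Lib.MP_edae2b_pr.SM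

open MeasureTheory ProbabilityTheory Finset Filter Topology

/-! ## Part 1: probability on a finite graph -/

/-- BER [80 lines]. Bernoulli sums.

Proof. Induction over `B` (`Finset.sum_powerset_insert`), each of the three in turn; or: (1) is
`Finset.sum_pow_mul_eq_add_pow`-like, (2), (3) by `R = insert e R'`. -/
def SpecBER : Prop := ∀ (β : Type) [DecidableEq β] (B : Finset β) (p : ℝ) (a b : β → ℝ),
  (∑ R ∈ B.powerset, bw p B R = 1) ∧
  (∑ R ∈ B.powerset, bw p B R * ∑ e ∈ R, a e = p * ∑ e ∈ B, a e) ∧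
  (∑ R ∈ B.powerset, bw p B R * ((∑ e ∈ R, a e) * ∑ e ∈ R, b e) =
    (p * ∑ e ∈ B, a e) * (p * ∑ e ∈ B, b e) + (p - p ^ 2) * ∑ e ∈ B, a e * b e)

/-- STP [150 lines]. The memoryless step.

Proof. Let `B = bdE G S` (edges; `bd_injOn`, `card_bdE`: the pairs of `bd G S` and the edges
correspond), `m = δ`. For `R ⊆ bd G S` with edges `R'` let
`E_R = {w | w e ≤ m for e ∈ R', m < w e for e ∈ B ∖ R'}`; these events are disjoint. `lintegral_sh` for
`B ∖ R'` and `f w = 1 {w e ≤ m, e ∈ R'} 1 {pt S w ≤ τ + m}`: the integral over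
`{m < w e, e ∈ B ∖ R'}` is `e^{-m |B ∖ R'|} ∫ f (sh (B ∖ R') m w)`. If `w e ≤ m` for `e ∈ R'` and
`pt (S ∪ R.image snd) w ≤ τ`, then `pt S (sh (B ∖ R') m w) ≤ τ + m` (WLK). So
`∫ f (sh ..) ≥ ∫ 1 {w e ≤ m, e ∈ R'} 1 {pt (S ∪ ..) w ≤ τ} = (1 - e^{-m})^|R'| FF (S ∪ ..) τ`:
`lintegral_indep` for one edge of `R'` after the other (the function
`1 {w e ≤ m, e ∈ R''} 1 {pt (S ∪ ..) w ≤ τ}` is invariant under `sh {e} m` for `e ∈ R' ∖ R''`, because
`e` has both ends in `S ∪ R.image snd`, `pt_congr_inside`). Sum over `R`. -/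
def SpecSTP : Prop := ∀ (V : Type) [Fintype V] [DecidableEq V] (G : SimpleGraph V)
  [DecidableRel G.Adj] (A : Set V) (S : Finset V) (δ τ : ℝ), 0 < δ → 0 ≤ τ →
  ∑ R ∈ (bd G S).powerset, bw (1 - Real.exp (-δ)) (bd G S) R * FF G A (S ∪ R.image Prod.snd) τ ≤
    FF G A S (τ + δ)

/-- WLK [60 lines]. The deterministic part of STP.

Proof. As `pt_le_add`, by induction over a walk `p` from `S ∪ U` to `A`: claim
`pt G A S c' ≤ m + cost c p ∨ (u ∉ S ∪ U ∧ cost c' p ≤ cost c p)` for every walk from `u`. `cons h q`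
from `x` to `y`: if the first alternative holds for `q`, it holds for the whole. Otherwise
`y ∉ S ∪ U`, `cost c' q ≤ cost c q`. If `x ∉ S ∪ U`: the edge has `c' ≤ c`, second alternative. If `x ∈ S`:
`pt S c' ≤ c' (x y) + cost c' q ≤ (c (x y) + m) + cost c q`. If `x ∈ U ∖ S`: `c' (x y) ≤ c (x y)`, and by
`hU` there is a `z ∈ S`, adjacent to `x`, `c' (z x) ≤ m`, so
`pt S c' ≤ c' (z x) + c' (x y) + cost c' q ≤ m + cost c p`. For `nil` at `a ∈ A`: if `a ∈ S`: `pt = 0`; if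
`a ∈ U ∖ S`: `pt S c' ≤ c' (z a) ≤ m`. -/
def SpecWLK : Prop := ∀ (V : Type) (G : SimpleGraph V) (A S U : Set V)
  (c c' : Sym2 V → ENNReal) (m : ENNReal),
  (∀ x y, G.Adj x y → x ∈ S → y ∉ S → y ∉ U → c' s(x, y) ≤ c s(x, y) + m) →
  (∀ x y, G.Adj x y → x ∉ S → y ∉ S → c' s(x, y) ≤ c s(x, y)) →
  (∀ x ∈ U, x ∉ S → ∃ z ∈ S, G.Adj z x ∧ c' s(z, x) ≤ m) →
  pt G A S c' ≤ pt G A (S ∪ U) c + m

/-- CAP [200 lines]. The second moment inequality (BER, STP).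

Proof. Induction over `j`. `FF ≥ 0`; if `S` meets `A` then `pt = 0` and `FF = 1`, and
`(∑ y)^2 ≤ ∑∑ W y y` by `Wone`. `j = 0`: `y = 0` or `S` meets `A` (`fin`). Step `j → j + 1`, `S` disjoint
from `A`: let `B = bd G S`, `p = 1 - e^{-δ}`. For `R ⊆ B` put
`y_R u = ∑_v y v * (if u = v ∨ u ∈ S then q j v u else if (v, u) ∈ R then q j v u / p else 0)`.
`y_R ≥ 0`, `y_R u ≠ 0` implies `u ∈ S ∪ R.image snd` and `u ∈ L j` (`alive`). By induction
`X_R^2 ≤ F_R * Y_R`, `F_R = FF (S ∪ R.image snd) (j δ)`, `X_R = ∑ y_R`, `Y_R = ∑∑ W j y_R y_R ≥ 0` (terms with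
`y_R v y_R w ≠ 0` have `W ≥ 1`). Cauchy-Schwarz with the weights `bw p B R ≥ 0`:
`(∑ bw X_R)^2 ≤ (∑ bw F_R) (∑ bw Y_R)` and `∑ bw F_R ≤ FF S ((j + 1) δ)` (STP).
`y_R = y_0 + ∑_{e ∈ R} c_e` with `c_(v,u') u = y v q j v u' / p` for `u = u'` and `0` otherwise. By BER:
`∑ bw y_R u = m u := ∑_v y v q j v u` (if `u ∉ S`, `y v ≠ 0`, `q j v u ≠ 0` then `(v, u) ∈ B` by `adj`), so
`∑ bw X_R = ∑_v y v ∑_u q j v u = ∑ y` (`one`). Also by BER
`∑ bw Y_R = ∑∑ W j u u' m u m u' + (p - p^2) ∑_{(v,u) ∈ B} (y v q j v u / p)^2 W j u u`, and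
`(p - p^2) / p^2 = (1 - p) / p ≤ c`, so `∑ bw Y_R ≤ ∑_{v,w} y v y w (∑∑ q q W) +
∑_v (y v)^2 c ∑_{u ≠ v} q j v u ^ 2 W j u u ≤ ∑∑ W (j + 1) v w y v y w` (`step`; `(v, u) ∈ B` has `u ≠ v`;
`W j u u ≥ 1 > 0` if `q j v u ≠ 0`). -/
def SpecCAP : Prop := ∀ (V : Type) [Fintype V] [DecidableEq V] (G : SimpleGraph V)
  [DecidableRel G.Adj] (A : Set V) (c δ : ℝ) (L : ℕ → Set V) (q : ℕ → V → V → ℝ)
  (W : ℕ → V → V → ℝ), Sys G A c L q W → 0 < δ → Real.exp (-δ) ≤ c * (1 - Real.exp (-δ)) →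
  ∀ (j : ℕ) (S : Finset V) (y : V → ℝ), (∀ v, 0 ≤ y v) → (∀ v, y v ≠ 0 → v ∈ S ∧ v ∈ L j) →
  (∑ v, y v) ^ 2 ≤ FF G A S (j * δ) * ∑ v, ∑ w, W j v w * (y v * y w)

/-! ## Part 2: the lattice -/

/-- GRN [80 lines]. `1 / (|z|^2 + c0)` is superharmonic.

Proof. `N = sq z + c0 + 1`. `sq (z ± e_i) + c0 = N ± 2 z_i > 0`.
`1 / (N + 2 z_i) + 1 / (N - 2 z_i) = 2 N / (N^2 - 4 z_i^2) = 2 / N + 8 z_i^2 / (N (N^2 - 4 z_i^2))` and
`N^2 - 4 z_i^2 ≥ N^2 - 4 (N - 1 - c0) = (N - 2)^2 + 4 c0 > 0`. Sum over `i`: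
`nb g z ≤ 2 D / N + 8 (N - 1 - c0) / (N ((N - 2)^2 + 4 c0))`, and
`(N - 1) (N - 1 - c0) ≤ (N - 2)^2 + 4 c0` for `c0 ≥ 2` (`N ≥ 0`), so the last term is at most
`8 / (N (N - 1))`; `2 D / N = 2 D / (N - 1) - 2 D / (N (N - 1))`. -/
def SpecGRN : Prop := ∀ (D : ℕ) (c0 : ℝ) (z : Fin D → ℤ), 2 ≤ c0 →
  nb (gr c0) z ≤ 2 * D * gr c0 z - (2 * D - 8) / ((sq z + c0) * (sq z + c0 + 1))

/-- NBT [60 lines]. The sum over the neighbours of a decreasing function of the `ℓ¹` norm.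

Proof. If `z_i ≠ 0` then one of `nn (z ± e_i)` is `nn z - 1` and the other `nn z + 1`; if `z_i = 0`
both are `nn z + 1`. So the sum is `σ T (m - 1) + (2 D - σ) T (m + 1)`, `σ = #{i | z_i ≠ 0} ≤ min m D`. -/
def SpecNBT : Prop := ∀ (D : ℕ) (T : ℕ → ℝ) (z : Fin D → ℤ), Antitone T →
  nb (fun x => T (nn x)) z ≤ BB1 D T (nn z)

/-- AAN [60 lines]. Properties of `A1`.

Proof. `A1 D θ T m - A1 D θ T (m + 1)`: for `m < D` it is
`(1 - θ) t + θ / (2 D) (m (T (m - 1) - T m) + (2 D - m - 1) (T (m + 1) - T (m + 2)) - t)`, `t = T m - T (m + 1)`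
(for `m = 0` the first term is zero); for `m ≥ D`:
`(1 - θ) t + θ / (2 D) (D (T (m - 1) - T m) + D (T (m + 1) - T (m + 2)))`. -/
def SpecAAN : Prop := ∀ (D : ℕ) (θ : ℝ) (T : ℕ → ℝ), 1 ≤ D → 0 ≤ θ → θ * (2 * D + 1) ≤ 2 * D →
  Antitone T → (∀ m, 0 ≤ T m) → Antitone (A1 D θ T) ∧ (∀ m, 0 ≤ A1 D θ T m) ∧
    ∀ M, (∀ m, M < m → T m = 0) → ∀ m, M + 1 < m → A1 D θ T m = 0

/-- QSM [100 lines]. The sum over one step of the walk.

Proof. `v ∉ face`: all `v + dv δ` are in the box (proof of `le_sum_bd`). Each of the `2 D + 2` indicator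
sums has exactly one term. -/
def SpecQSM : Prop := ∀ (D n K J : ℕ) (θ : ℝ) (f : ℕ → ℕ → ℝ) (j : ℕ)
  (v : boxF (Fin (D + 1)) n) (F : (Fin (D + 1) → ℤ) → ℝ), v ∉ face (Fin (D + 1)) n →
  ∑ u, qq D n K J θ f j v u * F u.1 =
    f (la n K (j / J) v.1).toNat (j % J) * F (v.1 + dv ((0 : Fin (D + 1)), true)) +
    (1 - f (la n K (j / J) v.1).toNat (j % J)) * ((1 - θ) * F v.1 +
      θ / (2 * D) * ∑ δ : Fin D × Bool, F (v.1 + dv (δ.1.succ, δ.2)))

/-- SRC [80 lines]. The source term (QSM or directly).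

Proof. As QSM: for `u ≠ v` exactly one of the indicators can be nonzero, so
`q^2` is the sum of the squares. -/
def SpecSRC : Prop := ∀ (D n K J : ℕ) (θ : ℝ) (f : ℕ → ℕ → ℝ) (j : ℕ)
  (v : boxF (Fin (D + 1)) n) (F : (Fin (D + 1) → ℤ) → ℝ), v ∉ face (Fin (D + 1)) n →
  ∑ u ∈ univ.erase v, qq D n K J θ f j v u ^ 2 * F u.1 =
    f (la n K (j / J) v.1).toNat (j % J) ^ 2 * F (v.1 + dv ((0 : Fin (D + 1)), true)) +
    ((1 - f (la n K (j / J) v.1).toNat (j % J)) * (θ / (2 * D))) ^ 2 *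
      ∑ δ : Fin D × Bool, F (v.1 + dv (δ.1.succ, δ.2))

/-- PAI [200 lines]. One step of the equation of pairs (QSM, GRN, NBT, AAN).

Proof. Put `i = j / J`, `r = j % J`, `a`, `b` the layers of `v`, `w`, `z = tz v w`,
`Φ a b z = 1 + ε gr z + T r a b (nn z)`. Moves: `tz (v + dv (δ.1.succ, δ.2)) w = z + dv δ`,
`tz v (w + dv (δ.1.succ, δ.2)) = z - dv δ = z + dv (δ.1, !δ.2)` (so again the sum over all neighbours), a
forward move changes only the layer: `a → a - 1` (`(la ..).toNat`, `1 ≤ la`). By QSM (twice) the double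
sum is `(1 - fa) (1 - fb) H (H (Φ a b)) z + fa (1 - fb) H (Φ (a - 1) b) z + (1 - fa) fb H (Φ a (b - 1)) z +
fa fb Φ (a - 1) (b - 1) z`, `H φ z = (1 - θ) φ z + θ / (2 D) nb φ z` (monotone, linear, `H 1 = 1`). For
`T`: `H (T (nn ·)) ≤ A1 T (nn ·)` (NBT), and twice by AAN: gives `PT`. For `g = gr c0`: GRN gives
`H g ≤ g - θ / (2 D) e`, `e z = (2 D - 8) / ((sq z + c0) (sq z + c0 + 1)) ≥ 0`, so `H (H g) ≤ H g ≤
g - θ / (2 D) e`. (For `a = 1` the layer `a - 1 = 0` has the coefficient `fa = 0`; if `la v = 1` and `fa = 0`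
nothing is to be shown about the forward term.) -/
def SpecPAI : Prop := ∀ (D K J M n : ℕ) (θ ε c0 c : ℝ) (f : ℕ → ℕ → ℝ)
  (T : ℕ → ℕ → ℕ → ℕ → ℝ), Cert D K J M θ ε c0 c f T → ∀ (j : ℕ) (v w : boxF (Fin (D + 1)) n),
  v ∉ face (Fin (D + 1)) n → w ∉ face (Fin (D + 1)) n →
  1 ≤ la n K (j / J) v.1 → 1 ≤ la n K (j / J) w.1 →
  ∑ v', ∑ w', qq D n K J θ f j v v' * qq D n K J θ f j w w' * WW D n K J ε c0 T j v' w' ≤
    1 + ε * (gr c0 (tz v.1 w.1) - (1 - f (la n K (j / J) v.1).toNat (j % J) *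
      f (la n K (j / J) w.1).toNat (j % J)) * (θ / (2 * D)) * ((2 * D - 8) /
        ((sq (tz v.1 w.1) + c0) * (sq (tz v.1 w.1) + c0 + 1)))) +
    PT D θ f T (j % J) (la n K (j / J) v.1).toNat (la n K (j / J) w.1).toNat (nn (tz v.1 w.1))

/-- GRD [200 lines]. The certificate gives a system (PAI, SRC, QSM, AAN).

Proof. `i = j / J`, `r = j % J`, `a = la n K i v`. `v ∈ LL (j + 1)`: if `r + 1 < J` then `(j + 1) / J = i`,
`(j + 1) % J = r + 1`, `1 ≤ a ≤ K`; if `r + 1 = J` then `(j + 1) / J = i + 1`, `(j + 1) % J = 0`, the layer is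
`a - 1` and `2 ≤ a ≤ K`. `fin`: `la < K` gives `v 0 ≥ n`, so `|v 0| = n`. `qnn`: `0 ≤ f ≤ 1`, `0 ≤ θ ≤ 1`. `adj`:
`grid_adj_iff`. `alive`: stay or inside the layer: `1 - f a r ≠ 0`, so not (`r = 0`, `a = K`) (`fbot`);
forward: `f a r ≠ 0`, so `2 ≤ a` (`ftop`). `one`: QSM with `F = 1`. `Wone`: clear. `step`: PAI, and SRC if
`v = w` (`tz = 0`, `gr = 1 / c0`, `nn = 0`; the layers of `v + dv ..`). Let `m = nn z`. If `m ≤ M`: `Cert.step`
(`v = w` iff `a = b` and `m = 0`), the decrease of `gr` is dropped (`2 D ≥ 8`). If `m = M + 1, M + 2`: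
`sq z ≤ m ^ 2 ≤ (M + 2) ^ 2`, so the decrease of `ε gr` is at least `ε θ / (2 D) eta (1 - fa fb)`: `Cert.out`,
and `T (r + 1) .. ≥ 0`. If `m > M + 2`: `PT = 0` (AAN, `zero`). If `r + 1 = J` use `close` with `a - 1`, `b - 1`. -/
def SpecGRD : Prop := ∀ (D K J M n : ℕ) (θ ε c0 c : ℝ) (f : ℕ → ℕ → ℝ)
  (T : ℕ → ℕ → ℕ → ℕ → ℝ), Cert D K J M θ ε c0 c f T →
  Sys (boxG (Fin (D + 1)) n) (face (Fin (D + 1)) n) c (LL D n K J) (qq D n K J θ f)
    (WW D n K J ε c0 T)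

/-- BOX [50 lines]. The lower bound for the probability (CAP, GRD).

Proof. `j = (n + K - 2) * J`, `y = 1` at the origin: it is in the layer `1`; `WW = 1 + ε / c0 + T 0 1 1 0`. -/
def SpecBOX : Prop := ∀ (D K J M : ℕ) (θ ε c0 c δ : ℝ) (f : ℕ → ℕ → ℝ)
  (T : ℕ → ℕ → ℕ → ℕ → ℝ), Cert D K J M θ ε c0 c f T → 0 < δ →
  Real.exp (-δ) ≤ c * (1 - Real.exp (-δ)) → ∀ (n : ℕ) (o : boxF (Fin (D + 1)) n), o.1 = 0 →
  1 ≤ FF (boxG (Fin (D + 1)) n) (face (Fin (D + 1)) n) {o} (J * δ * (n + K)) *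
    (1 + ε / c0 + T 0 1 1 0)

/-! ## Part 3: the limit shape -/

/-- AXU [250 lines]. The upper bound for the time constant from a lower bound for the probability.

Proof. Copy of `axis_upper` (`Upper.lean`) with `P (AA ..) ≥ κ` instead of `AA_compl_le`: the law of the
restricted weights is `pex` (`law_map`, as in `AA_compl_le`), so
`P (AA ω D n ((μ + ε) n)) ≥ FF (boxG ..) (face ..) {0} (μ (n + C)) ≥ κ` as soon as
`μ (n + C) < (μ + ε) n`, i.e. for all large `n`; take `δ = min κ 1`. -/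
def SpecAXU : Prop := ∀ (d D : ℕ) (Ω : Type) [MeasurableSpace Ω] (P : Measure Ω)
  [IsProbabilityMeasure P] (ω : Sym2 (Fin d → ℤ) → Ω → ℝ) (μ C κ c : ℝ), D + 1 ≤ d →
  iIndepFun ω P → (∀ e, Measurable (ω e) ∧ P.map (ω e) = ex) → 0 ≤ μ → 0 < κ →
  (∀ (n : ℕ) (o : boxF (Fin (D + 1)) n), o.1 = 0 →
    κ ≤ FF (boxG (Fin (D + 1)) n) (face (Fin (D + 1)) n) {o} (μ * (n + C))) →
  0 ≤ c → (∀ x : Fin d → ℤ, ∀ᵐ t ∂P, Tendsto (fun n : ℕ =>
    Tz (gridG (Fin d)) (fun e => ω e t) 0 (n • x) / n) atTop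
      (𝓝 (c * Real.sqrt (∑ i, ((x i : ℝ)) ^ 2)))) → c ≤ μ

/-- There is a certificate with period `μ = J δ`. -/
def HasCert (D : ℕ) (μ : ℝ) : Prop := ∃ (K J M : ℕ) (θ ε c0 c δ : ℝ) (f : ℕ → ℕ → ℝ)
  (T : ℕ → ℕ → ℕ → ℕ → ℝ), 0 < δ ∧ Real.exp (-δ) ≤ c * (1 - Real.exp (-δ)) ∧ μ = J * δ ∧
    Cert D K J M θ ε c0 c f T

/-- KEY [80 lines]. The contradiction (BOX, AXU).

Proof. Copy of `key` in `Main.lean` with AXU (`C = K`, `κ = 1 / (1 + ε / c0 + T 0 1 1 0)`) instead of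
`axis_upper`. (`Main.lean` imports the tables of the old certificates; do not import it, copy
`exp_upper`, `exp_lower` into `KEYM`.) -/
def SpecKEY : Prop := ∀ (d D : ℕ) (Ω : Type) [MeasurableSpace Ω] (P : Measure Ω)
  [IsProbabilityMeasure P] (ω : Sym2 (Fin d → ℤ) → Ω → ℝ) (μ s : ℝ), D + 1 ≤ d →
  iIndepFun ω P → (∀ e, Measurable (ω e) ∧ P.map (ω e) = ex) → HasCert D μ → 0 < s →
  μ ^ 2 * d < s ^ 2 →
  ((d : ℝ) * (32544 / 10000) + (d - 1) * (3073 / 10000) - 1) * s < 59 / 50 * d →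
  ¬ ∃ c : ℝ, ∀ x : Fin d → ℤ, ∀ᵐ t ∂P, Tendsto (fun n : ℕ =>
    Tz (gridG (Fin d)) (fun e => ω e t) 0 (n • x) / n) atTop
      (𝓝 (c * Real.sqrt (∑ i, ((x i : ℝ)) ^ 2)))

/-! ## Part 4: certificates -/

/-- CHK (the author of CHK chooses the statement). A function on lists of naturals which performs the
`J` steps (rounded up) and a theorem that it produces a `Cert`.

Suggestion. `θ = th / Q`, `f a r = fn a r / Q`, `c = cn / cd`, `T = t / S` with naturals, `U = 2 D Q`,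
`E = S (1 + ε / c0)`. `a1 t m = (Q - th) 2 D t m + th (s t (m - 1) + (2 D - s) t (m + 1))`, `s = min m D`
(`= U A1 t m`). The new table is
`t' a b m = (cd X + cn Y) / (cd U^2 Q^2) + 1` (`m ≤ M`; then, from `m = M` down, the maximum with
`t' a b (m + 1)`, so that it is decreasing), where
`X = (Q - fa) (Q - fb) a1 (a1 (t a b)) + U fa (Q - fb) a1 (t (a-1) b) + U (Q - fa) fb a1 (t a (b-1)) +
U^2 fa fb t (a-1) (b-1)` at `m`, and `Y = (Q - fa)^2 th^2 2 D (E + t a a 0) + fa^2 U^2 (E + t (a-1) (a-1) 0)` for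
`a = b`, `m = 0`. Checked in each step: `X ≤ S ε ..` for `m = M + 1, M + 2` (`out`); at the end `close`. Only
the table of phase `0` and the list `f` are data. `1/p - 1 = 1 / (e^δ - 1) ≤ 1 / (δ + δ^2 / 2) ≤ c`. Write the
list functions with recursors (as `row` in `Cert.lean`) if `decide +kernel` is slow: about
`J K^2 (M + 3)` cells, `J = 40 .. 80`, `K = 5 .. 7`, `M = 8`. -/
def SpecCHKnote : Prop := True

/-- There is a certificate with a period at most `μ₀`. -/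
def HasCert' (D : ℕ) (μ₀ : ℝ) : Prop := ∃ μ, μ ≤ μ₀ ∧ HasCert D μ

/-- CR8 [table + kernel computation, optional, `d = 8`] -/
def SpecCR8 : Prop := HasCert' 7 (12276 / 100000)

/-- CR9 [table + kernel computation, `d = 9`] -/
def SpecCR9 : Prop := HasCert' 8 (11512 / 100000)

/-- CR10 [table + kernel computation, `d = 10`] -/
def SpecCR10 : Prop := HasCert' 9 (10875 / 100000)

/-- CR11 [table + kernel computation, `d = 11`] -/
def SpecCR11 : Prop := HasCert' 10 (10333 / 100000)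

/-- CR12 [table + kernel computation, `d = 12`] -/
def SpecCR12 : Prop := HasCert' 11 (9865 / 100000)

/-- CR13 [table + kernel computation, `d = 13`] -/
def SpecCR13 : Prop := HasCert' 12 (9455 / 100000)

/-- MAI [80 lines]. The dimensions 9 to 13 (KEY, CR9, .., CR13).

Proof. KEY with `d = D + 1` and `s` slightly smaller than `59/50 d / (32544/10000 d + 3073/10000 (d-1) - 1)`;
`0 ≤ μ ≤ μ₀` (`μ = J δ`). -/
def SpecMAI : Prop := ∀ (d : ℕ) (Ω : Type) [MeasurableSpace Ω] (P : Measure Ω)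
  [IsProbabilityMeasure P] (ω : Sym2 (Fin d → ℤ) → Ω → ℝ), 9 ≤ d → d ≤ 13 →
  iIndepFun ω P → (∀ e, Measurable (ω e) ∧ P.map (ω e) = ex) →
  ¬ ∃ c : ℝ, ∀ x : Fin d → ℤ, ∀ᵐ t ∂P, Tendsto (fun n : ℕ =>
    Tz (gridG (Fin d)) (fun e => ω e t) 0 (n • x) / n) atTop
      (𝓝 (c * Real.sqrt (∑ i, ((x i : ℝ)) ^ 2)))

end Pool.Agent.Lib.MP_edae2b_pr.SM
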